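import Pool.Agent.Helper85.Burn.Cone

/-!
Module BGI: bounded geodesic image, and the comparison of the two metrics (module TRANSFER).
`C2 δ (2L) L ≤ 13 L` is the projection constant of all lines.
-/

set_option autoImplicit false

namespace Pool.Agent.Helper85.Burn

variable {p : Par} {G V C : Type} [Group G] [MulAction G V] [MulAction G C] {M : GMet V}
  {S : Lines G V C M p} {M' : GMet (V ⊕ C)}

/-- the lines are quasi-lines in the sense of module PROJ -/
lemma Lines.qline (S : Lines G V C M p) (w : C) : QLine M (S.y w) (2 * p.L) p.L :=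
  ⟨S.step w, S.coll w⟩

lemma Par.bgi_δ_le (p : Par) : 1000 * p.δ ≤ p.L := by
  have h1 := p.hδ
  have h2 := p.hq
  have h3 := p.hκ
  have h4 := p.hΔ
  have h5 := p.hL
  have a1 : p.δ * 1 ≤ p.δ ^ 2 := by
    rw [pow_two]
    exact Nat.mul_le_mul_left _ (by omega)
  have a2 : 10 ^ 20 * p.δ ^ 2 * 1 ≤ 10 ^ 20 * p.δ ^ 2 * p.q := Nat.mul_le_mul_left _ (by omega)
  have a3 : p.δ ≤ p.κ := by omega
  have a4 : p.κ * 1 ≤ p.κ ^ 5 := by
    have : p.κ ^ 5 = p.κ * p.κ ^ 4 := by ring
    rw [this]
    exact Nat.mul_le_mul_left _ (Nat.one_le_pow _ _ (by omega))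
  omega

lemma Par.C2_le (p : Par) : C2 p.δ (2 * p.L) p.L ≤ 13 * p.L := by
  have h1 := p.bgi_δ_le
  have h2 := p.hδ
  unfold C2
  omega

lemma Lines.exists_near (S : Lines G V C M p) (w : C) (x : V) : ∃ i, Near M (S.y w) x i :=
  Burn.exists_near p.q (S.far w) x

namespace Coned

/-- one edge: projections of two points at distance `≤ R`.  Proof: (P4). -/
lemma proj_edge (D : Coned p G V C M S M') {w : C} {a b : V} {i j : ℤ}
    (hi : Near M (S.y w) a i) (hj : Near M (S.y w) b j) (hab : M.d a b ≤ p.R) :
    M.d (S.y w i) (S.y w j) ≤ 2 * p.R := by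
  have h1 := P4 D.hH.hyp (S.qline w) hi hj
  have h2 := p.C2_le
  have h3 : p.R = 10 ^ 6 * p.L := rfl
  omega

/-- two edges through an apex `w' ≠ w`.  Proof: (P4) twice and `overl`. -/
lemma proj_apex (D : Coned p G V C M S M') {w w' : C} (hw : w ≠ w') {a b : V} {i j : ℤ}
    (hi : Near M (S.y w) a i) (hj : Near M (S.y w) b j)
    (ha : M'.d (Sum.inl a) (Sum.inr w') = 1) (hb : M'.d (Sum.inl b) (Sum.inr w') = 1) :
    M.d (S.y w i) (S.y w j) ≤ 3 * p.R := by
  rw [D.adj] at ha hb
  obtain ⟨ia, hia⟩ : ∃ i, M.d a (S.y w' i) ≤ p.R := ha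
  obtain ⟨ib, hib⟩ : ∃ i, M.d b (S.y w' i) ≤ p.R := hb
  obtain ⟨ka, hka⟩ := S.exists_near w (S.y w' ia)
  obtain ⟨kb, hkb⟩ := S.exists_near w (S.y w' ib)
  have h1 := P4 D.hH.hyp (S.qline w) hi hka
  have h2 := P4 D.hH.hyp (S.qline w) hj hkb
  have h3 := S.overl w w' hw ia ib ka kb hka hkb
  have h4 := M.tri (S.y w i) (S.y w ka) (S.y w j)
  have h5 := M.tri (S.y w ka) (S.y w kb) (S.y w j)
  have h6 := M.symm (S.y w kb) (S.y w j)
  have h7 := p.C2_le
  have h8 : p.R = 10 ^ 6 * p.L := rfl
  omega

/-- if the projections of `a`, `b` are far apart a geodesic from `a` to `b` in the coned-off graph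
passes near `w`.
Proof: by (P2) `y w i` is near `I(a,b)` (excess `≤ C2`), hence at distance `≤ R` from a point `u` of
`I(a,b)` (take the point of `I(a,b)` at the distance `d(a, y w i)` from `a`, and (h3)), `M'.d (inl u)
(inr w) ≤ 1`; `Coned.near`. -/
lemma near_apex (D : Coned p G V C M S M') {w : C} {a b : V} {i j : ℤ}
    (hi : Near M (S.y w) a i) (hj : Near M (S.y w) b j)
    (hij : 13 * p.L < M.d (S.y w i) (S.y w j)) {m : ℕ} {α : ℕ → V ⊕ C}
    (hα : M'.Geo (Sum.inl a) (Sum.inl b) m α) : ∃ t ≤ m, M'.d (α t) (Sum.inr w) ≤ 101 := by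
  have h1 := p.C2_le
  have h2 : p.R = 10 ^ 6 * p.L := rfl
  have h3 := p.bgi_δ_le
  rcases P2 D.hH.hyp (S.qline w) hi hj with h4 | h4
  · omega
  · have h5 := M.tri (S.y w i) (S.y w j) b
    have h6 : M.d a (S.y w i) + M.d (S.y w i) b ≤ M.d a b + C2 p.δ (2 * p.L) p.L := by omega
    obtain ⟨u, hu, hud⟩ := GMet.geod_I (M := M) a b (min (M.d a (S.y w i)) (M.d a b))
      (min_le_right _ _)
    have hu' := hu
    rw [GMet.mem_I] at hu'
    have h7 := GMet.h3 D.hH.hyp (x := a) (y := b) (u := u) (v := S.y w i) (ν := 0)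
      (by omega) h6
    have h8 : |(M.d a u : ℤ) - M.d a (S.y w i)| ≤ C2 p.δ (2 * p.L) p.L := by
      rw [abs_le]
      constructor <;> omega
    push_cast at h7
    have h9 : M.d u (S.y w i) ≤ p.R := by
      have : (M.d u (S.y w i) : ℤ) ≤ p.R := by
        have h10 : ((C2 p.δ (2 * p.L) p.L : ℕ) : ℤ) ≤ 13 * p.L := by exact_mod_cast h1
        have h11 : (p.R : ℤ) = 10 ^ 6 * p.L := by exact_mod_cast h2
        omega
      exact_mod_cast this
    have h12 : M'.d (Sum.inl u) (Sum.inr w) = 1 := by
      rw [D.adj]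
      exact ⟨i, h9⟩
    obtain ⟨t, ht, htd⟩ := D.near hu hα
    refine ⟨t, ht, ?_⟩
    have h13 := M'.tri (α t) (Sum.inl u) (Sum.inr w)
    have h14 := M'.symm (α t) (Sum.inl u)
    omega

/-- moderately long paths avoiding `w` move the projection moderately -/
lemma proj_path (D : Coned p G V C M S M') {w : C} {m : ℕ} {α : ℕ → V ⊕ C}
    (hα : ∀ t < m, M'.d (α t) (α (t + 1)) = 1) (hw : ∀ t ≤ m, α t ≠ Sum.inr w) (n : ℕ) :
    ∀ (s : ℕ) (u v : V) (i j : ℤ), s + n ≤ m → α s = Sum.inl u → α (s + n) = Sum.inl v →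
      Near M (S.y w) u i → Near M (S.y w) v j →
      M.d (S.y w i) (S.y w j) ≤ 3 * p.R * (n + 1) := by
  induction n using Nat.strong_induction_on with
  | _ n ih =>
  intro s u v i j hs hu hv hi hj
  have hR : p.R = 10 ^ 6 * p.L := rfl
  have hC := p.C2_le
  rcases n with _ | n
  · rw [add_zero, hu] at hv
    have huv : u = v := Sum.inl_injective hv
    subst huv
    have h1 := P4 D.hH.hyp (S.qline w) hi hj
    rw [M.self] at h1
    omega
  · have hedge := hα s (by omega)
    rcases h : α (s + 1) with u' | w'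
    · obtain ⟨k, hk⟩ := S.exists_near w u'
      have h0 : M.d u u' ≤ p.R := by
        rw [hu, h, D.adj] at hedge
        exact hedge.2
      have h1 := D.proj_edge hi hk h0
      have h2 := ih n (by omega) (s + 1) u' v k j (by omega) h
        (by rw [← hv]; congr 1; omega) hk hj
      have h3 := M.tri (S.y w i) (S.y w k) (S.y w j)
      have e : 3 * p.R * (n + 1 + 1) = 3 * p.R * (n + 1) + 3 * p.R := by ring
      omega
    · have hww : w ≠ w' := by
        intro e
        subst e
        exact hw (s + 1) (by omega) h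
      rcases n with _ | n
      · rw [show s + (0 + 1) = s + 1 from rfl, h] at hv
        exact absurd hv (by simp)
      · have hedge2 := hα (s + 1) (by omega)
        rcases h' : α (s + 1 + 1) with u' | w''
        · obtain ⟨k, hk⟩ := S.exists_near w u'
          have e1 : M'.d (Sum.inl u) (Sum.inr w') = 1 := by rw [← hu, ← h]; exact hedge
          have e2 : M'.d (Sum.inl u') (Sum.inr w') = 1 := by
            rw [← h', ← h, M'.symm]; exact hedge2
          have h1 := D.proj_apex hww hi hk e1 e2
          have h2 := ih n (by omega) (s + 1 + 1) u' v k j (by omega) h'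
            (by rw [← hv]; congr 1; omega) hk hj
          have h3 := M.tri (S.y w i) (S.y w k) (S.y w j)
          have e : 3 * p.R * (n + 1 + 1 + 1) = 3 * p.R * (n + 1) + 3 * p.R + 3 * p.R := by ring
          omega
        · rw [h, h', D.adj] at hedge2
          exact hedge2.elim

/-- if a geodesic stays away from `w` the projection moves by at most `13 L` -/
lemma proj_far (D : Coned p G V C M S M') {w : C} {a b : V} {i j : ℤ}
    (hi : Near M (S.y w) a i) (hj : Near M (S.y w) b j) {m : ℕ} {α : ℕ → V ⊕ C}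
    (hα : M'.Geo (Sum.inl a) (Sum.inl b) m α)
    (hfar : ∀ t ≤ m, 101 < M'.d (α t) (Sum.inr w)) :
    M.d (S.y w i) (S.y w j) ≤ 13 * p.L := by
  by_contra hcon
  push Not at hcon
  obtain ⟨t, ht, htd⟩ := D.near_apex hi hj hcon hα
  have := hfar t ht
  omega

/-- no two apices are adjacent -/
lemma apex_adj (D : Coned p G V C M S M') {m : ℕ} {α : ℕ → V ⊕ C}
    (hα : ∀ t < m, M'.d (α t) (α (t + 1)) = 1) {t : ℕ} (ht : t < m) :
    (∃ u, α t = Sum.inl u) ∨ ∃ u, α (t + 1) = Sum.inl u := by
  have h := hα t ht
  rcases h1 : α t with u | w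
  · exact Or.inl ⟨u, rfl⟩
  · rcases h2 : α (t + 1) with u | w'
    · exact Or.inr ⟨u, rfl⟩
    · rw [h1, h2, D.adj] at h
      exact h.elim

/-- **bounded geodesic image**.
Proof.  Call the indices `t` with `α t ∈ V` good; consecutive good indices differ by `1` or `2`, and
the projections of the corresponding points differ by at most `3R` (`proj_edge`, `proj_apex`).  Let
`s_0 = 0` and let `s_{k+1}` be the first good index after `s_k` such that the projections of `α s_k`
and `α s_{k+1}` are at distance `> 13 L`; then they are at distance `≤ 4R`.  If `s_0, …, s_N` are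
defined (and `s_{N+1}` is not) then `d(y w i, y w j) ≤ 4 R (N + 1)`.  By `near_apex` there is
`t_k ∈ [s_k, s_{k+1}]` with `M'.d (α t_k) w ≤ 101`; so `t_{N-1} - t_0 ≤ 202`, and `t_k < t_{k+2}`, so
`N ≤ 410`.  Hence `d(y w i, y w j) < 5000 R`.
(Formally: by strong induction on `b`: for good `a ≤ b`, such that every `t ∈ [a,b]` with
`M'.d (α t) w ≤ 101` is at least `e` after `a`... or directly with the sequence.) -/
theorem bgi (D : Coned p G V C M S M') {w : C} {a b : V} {i j : ℤ}
    (hi : Near M (S.y w) a i) (hj : Near M (S.y w) b j) {m : ℕ} {α : ℕ → V ⊕ C}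
    (hα : M'.Geo (Sum.inl a) (Sum.inl b) m α) (hw : ∀ t ≤ m, α t ≠ Sum.inr w) :
    M.d (S.y w i) (S.y w j) < p.P0 := by
  classical
  obtain ⟨h0, hm, hd, hgeo⟩ := id hα
  have hR : p.R = 10 ^ 6 * p.L := rfl
  have hP0 : p.P0 = 5000 * p.R := rfl
  have hL : 0 < p.L := by
    have h1 := p.bgi_δ_le
    have h2 := p.hδ
    omega
  have hadj : ∀ t < m, M'.d (α t) (α (t + 1)) = 1 := by
    intro t ht
    have := hgeo t (t + 1) (by omega) (by omega)
    omega
  by_cases hT : ∃ t, t ≤ m ∧ M'.d (α t) (Sum.inr w) ≤ 101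
  · have hT' : ∃ t, t ≤ m ∧ M'.d (α (m - t)) (Sum.inr w) ≤ 101 := by
      obtain ⟨t, ht, htd⟩ := hT
      exact ⟨m - t, by omega, by rw [show m - (m - t) = t by omega]; exact htd⟩
    obtain ⟨t1, ht1⟩ : ∃ t1, t1 = Nat.find hT := ⟨_, rfl⟩
    obtain ⟨t2, ht2⟩ : ∃ t2, t2 = Nat.find hT' := ⟨_, rfl⟩
    have a1 := Nat.find_spec hT
    have a2 := Nat.find_spec hT'
    rw [← ht1] at a1
    rw [← ht2] at a2
    have b1 : ∀ t < t1, 101 < M'.d (α t) (Sum.inr w) := by
      intro t ht
      have h := Nat.find_min hT (m := t) (by omega)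
      by_contra hc
      exact h ⟨by omega, by omega⟩
    have b2 : ∀ t ≤ m, m - t2 < t → 101 < M'.d (α t) (Sum.inr w) := by
      intro t ht ht'
      have h := Nat.find_min hT' (m := m - t) (by omega)
      by_contra hc
      exact h ⟨by omega, by rw [show m - (m - t) = t by omega]; omega⟩
    have c1 : t1 ≤ m - t2 := by
      by_contra hc
      have := b2 t1 a1.1 (by omega)
      omega
    have c2 : m - t2 ≤ t1 + 202 := by
      have e1 := hgeo t1 (m - t2) c1 (by omega)
      have e2 := M'.tri (α t1) (Sum.inr w) (α (m - t2))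
      have e3 := M'.symm (Sum.inr w) (α (m - t2))
      omega
    -- good index before `t1`
    have d1 : ∃ s u, s ≤ t1 ∧ t1 ≤ s + 2 ∧ α s = Sum.inl u ∧
        (s = 0 ∨ s < t1) := by
      rcases Nat.eq_zero_or_pos t1 with h1 | h1
      · exact ⟨0, a, by omega, by omega, h0, Or.inl rfl⟩
      · rcases Nat.lt_or_ge t1 2 with h2 | h2
        · exact ⟨0, a, by omega, by omega, h0, Or.inl rfl⟩
        · rcases D.apex_adj hadj (t := t1 - 2) (by omega) with ⟨u, hu⟩ | ⟨u, hu⟩
          · exact ⟨t1 - 2, u, by omega, by omega, hu, Or.inr (by omega)⟩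
          · exact ⟨t1 - 2 + 1, u, by omega, by omega, hu, Or.inr (by omega)⟩
    have d2 : ∃ s u, s ≤ m ∧ m - t2 ≤ s ∧ s ≤ m - t2 + 2 ∧ α s = Sum.inl u ∧
        (s = m ∨ m - t2 < s) := by
      rcases Nat.lt_or_ge (m - t2 + 1) m with h2 | h2
      · rcases D.apex_adj hadj (t := m - t2 + 1) h2 with ⟨u, hu⟩ | ⟨u, hu⟩
        · exact ⟨m - t2 + 1, u, by omega, by omega, by omega, hu, Or.inr (by omega)⟩
        · exact ⟨m - t2 + 1 + 1, u, by omega, by omega, by omega, hu, Or.inr (by omega)⟩
      · exact ⟨m, b, by omega, by omega, by omega, hm, Or.inl rfl⟩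
    obtain ⟨s1, u1, e1, e2, e3, e4⟩ := d1
    obtain ⟨s2, u2, f0, f1, f2, f3, f4⟩ := d2
    obtain ⟨k1, hk1⟩ := S.exists_near w u1
    obtain ⟨k2, hk2⟩ := S.exists_near w u2
    have g1 : M.d (S.y w i) (S.y w k1) ≤ 13 * p.L := by
      rcases e4 with e4 | e4
      · subst e4
        rw [h0] at e3
        have : a = u1 := Sum.inl_injective e3
        subst this
        have h1 := P4 D.hH.hyp (S.qline w) hi hk1
        have h2 := p.C2_le
        rw [M.self] at h1
        omega
      · have hsub := hα.sub (i := 0) (j := s1) (by omega) (by omega)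
        simp only [Nat.sub_zero, Nat.zero_add, h0, e3] at hsub
        exact D.proj_far hi hk1 hsub (fun t ht => b1 t (by omega))
    have g2 : M.d (S.y w k2) (S.y w j) ≤ 13 * p.L := by
      rcases f4 with f4 | f4
      · subst f4
        rw [hm] at f3
        have : b = u2 := Sum.inl_injective f3
        subst this
        have h1 := P4 D.hH.hyp (S.qline w) hk2 hj
        have h2 := p.C2_le
        rw [M.self] at h1
        omega
      · have hsub := hα.sub (i := s2) (j := m) (by omega) le_rfl
        rw [hm, f3] at hsub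
        exact D.proj_far hk2 hj hsub (fun t ht => b2 (s2 + t) (by omega) (by omega))
    have g3 := D.proj_path hadj hw (s2 - s1) s1 u1 u2 k1 k2 (by omega) e3
      (by rw [show s1 + (s2 - s1) = s2 by omega]; exact f3) hk1 hk2
    have g4 : 3 * p.R * (s2 - s1 + 1) ≤ 3 * p.R * 207 := Nat.mul_le_mul_left _ (by omega)
    have g5 := M.tri (S.y w i) (S.y w k1) (S.y w j)
    have g6 := M.tri (S.y w k1) (S.y w k2) (S.y w j)
    omega
  · push Not at hT
    have := D.proj_far hi hj hα hT
    omega

/-- (TRANSFER) if all projections of `a` and `b` are within `E` the two metrics are comparable.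
Proof.  `α` geodesic of `M'` from `a` to `b`; by strong induction on `t`: if `α t = inl u` then
`d(a,u) ≤ (2R + E + 2 P0) t`.  If `α (t-1) ∈ V` the edge has length `≤ R`.  If `α (t-1) = inr w` then
`α (t-2) = inl u'`, and by `bgi` for the parts of `α` from `a` to `u'` and from `u` to `b` (which avoid
`w`) the projections of `u'`, `u` to the line of `w` are within `E + 2 P0`; `u`, `u'` are within `R` of
the line; nearest points realise the distance to the line. -/
theorem transfer (D : Coned p G V C M S M') {a b : V} {E : ℕ}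
    (hE : ∀ w i j, Near M (S.y w) a i → Near M (S.y w) b j → M.d (S.y w i) (S.y w j) ≤ E) :
    M.d a b ≤ (2 * p.R + E + 2 * p.P0) * M'.d (Sum.inl a) (Sum.inl b) := by
  obtain ⟨α, hα⟩ := GMet.exists_geo M' (Sum.inl a : V ⊕ C) (Sum.inl b)
  obtain ⟨m, hm'⟩ : ∃ m, M'.d (Sum.inl a) (Sum.inl b) = m := ⟨_, rfl⟩
  rw [hm'] at hα ⊢
  obtain ⟨h0, hm, hd, hgeo⟩ := id hα
  obtain ⟨B, hB⟩ : ∃ B, B = 2 * p.R + E + 2 * p.P0 := ⟨_, rfl⟩
  rw [← hB]
  have hadj : ∀ t < m, M'.d (α t) (α (t + 1)) = 1 := by
    intro t ht
    have := hgeo t (t + 1) (by omega) (by omega)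
    omega
  have key : ∀ t ≤ m, ∀ u, α t = Sum.inl u → M.d a u ≤ B * t := by
    intro t
    induction t using Nat.strong_induction_on with
    | _ t ih =>
    intro ht u hu
    rcases t with _ | t
    · rw [h0] at hu
      have : a = u := Sum.inl_injective hu
      subst this
      rw [M.self]
      omega
    · have hedge := hadj t (by omega)
      rcases h : α t with u' | w
      · rw [h, hu, D.adj] at hedge
        have h1 : M.d u' u ≤ p.R := hedge.2
        have h2 := ih t (by omega) (by omega) u' h
        have h3 := M.tri a u' u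
        have e : B * (t + 1) = B * t + B := by ring
        omega
      · rcases t with _ | t
        · rw [h0] at h
          exact absurd h (by simp)
        · have hedge2 := hadj t (by omega)
          rcases h' : α t with u' | w'
          · have c1 : ∃ i, M.d u (S.y w i) ≤ p.R := by
              rw [h, hu, D.adj] at hedge
              exact hedge
            have c2 : ∃ i, M.d u' (S.y w i) ≤ p.R := by
              rw [h, h', D.adj] at hedge2
              exact hedge2
            obtain ⟨i1, hi1⟩ := c1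
            obtain ⟨i2, hi2⟩ := c2
            obtain ⟨k, hk⟩ := S.exists_near w u
            obtain ⟨k', hk'⟩ := S.exists_near w u'
            obtain ⟨ia, hia⟩ := S.exists_near w a
            obtain ⟨ib, hib⟩ := S.exists_near w b
            have d1 := hk i1
            have d2 := hk' i2
            have d3 := hE w ia ib hia hib
            have hne : ∀ t' ≤ m, t' ≠ t + 1 → α t' ≠ Sum.inr w := by
              intro t' ht' hne he
              rcases le_total t' (t + 1) with h5 | h5
              · have := hgeo t' (t + 1) h5 (by omega)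
                rw [he, h, M'.self] at this
                omega
              · have := hgeo (t + 1) t' h5 ht'
                rw [he, h, M'.self] at this
                omega
            have s1 := hα.sub (i := 0) (j := t) (by omega) (by omega)
            simp only [Nat.sub_zero, Nat.zero_add, h0, h'] at s1
            have s2 := hα.sub (i := t + 1 + 1) (j := m) (by omega) le_rfl
            rw [hm, hu] at s2
            have d4 := D.bgi hia hk' s1 (fun t' ht' => hne t' (by omega) (by omega))
            have d5 := D.bgi hk hib s2 (fun t' ht' => hne _ (by omega) (by omega))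
            have d6 := M.tri (S.y w k') (S.y w ia) (S.y w k)
            have d7 := M.tri (S.y w ia) (S.y w ib) (S.y w k)
            have d8 := M.symm (S.y w k') (S.y w ia)
            have d9 := M.symm (S.y w ib) (S.y w k)
            have d10 := M.tri u' (S.y w k') u
            have d11 := M.tri (S.y w k') (S.y w k) u
            have d12 := M.symm (S.y w k) u
            have d13 := ih t (by omega) (by omega) u' h'
            have d14 := M.tri a u' u
            have e : B * (t + 1 + 1) = B * t + B + B := by ring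
            omega
          · rw [h, h', D.adj] at hedge2
            exact hedge2.elim
  exact key m le_rfl b hm

end Coned

end Pool.Agent.Helper85.Burn
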