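import Pool.Agent.Helper85.Burn.Defs

/-!
Module BASIC: intervals, separation, elementary hyperbolic geometry (only the four point condition
and linear arithmetic).
-/

set_option autoImplicit false

namespace Pool.Agent.Helper85.Burn

namespace GMet

variable {V : Type} {M : GMet V}

lemma mem_I {x y z : V} : z ∈ M.I x y ↔ M.d x z + M.d z y = M.d x y := Iff.rfl

lemma left_mem_I (x y : V) : x ∈ M.I x y := by simp [mem_I, M.self]

lemma right_mem_I (x y : V) : y ∈ M.I x y := by simp [mem_I, M.self]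

lemma I_symm (x y : V) : M.I x y = M.I y x := by
  ext z
  simp only [mem_I]
  rw [M.symm x z, M.symm z y, M.symm x y, add_comm]

/-- `z ∈ I(x,y)`, `t ∈ I(z,y)` implies `t ∈ I(x,y)`, `z ∈ I(x,t)`. -/
lemma I_trans {x y z t : V} (hz : z ∈ M.I x y) (ht : t ∈ M.I z y) :
    t ∈ M.I x y ∧ z ∈ M.I x t ∧ M.d x t = M.d x z + M.d z t := by
  simp only [mem_I] at *
  have h1 := M.tri x z t
  have h2 := M.tri x t y
  omega

lemma geod_I (x y : V) (i : ℕ) (h : i ≤ M.d x y) : ∃ z ∈ M.I x y, M.d x z = i := by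
  obtain ⟨z, h1, h2⟩ := M.geod x y i h
  exact ⟨z, by simp only [mem_I]; omega, h1⟩

lemma Sep.symm {w x y : V} (h : M.Sep w x y) : M.Sep w y x := by
  obtain ⟨h1, h2⟩ := h
  refine ⟨by rw [I_symm]; exact h1, fun z hz hzd => h2 z (by rw [I_symm]; exact hz) ?_⟩
  simp only [mem_I] at *
  rw [M.symm y z, M.symm y x, M.symm z x] at hz
  rw [M.symm y z, M.symm y w] at hzd
  omega

/-- If every geodesic from `x` to `y` passes through `w` and `z ∈ I(x,y)` is not after `w`, then
`z ∈ I(x,w)`, and every geodesic from `z` to `y` passes through `w`.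
Proof: take `v ∈ I(z,y)` with `d(z,v) = d(x,w) - d(x,z)`; then `v ∈ I(x,y)` and `d(x,v) = d(x,w)`,
so `v = w`. -/
lemma Sep.left {w x y z : V} (h : M.Sep w x y) (hz : z ∈ M.I x y) (hzw : M.d x z ≤ M.d x w) :
    z ∈ M.I x w ∧ M.Sep w z y := by
  obtain ⟨h1, h2⟩ := h
  simp only [GMet.mem_I] at h1 h2 hz
  have hle : M.d x w - M.d x z ≤ M.d z y := by omega
  obtain ⟨v, hv, hvd⟩ := geod_I (M := M) z y _ hle
  have h3 := I_trans (M := M) (x := x) (y := y) (z := z) (t := v) (by rw [mem_I]; exact hz) hv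
  have h4 : v = w := h2 v h3.1 (by rw [h3.2.2, hvd]; omega)
  subst h4
  refine ⟨h3.2.1, hv, ?_⟩
  intro v' hv' hvd'
  have h5 := I_trans (M := M) (x := x) (y := y) (z := z) (t := v') (by rw [mem_I]; exact hz) hv'
  exact h2 v' h5.1 (by rw [h5.2.2, hvd', h3.2.2])

lemma Sep.right {w x y z : V} (h : M.Sep w x y) (hz : z ∈ M.I x y) (hzw : M.d x w ≤ M.d x z) :
    z ∈ M.I w y ∧ M.Sep w x z := by
  have h1 := h.1
  simp only [GMet.mem_I] at h1
  have hz1 := hz
  simp only [GMet.mem_I] at hz1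
  have h2 := Sep.left h.symm (z := z) (by rw [I_symm]; exact hz)
    (by rw [M.symm y z, M.symm y w]; omega)
  exact ⟨by rw [I_symm]; exact h2.1, h2.2.symm⟩

/-- geodesics exist -/
lemma exists_geo (M : GMet V) (x y : V) : ∃ α, M.Geo x y (M.d x y) α := by
  obtain ⟨m, hm⟩ : ∃ m, M.d x y = m := ⟨_, rfl⟩
  rw [hm]
  induction m generalizing x with
  | zero =>
    have hxy := M.eq_of x y hm
    subst hxy
    refine ⟨fun _ => x, rfl, rfl, hm, ?_⟩
    intro i j _ _
    show M.d x x = j - i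
    rw [M.self]
    omega
  | succ m ih =>
    obtain ⟨z, hz1, hz2⟩ := M.geod x y 1 (by omega)
    obtain ⟨β, hβ0, hβm, hβd, hβ⟩ := ih z (by omega)
    refine ⟨fun i => match i with | 0 => x | i + 1 => β i, rfl, hβm, hm, ?_⟩
    intro i j hij hj
    rcases i with _ | i
    · rcases j with _ | j
      · show M.d x x = 0 - 0
        rw [M.self]
      · show M.d x (β j) = j + 1 - 0
        have h1 := hβ 0 j (by omega) (by omega)
        have h2 := hβ j m (by omega) (by omega)
        rw [hβ0] at h1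
        rw [hβm] at h2
        have h3 := M.tri x z (β j)
        have h4 := M.tri x (β j) y
        omega
    · rcases j with _ | j
      · omega
      · show M.d (β i) (β j) = j + 1 - (i + 1)
        have h1 := hβ i j (by omega) (by omega)
        omega

/-- geodesics through a given point of the interval exist -/
lemma exists_geo_through {x y z : V} (hz : z ∈ M.I x y) :
    ∃ α, M.Geo x y (M.d x y) α ∧ α (M.d x z) = z := by
  obtain ⟨β, hβ0, hβm, hβd, hβ⟩ := exists_geo M x z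
  obtain ⟨γ, hγ0, hγm, hγd, hγ⟩ := exists_geo M z y
  rw [mem_I] at hz
  refine ⟨fun i => if i ≤ M.d x z then β i else γ (i - M.d x z), ⟨?_, ?_, rfl, ?_⟩, ?_⟩
  · simp only [Nat.zero_le, if_true]
    exact hβ0
  · by_cases h : M.d x y ≤ M.d x z
    · have h1 : M.d z y = 0 := by omega
      have h2 := M.eq_of z y h1
      have h3 : M.d x y = M.d x z := by omega
      simp only [h, if_true]
      rw [h3, hβm, h2]
    · simp only [h, if_false]
      have h3 : M.d x y - M.d x z = M.d z y := by omega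
      rw [h3, hγm]
  · intro i j hij hj
    by_cases h1 : j ≤ M.d x z
    · have h2 : i ≤ M.d x z := by omega
      simp only [h1, h2, if_true]
      exact hβ i j hij h1
    · by_cases h2 : i ≤ M.d x z
      · simp only [h1, h2, if_true, if_false]
        have e1 := hβ 0 i (by omega) h2
        have e2 := hβ i _ h2 le_rfl
        have e3 := hγ 0 (j - M.d x z) (by omega) (by omega)
        have e4 := hγ (j - M.d x z) _ (by omega) le_rfl
        rw [hβ0] at e1
        rw [hβm] at e2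
        rw [hγ0] at e3
        rw [hγm] at e4
        have e5 := M.tri (β i) z (γ (j - M.d x z))
        have e6 := M.tri x (β i) y
        have e7 := M.tri (β i) (γ (j - M.d x z)) y
        omega
      · simp only [h1, h2, if_false]
        have e1 := hγ (i - M.d x z) (j - M.d x z) (by omega) (by omega)
        rw [e1]
        omega
  · simp only [le_refl, if_true]
    exact hβm

lemma Geo.mem_I {x y : V} {m : ℕ} {α : ℕ → V} (h : M.Geo x y m α) {i : ℕ} (hi : i ≤ m) :
    α i ∈ M.I x y ∧ M.d x (α i) = i ∧ M.d (α i) y = m - i := by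
  obtain ⟨h0, hm, hd, h⟩ := h
  have h1 := h 0 i (by omega) hi
  have h2 := h i m hi le_rfl
  rw [h0] at h1
  rw [hm] at h2
  refine ⟨?_, by omega, h2⟩
  rw [GMet.mem_I]
  omega

/-- sub-geodesics -/
lemma Geo.sub {x y : V} {m : ℕ} {α : ℕ → V} (h : M.Geo x y m α) {i j : ℕ} (hij : i ≤ j)
    (hj : j ≤ m) : M.Geo (α i) (α j) (j - i) (fun s => α (i + s)) := by
  obtain ⟨h0, hm, hd, h⟩ := h
  refine ⟨by simp, by simp only; congr 1; omega, h i j hij hj, ?_⟩
  intro a b hab hb
  have h1 := h (i + a) (i + b) (by omega) (by omega)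
  show M.d (α (i + a)) (α (i + b)) = b - a
  omega

/-! ### Hyperbolic geometry.  The excess `d(x,u)+d(u,y)-d(x,y)` is always handled by inequalities
`d x u + d u y ≤ d x y + ν`. -/

variable {δ : ℕ}

/-- (h1) distance from a point `u` near `I(x,y)` to `z`. -/
lemma h1 (hM : M.Hyp4 δ) {x y u : V} {ν : ℕ} (hu : M.d x u + M.d u y ≤ M.d x y + ν) (z : V) :
    M.d u y + M.d u z ≤ M.d y z + ν + 2 * δ ∨ M.d x u + M.d u z ≤ M.d x z + ν + 2 * δ := by
  have h := hM x y u z
  rcases le_total (M.d x u + M.d y z) (M.d x z + M.d y u) with h' | h'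
  · rw [max_eq_right h'] at h
    right
    rw [M.symm y u] at h
    omega
  · rw [max_eq_left h'] at h
    left
    omega

/-- (h3) two points near `I(x,y)` are at distance the difference of their positions, up to an
error.  Proof: (h1) for `u` and `z = v`. -/
lemma h3 (hM : M.Hyp4 δ) {x y u v : V} {ν ν' : ℕ} (hu : M.d x u + M.d u y ≤ M.d x y + ν)
    (hv : M.d x v + M.d v y ≤ M.d x y + ν') :
    (M.d u v : ℤ) ≤ |(M.d x u : ℤ) - M.d x v| + ν + ν' + 2 * δ := by
  have h := h1 hM hu v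
  have e1 := M.tri x u y
  have e2 := M.symm y v
  have e3 := neg_abs_le ((M.d x u : ℤ) - M.d x v)
  have e4 := le_abs_self ((M.d x u : ℤ) - M.d x v)
  rcases h with h | h
  · omega
  · omega

/-- thin triangles.  Proof: if `2 d(x,p) ≤ d(x,y) + d(x,z) - d(y,z)` take `q ∈ I(x,z)` with
`d(x,q) = d(x,p)` and use (h1) twice; otherwise symmetric. -/
lemma thin (hM : M.Hyp4 δ) {x y p : V} (hp : p ∈ M.I x y) (z : V) :
    ∃ q, (q ∈ M.I x z ∨ q ∈ M.I z y) ∧ M.d p q ≤ 4 * δ := by
  rw [mem_I] at hp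
  have key : ∀ x y : V, M.d x p + M.d p y = M.d x y →
      2 * M.d x p + M.d y z ≤ M.d x y + M.d x z → ∃ q, q ∈ M.I x z ∧ M.d p q ≤ 4 * δ := by
    intro x y hp hle
    have e0 := M.tri x z y
    have e0' := M.symm z y
    obtain ⟨q, hq, hqd⟩ := geod_I (M := M) x z (M.d x p) (by omega)
    refine ⟨q, hq, ?_⟩
    rw [mem_I] at hq
    have h := h1 hM (x := x) (y := z) (u := q) (ν := 0) (by omega) y
    have hqy : M.d x q + M.d q y ≤ M.d x y + 2 * δ := by
      rcases h with h | h <;> omega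
    have h3' := h3 hM (x := x) (y := y) (u := p) (v := q) (ν := 0) (ν' := 2 * δ) (by omega) hqy
    rw [hqd] at h3'
    simp only [sub_self, abs_zero] at h3'
    push_cast at h3'
    omega
  rcases le_total (2 * M.d x p + M.d y z) (M.d x y + M.d x z) with h | h
  · obtain ⟨q, hq, hqd⟩ := key x y hp h
    exact ⟨q, Or.inl hq, hqd⟩
  · have e1 := M.symm x y
    have e2 := M.symm x p
    have e3 := M.symm p y
    obtain ⟨q, hq, hqd⟩ := key y x (by omega) (by omega)
    exact ⟨q, Or.inr (by rw [I_symm]; exact hq), hqd⟩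

end GMet

section act

variable {G V : Type} [Group G] [MulAction G V] {M : GMet V} {δ : ℕ}

/-- (D.1) The shift lemma.  Let `g` move `x` and `y` by at most `T`, `τ = d(x, g y) - d(x,y)`.  If
`u` is near `I(x,y)` (excess `≤ ν`) and not close to the ends, then `g u` is near `I(x,y)`, its
position is the position of `u` plus `τ`, up to an error.
Proof: `gu` is near `I(gx,gy)`.  (h1) with `z = x`: the second alternative gives
`d(x,u) ≤ T + ν + 2δ`, excluded; so `d(x,gu) ≤ d(x,y) + τ - d(u,y) + ν + 2δ`.  (h1) with `z = y`: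
`d(gu,y) ≤ d(y,gx) - d(x,u) + ν + 2δ`, and `d(x,gy) + d(y,gx) ≤ 2 d(x,y) + 2δ` by the four point
condition. -/
lemma shift (hM : M.Hyp4 δ) (hG : M.Isom G) {x y u : V} {g : G} {T ν : ℕ} {τ : ℤ}
    (hτ : τ = (M.d x (g • y) : ℤ) - M.d x y)
    (hx : M.d x (g • x) ≤ T) (hy : M.d y (g • y) ≤ T) (hT : T ≤ M.d x y)
    (hu : M.d x u + M.d u y ≤ M.d x y + ν)
    (hxu : T + ν + 2 * δ < M.d x u) (huy : T + ν + 2 * δ < M.d u y) :
    M.d x (g • u) + M.d (g • u) y ≤ M.d x y + (2 * ν + 6 * δ) ∧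
    |(M.d x (g • u) : ℤ) - M.d x u - τ| ≤ 2 * ν + 4 * δ ∧
    (M.d u (g • u) : ℤ) ≤ |τ| + 5 * ν + 12 * δ ∧ |τ| ≤ M.d u (g • u) + 2 * ν + 4 * δ ∧
    |τ| ≤ T := by
  have i1 := hG g x u
  have i2 := hG g u y
  have i3 := hG g x y
  have a1 := GMet.h1 hM (x := g • x) (y := g • y) (u := g • u) (ν := ν) (by omega) x
  have a2 := GMet.h1 hM (x := g • x) (y := g • y) (u := g • u) (ν := ν) (by omega) y
  have a3 := hM x (g • y) (g • x) y
  have s1 := M.symm (g • u) x
  have s2 := M.symm (g • y) x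
  have s3 := M.symm (g • x) x
  have s4 := M.symm (g • y) y
  have s5 := M.symm (g • y) (g • x)
  have b1 : M.d u y + M.d x (g • u) ≤ M.d x (g • y) + ν + 2 * δ := by
    rcases a1 with a1 | a1 <;> omega
  have b2 : M.d x u + M.d (g • u) y ≤ M.d (g • x) y + ν + 2 * δ := by
    rcases a2 with a2 | a2 <;> omega
  have b3 : M.d x (g • y) + M.d (g • x) y ≤ 2 * M.d x y + 2 * δ := by
    rcases le_total (M.d x (g • x) + M.d (g • y) y) (M.d x y + M.d (g • y) (g • x)) with h | h
    · rw [max_eq_right h] at a3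
      omega
    · rw [max_eq_left h] at a3
      omega
  have t1 := M.tri x u y
  have t2 := M.tri x (g • u) y
  have c1 : M.d x (g • u) + M.d (g • u) y ≤ M.d x y + (2 * ν + 6 * δ) := by omega
  have c2 : |(M.d x (g • u) : ℤ) - M.d x u - τ| ≤ ν + 4 * δ := by
    rw [abs_le]
    constructor <;> omega
  have c2' := abs_le.mp c2
  refine ⟨c1, by omega, ?_, ?_, ?_⟩
  · have h := GMet.h3 hM hu c1
    have h4 : |(M.d x u : ℤ) - M.d x (g • u)| ≤ |τ| + ν + 4 * δ := by
      have e1 := neg_abs_le τ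
      have e2 := le_abs_self τ
      rw [abs_le]
      constructor <;> omega
    push_cast at h
    omega
  · have t3 := M.tri x u (g • u)
    have t4 := M.tri x (g • u) u
    have t5 := M.symm (g • u) u
    rw [abs_le]
    constructor <;> omega
  · have t3 := M.tri x y (g • y)
    have t4 := M.tri x (g • y) y
    rw [abs_le]
    constructor <;> omega

/-- chain lemma for the orbit of an isometry: if `ℓ = d(x,gx)`, `d(x,g²x) ≥ 2ℓ - a` and
`ℓ > a + 4δ`, then the orbit is a quasi-geodesic.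
Proof: `d(z_0,z_{m+1}) ≥ d(z_0,z_m) + ℓ - a - 2δ` by induction (four points
`z_0, z_m, z_{m-1}, z_{m+1}`); then the four points `z_i, z_{j+1}, z_j, z_l`. -/
lemma chain (hM : M.Hyp4 δ) (hG : M.Isom G) {x : V} {g : G} {a : ℕ}
    (h2 : 2 * M.d x (g • x) ≤ M.d x (g ^ 2 • x) + a) (ha : a + 4 * δ < M.d x (g • x)) :
    (∀ m : ℕ, m * (M.d x (g • x) - a - 2 * δ) ≤ M.d x (g ^ m • x)) ∧
    ∀ i j l : ℤ, i ≤ j → j ≤ l → M.d (g ^ i • x) (g ^ j • x) + M.d (g ^ j • x) (g ^ l • x) ≤
      M.d (g ^ i • x) (g ^ l • x) + (a + 4 * δ) := by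
  obtain ⟨ℓ, hℓ⟩ : ∃ ℓ, M.d x (g • x) = ℓ := ⟨_, rfl⟩
  have hD : ∀ (i : ℤ) (m : ℕ), M.d (g ^ i • x) (g ^ (i + m) • x) = M.d x (g ^ m • x) := by
    intro i m
    rw [zpow_add, mul_smul, hG, zpow_natCast]
  have hDn : ∀ (i m : ℕ), M.d (g ^ i • x) (g ^ (i + m) • x) = M.d x (g ^ m • x) := by
    intro i m
    rw [pow_add, mul_smul, hG]
  have hs : ∀ i : ℕ, M.d (g ^ i • x) (g ^ (i + 1) • x) = ℓ := by
    intro i
    rw [hDn i 1, pow_one, hℓ]
  have hstep : ∀ m : ℕ, M.d x (g ^ m • x) + ℓ ≤ M.d x (g ^ (m + 1) • x) + a + 2 * δ := by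
    intro m
    induction m with
    | zero =>
      simp only [pow_zero, one_smul, M.self, zero_add, pow_one]
      omega
    | succ m ih =>
      have h4 := hM x (g ^ (m + 1) • x) (g ^ m • x) (g ^ (m + 2) • x)
      have e1 := hDn m 2
      have e2 := hs m
      have e3 := hs (m + 1)
      have e4 := M.symm (g ^ (m + 1) • x) (g ^ m • x)
      have e5 : m + 1 + 1 = m + 2 := rfl
      rw [e5] at e3 ⊢
      rcases le_total (M.d x (g ^ m • x) + M.d (g ^ (m + 1) • x) (g ^ (m + 2) • x))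
        (M.d x (g ^ (m + 2) • x) + M.d (g ^ (m + 1) • x) (g ^ m • x)) with h | h
      · rw [max_eq_right h] at h4
        omega
      · rw [max_eq_left h] at h4
        omega
  refine ⟨?_, ?_⟩
  · intro m
    induction m with
    | zero => simp
    | succ m ih =>
      have h := hstep m
      rw [hℓ] at ih ⊢
      have e : (m + 1) * (ℓ - a - 2 * δ) = m * (ℓ - a - 2 * δ) + (ℓ - a - 2 * δ) := by ring
      rw [e]
      omega
  · intro i j l hij hjl
    obtain ⟨s, rfl⟩ := Int.exists_add_of_le hij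
    obtain ⟨t, rfl⟩ := Int.exists_add_of_le hjl
    have e0 : i + (s : ℤ) + t = i + ((s + t : ℕ) : ℤ) := by push_cast; ring
    rw [hD i s, hD (i + s) t, e0, hD i (s + t)]
    rcases t with _ | t
    · simp [M.self]
    · have h4 := hM x (g ^ (s + 1) • x) (g ^ s • x) (g ^ (s + (t + 1)) • x)
      have e1 := hDn s (t + 1)
      have e2 := hs s
      have e3 := hDn (s + 1) t
      have e4 := M.symm (g ^ (s + 1) • x) (g ^ s • x)
      have e5 : s + 1 + t = s + (t + 1) := by ring
      rw [e5] at e3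
      have h5 := hstep s
      have h6 := hstep t
      rcases le_total (M.d x (g ^ s • x) + M.d (g ^ (s + 1) • x) (g ^ (s + (t + 1)) • x))
        (M.d x (g ^ (s + (t + 1)) • x) + M.d (g ^ (s + 1) • x) (g ^ s • x)) with h | h
      · rw [max_eq_right h] at h4
        omega
      · rw [max_eq_left h] at h4
        omega

/-- minimal displacement.  Proof: let `p` be the midpoint of `I(x,gx)`; `d(p,gp) ≥ ℓ` and (h1) twice
(for `p ∈ I(x,gx)` and for `gp ∈ I(gx,g²x)`). -/
lemma min_disp (hM : M.Hyp4 δ) (hG : M.Isom G) {x : V} {g : G}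
    (hmin : ∀ z, M.d x (g • x) ≤ M.d z (g • z)) (hℓ : 10 * δ < M.d x (g • x)) (hδ : 1 ≤ δ) :
    2 * M.d x (g • x) ≤ M.d x (g ^ 2 • x) + 4 * δ := by
  obtain ⟨ℓ, hℓ'⟩ : ∃ ℓ, M.d x (g • x) = ℓ := ⟨_, rfl⟩
  obtain ⟨p, hp, hpd⟩ := GMet.geod_I (M := M) x (g • x) (ℓ / 2) (by omega)
  rw [GMet.mem_I] at hp
  have e1 := hG g x p
  have e2 := hG g p (g • x)
  have e3 : g • g • x = g ^ 2 • x := by rw [pow_two, mul_smul]
  rw [e3] at e2
  have e4 := hmin p
  have e5 := hG g x (g • x)
  rw [e3] at e5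
  have a1 := GMet.h1 hM (x := x) (y := g • x) (u := p) (ν := 0) (by omega) (g • p)
  have a2 := GMet.h1 hM (x := g • x) (y := g ^ 2 • x) (u := g • p) (ν := 0) (by omega) x
  have s1 := M.symm (g • p) x
  have s2 := M.symm (g ^ 2 • x) x
  have s3 := M.symm (g • x) x
  rcases a1 with a1 | a1
  · omega
  · rcases a2 with a2 | a2 <;> omega

end act

end Pool.Agent.Helper85.Burn
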