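import Pool.Agent.Helper85.Burn.Basic

/-!
Cyclic rotation structures: the angles at `w` are integers modulo `n w`.  This is the structure which
the quotient of a rotation structure carries.  Lemmas which only use this structure.
-/

set_option autoImplicit false

namespace Pool.Agent.Helper85.Burn

/-- distance of the integer `a` to the nearest multiple of `n` -/
def zabs (n : ℕ) (a : ℤ) : ℕ := (Int.bmod a n).natAbs

section zabs

variable {n : ℕ}

lemma zabs_congr {a b : ℤ} (h : (n : ℤ) ∣ a - b) : zabs n a = zabs n b := by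
  unfold zabs
  rw [Int.bmod_eq_bmod_iff_bmod_sub_eq_zero.2 (by rw [← Int.dvd_iff_bmod_eq_zero]; exact h)]

lemma exists_zabs (_hn : 0 < n) (a : ℤ) : ∃ j : ℤ, |a - n * j| = zabs n a := by
  obtain ⟨j, hj⟩ : (n : ℤ) ∣ a - Int.bmod a n := by
    rw [← neg_sub, dvd_neg]
    exact Int.dvd_bmod_sub_self
  refine ⟨j, ?_⟩
  unfold zabs
  rw [← hj, Int.natCast_natAbs]
  congr 1
  ring

lemma zabs_min (hn : 0 < n) (a j : ℤ) : (zabs n a : ℤ) ≤ |a - n * j| := by
  have h1 : zabs n a = zabs n (a - n * j) := zabs_congr ⟨j, by ring⟩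
  rw [h1]
  set b := a - n * j with hb
  unfold zabs
  rw [Int.natCast_natAbs]
  have h2 := Int.bmod_le (x := b) (m := n) hn
  have h3 := Int.le_bmod (x := b) (m := n) hn
  obtain ⟨i, hi⟩ : (n : ℤ) ∣ b.bmod n - b := Int.dvd_bmod_sub_self
  by_cases hi0 : i = 0
  · rw [hi0, mul_zero, sub_eq_zero] at hi
    rw [hi]
  · have h4 : (n : ℤ) ≤ |(n : ℤ) * i| := by
      rw [abs_mul, Nat.abs_cast]
      have := Int.one_le_abs hi0
      nlinarith
    have h5 : |b.bmod n| ≤ (n : ℤ) / 2 := by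
      rw [abs_le]
      constructor <;> omega
    have h6 : (n : ℤ) * i = b.bmod n - b := hi.symm
    have h7 : |b.bmod n - b| ≤ |b.bmod n| + |b| := abs_sub _ _
    rw [h6] at h4
    omega

lemma zabs_neg (hn : 0 < n) (a : ℤ) : zabs n (-a) = zabs n a := by
  obtain ⟨i, hi⟩ := exists_zabs hn a
  obtain ⟨j, hj⟩ := exists_zabs hn (-a)
  have h1 := zabs_min hn a (-j)
  have h2 := zabs_min hn (-a) (-i)
  have e1 : a - n * -j = -(-a - n * j) := by ring
  have e2 : -a - n * -i = -(a - n * i) := by ring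
  rw [e1, abs_neg, hj] at h1
  rw [e2, abs_neg, hi] at h2
  omega

lemma zabs_add_le (hn : 0 < n) (a b : ℤ) : zabs n (a + b) ≤ zabs n a + zabs n b := by
  obtain ⟨i, hi⟩ := exists_zabs hn a
  obtain ⟨j, hj⟩ := exists_zabs hn b
  have h1 := zabs_min hn (a + b) (i + j)
  have e1 : a + b - n * (i + j) = (a - n * i) + (b - n * j) := by ring
  have h2 := abs_add_le (a - n * i) (b - n * j)
  rw [e1] at h1
  omega

lemma zabs_le_abs (hn : 0 < n) (a : ℤ) : (zabs n a : ℤ) ≤ |a| := by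
  simpa using zabs_min hn a 0

/-- a number between `t` and `n - t` in absolute value has `zabs ≥ t` -/
lemma le_zabs {a : ℤ} {t : ℕ} (h1 : (t : ℤ) ≤ |a|) (h2 : |a| + t ≤ n) : t ≤ zabs n a := by
  rcases Nat.eq_zero_or_pos n with hn | hn
  · subst hn
    have := abs_nonneg a
    have : t = 0 := by push_cast at h2; omega
    omega
  · obtain ⟨j, hj⟩ := exists_zabs hn a
    by_cases hj0 : j = 0
    · subst hj0
      rw [mul_zero, sub_zero] at hj
      omega
    · have h4 : (n : ℤ) ≤ |(n : ℤ) * j| := by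
        rw [abs_mul, Nat.abs_cast]
        have := Int.one_le_abs hj0
        nlinarith
      have h5 := abs_sub_abs_le_abs_sub ((n : ℤ) * j) a
      rw [abs_sub_comm] at h5
      omega

end zabs

/-- Rotation structure with angles modulo `n w`. -/
structure CRot (G V : Type) [Group G] [MulAction G V] (M : GMet V) (n : V → ℕ) where
  C : Set V
  ang : V → V → V → ℤ
  ρ : V → G
  pf : V → ℕ
  isom : M.Isom G
  C_smul : ∀ (g : G) w, w ∈ C → g • w ∈ C
  n_pos : ∀ w ∈ C, 0 < n w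
  n_smul : ∀ (g : G), ∀ w ∈ C, n (g • w) = n w
  ang_add : ∀ w ∈ C, ∀ x y z, x ≠ w → y ≠ w → z ≠ w →
    (n w : ℤ) ∣ ang w x y + ang w y z - ang w x z
  ang_smul : ∀ (g : G), ∀ w ∈ C, ∀ x y, x ≠ w → y ≠ w →
    (n w : ℤ) ∣ ang (g • w) (g • x) (g • y) - ang w x y
  ρ_smul : ∀ (g : G), ∀ w ∈ C, ρ (g • w) = g * ρ w * g⁻¹
  ρ_fix : ∀ w ∈ C, ρ w • w = w
  ang_ρ : ∀ w ∈ C, ∀ x, x ≠ w → (n w : ℤ) ∣ ang w x (ρ w • x) - 1
  ρ_pow : ∀ w ∈ C, ρ w ^ n w = 1
  stab : ∀ w ∈ C, ∀ g : G, g • w = w → g ∈ Subgroup.zpowers (ρ w)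
  nonadj : ∀ w ∈ C, ∀ w' ∈ C, M.d w w' ≠ 1
  pf_smul : ∀ (g : G), ∀ w ∈ C, pf (g • w) = pf w
  pf_pos : ∀ w ∈ C, 1 ≤ pf w
  A1 : ∀ w ∈ C, ∀ x y, x ≠ w → y ≠ w → pf w ≤ zabs (n w) (ang w x y) → M.Sep w x y
  A2 : ∀ w ∈ C, ∀ u x y, u ≠ w → x ≠ w → y ≠ w → M.Sep u w y →
    (n w : ℤ) ∣ ang w x y - ang w x u

namespace CRot

variable {G V : Type} [Group G] [MulAction G V] {M : GMet V} {n : V → ℕ} (A : CRot G V M n)

variable {A}

lemma ang_self {w x : V} (hw : w ∈ A.C) (hx : x ≠ w) : (n w : ℤ) ∣ A.ang w x x := by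
  have h := A.ang_add w hw x x x hx hx hx
  simpa using h

lemma ang_symm {w x y : V} (hw : w ∈ A.C) (hx : x ≠ w) (hy : y ≠ w) :
    (n w : ℤ) ∣ A.ang w y x + A.ang w x y := by
  obtain ⟨a, ha⟩ := A.ang_add w hw x y x hx hy hx
  obtain ⟨b, hb⟩ := ang_self (A := A) hw hx
  exact ⟨a + b, by linear_combination ha + hb⟩

lemma zabs_ang_symm {w x y : V} (hw : w ∈ A.C) (hx : x ≠ w) (hy : y ≠ w) :
    zabs (n w) (A.ang w y x) = zabs (n w) (A.ang w x y) := by
  rw [← zabs_neg (A.n_pos w hw) (A.ang w x y)]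
  apply zabs_congr
  rw [sub_neg_eq_add]
  exact ang_symm hw hx hy

lemma zabs_ang_smul (g : G) {w x y : V} (hw : w ∈ A.C) (hx : x ≠ w) (hy : y ≠ w) :
    zabs (n (g • w)) (A.ang (g • w) (g • x) (g • y)) = zabs (n w) (A.ang w x y) := by
  rw [A.n_smul g w hw]
  exact zabs_congr (A.ang_smul g w hw x y hx hy)

lemma zabs_ang_add_le {w x y z : V} (hw : w ∈ A.C) (hx : x ≠ w) (hy : y ≠ w) (hz : z ≠ w) :
    zabs (n w) (A.ang w x z) ≤ zabs (n w) (A.ang w x y) + zabs (n w) (A.ang w y z) := by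
  have h1 := zabs_add_le (A.n_pos w hw) (A.ang w x y) (A.ang w y z)
  rwa [zabs_congr (A.ang_add w hw x y z hx hy hz)] at h1

lemma ρ_pow_fix {w : V} (hw : w ∈ A.C) (k : ℕ) : A.ρ w ^ k • w = w := by
  induction k with
  | zero => simp
  | succ k ih => rw [pow_succ, mul_smul, A.ρ_fix w hw, ih]

lemma ρ_pow_ne {w x : V} (hw : w ∈ A.C) (hx : x ≠ w) (k : ℕ) : A.ρ w ^ k • x ≠ w := by
  intro h
  exact hx (MulAction.injective _ (h.trans (ρ_pow_fix hw k).symm))

lemma ang_ρ_pow {w x : V} (hw : w ∈ A.C) (hx : x ≠ w) (k : ℕ) :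
    (n w : ℤ) ∣ A.ang w x (A.ρ w ^ k • x) - k := by
  induction k with
  | zero => simpa using ang_self (A := A) hw hx
  | succ k ih =>
    obtain ⟨a, ha⟩ := ih
    obtain ⟨b, hb⟩ := A.ang_ρ w hw _ (ρ_pow_ne hw hx k)
    obtain ⟨c, hc⟩ := A.ang_add w hw x _ (A.ρ w • A.ρ w ^ k • x) hx (ρ_pow_ne hw hx k) (by
      rw [← mul_smul, ← pow_succ']
      exact ρ_pow_ne hw hx (k + 1))
    rw [pow_succ', mul_smul]
    push_cast
    exact ⟨a + b - c, by linear_combination ha + hb - hc⟩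

lemma exists_pow {w : V} (hw : w ∈ A.C) {f : G} (h1 : f • w = w) : ∃ k : ℕ, f = A.ρ w ^ k := by
  obtain ⟨j, hj⟩ := Subgroup.mem_zpowers_iff.1 (A.stab w hw f h1)
  have hn := A.n_pos w hw
  refine ⟨(j % n w).toNat, ?_⟩
  have h2 := Int.emod_nonneg j (show (n w : ℤ) ≠ 0 by omega)
  rw [← zpow_natCast, Int.toNat_of_nonneg h2, ← hj]
  have h3 := Int.emod_add_mul_ediv j (n w)
  conv_lhs => rw [← h3]
  rw [zpow_add, zpow_mul, zpow_natCast, A.ρ_pow w hw, one_zpow, mul_one]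

/-- an element fixing two points, one of them an apex, is trivial.
Proof: `f = ρ w ^ j`, `ang w u (f u) = j`. -/
theorem fix_two {w u : V} (hw : w ∈ A.C) (huw : u ≠ w) {f : G} (h1 : f • w = w)
    (h2 : f • u = u) : f = 1 := by
  obtain ⟨k, rfl⟩ := exists_pow hw h1
  have h3 := ang_ρ_pow hw huw k
  rw [h2] at h3
  have h4 := ang_self (A := A) hw huw
  have h5 : (n w : ℤ) ∣ (k : ℤ) := by
    obtain ⟨a, ha⟩ := h3
    obtain ⟨b, hb⟩ := h4
    exact ⟨b - a, by linear_combination hb - ha⟩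
  obtain ⟨c, rfl⟩ : n w ∣ k := by exact_mod_cast h5
  rw [pow_mul, A.ρ_pow w hw, one_pow]

/-- a path of apices with large angles is geodesic -/
lemma chain_sep (v : ℕ → V) (hC : ∀ k, v k ∈ A.C) (hne : ∀ k, v k ≠ v (k + 1))
    (ha : ∀ k, A.pf (v (k + 1)) ≤
      zabs (n (v (k + 1))) (A.ang (v (k + 1)) (v k) (v (k + 2)))) (k : ℕ) :
    M.Sep (v (k + 1)) (v 0) (v (k + 2)) ∧ k + 1 ≤ M.d (v 0) (v (k + 1)) := by
  have pos : ∀ a b, a ≠ b → 1 ≤ M.d a b := by
    intro a b hab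
    rcases Nat.eq_zero_or_pos (M.d a b) with h | h
    · exact absurd (M.eq_of a b h) hab
    · exact h
  induction k with
  | zero =>
    exact ⟨A.A1 _ (hC 1) _ _ (hne 0) (hne 1).symm (ha 0), pos _ _ (hne 0)⟩
  | succ k ih =>
    obtain ⟨ih1, ih2⟩ := ih
    have h1 := ih1.1
    simp only [GMet.mem_I] at h1
    have h2 : 1 ≤ M.d (v (k + 1)) (v (k + 2)) := pos _ _ (hne (k + 1))
    have h3 : v 0 ≠ v (k + 2) := by
      intro h
      rw [← h, M.self] at h1
      omega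
    have h4 := A.A2 (v (k + 2)) (hC _) (v (k + 1)) (v (k + 3)) (v 0) (hne (k + 1))
      (hne (k + 2)).symm h3 ih1.symm
    have h5 : zabs (n (v (k + 2))) (A.ang (v (k + 2)) (v 0) (v (k + 3))) =
        zabs (n (v (k + 2))) (A.ang (v (k + 2)) (v (k + 1)) (v (k + 3))) := by
      rw [zabs_ang_symm (hC _) (hne (k + 2)).symm h3, zabs_congr h4,
        zabs_ang_symm (hC _) (hne (k + 1)) (hne (k + 2)).symm]
    refine ⟨A.A1 _ (hC _) _ _ h3 (hne (k + 2)).symm (by rw [h5]; exact ha (k + 1)), ?_⟩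
    have : k + 1 + 1 = k + 2 := rfl
    rw [this]
    omega

/-- a translation with large angles has infinite order.
Proof: put `v_i = b^i v`.  By induction `ang v_k v_0 v_{k+1} = ang v_k v_{k-1} v_{k+1}` (A2), so `v_k`
separates `v_0` and `v_{k+1}` and `d(v_0,v_k) = k d(v_0,v_1)`. -/
theorem inf_of_ang {v : V} (hv : v ∈ A.C) {b : G} (hb : b • v ≠ v)
    (ha : A.pf v ≤ zabs (n v) (A.ang v (b⁻¹ • v) (b • v))) : Inf b := by
  intro m hm hbm
  obtain ⟨m', rfl⟩ : ∃ m', m = m' + 1 := ⟨m - 1, by omega⟩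
  have hb' : b⁻¹ • v ≠ v := by
    intro h; apply hb; rw [inv_smul_eq_iff] at h; exact h.symm
  have h := (chain_sep (A := A) (fun k => b ^ k • v) (fun k => A.C_smul _ v hv) (by
    intro k h
    apply hb
    simp only [pow_succ, mul_smul] at h
    exact (MulAction.injective _ h).symm) (by
    intro k
    have e1 : b ^ k • v = b ^ (k + 1) • b⁻¹ • v := by
      rw [← mul_smul, pow_succ, mul_inv_cancel_right]
    have e2 : b ^ (k + 2) • v = b ^ (k + 1) • b • v := by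
      rw [← mul_smul, ← pow_succ]
    change A.pf (b ^ (k + 1) • v) ≤
      zabs (n (b ^ (k + 1) • v)) (A.ang (b ^ (k + 1) • v) (b ^ k • v) (b ^ (k + 2) • v))
    rw [e1, e2, zabs_ang_smul _ hv hb' hb, A.pf_smul _ v hv]
    exact ha) m').2
  simp only [pow_zero, one_smul, hbm, M.self] at h
  omega

end CRot

end Pool.Agent.Helper85.Burn
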