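import Pool.Agent.Helper85.Burn.Closing
import Pool.Agent.Helper85.Burn.CRot

/-!
Module CRQ: the quotient of a rotation structure is a cyclic rotation structure.
-/

set_option autoImplicit false

namespace Pool.Agent.Helper85.Burn

open Pool.Agent.Helper88.Burn

namespace Rot

variable {G V : Type} [Group G] [MulAction G V] {M : GMet V} {n : V → ℕ} {P : ℕ}
  {A : Rot G V M n P}

/-- `x` is reduced relative to `w`. -/
def RedL (A : Rot G V M n P) (w x : V) : Prop :=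
  ∀ v ∈ A.C, v ≠ w → v ≠ x → 2 * |A.ang v w x| < n v

lemma redL_iff {w x : V} : A.RedL w x ↔ A.toSys.IsRed w x := by
  constructor
  · intro h v hv h1 h2
    have e := A.two_half hv
    have := h v hv h1 h2
    change |A.ang v w x| ≤ half (n v)
    omega
  · intro h v hv h1 h2
    have e := A.two_half hv
    have h3 : |A.ang v w x| ≤ half (n v) := h v hv h1 h2
    omega

lemma RedL.smul {w x : V} (h : A.RedL w x) (g : G) : A.RedL (g • w) (g • x) := by
  intro v hv h1 h2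
  have h3 := A.C_smul g⁻¹ v hv
  have h4 : g⁻¹ • v ≠ w := by
    intro h; apply h1; rw [inv_smul_eq_iff] at h; exact h
  have h5 : g⁻¹ • v ≠ x := by
    intro h; apply h2; rw [inv_smul_eq_iff] at h; exact h
  have h6 := h _ h3 h4 h5
  have h7 := ang_smul (A := A) g h3 h4.symm h5.symm
  rw [smul_inv_smul] at h7
  have h8 := A.n_smul g _ h3
  rw [smul_inv_smul] at h8
  rwa [h7, h8]

lemma le_of_mem_I {w v y : V} {h : G} (hh : h • v = v) (hv : v ∈ M.I w y) (hi : M.Isom G) :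
    M.d w (h • y) ≤ M.d w y := by
  simp only [GMet.mem_I] at hv
  have h1 := hi h v y
  rw [hh] at h1
  have h2 := M.tri w v (h • y)
  omega

/-- large angles give points of the interval -/
lemma mem_I_of_large {v x y : V} (hv : v ∈ A.C) (hx : v ≠ x) (hy : v ≠ y)
    (h : (P : ℤ) ≤ |A.ang v x y|) : v ∈ M.I x y := by
  have hpf : (A.pf v : ℤ) ≤ P := by exact_mod_cast A.pf_le v hv
  exact (A.A1 v hv x y hx.symm hy.symm (show (A.pf v : ℤ) ≤ |A.ang v x y| by omega)).1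

lemma nbig (A : Rot G V M n P) {v : V} (hv : v ∈ A.C) : (1000 * P : ℤ) ≤ n v ∧ (1 : ℤ) ≤ P :=
  ⟨by exact_mod_cast A.n_big v hv, by exact_mod_cast A.P_pos⟩

/-- reduced minimal lifts exist -/
lemma exists_redL (A : Rot G V M n P) (w x : V) : ∃ k ∈ A.K, A.RedL w (k • x) ∧
    M.d w (k • x) = A.qm.d (VQ.mk A.K w) (VQ.mk A.K x) := by
  classical
  have hne : ∃ N : ℕ, ∃ k ∈ A.K, M.d w (k • x) = A.qm.d (VQ.mk A.K w) (VQ.mk A.K x) ∧
      A.Φ w (k • x) = N := by
    obtain ⟨k, hk, h⟩ := qm_exists (A := A) w x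
    exact ⟨_, k, hk, h, rfl⟩
  obtain ⟨k, hk, h1, h2⟩ := Nat.find_spec hne
  refine ⟨k, hk, ?_, h1⟩
  by_contra hcon
  unfold RedL at hcon
  push Not at hcon
  obtain ⟨v, hv, hvw, hvx, h3⟩ := hcon
  obtain ⟨hn1, hn2⟩ := A.nbig hv
  have hodd : (n v : ℤ) ≠ 2 * |A.ang v w (k • x)| := by
    obtain ⟨t, ht⟩ := A.n_odd v hv
    have ht' : (n v : ℤ) = 2 * (t : ℤ) + 1 := by exact_mod_cast ht
    omega
  obtain ⟨h, hh, h4⟩ := exists_red hv hvw.symm hvx.symm
  have hfix := (θ_H hv hvx.symm hh).1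
  have h5 := Φ_red hv hvw hvx hh (by omega) h4
  have h6 := mem_I_of_large hv hvw hvx (by omega)
  have h7 := le_of_mem_I hfix h6 A.isom
  have h8 := qm_le (A := A) w (h • k • x)
  rw [mk_smul_K (H_le_K hv hh), mk_smul_K hk] at h8
  refine Nat.find_min hne (m := A.Φ w (h • k • x)) (by omega)
    ⟨h * k, mul_mem (H_le_K hv hh) hk, ?_, ?_⟩
  · rw [mul_smul]; omega
  · rw [mul_smul]

/-- (A.12) the angle at `w` of a reduced lift is unique modulo `n w`. -/
lemma redL_unique {w x : V} (hxw : x ≠ w) {k : G}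
    (hk : k ∈ A.K) (h1 : A.RedL w x) (h2 : A.RedL w (k • x)) :
    ∃ j : ℤ, A.θ w (k • x) = A.θ w x + n w * j := by
  rw [← A.toSys_K] at hk
  rcases RotSys.sim_of_isRed A.toSys_large hk (redL_iff.1 h1) (redL_iff.1 h2) with h3 | h3
  · exact ⟨0, by rw [h3]; ring⟩
  · obtain ⟨h4, m, h5⟩ := h3
    refine ⟨m, ?_⟩
    rw [h5]
    change A.θ w (A.ρ w ^ ((2 * half (n w) + 1) * m) • x) = _
    rw [A.two_half h4, θ_ρ_pow h4 hxw]

/-- all reduced lifts are minimal -/
lemma RedL.min {w x : V} (h : A.RedL w x) :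
    M.d w x = A.qm.d (VQ.mk A.K w) (VQ.mk A.K x) := by
  obtain ⟨k, hk, h1, h2⟩ := A.exists_redL w x
  rw [← h2]
  rw [← A.toSys_K] at hk
  rcases RotSys.sim_of_isRed A.toSys_large hk (redL_iff.1 h) (redL_iff.1 h1) with h3 | h3
  · rw [h3]
  · obtain ⟨h4, m, h5⟩ := h3
    rw [h5]
    change _ = M.d w (A.ρ w ^ ((2 * half (n w) + 1) * m) • x)
    have h6 := A.isom (A.ρ w ^ ((2 * half (n w) + 1) * m)) w x
    rw [ρ_pow_fix h4] at h6
    exact h6.symm

/-- (A.13) any minimal lift has almost the same angle as a reduced one, modulo `n w`.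
Proof.  Neighbours `z₁ ∈ I(w,x)`, `z₂ ∈ I(w,x_r)` of `w`: `|θ w z₁ - θ w x| < pf w` (A1').  The images
of `z₁`, `z₂` are both on geodesics from `w̄` to `x̄`; lift the quadrilateral `w̄, z̄₁, x̄, z̄₂`
(`lift4` with base `w`): lifts `z₁' , z₂'` adjacent to `w`, both on geodesics to the same point, so
`|θ w z₁' - θ w z₂'| < 2 pf w`; and `z_i' ∈ H w z_i` by `mem_H_of_nbr`. -/
lemma min_near_min {w x : V} (hw : w ∈ A.C) (hxw : VQ.mk A.K x ≠ VQ.mk A.K w) {k : G}
    (hk : k ∈ A.K) (h1 : M.d w x = A.qm.d (VQ.mk A.K w) (VQ.mk A.K x))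
    (h2 : M.d w (k • x) = A.qm.d (VQ.mk A.K w) (VQ.mk A.K x)) :
    ∃ j : ℤ, |A.θ w (k • x) - A.θ w x - n w * j| ≤ 4 * A.pf w := by
  have hne : x ≠ w := by rintro rfl; exact hxw rfl
  have hne' : k • x ≠ w := by
    intro h; apply hxw; rw [← mk_smul_K hk x, h]
  have hD : 1 ≤ M.d w x := by
    rcases Nat.eq_zero_or_pos (M.d w x) with h | h
    · exact absurd (M.eq_of w x h).symm hne
    · exact h
  -- neighbours
  obtain ⟨z₁, a1, a2⟩ := M.geod w x 1 hD
  obtain ⟨z₂, b1, b2⟩ := M.geod w (k • x) 1 (by omega)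
  have a3 : z₁ ∈ M.I w x := by simp only [GMet.mem_I]; omega
  have b3 : z₂ ∈ M.I w (k • x) := by simp only [GMet.mem_I]; omega
  have a4 : z₁ ≠ w := by rintro rfl; rw [M.self] at a1; omega
  have b4 : z₂ ≠ w := by rintro rfl; rw [M.self] at b1; omega
  have a5 := ang_lt_of_mem_I hw a4 hne a3
  have b5 := ang_lt_of_mem_I hw b4 hne' b3
  -- distances in the quotient
  have q1 : A.qm.d (VQ.mk A.K w) (VQ.mk A.K z₁) = 1 ∧
      A.qm.d (VQ.mk A.K z₁) (VQ.mk A.K x) = M.d w x - 1 := by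
    have t1 := qm_le (A := A) w z₁
    have t2 := qm_le (A := A) z₁ x
    have t3 := A.qm.tri (VQ.mk A.K w) (VQ.mk A.K z₁) (VQ.mk A.K x)
    omega
  have q2 : A.qm.d (VQ.mk A.K w) (VQ.mk A.K z₂) = 1 ∧
      A.qm.d (VQ.mk A.K z₂) (VQ.mk A.K x) = M.d w x - 1 := by
    have t1 := qm_le (A := A) w z₂
    have t2 := qm_le (A := A) z₂ (k • x)
    rw [mk_smul_K hk] at t2
    have t3 := A.qm.tri (VQ.mk A.K w) (VQ.mk A.K z₂) (VQ.mk A.K x)
    omega
  obtain ⟨z₁', x', z₂', e1, e2, e3, d1, d2, d3, d4⟩ :=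
    lift4 (A := A) (VQ.mk A.K w) (VQ.mk A.K z₁) (VQ.mk A.K x) (VQ.mk A.K z₂) w rfl
  rw [q1.1] at d1
  rw [q1.2] at d2
  have s1 := A.qm.symm (VQ.mk A.K x) (VQ.mk A.K z₂)
  have s2 := A.qm.symm (VQ.mk A.K z₂) (VQ.mk A.K w)
  have s3 := M.symm x' z₂'
  have s4 := M.symm z₂' w
  have hx'w : x' ≠ w := by
    rintro rfl; exact hxw e2.symm
  have hdx : M.d w x' = M.d w x := by
    have t1 := M.tri w z₁' x'
    have t2 := qm_le (A := A) w x'
    rw [e2] at t2
    omega
  have c1 : z₁' ∈ M.I w x' := by simp only [GMet.mem_I]; omega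
  have c2 : z₂' ∈ M.I w x' := by simp only [GMet.mem_I]; omega
  have c3 : z₁' ≠ w := by rintro rfl; rw [M.self] at d1; omega
  have c4 : z₂' ≠ w := by rintro rfl; rw [M.self] at s4; omega
  have c5 := ang_lt_of_mem_I hw c3 hx'w c1
  have c6 := ang_lt_of_mem_I hw c4 hx'w c2
  obtain ⟨l1, hl1, f1⟩ := VQ.mk_eq_iff.1 e1
  obtain ⟨l2, hl2, f2⟩ := VQ.mk_eq_iff.1 e3
  have m1 := mem_H_of_nbr hw a1 hl1 (by rw [← f1]; exact d1)
  have m2 := mem_H_of_nbr hw b1 hl2 (by rw [← f2]; omega)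
  obtain ⟨-, -, j1, g1, -⟩ := θ_H hw a4 m1
  obtain ⟨-, -, j2, g2, -⟩ := θ_H hw b4 m2
  rw [← f1] at g1
  rw [← f2] at g2
  refine ⟨j1 - j2, ?_⟩
  unfold ang at a5 b5 c5 c6
  have e : (n w : ℤ) * (j1 - j2) = n w * j1 - n w * j2 := by ring
  rw [e]
  rw [abs_lt] at a5 b5 c5 c6
  rw [abs_le]
  constructor <;> omega

/-- `x` is a reduced minimal lift relative to `w`. -/
def RedMin (A : Rot G V M n P) (w x : V) : Prop :=
  M.d w x = A.qm.d (VQ.mk A.K w) (VQ.mk A.K x) ∧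
    ∀ v ∈ A.C, v ≠ w → v ≠ x → 2 * |A.ang v w x| < n v

/-- reduced minimal lifts exist -/
lemma exists_redMin (w x : V) : ∃ k ∈ A.K, A.RedMin w (k • x) := by
  obtain ⟨k, hk, h1, h2⟩ := A.exists_redL w x
  exact ⟨k, hk, by rw [h2, mk_smul_K hk], h1⟩

/-- (A2 for the quotient, part 1) if `ū` separates `w̄` and `p̄` then a minimal lift `p` relative to
`w` has exactly one lift of `ū` at the right distance in `I(w,p)`, and it separates `w` and `p`.
Proof.  Let `t, k t ∈ I(w,p)` at the same distance from `w`.  If `k t ≠ t`, then `green'` for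
`(t,kt)` gives `v`; the path `t,w,kt` shows that `v` is in
`I(t,w)` or `I(w,kt)`, the path `t,p,kt` that `v` is in `I(t,p)` or `I(p,kt)`; this contradicts
`d(w,v) < d(w,t)`, `d(v,p) < d(t,p)`. -/
lemma sep_lift {w p : V} {u' : VQ (V := V) A.K} (h1 : M.d w p = A.qm.d (VQ.mk A.K w) (VQ.mk A.K p))
    (hu : A.qm.Sep u' (VQ.mk A.K w) (VQ.mk A.K p)) :
    ∃ u, VQ.mk A.K u = u' ∧ M.Sep u w p ∧ M.d w u = A.qm.d (VQ.mk A.K w) u' := by
  obtain ⟨hu1, hu2⟩ := hu
  have hu1' := hu1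
  simp only [GMet.mem_I] at hu1'
  -- points of `I(w,p)` at the right distance project to `u'`
  have key : ∀ t ∈ M.I w p, M.d w t = A.qm.d (VQ.mk A.K w) u' →
      VQ.mk A.K t = u' := by
    intro t ht hdt
    simp only [GMet.mem_I] at ht
    have t1 := qm_le (A := A) w t
    have t2 := qm_le (A := A) t p
    have t3 := A.qm.tri (VQ.mk A.K w) (VQ.mk A.K t) (VQ.mk A.K p)
    refine hu2 _ ?_ ?_
    · simp only [GMet.mem_I]; omega
    · omega
  obtain ⟨t, ht1, ht2⟩ := M.geod w p (A.qm.d (VQ.mk A.K w) u') (by omega)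
  have ht3 : t ∈ M.I w p := by simp only [GMet.mem_I]; omega
  refine ⟨t, key t ht3 ht1, ⟨ht3, ?_⟩, ht1⟩
  intro s hs hds
  obtain ⟨k, hk, hks⟩ := VQ.mk_eq_iff.1
    ((key s hs (by omega)).trans (key t ht3 ht1).symm)
  by_contra hst
  obtain ⟨v, hv, hvt, hvk, hang⟩ := green' (x := t) hk (by rw [← hks]; exact hst)
  rw [← hks] at hvk hang
  obtain ⟨hn1, hn2⟩ := A.nbig hv
  have hpf : (A.pf v : ℤ) ≤ P := by exact_mod_cast A.pf_le v hv
  simp only [GMet.mem_I] at hs ht3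
  have pos : ∀ a b, a ≠ b → 1 ≤ M.d a b := by
    intro a b hab
    rcases Nat.eq_zero_or_pos (M.d a b) with h | h
    · exact absurd (M.eq_of a b h) hab
    · exact h
  -- `d(w,v) < d(w,t)`
  have side : ∀ a : V, M.d a t = M.d a s → M.d a v < M.d a t := by
    intro a ha
    by_cases hva : v = a
    · subst hva
      rw [M.self]
      have := pos v t hvt
      omega
    · have h3 := abs_add_le (A.ang v t a) (A.ang v a s)
      rw [ang_add] at h3
      by_cases h4 : (P : ℤ) ≤ |A.ang v t a|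
      · have h5 := mem_I_of_large hv hvt hva h4
        simp only [GMet.mem_I] at h5
        have h6 := M.symm t a
        have h7 := M.symm v a
        have h8 := pos t v (Ne.symm hvt)
        omega
      · have h5 := mem_I_of_large hv hva hvk (x := a) (y := s) (by omega)
        simp only [GMet.mem_I] at h5
        have h8 := pos v s hvk
        omega
  have r1 := side w (by omega)
  have r2 := side p (by
    have := M.symm p t
    have := M.symm p s
    omega)
  have t1 := M.tri w v p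
  have t2 := M.symm p v
  have t3 := M.symm p t
  omega

/-- if `ū` separates `w̄` and `ȳ`, the reduced lift `y` contains a reduced lift of `ū` with the same
angle -/
lemma sep_red {w y : V} (hw : w ∈ A.C) {u' : VQ (V := V) A.K} (h1 : A.RedL w y)
    (hu : A.qm.Sep u' (VQ.mk A.K w) (VQ.mk A.K y)) (hne : u' ≠ VQ.mk A.K w)
    (hyw : VQ.mk A.K y ≠ VQ.mk A.K w) :
    ∃ u, VQ.mk A.K u = u' ∧ A.RedL w u ∧ A.θ w y = A.θ w u := by
  obtain ⟨u, e1, e2, -⟩ := sep_lift h1.min hu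
  have huw : u ≠ w := by rintro rfl; exact hne e1.symm
  have hyw' : y ≠ w := by rintro rfl; exact hyw rfl
  refine ⟨u, e1, ?_, A.A2 w hw u y huw hyw' e2⟩
  intro v hv hvw hvu
  by_contra hcon
  push Not at hcon
  obtain ⟨hn1, hn2⟩ := A.nbig hv
  have h2 := mem_I_of_large hv hvw hvu (by omega)
  have h3 : v ∈ M.I w y := by
    have h4 := e2.1
    simp only [GMet.mem_I] at h2 h4 ⊢
    have t1 := M.tri v u y
    have t2 := M.tri w v y
    omega
  have h5 := (GMet.Sep.left e2 h3 (by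
    simp only [GMet.mem_I] at h2
    omega)).2
  have hvy : v ≠ y := by
    rintro rfl
    have h6 := e2.1
    simp only [GMet.mem_I] at h2 h6
    have h7 : M.d u v = 0 := by omega
    exact hvu (M.eq_of u v h7).symm
  have h6 : A.θ v y = A.θ v u := A.A2 v hv u y (Ne.symm hvu) (Ne.symm hvy) h5
  have h7 := h1 v hv hvw hvy
  have h8 : A.ang v w u = A.ang v w y := by unfold ang; omega
  rw [h8] at hcon
  omega

/-! ### The cyclic rotation structure -/

/-- a chosen lift -/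
noncomputable def out (A : Rot G V M n P) (a : VQ (V := V) A.K) : V := (VQ.mk_surj a).choose

lemma mk_out (a : VQ (V := V) A.K) : VQ.mk A.K (A.out a) = a := (VQ.mk_surj a).choose_spec

/-- a chosen reduced lift of `b` relative to `w` -/
noncomputable def rl (A : Rot G V M n P) (w : V) (b : VQ (V := V) A.K) : V :=
  (A.exists_redL w (A.out b)).choose • A.out b

lemma mk_rl (w : V) (b : VQ (V := V) A.K) : VQ.mk A.K (A.rl w b) = b := by
  unfold rl
  rw [mk_smul_K (A.exists_redL w (A.out b)).choose_spec.1, mk_out]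

lemma redL_rl (w : V) (b : VQ (V := V) A.K) : A.RedL w (A.rl w b) :=
  (A.exists_redL w (A.out b)).choose_spec.2.1

/-- the angle in the quotient -/
noncomputable def qang (A : Rot G V M n P) (a b c : VQ (V := V) A.K) : ℤ :=
  A.ang (A.out a) (A.rl (A.out a) b) (A.rl (A.out a) c)

lemma θ_congr {w x y : V} (hxw : VQ.mk A.K x ≠ VQ.mk A.K w)
    (hxy : VQ.mk A.K x = VQ.mk A.K y) (h1 : A.RedL w x) (h2 : A.RedL w y) :
    (n w : ℤ) ∣ A.θ w x - A.θ w y := by
  obtain ⟨k, hk, e⟩ := VQ.mk_eq_iff.1 hxy.symm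
  rw [e] at h2 ⊢
  obtain ⟨j, hj⟩ := redL_unique (by rintro rfl; exact hxw rfl) hk h1 h2
  rw [hj]
  exact ⟨-j, by ring⟩

lemma n_out {w : V} (hw : w ∈ A.C) : n (A.out (VQ.mk A.K w)) = n w := by
  obtain ⟨k, hk, e⟩ := VQ.mk_eq_iff.1 (mk_out (A := A) (VQ.mk A.K w))
  rw [e, A.n_smul k w hw]

lemma qang_eq {w x y : V} (hw : w ∈ A.C) (hxw : VQ.mk A.K x ≠ VQ.mk A.K w)
    (hyw : VQ.mk A.K y ≠ VQ.mk A.K w) (h1 : A.RedL w x) (h2 : A.RedL w y) :
    (n w : ℤ) ∣ A.qang (VQ.mk A.K w) (VQ.mk A.K x) (VQ.mk A.K y) - A.ang w x y := by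
  have hnw := n_out (A := A) hw
  set w' := A.out (VQ.mk A.K w) with hw'
  obtain ⟨k, hk, e⟩ := VQ.mk_eq_iff.1 (mk_out (A := A) (VQ.mk A.K w))
  rw [← hw'] at e
  have hx' : x ≠ w := by rintro rfl; exact hxw rfl
  have hy' : y ≠ w := by rintro rfl; exact hyw rfl
  have h3 : A.ang w' (k • x) (k • y) = A.ang w x y := by
    rw [e]; exact ang_smul k hw hx' hy'
  have h4 : A.RedL w' (k • x) := by rw [e]; exact h1.smul k
  have h5 : A.RedL w' (k • y) := by rw [e]; exact h2.smul k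
  have hmw : VQ.mk A.K w' = VQ.mk A.K w := mk_out _
  obtain ⟨a, ha⟩ := θ_congr (A := A) (w := w') (x := k • x) (y := A.rl w' (VQ.mk A.K x))
    (by rw [mk_smul_K hk, hmw]; exact hxw) (by rw [mk_smul_K hk, mk_rl]) h4 (redL_rl _ _)
  obtain ⟨b, hb⟩ := θ_congr (A := A) (w := w') (x := k • y) (y := A.rl w' (VQ.mk A.K y))
    (by rw [mk_smul_K hk, hmw]; exact hyw) (by rw [mk_smul_K hk, mk_rl]) h5 (redL_rl _ _)
  rw [← h3]
  unfold qang
  rw [← hw']
  unfold ang
  rw [hnw] at ha hb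
  exact ⟨a - b, by linear_combination ha - hb⟩

/-- dependence on the angle at a minimal lift -/
lemma qang_near {w x y : V} (hw : w ∈ A.C) (hxw : VQ.mk A.K x ≠ VQ.mk A.K w)
    (hyw : VQ.mk A.K y ≠ VQ.mk A.K w)
    (h1 : M.d w x = A.qm.d (VQ.mk A.K w) (VQ.mk A.K x))
    (h2 : M.d w y = A.qm.d (VQ.mk A.K w) (VQ.mk A.K y)) :
    ∃ j : ℤ, |A.ang w x y - A.qang (VQ.mk A.K w) (VQ.mk A.K x) (VQ.mk A.K y) - n w * j| ≤
      8 * A.pf w := by
  obtain ⟨k, hk, a1, a2⟩ := A.exists_redL w x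
  obtain ⟨l, hl, b1, b2⟩ := A.exists_redL w y
  obtain ⟨j1, c1⟩ := min_near_min hw hxw hk h1 a2
  obtain ⟨j2, c2⟩ := min_near_min hw hyw hl h2 b2
  obtain ⟨c, h3⟩ := qang_eq hw (by rw [mk_smul_K hk]; exact hxw)
    (by rw [mk_smul_K hl]; exact hyw) a1 b1
  rw [mk_smul_K hk, mk_smul_K hl] at h3
  refine ⟨j1 - j2 - c, ?_⟩
  have e : (n w : ℤ) * (j1 - j2 - c) = n w * j1 - n w * j2 - n w * c := by ring
  rw [e]
  unfold ang at h3 ⊢
  rw [abs_le] at c1 c2 ⊢
  constructor <;> omega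

/-- **Theorem.** The quotient carries a cyclic rotation structure.  The angle at `w̄` between `x̄`
and `ȳ` is `θ w y_r - θ w x_r` modulo `n w`, where `x_r`, `y_r` are reduced minimal lifts relative to
`w`. -/
theorem exists_crot (A : Rot G V M n P) :
    ∃ (n' : VQ (V := V) A.K → ℕ) (B : CRot (G ⧸ A.K) (VQ (V := V) A.K) A.qm n'),
      (∀ w ∈ A.C, n' (VQ.mk A.K w) = n w) ∧
      (∀ w : V, VQ.mk A.K w ∈ B.C ↔ w ∈ A.C) ∧
      (∀ w ∈ A.C, B.pf (VQ.mk A.K w) = 9 * A.pf w) ∧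
      (∀ w ∈ A.C, B.ρ (VQ.mk A.K w) = QuotientGroup.mk (A.ρ w)) ∧
      (∀ w ∈ A.C, ∀ x y : V, VQ.mk A.K x ≠ VQ.mk A.K w → VQ.mk A.K y ≠ VQ.mk A.K w →
        M.d w x = A.qm.d (VQ.mk A.K w) (VQ.mk A.K x) →
        M.d w y = A.qm.d (VQ.mk A.K w) (VQ.mk A.K y) →
        ∃ j : ℤ, |A.ang w x y - B.ang (VQ.mk A.K w) (VQ.mk A.K x) (VQ.mk A.K y) - n w * j| ≤
          8 * A.pf w) := by
  have hC : ∀ w : V, A.out (VQ.mk A.K w) ∈ A.C ↔ w ∈ A.C := by
    intro w
    obtain ⟨k, hk, e⟩ := VQ.mk_eq_iff.1 (mk_out (A := A) (VQ.mk A.K w))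
    rw [e]
    constructor
    · intro h
      have := A.C_smul k⁻¹ _ h
      rwa [inv_smul_smul] at this
    · exact A.C_smul k w
  have hpf : ∀ w : V, w ∈ A.C → A.pf (A.out (VQ.mk A.K w)) = A.pf w := by
    intro w hw
    obtain ⟨k, hk, e⟩ := VQ.mk_eq_iff.1 (mk_out (A := A) (VQ.mk A.K w))
    rw [e, A.pf_smul k w hw]
  have hρ : ∀ w : V, w ∈ A.C → (QuotientGroup.mk (A.ρ (A.out (VQ.mk A.K w))) : G ⧸ A.K) =
      QuotientGroup.mk (A.ρ w) := by
    intro w hw
    obtain ⟨k, hk, e⟩ := VQ.mk_eq_iff.1 (mk_out (A := A) (VQ.mk A.K w))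
    rw [e, A.ρ_smul k w hw]
    have h1 : (QuotientGroup.mk k : G ⧸ A.K) = 1 := (QuotientGroup.eq_one_iff k).2 hk
    rw [QuotientGroup.mk_mul, QuotientGroup.mk_mul, QuotientGroup.mk_inv, h1]
    simp
  -- choice of reduced lifts
  have hred : ∀ (w : V) (b : VQ (V := V) A.K), ∃ x, VQ.mk A.K x = b ∧ A.RedL w x :=
    fun w b => ⟨A.rl w b, mk_rl w b, redL_rl w b⟩
  refine ⟨fun a => n (A.out a),
          { C := {a | A.out a ∈ A.C}, ang := A.qang,
            ρ := fun a => QuotientGroup.mk (A.ρ (A.out a)), pf := fun a => 9 * A.pf (A.out a),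
            isom := qm_isom, C_smul := ?_, n_pos := ?_, n_smul := ?_, ang_add := ?_,
            ang_smul := ?_, ρ_smul := ?_,
            ρ_fix := ?_, ang_ρ := ?_, ρ_pow := ?_, stab := ?_, nonadj := ?_, pf_smul := ?_,
            pf_pos := ?_, A1 := ?_, A2 := ?_ }, fun w hw => n_out hw, hC, ?_, hρ, ?_⟩
  · -- C_smul
    intro g a ha
    obtain ⟨w, rfl⟩ := VQ.mk_surj a
    induction g using QuotientGroup.induction_on with
    | H g =>
      simp only [Set.mem_ofPred_eq] at ha ⊢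
      rw [hC] at ha
      rw [← VQ.mk_smul, hC]
      exact A.C_smul g w ha
  · -- n_pos
    intro a ha
    obtain ⟨t, ht⟩ := A.n_odd _ ha
    omega
  · -- n_smul
    intro g a ha
    obtain ⟨w, rfl⟩ := VQ.mk_surj a
    simp only [Set.mem_ofPred_eq] at ha
    rw [hC] at ha
    induction g using QuotientGroup.induction_on with
    | H g => rw [← VQ.mk_smul, n_out (A.C_smul g w ha), n_out ha, A.n_smul g w ha]
  · -- ang_add
    intro a _ b c e _ _ _
    unfold qang
    rw [← ang_add (A := A) (A.out a) (A.rl (A.out a) b) (A.rl (A.out a) c) (A.rl (A.out a) e)]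
    simp
  · -- ang_smul
    intro g a ha b c hb hc
    obtain ⟨w, rfl⟩ := VQ.mk_surj a
    simp only [Set.mem_ofPred_eq] at ha
    rw [hC] at ha
    rw [n_out ha]
    obtain ⟨x, rfl, hx⟩ := hred w b
    obtain ⟨y, rfl, hy⟩ := hred w c
    induction g using QuotientGroup.induction_on with
    | H g =>
      have hb' : VQ.mk A.K (g • x) ≠ VQ.mk A.K (g • w) := by
        rw [VQ.mk_smul, VQ.mk_smul]
        exact fun h => hb (MulAction.injective _ h)
      have hc' : VQ.mk A.K (g • y) ≠ VQ.mk A.K (g • w) := by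
        rw [VQ.mk_smul, VQ.mk_smul]
        exact fun h => hc (MulAction.injective _ h)
      obtain ⟨i, hi⟩ := qang_eq (A.C_smul g w ha) hb' hc' (hx.smul g) (hy.smul g)
      obtain ⟨j, hj⟩ := qang_eq ha hb hc hx hy
      rw [← VQ.mk_smul, ← VQ.mk_smul, ← VQ.mk_smul]
      rw [ang_smul g ha (by rintro rfl; exact hb rfl) (by rintro rfl; exact hc rfl),
        A.n_smul g w ha] at hi
      exact ⟨i - j, by linear_combination hi - hj⟩
  · -- ρ_smul
    intro g a ha
    obtain ⟨w, rfl⟩ := VQ.mk_surj a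
    simp only [Set.mem_ofPred_eq] at ha
    rw [hC] at ha
    induction g using QuotientGroup.induction_on with
    | H g =>
      rw [← VQ.mk_smul, hρ _ (A.C_smul g w ha), hρ w ha, A.ρ_smul g w ha]
      rfl
  · -- ρ_fix
    intro a ha
    obtain ⟨w, rfl⟩ := VQ.mk_surj a
    simp only [Set.mem_ofPred_eq] at ha
    rw [hC] at ha
    rw [hρ w ha, ← VQ.mk_smul, A.ρ_fix w ha]
  · -- ang_ρ
    intro a ha b hb
    obtain ⟨w, rfl⟩ := VQ.mk_surj a
    simp only [Set.mem_ofPred_eq] at ha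
    rw [hC] at ha
    rw [n_out ha]
    obtain ⟨x, rfl, hx⟩ := hred w b
    have hxw : x ≠ w := by rintro rfl; exact hb rfl
    have h1 : A.RedL w (A.ρ w • x) := by
      have := hx.smul (A.ρ w)
      rwa [A.ρ_fix w ha] at this
    have h2 : VQ.mk A.K (A.ρ w • x) ≠ VQ.mk A.K w := by
      intro h
      apply hb
      rw [VQ.mk_smul] at h
      have h3 : VQ.mk A.K w = (QuotientGroup.mk (A.ρ w) : G ⧸ A.K) • VQ.mk A.K w := by
        rw [← VQ.mk_smul, A.ρ_fix w ha]
      rw [h3] at h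
      exact MulAction.injective _ h
    rw [hρ w ha, ← VQ.mk_smul]
    have h3 : A.ang w x (A.ρ w • x) = 1 := by
      unfold ang; rw [A.θ_ρ w ha x hxw]; ring
    have h4 := qang_eq ha hb h2 hx h1
    rwa [h3] at h4
  · -- ρ_pow
    intro a ha
    rw [← QuotientGroup.mk_pow, QuotientGroup.eq_one_iff]
    exact Subgroup.subset_closure ⟨_, ha, rfl⟩
  · -- stab
    intro a ha g hg
    obtain ⟨w, rfl⟩ := VQ.mk_surj a
    simp only [Set.mem_ofPred_eq] at ha
    rw [hC] at ha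
    rw [hρ w ha]
    induction g using QuotientGroup.induction_on with
    | H g =>
      rw [← VQ.mk_smul] at hg
      obtain ⟨k, hk, e⟩ := VQ.mk_eq_iff.1 hg
      have h1 : (k⁻¹ * g) • w = w := by rw [mul_smul, e, inv_smul_smul]
      obtain ⟨j, hj⟩ := Subgroup.mem_zpowers_iff.1 (A.stab w ha _ h1)
      refine Subgroup.mem_zpowers_iff.2 ⟨j, ?_⟩
      rw [← QuotientGroup.mk_zpow, hj, QuotientGroup.mk_mul]
      have h2 : (QuotientGroup.mk k⁻¹ : G ⧸ A.K) = 1 :=
        (QuotientGroup.eq_one_iff _).2 (inv_mem hk)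
      rw [h2, one_mul]
  · -- nonadj
    intro a ha b hb
    obtain ⟨w, rfl⟩ := VQ.mk_surj a
    obtain ⟨w', rfl⟩ := VQ.mk_surj b
    simp only [Set.mem_ofPred_eq] at ha hb
    rw [hC] at ha hb
    obtain ⟨k, hk, h⟩ := qm_exists (A := A) w w'
    rw [← h]
    exact A.nonadj w ha _ (A.C_smul k w' hb)
  · -- pf_smul
    intro g a ha
    obtain ⟨w, rfl⟩ := VQ.mk_surj a
    simp only [Set.mem_ofPred_eq] at ha
    rw [hC] at ha
    induction g using QuotientGroup.induction_on with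
    | H g => rw [← VQ.mk_smul, hpf _ (A.C_smul g w ha), hpf w ha, A.pf_smul g w ha]
  · -- pf_pos
    intro a ha
    have := A.pf_pos _ ha
    omega
  · -- A1
    intro a ha b c hb hc hlarge
    obtain ⟨w, rfl⟩ := VQ.mk_surj a
    simp only [Set.mem_ofPred_eq] at ha
    rw [hC] at ha
    rw [hpf w ha, n_out ha] at hlarge
    have hn : 0 < n w := by
      obtain ⟨t, ht⟩ := A.n_odd w ha
      omega
    have main : ∀ e ∈ A.qm.I b c, VQ.mk A.K w ∈ A.qm.I b c ∧
        (A.qm.d b e = A.qm.d b (VQ.mk A.K w) → e = VQ.mk A.K w) := by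
      intro e he
      obtain ⟨y, z, x, e1, e2, e3, d1, d2, d3, d4⟩ :=
        lift4 (A := A) (VQ.mk A.K w) c e b w rfl
      subst e1 e2 e3
      have s1 := M.symm x w
      have s2 := A.qm.symm (VQ.mk A.K x) (VQ.mk A.K w)
      obtain ⟨j, g2⟩ := qang_near ha hb hc (by omega) d1
      set a := A.qang (VQ.mk A.K w) (VQ.mk A.K x) (VQ.mk A.K y) with hadef
      have g3 : ((9 * A.pf w : ℕ) : ℤ) ≤ |a + n w * j| := by
        have g3 := zabs_min hn a (-j)
        have e5 : a - n w * -j = a + n w * j := by ring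
        rw [e5] at g3
        omega
      have g4 : (A.pf w : ℤ) ≤ |A.ang w x y| := by
        have g5 := abs_sub_abs_le_abs_sub (a + n w * j) (A.ang w x y)
        have g6 : |a + n w * j - A.ang w x y| = |A.ang w x y - a - n w * j| := by
          rw [← abs_neg]; congr 1; ring
        push_cast at g3
        omega
      have hx' : x ≠ w := by rintro rfl; exact hb rfl
      have hy' : y ≠ w := by rintro rfl; exact hc rfl
      have g5 := A.A1 w ha x y hx' hy' g4
      have g6 := g5.1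
      simp only [GMet.mem_I] at g6 he ⊢
      have s3 := M.symm z x
      have s4 := M.symm y z
      have s5 := A.qm.symm (VQ.mk A.K z) (VQ.mk A.K x)
      have s6 := A.qm.symm (VQ.mk A.K y) (VQ.mk A.K z)
      have t1 := M.tri x z y
      have t2 := A.qm.tri (VQ.mk A.K x) (VQ.mk A.K w) (VQ.mk A.K y)
      refine ⟨by omega, fun h7 => ?_⟩
      rw [g5.2 z (by simp only [GMet.mem_I]; omega) (by omega)]
    have h0 := main b (GMet.left_mem_I b c)
    exact ⟨h0.1, fun e he => (main e he).2⟩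
  · -- A2
    intro a ha u b c hu hb hc hsep
    obtain ⟨w, rfl⟩ := VQ.mk_surj a
    simp only [Set.mem_ofPred_eq] at ha
    rw [hC] at ha
    rw [n_out ha]
    obtain ⟨x, rfl, hx⟩ := hred w b
    obtain ⟨y, rfl, hy⟩ := hred w c
    obtain ⟨u, rfl, hur, hθ⟩ := sep_red ha hy hsep hu hc
    obtain ⟨i, hi⟩ := qang_eq ha hb hc hx hy
    obtain ⟨j, hj⟩ := qang_eq ha hb hu hx hur
    unfold ang at hi hj
    exact ⟨i - j, by linear_combination hi - hj + hθ⟩
  · -- pf
    intro w hw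
    change 9 * A.pf (A.out (VQ.mk A.K w)) = _
    rw [hpf w hw]
  · -- angles
    intro w hw x y hx hy h1 h2
    exact qang_near hw hx hy h1 h2

/-- order of the rotations in the quotient -/
theorem ρ_order {w : V} (hw : w ∈ A.C) (j : ℤ) (h : A.ρ w ^ j ∈ A.K) : (n w : ℤ) ∣ j := by
  obtain ⟨z, hz⟩ := A.nbr w hw
  have hzw : z ≠ w := by rintro rfl; rw [M.self] at hz; omega
  have h1 := mem_H_of_fix hw h (ρ_pow_fix hw j)
  obtain ⟨i, hi⟩ := mem_H.1 h1
  have h2 := θ_ρ_pow hw hzw j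
  rw [hi, θ_ρ_pow hw hzw] at h2
  exact ⟨i, by omega⟩

/-- (TA4) pairs without large angles keep their distance.
Proof: among the `k ∈ K` with `d(x,ky)` minimal choose one with `Φ(y,ky)` minimal; if `k ≠ 1`,
`green` gives `v` with `|ang v y (ky)| ≥ n v - P`, so `|ang v x (ky)| ≥ pf v`, `v ∈ I(x,ky)`; rotate. -/
theorem qm_eq_of_small {x y : V} (hx : x ∉ A.C) (_hy : y ∉ A.C)
    (h : ∀ v ∈ A.C, 10 * |A.ang v x y| ≤ 6 * n v) :
    A.qm.d (VQ.mk A.K x) (VQ.mk A.K y) = M.d x y := by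
  classical
  have hne : ∃ N : ℕ, ∃ k ∈ A.K, M.d x (k • y) = A.qm.d (VQ.mk A.K x) (VQ.mk A.K y) ∧
      A.Φ y (k • y) = N := by
    obtain ⟨k, hk, h⟩ := qm_exists (A := A) x y
    exact ⟨_, k, hk, h, rfl⟩
  obtain ⟨k, hk, h1, h2⟩ := Nat.find_spec hne
  by_cases hky : k • y = y
  · rw [← h1, hky]
  · exfalso
    obtain ⟨v, hv, hvy, hvk, h3⟩ := green' hk hky
    obtain ⟨hn1, hn2⟩ := A.nbig hv
    have hpf : (A.pf v : ℤ) ≤ P := by exact_mod_cast A.pf_le v hv
    have hvx : v ≠ x := by rintro rfl; exact hx hv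
    obtain ⟨r, hr, h4⟩ := exists_red hv hvy.symm hvk.symm
    have hfix := (θ_H hv hvk.symm hr).1
    have h5 := Φ_red hv hvy hvk hr (by omega) h4
    have h6 := h v hv
    have h7 := abs_sub_abs_le_abs_sub (A.ang v y (k • y)) (A.ang v y x)
    have h8 : A.ang v y (k • y) - A.ang v y x = A.ang v x (k • y) := by unfold ang; ring
    have h8' : |A.ang v y x| = |A.ang v x y| := by rw [ang_symm, abs_neg]
    rw [h8, h8'] at h7
    have h9 := mem_I_of_large hv hvx hvk (by omega)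
    have h10 := le_of_mem_I hfix h9 A.isom
    have h11 := qm_le (A := A) x (r • k • y)
    rw [mk_smul_K (H_le_K hv hr), mk_smul_K hk] at h11
    refine Nat.find_min hne (m := A.Φ y (r • k • y)) (by omega)
      ⟨r * k, mul_mem (H_le_K hv hr) hk, ?_, ?_⟩
    · rw [mul_smul]; omega
    · rw [mul_smul]

/-- (TA5) lifting the displacement at both ends of a pair with small angles.
Proof: choose a lift `g'` with `d(x,g'x)` minimal and `k ∈ K` with `d(y,kg'y)` minimal, and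
`Φ(g'y,kg'y)` minimal.  If `k ≠ 1`: `v` with `|ang v (g'y) (kg'y)| ≥ n v - P`; path
`g'y, g'x, x, y, kg'y`; one of the two short sides has angle `≥ pf v`: rotate it (replace `k` by `hk`,
or `g'` by `h⁻¹g'` and `k` by `kh`). -/
theorem lift_disp {x y : V} (hx : x ∉ A.C) (hy : y ∉ A.C)
    (h : ∀ v ∈ A.C, |A.ang v x y| ≤ 100 * P) (g : G ⧸ A.K) :
    ∃ g' : G, (QuotientGroup.mk g' : G ⧸ A.K) = g ∧
      M.d x (g' • x) = A.qm.d (VQ.mk A.K x) (g • VQ.mk A.K x) ∧
      M.d y (g' • y) = A.qm.d (VQ.mk A.K y) (g • VQ.mk A.K y) := by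
  classical
  have hxC : ∀ g : G, g • x ∉ A.C := by
    intro g hg
    apply hx
    have := A.C_smul g⁻¹ _ hg
    rwa [inv_smul_smul] at this
  have hyC : ∀ g : G, g • y ∉ A.C := by
    intro g hg
    apply hy
    have := A.C_smul g⁻¹ _ hg
    rwa [inv_smul_smul] at this
  have hne : ∃ N : ℕ, ∃ (g' k : G), (QuotientGroup.mk g' : G ⧸ A.K) = g ∧ k ∈ A.K ∧
      M.d x (g' • x) = A.qm.d (VQ.mk A.K x) (g • VQ.mk A.K x) ∧
      M.d y (k • g' • y) = A.qm.d (VQ.mk A.K y) (g • VQ.mk A.K y) ∧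
      A.Φ (g' • y) (k • g' • y) = N := by
    induction g using QuotientGroup.induction_on with
    | H g =>
      obtain ⟨k, hk, h1⟩ := qm_exists (A := A) x (g • x)
      obtain ⟨l, hl, h2⟩ := qm_exists (A := A) y ((k * g) • y)
      refine ⟨_, k * g, l, ?_, hl, ?_, ?_, rfl⟩
      · rw [QuotientGroup.mk_mul, (QuotientGroup.eq_one_iff k).2 hk, one_mul]
      · rw [mul_smul, h1, VQ.mk_smul]
      · rw [h2, mul_smul, mk_smul_K hk, VQ.mk_smul]
  obtain ⟨g', k, e1, hk, e2, e3, e4⟩ := Nat.find_spec hne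
  by_cases hky : k • g' • y = g' • y
  · exact ⟨g', e1, e2, by rw [← hky]; exact e3⟩
  · exfalso
    obtain ⟨v, hv, hvy, hvk, h3⟩ := green' hk hky
    obtain ⟨hn1, hn2⟩ := A.nbig hv
    have hpf : (A.pf v : ℤ) ≤ P := by exact_mod_cast A.pf_le v hv
    have hvx : v ≠ x := by rintro rfl; exact hx hv
    have hvy0 : v ≠ y := by rintro rfl; exact hy hv
    have hvgx : v ≠ g' • x := by rintro rfl; exact hxC g' hv
    obtain ⟨r, hr, h4⟩ := exists_red hv hvy.symm hvk.symm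
    have hfix := (θ_H hv hvk.symm hr).1
    have hfix' : r⁻¹ • v = v := by rw [inv_smul_eq_iff]; exact hfix.symm
    have h5 := Φ_red hv hvy hvk hr (by omega) h4
    have h6 := h v hv
    have h7 : |A.ang v (g' • y) (g' • x)| ≤ 100 * P := by
      have k1 := A.C_smul g'⁻¹ v hv
      have k2 := h _ k1
      have k3 : x ≠ g'⁻¹ • v := by rintro rfl; exact hx k1
      have k4 : y ≠ g'⁻¹ • v := by rintro rfl; exact hy k1
      have k5 := ang_smul (A := A) g' k1 k3 k4
      rw [smul_inv_smul] at k5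
      rw [← k5] at k2
      rw [ang_symm, abs_neg]
      exact k2
    have h8 : A.ang v (g' • y) (k • g' • y) = A.ang v (g' • y) (g' • x) + A.ang v (g' • x) x +
        A.ang v x y + A.ang v y (k • g' • y) := by unfold ang; ring
    have h9 : |A.ang v (g' • y) (k • g' • y)| ≤ |A.ang v (g' • y) (g' • x)| +
        |A.ang v (g' • x) x| + |A.ang v x y| + |A.ang v y (k • g' • y)| := by
      rw [h8]
      have t1 := abs_add_le (A.ang v (g' • y) (g' • x) + A.ang v (g' • x) x + A.ang v x y)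
        (A.ang v y (k • g' • y))
      have t2 := abs_add_le (A.ang v (g' • y) (g' • x) + A.ang v (g' • x) x) (A.ang v x y)
      have t3 := abs_add_le (A.ang v (g' • y) (g' • x)) (A.ang v (g' • x) x)
      linarith
    by_cases hcase : (P : ℤ) ≤ |A.ang v y (k • g' • y)|
    · have h10 := le_of_mem_I hfix (mem_I_of_large hv hvy0 hvk hcase) A.isom
      have h11 := qm_le (A := A) y (r • k • g' • y)
      rw [mk_smul_K (H_le_K hv hr), mk_smul_K hk, VQ.mk_smul, e1] at h11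
      refine Nat.find_min hne (m := A.Φ (g' • y) (r • k • g' • y)) (by omega)
        ⟨g', r * k, e1, mul_mem (H_le_K hv hr) hk, e2, ?_, ?_⟩
      · rw [mul_smul]; omega
      · rw [mul_smul]
    · have hcase' : (P : ℤ) ≤ |A.ang v x (g' • x)| := by
        rw [ang_symm v (g' • x) x, abs_neg]; omega
      have h10 := le_of_mem_I hfix' (mem_I_of_large hv hvx hvgx hcase') A.isom
      have h11 := qm_le (A := A) x (r⁻¹ • g' • x)
      have hr' : r⁻¹ ∈ A.K := inv_mem (H_le_K hv hr)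
      rw [mk_smul_K hr', VQ.mk_smul, e1] at h11
      have e5 : (k * r) • (r⁻¹ * g') • y = k • g' • y := by
        rw [mul_smul, mul_smul, smul_inv_smul]
      refine Nat.find_min hne (m := A.Φ (g' • y) (r • k • g' • y)) (by omega)
        ⟨r⁻¹ * g', k * r, ?_, mul_mem hk (H_le_K hv hr), ?_, ?_, ?_⟩
      · rw [QuotientGroup.mk_mul, (QuotientGroup.eq_one_iff _).2 hr', one_mul, e1]
      · rw [mul_smul]; omega
      · rw [e5]; exact e3
      · rw [e5]
        have := A.Φ_smul r ((r⁻¹ * g') • y) (k • g' • y)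
        rw [mul_smul, smul_inv_smul] at this
        rw [mul_smul, this]

end Rot

end Pool.Agent.Helper85.Burn
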