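import Pool.Agent.Helper85.Burn.Defs

/-!
Module CYCSHIFT: elements which shift a linearly ordered set of points by bounded amounts lie in one
cyclic group.
-/

set_option autoImplicit false

namespace Pool.Agent.Helper85.Burn

variable {G V : Type} [Group G] [MulAction G V]

/-- `g` shifts the points `U e`, `e ∈ E`, `lo ≤ e ≤ hi` by `r`, and so does the inverse. -/
def Sh (E : Set ℤ) (U : ℤ → V) (lo hi : ℤ) (g : G) (r : ℤ) : Prop :=
  ∀ e ∈ E, lo ≤ e → e ≤ hi →
    (e + r ∈ E ∧ g • U e = U (e + r)) ∧ (e - r ∈ E ∧ g⁻¹ • U e = U (e - r))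

lemma Sh.mono {E : Set ℤ} {U : ℤ → V} {lo hi lo' hi' : ℤ} {g : G} {r : ℤ}
    (h : Sh E U lo hi g r) (h1 : lo ≤ lo') (h2 : hi' ≤ hi) : Sh E U lo' hi' g r :=
  fun e he h3 h4 => h e he (h1.trans h3) (h4.trans h2)

lemma Sh.inv {E : Set ℤ} {U : ℤ → V} {lo hi : ℤ} {g : G} {r : ℤ}
    (h : Sh E U lo hi g r) : Sh E U lo hi g⁻¹ (-r) := by
  intro e he h1 h2
  obtain ⟨⟨a1, a2⟩, a3, a4⟩ := h e he h1 h2
  have e1 : e + -r = e - r := by ring
  have e2 : e - -r = e + r := by ring
  rw [e1, e2, inv_inv]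
  exact ⟨⟨a3, a4⟩, a1, a2⟩

lemma Sh.mul {E : Set ℤ} {U : ℤ → V} {lo hi t : ℤ} {g g' : G} {r r' : ℤ}
    (h : Sh E U lo hi g r) (h' : Sh E U lo hi g' r') (h1 : |r| ≤ t) (h2 : |r'| ≤ t) :
    Sh E U (lo + t) (hi - t) (g * g') (r + r') := by
  intro e he h3 h4
  rw [abs_le] at h1 h2
  obtain ⟨⟨a1, a2⟩, -⟩ := h' e he (by omega) (by omega)
  obtain ⟨⟨b1, b2⟩, -⟩ := h (e + r') a1 (by omega) (by omega)
  obtain ⟨-, c1, c2⟩ := h e he (by omega) (by omega)
  obtain ⟨-, d1, d2⟩ := h' (e - r) c1 (by omega) (by omega)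
  have e1 : e + (r + r') = e + r' + r := by ring
  have e2 : e - (r + r') = e - r - r' := by ring
  rw [e1, e2, mul_inv_rev, mul_smul, mul_smul, a2, c2]
  exact ⟨⟨b1, b2⟩, d1, d2⟩

lemma Sh.pow {E : Set ℤ} {U : ℤ → V} {lo hi : ℤ} {b : G} {m : ℤ} (hm : 0 ≤ m)
    (h : Sh E U lo hi b m) (i : ℕ) : Sh E U (lo + i * m) (hi - i * m) (b ^ i) (i * m) := by
  induction i with
  | zero =>
    intro e he _ _
    simpa using he
  | succ i ih =>
    intro e he h1 h2
    have hi0 : 0 ≤ (i : ℤ) * m := by positivity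
    have e0 : ((i + 1 : ℕ) : ℤ) * m = i * m + m := by push_cast; ring
    rw [e0] at h1 h2 ⊢
    obtain ⟨⟨a1, a2⟩, -⟩ := h e he (by omega) (by omega)
    obtain ⟨⟨b1, b2⟩, -⟩ := ih (e + m) a1 (by omega) (by omega)
    obtain ⟨-, c1, c2⟩ := ih e he (by omega) (by omega)
    obtain ⟨-, d1, d2⟩ := h (e - i * m) c1 (by omega) (by omega)
    have e1 : e + (i * m + m) = e + m + i * m := by ring
    have e2 : e - (i * m + m) = e - i * m - m := by ring
    rw [e1, e2, pow_succ, mul_inv_rev, mul_smul, mul_smul, a2, c2]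
    exact ⟨⟨b1, b2⟩, d1, d2⟩

lemma Sh.zpow {E : Set ℤ} {U : ℤ → V} {lo hi t : ℤ} {b : G} {m : ℤ} (hm : 0 ≤ m)
    (h : Sh E U lo hi b m) (a : ℤ) (ht : |a * m| ≤ t) :
    Sh E U (lo + t) (hi - t) (b ^ a) (a * m) := by
  rw [abs_le] at ht
  obtain ⟨k, rfl | rfl⟩ := a.eq_nat_or_neg
  · rw [zpow_natCast]
    exact (h.pow hm k).mono (by omega) (by omega)
  · rw [zpow_neg, zpow_natCast]
    have e1 : -(k : ℤ) * m = -(k * m) := by ring
    rw [e1] at ht ⊢
    exact (h.pow hm k).inv.mono (by omega) (by omega)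

/-- Let all elements of `S` shift by at most `q` on `[lo,hi]`; assume that an element which fixes all
`U e` with `e ∈ E` in the deep interval is trivial.  Then `S` lies in a cyclic group, generated by
`1` or by an element with positive shift on the deep interval.
Proof: intervals `I_j = [lo + j(q+1)^2, hi - j(q+1)^2]`, `j ≤ q+1`; `m_j` = least positive shift
`≤ q` of an element of `G` on `I_j` (or none); `m_j` is nonincreasing in `j`; pigeonhole gives
`m_j = m_{j+1}`; division with remainder. -/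
theorem cyc_shift (E : Set ℤ) (U : ℤ → V) (lo hi : ℤ) (q : ℕ) (S : Set G)
    (hS : ∀ g ∈ S, ∃ r : ℤ, |r| ≤ q ∧ Sh E U lo hi g r)
    (hfaith : ∀ g : G, Sh E U (lo + (q + 2) ^ 3) (hi - (q + 2) ^ 3) g 0 → g = 1) :
    ∃ b : G, (∀ g ∈ S, g ∈ Subgroup.zpowers b) ∧
      (b = 1 ∨ ∃ r : ℤ, 0 < r ∧ r ≤ q ∧ Sh E U (lo + (q + 2) ^ 3) (hi - (q + 2) ^ 3) b r) := by
  classical
  set T : ℤ := ((q : ℤ) + 1) ^ 2 with hT
  have hT0 : 0 ≤ T := by positivity
  have hT1 : 4 * (q : ℤ) ≤ T := by
    have := sq_nonneg ((q : ℤ) - 1)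
    rw [hT]; nlinarith
  let Q : ℕ → ℕ → Prop := fun j r => 0 < r ∧ r ≤ q ∧ ∃ g : G, Sh E U (lo + j * T) (hi - j * T) g r
  have hQmono : ∀ j r, Q j r → Q (j + 1) r := by
    rintro j r ⟨h1, h2, g, hg⟩
    refine ⟨h1, h2, g, hg.mono ?_ ?_⟩ <;> push_cast <;> nlinarith
  let f : ℕ → ℕ := fun j => if h : ∃ r, Q j r then Nat.find h else q + 1
  have hf1 : ∀ j, 1 ≤ f j := by
    intro j
    by_cases h : ∃ r, Q j r
    · simp only [f, dif_pos h]
      exact (Nat.find_spec h).1
    · simp only [f, dif_neg h]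
      omega
  have hfle : ∀ j, f j ≤ q + 1 := by
    intro j
    by_cases h : ∃ r, Q j r
    · simp only [f, dif_pos h]
      have := (Nat.find_spec h).2.1
      omega
    · simp only [f, dif_neg h]
      omega
  have hfle' : ∀ j r, Q j r → f j ≤ r := by
    intro j r hr
    have h : ∃ r, Q j r := ⟨r, hr⟩
    simp only [f, dif_pos h]
    exact Nat.find_min' h hr
  have hfQ : ∀ j, f j ≤ q → Q j (f j) := by
    intro j hj
    by_cases h : ∃ r, Q j r
    · simp only [f, dif_pos h]
      exact Nat.find_spec h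
    · simp only [f, dif_neg h] at hj
      omega
  have hanti : ∀ j, f (j + 1) ≤ f j := by
    intro j
    by_cases h : f j ≤ q
    · exact hfle' _ _ (hQmono _ _ (hfQ j h))
    · have := hfle (j + 1)
      omega
  obtain ⟨j, hj, hjf⟩ : ∃ j ≤ q, f j = f (j + 1) := by
    by_contra hcon
    push Not at hcon
    have h : ∀ j ≤ q + 1, f j + j ≤ q + 1 := by
      intro j
      induction j with
      | zero => intro _; simpa using hfle 0
      | succ j ih =>
        intro hj
        have h1 := ih (by omega)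
        have h2 := hanti j
        have h3 := hcon j (by omega)
        omega
    have h1 := h (q + 1) le_rfl
    have h2 := hf1 (q + 1)
    omega
  -- the deep interval is contained in `I_{j+1}`
  have hdeep : ((j : ℤ) + 1) * T ≤ ((q : ℤ) + 2) ^ 3 := by
    have h1 : ((j : ℤ) + 1) * T ≤ ((q : ℤ) + 1) * T := by
      apply mul_le_mul_of_nonneg_right _ hT0
      have : (j : ℤ) ≤ q := by exact_mod_cast hj
      omega
    have h2 : ((q : ℤ) + 1) * T ≤ ((q : ℤ) + 2) ^ 3 := by
      rw [hT]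
      have : (0 : ℤ) ≤ q := by positivity
      nlinarith [sq_nonneg (q : ℤ)]
    exact h1.trans h2
  have hjT : (0 : ℤ) ≤ j * T := by positivity
  have hjT' : ((j : ℤ) + 1) * T = j * T + T := by ring
  have hjT'' : (((j + 1 : ℕ) : ℤ)) * T = j * T + T := by push_cast; ring
  have hS' : ∀ g ∈ S, ∃ r : ℤ, |r| ≤ q ∧ Sh E U (lo + j * T) (hi - j * T) g r := by
    intro g hg
    obtain ⟨r, hr, h⟩ := hS g hg
    exact ⟨r, hr, h.mono (by omega) (by omega)⟩
  by_cases hnone : f j ≤ q
  · obtain ⟨m0, mq, b, hb⟩ := hfQ j hnone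
    set m : ℤ := (f j : ℤ) with hm
    refine ⟨b, ?_, Or.inr ⟨m, by omega, by omega, hb.mono (by omega) (by omega)⟩⟩
    intro g hg
    obtain ⟨r, hr, h⟩ := hS' g hg
    rw [abs_le] at hr
    -- division with remainder
    set a := r / m with ha
    set s := r % m with hs
    have h1 := Int.emod_add_mul_ediv r m
    have h2 := Int.emod_nonneg r (show m ≠ 0 by omega)
    have h3 := Int.emod_lt_of_pos r (show 0 < m by omega)
    rw [← ha, ← hs] at h1
    rw [← hs] at h2 h3
    have e1 : -a * m = -(m * a) := by ring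
    have hb' := hb.zpow (t := 2 * q) (by omega) (-a) (by rw [e1, abs_le]; constructor <;> omega)
    have hg' := (h.mono (lo' := lo + j * T + 2 * q) (hi' := hi - j * T - 2 * q) (by omega)
      (by omega)).mul (t := 2 * q) hb' (by rw [abs_le]; constructor <;> omega)
      (by rw [e1, abs_le]; constructor <;> omega)
    have e2 : r + -a * m = s := by rw [e1]; omega
    rw [e2] at hg'
    have hs0 : s = 0 := by
      by_contra hne
      have h4 : Q (j + 1) s.toNat := by
        refine ⟨by omega, by omega, g * b ^ (-a), ?_⟩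
        have e3 : ((s.toNat : ℕ) : ℤ) = s := Int.toNat_of_nonneg (by omega)
        rw [e3]
        exact hg'.mono (by rw [hjT'']; omega) (by rw [hjT'']; omega)
      have h5 := hfle' _ _ h4
      rw [← hjf] at h5
      omega
    rw [hs0] at hg'
    have h6 := hfaith _ (hg'.mono (by omega) (by omega))
    refine Subgroup.mem_zpowers_iff.2 ⟨a, ?_⟩
    rw [zpow_neg, mul_inv_eq_one] at h6
    exact h6.symm
  · refine ⟨1, ?_, Or.inl rfl⟩
    intro g hg
    obtain ⟨r, hr, h⟩ := hS' g hg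
    rw [abs_le] at hr
    have hr0 : r = 0 := by
      by_contra hne
      rcases lt_or_gt_of_ne hne with h1 | h1
      · have h4 : Q j (-r).toNat := by
          refine ⟨by omega, by omega, g⁻¹, ?_⟩
          have e3 : (((-r).toNat : ℕ) : ℤ) = -r := Int.toNat_of_nonneg (by omega)
          rw [e3]
          exact h.inv
        have := hfle' _ _ h4
        omega
      · have h4 : Q j r.toNat := by
          refine ⟨by omega, by omega, g, ?_⟩
          have e3 : ((r.toNat : ℕ) : ℤ) = r := Int.toNat_of_nonneg (by omega)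
          rw [e3]
          exact h
        have := hfle' _ _ h4
        omega
    rw [hr0] at h
    rw [hfaith g (h.mono (by omega) (by omega))]
    exact one_mem _

end Pool.Agent.Helper85.Burn
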