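import Pool.Agent.Helper85.Burn.CRot
import Pool.Agent.Helper85.Burn.CycShift

/-!
Module CASE1: the elements with small displacement at `x` and `y` lie in a cyclic group, if there are
many apices with large angle between `x` and `y`.
-/

set_option autoImplicit false

namespace Pool.Agent.Helper85.Burn

namespace GMet

variable {V : Type} {M : GMet V}

/-- composition of separations -/
lemma Sep.comp {a w x y : V} (h : M.Sep a x y) (h' : M.Sep w a y) : M.Sep w x y := by
  obtain ⟨h1, h2⟩ := h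
  obtain ⟨h3, h4⟩ := h'
  simp only [mem_I] at h1 h3
  have t1 := M.tri x a w
  have t2 := M.tri x w y
  refine ⟨by simp only [mem_I]; omega, ?_⟩
  intro z hz hzd
  simp only [mem_I] at hz
  -- a geodesic from `x` to `z` passes through `a`
  obtain ⟨c, hc1, hc2⟩ := M.geod x z (M.d x a) (by omega)
  have t3 := M.tri c z y
  have t4 := M.tri x c y
  have hca : c = a := h2 c (by simp only [mem_I]; omega) hc1
  subst hca
  exact h4 z (by simp only [mem_I]; omega) (by omega)

lemma Sep.comp' {b w x y : V} (h : M.Sep b x y) (h' : M.Sep w x b) : M.Sep w x y :=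
  (Sep.comp h.symm h'.symm).symm

lemma pos_of_ne {a b : V} (h : a ≠ b) : 1 ≤ M.d a b := by
  rcases Nat.eq_zero_or_pos (M.d a b) with h1 | h1
  · exact absurd (M.eq_of a b h1) h
  · exact h1

end GMet

namespace CRot

variable {G V : Type} [Group G] [MulAction G V] {M : GMet V} {n : V → ℕ} (A : CRot G V M n)

/-- the apices between `a` and `b` -/
def Z (a b : V) : Set V := {w | w ∈ A.C ∧ (w = a ∨ w = b ∨ M.Sep w a b)}

variable {A}

/-- description of the apices between `a` and `b` by any pair `(x,y)` separated by `a` and `b` -/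
lemma sep_of_Z {a b x y w : V} (ha : M.Sep a x y) (hb : M.Sep b x y)
    (hab : M.d x a < M.d x b) (hw : w ∈ A.Z a b) :
    M.Sep w x y ∧ M.d x w = M.d x a + M.d a w ∧ M.d a w ≤ M.d a b := by
  obtain ⟨hwC, rfl | rfl | hw⟩ := hw
  · exact ⟨ha, by rw [M.self]; omega, by rw [M.self]; omega⟩
  · refine ⟨hb, ?_, le_rfl⟩
    have h1 := (GMet.Sep.right ha hb.1 (by omega)).2.1
    simp only [GMet.mem_I] at h1
    omega
  · have h1 := (GMet.Sep.right ha hb.1 (by omega)).2
    have h2 : M.Sep w x b := GMet.Sep.comp h1 hw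
    have h3 := h1.1
    have h4 := hw.1
    have h5 := h2.1
    simp only [GMet.mem_I] at h3 h4 h5
    exact ⟨GMet.Sep.comp' hb h2, by omega, by omega⟩

lemma Z_of_sep {a b x y w : V} (ha : M.Sep a x y) (hb : M.Sep b x y)
    (hwC : w ∈ A.C) (hw : M.Sep w x y) (h1 : M.d x a ≤ M.d x w)
    (h2 : M.d x w ≤ M.d x b) : w ∈ A.Z a b := by
  refine ⟨hwC, ?_⟩
  by_cases hwa : w = a
  · exact Or.inl hwa
  · by_cases hwb : w = b
    · exact Or.inr (Or.inl hwb)
    · right; right
      obtain ⟨-, h3⟩ := GMet.Sep.left hw ha.1 h1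
      obtain ⟨h4, -⟩ := GMet.Sep.right ha hb.1 (by omega)
      refine (GMet.Sep.right h3 h4 ?_).2
      have h5 := (GMet.Sep.right ha hw.1 h1).2.1
      have h6 := (GMet.Sep.right ha hb.1 (by omega)).2.1
      simp only [GMet.mem_I] at h5 h6
      omega

/-- an apex far from both ends with a large angle separates the translated pair -/
lemma sep_translate {q : ℕ} {x y v : V} (hv : v ∈ A.C) (h1 : q < M.d x v) (h2 : q < M.d v y)
    (h3 : 3 * A.pf v ≤ zabs (n v) (A.ang v x y)) {x' y' : V} (hx : M.d x x' ≤ q) (hy : M.d y y' ≤ q) :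
    M.Sep v x' y' := by
  have hvx : x ≠ v := by rintro rfl; rw [M.self] at h1; omega
  have hvy : y ≠ v := by rintro rfl; rw [M.self] at h2; omega
  have hvx' : x' ≠ v := by rintro rfl; omega
  have hvy' : y' ≠ v := by
    rintro rfl
    have := M.symm y y'
    omega
  have k1 : zabs (n v) (A.ang v x' x) < A.pf v := by
    by_contra hcon
    push Not at hcon
    have h4 := (A.A1 v hv x' x hvx' hvx hcon).1
    simp only [GMet.mem_I] at h4
    have := M.symm x v
    have := M.symm x' x
    omega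
  have k2 : zabs (n v) (A.ang v y y') < A.pf v := by
    by_contra hcon
    push Not at hcon
    have h4 := (A.A1 v hv y y' hvy hvy' hcon).1
    simp only [GMet.mem_I] at h4
    have := M.symm y v
    omega
  have e1 := zabs_ang_add_le hv hvx hvx' hvy
  have e2 := zabs_ang_add_le hv hvx' hvy' hvy
  rw [zabs_ang_symm hv hvx' hvx] at e1
  rw [zabs_ang_symm hv hvy hvy'] at e2
  exact A.A1 v hv x' y' hvx' hvy' (by omega)

/-- Proof.  Let `v ∈ B`.  For `g ∈ S` the apex `v` is not in `I(x,gx)`, `I(y,gy)`, so the angle of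
`(gx,gy)` at `v` is `≥ pf v` and `v` separates `(gx,gy)` (and `(x,y)`).  Let `a`, `b` be the elements
of `B` nearest to and farthest from `x`.  `E = {d(a,z) : z ∈ C, Sep z a b or z = a or z = b}`,
`U e` the corresponding apex; `D = d(a,b)`.  For `g ∈ S`: `a`, `b`, `g a`, `g b` and all `z`, `g z`
are separating for `(gx,gy)`.  The set of apices separating `(gx,gy)` which are between `a` and `b` is
exactly `{U e}`; the position of `g z` relative to `a` (measured from `gx`) is the position of `z`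
plus the constant `r = ±d(a,ga)`, `|r| = |d(x,a) - d(gx,a)| ≤ q`.  So `Sh E U q (D-q) g r`.
Faithful: two different apices fixed (`fix_two`); `E` has at least `card B` elements in `[0,D]`.
Generator `b` with positive shift `r`: take `v ∈ B` deep; `ang v (b⁻¹ v) (b v) = ang v x y` by A2 (as
`b⁻¹ v`, `b v` separate `v` from `x`, `y`), so `b` has infinite order by `inf_of_ang`. -/
theorem caseI (A : CRot G V M n) (q : ℕ) (x y : V) (B : Finset V)
    (hcard : 10 * (q + 4) ^ 3 ≤ B.card)
    (hB : ∀ v ∈ B, v ∈ A.C ∧ q < M.d x v ∧ q < M.d v y ∧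
      3 * A.pf v ≤ zabs (n v) (A.ang v x y)) :
    ∃ b : G, (b = 1 ∨ Inf b) ∧
      ∀ g : G, M.d x (g • x) ≤ q → M.d y (g • y) ≤ q → g ∈ Subgroup.zpowers b := by
  classical
  have hsep : ∀ v ∈ B, ∀ x' y' : V, M.d x x' ≤ q → M.d y y' ≤ q → M.Sep v x' y' := by
    intro v hv x' y' hx hy
    obtain ⟨h1, h2, h3, h4⟩ := hB v hv
    exact sep_translate h1 h2 h3 h4 hx hy
  have hsep0 : ∀ v ∈ B, M.Sep v x y := fun v hv =>
    hsep v hv x y (by rw [M.self]; omega) (by rw [M.self]; omega)
  have hBne : B.Nonempty := by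
    rw [← Finset.card_pos]
    have : 0 < 10 * (q + 4) ^ 3 := by positivity
    omega
  obtain ⟨a, haB, ha⟩ := B.exists_min_image (fun v => M.d x v) hBne
  obtain ⟨b, hbB, hb⟩ := B.exists_max_image (fun v => M.d x v) hBne
  have hinj : Set.InjOn (fun v => M.d x v) (B : Set V) := by
    intro v hv u hu huv
    exact (hsep0 u hu).2 v (hsep0 v hv).1 huv
  -- positions of the elements of `B`
  have hdab : ∀ v ∈ B, M.d x v = M.d x a + M.d a v := by
    intro v hv
    have h1 := (GMet.Sep.right (hsep0 a haB) (hsep0 v hv).1 (ha v hv)).2.1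
    simp only [GMet.mem_I] at h1
    omega
  set D := M.d a b with hD
  have hcardD : B.card ≤ D + 1 := by
    have h1 : (B.image fun v => M.d a v) ⊆ Finset.range (D + 1) := by
      intro e he
      obtain ⟨v, hv, rfl⟩ := Finset.mem_image.1 he
      have h2 := hdab v hv
      have h3 := hdab b hbB
      have h4 := hb v hv
      rw [Finset.mem_range]
      omega
    have h2 := Finset.card_le_card h1
    rw [Finset.card_range, Finset.card_image_of_injOn] at h2
    · exact h2
    · intro v hv u hu huv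
      apply hinj hv hu
      change M.d x v = M.d x u
      have h3 : M.d a v = M.d a u := huv
      rw [hdab v hv, hdab u hu, h3]
  have hq3 : q + 4 ≤ (q + 4) ^ 3 := Nat.le_self_pow (by norm_num) _
  have hDq : 10 * (q + 4) ≤ D + 1 := by omega
  have hxab : M.d x a < M.d x b := by
    have := hdab b hbB
    omega
  -- the apices between `a` and `b`
  let E : Set ℤ := {e | ∃ w ∈ A.Z a b, (M.d a w : ℤ) = e}
  let U : ℤ → V := fun e => if h : ∃ w ∈ A.Z a b, (M.d a w : ℤ) = e then h.choose else a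
  have hUmem : ∀ e ∈ E, U e ∈ A.Z a b ∧ (M.d a (U e) : ℤ) = e := by
    intro e he
    have h : ∃ w ∈ A.Z a b, (M.d a w : ℤ) = e := he
    simp only [U, dif_pos h]
    exact h.choose_spec
  have hZinj : ∀ w ∈ A.Z a b, ∀ w' ∈ A.Z a b, M.d a w = M.d a w' → w = w' := by
    intro w hw w' hw' h
    obtain ⟨h1, h2, -⟩ := sep_of_Z (hsep0 a haB) (hsep0 b hbB) hxab hw
    obtain ⟨h3, h4, -⟩ := sep_of_Z (hsep0 a haB) (hsep0 b hbB) hxab hw'
    exact h3.2 w h1.1 (by omega)
  have hUeq : ∀ w ∈ A.Z a b, ∀ e : ℤ, (M.d a w : ℤ) = e → e ∈ E ∧ U e = w := by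
    intro w hw e he
    have h1 : e ∈ E := ⟨w, hw, he⟩
    obtain ⟨h2, h3⟩ := hUmem e h1
    exact ⟨h1, hZinj _ h2 _ hw (by omega)⟩
  have hBZ : ∀ v ∈ B, v ∈ A.Z a b := by
    intro v hv
    exact Z_of_sep (hsep0 a haB) (hsep0 b hbB) (hB v hv).1 (hsep0 v hv) (ha v hv) (hb v hv)
  set S : Set G := {g | M.d x (g • x) ≤ q ∧ M.d y (g • y) ≤ q} with hSdef
  have hsmul : ∀ (g : G) (w x' y' : V), M.Sep w x' y' → M.Sep (g • w) (g • x') (g • y') := by
    rintro g w x' y' ⟨h1, h2⟩
    simp only [GMet.mem_I] at h1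
    refine ⟨?_, ?_⟩
    · simp only [GMet.mem_I]
      rw [A.isom, A.isom, A.isom]
      exact h1
    · intro z hz hzd
      simp only [GMet.mem_I] at hz
      have e1 := A.isom g x' (g⁻¹ • z)
      have e2 := A.isom g (g⁻¹ • z) y'
      rw [smul_inv_smul] at e1 e2
      have h3 := h2 (g⁻¹ • z) (by
        simp only [GMet.mem_I]
        rw [A.isom] at hz
        omega) (by rw [A.isom] at hzd; omega)
      rw [inv_smul_eq_iff] at h3
      exact h3
  have hS : ∀ g ∈ S, ∃ r : ℤ, |r| ≤ q ∧ Sh E U q (D - q) g r := by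
    rintro g ⟨hgx, hgy⟩
    have sa := hsep a haB _ _ hgx hgy
    have sb := hsep b hbB _ _ hgx hgy
    have t1 := M.tri x (g • x) a
    have t2 := M.tri (g • x) x a
    have t3 := M.tri x (g • x) b
    have t4 := M.tri (g • x) x b
    have t5 := M.symm x (g • x)
    have hb' := hdab b hbB
    have hab' : M.d (g • x) a < M.d (g • x) b := by
      by_contra hcon
      push Not at hcon
      have h1 := (GMet.Sep.right sb sa.1 hcon).2.1
      simp only [GMet.mem_I] at h1
      have := M.symm a b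
      omega
    refine ⟨(M.d x a : ℤ) - M.d (g • x) a, by rw [abs_le]; constructor <;> omega, ?_⟩
    intro e he h1 h2
    obtain ⟨hz, hze⟩ := hUmem e he
    set z := U e with hzdef
    obtain ⟨s1, s2, s3⟩ := sep_of_Z (hsep0 a haB) (hsep0 b hbB) hxab hz
    obtain ⟨s4, s5, s6⟩ := sep_of_Z sa sb hab' hz
    have hbx : M.d (g • x) b = M.d (g • x) a + D := by
      have h3 := (GMet.Sep.right sa sb.1 (by omega)).2.1
      simp only [GMet.mem_I] at h3
      omega
    constructor
    · -- `g z`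
      have h3 := hsmul g z x y s1
      have h4 := A.isom g x z
      have h5 : g • z ∈ A.Z a b := by
        refine Z_of_sep sa sb (A.C_smul g z hz.1) h3 ?_ ?_ <;> omega
      have h6 := (sep_of_Z sa sb hab' h5).2.1
      obtain ⟨h7, h8⟩ := hUeq _ h5 (e + ((M.d x a : ℤ) - M.d (g • x) a)) (by omega)
      exact ⟨h7, h8.symm⟩
    · -- `g⁻¹ z`
      have h3 := hsmul g⁻¹ z _ _ s4
      rw [inv_smul_smul, inv_smul_smul] at h3
      have h4 := A.isom g x (g⁻¹ • z)
      rw [smul_inv_smul] at h4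
      have h5 : g⁻¹ • z ∈ A.Z a b := by
        refine Z_of_sep (hsep0 a haB) (hsep0 b hbB) (A.C_smul _ z hz.1) h3 ?_ ?_ <;> omega
      have h6 := (sep_of_Z (hsep0 a haB) (hsep0 b hbB) hxab h5).2.1
      obtain ⟨h7, h8⟩ := hUeq _ h5 (e - ((M.d x a : ℤ) - M.d (g • x) a)) (by omega)
      exact ⟨h7, h8.symm⟩
  -- deep elements of `B`
  set lo : ℤ := (q : ℤ) + (q + 2) ^ 3 with hlo
  set hi : ℤ := (D : ℤ) - q - (q + 2) ^ 3 with hhi
  have hpow : 4 * (q + (q + 2) ^ 3) + 4 ≤ 10 * (q + 4) ^ 3 := by nlinarith [sq_nonneg q]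
  have hdeep : ∃ v ∈ B, ∃ v' ∈ B, v ≠ v' ∧ (lo ≤ M.d a v ∧ (M.d a v : ℤ) ≤ hi) ∧
      (lo ≤ M.d a v' ∧ (M.d a v' : ℤ) ≤ hi) := by
    set B' := B.filter fun v => lo ≤ M.d a v ∧ (M.d a v : ℤ) ≤ hi with hB'
    have hc : 1 < B'.card := by
      by_contra hcon
      push Not at hcon
      have h1 : (B \ B').image (fun v => M.d a v) ⊆
          Finset.range (q + (q + 2) ^ 3) ∪ Finset.Ioc (D - q - (q + 2) ^ 3) D := by
        intro e he
        obtain ⟨v, hv, rfl⟩ := Finset.mem_image.1 he
        rw [Finset.mem_sdiff] at hv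
        obtain ⟨hv1, hv2⟩ := hv
        have h2 := hdab v hv1
        have h3 := hdab b hbB
        have h4 := hb v hv1
        rw [Finset.mem_union, Finset.mem_range, Finset.mem_Ioc]
        by_contra h5
        push Not at h5
        apply hv2
        refine Finset.mem_filter.2 ⟨hv1, ?_, ?_⟩
        · rw [hlo]
          have := h5.1
          exact_mod_cast this
        · rw [hhi]
          by_contra h6
          push Not at h6
          have h7 : D - q - (q + 2) ^ 3 < M.d a v := by
            zify at h6 ⊢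
            have h8 : q + (q + 2) ^ 3 ≤ D := by omega
            have h9 : ((D - q - (q + 2) ^ 3 : ℕ) : ℤ) = (D : ℤ) - q - (q + 2) ^ 3 := by
              rw [Nat.sub_sub, Nat.cast_sub h8]
              push_cast; ring
            rw [h9]
            exact h6
          have := h5.2 h7
          omega
      have h2 := Finset.card_le_card h1
      have h3 := Finset.card_union_le (Finset.range (q + (q + 2) ^ 3))
        (Finset.Ioc (D - q - (q + 2) ^ 3) D)
      rw [Finset.card_image_of_injOn] at h2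
      · rw [Finset.card_range, Nat.card_Ioc] at h3
        have h4 := Finset.card_sdiff_add_card_inter B B'
        have h5 : B ∩ B' = B' := Finset.inter_eq_right.2 (Finset.filter_subset _ _)
        rw [h5] at h4
        omega
      · intro v hv u hu huv
        have hv' := (Finset.mem_sdiff.1 (Finset.mem_coe.1 hv)).1
        have hu' := (Finset.mem_sdiff.1 (Finset.mem_coe.1 hu)).1
        apply hinj hv' hu'
        change M.d x v = M.d x u
        have h3 : M.d a v = M.d a u := huv
        rw [hdab v hv', hdab u hu', h3]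
    obtain ⟨v, hv, v', hv', hne⟩ := Finset.one_lt_card.1 hc
    obtain ⟨h1, h2⟩ := Finset.mem_filter.1 hv
    obtain ⟨h3, h4⟩ := Finset.mem_filter.1 hv'
    exact ⟨v, h1, v', h3, hne, h2, h4⟩
  obtain ⟨v, hvB, v', hv'B, hvv', hvd, hv'd⟩ := hdeep
  have hlo' : ((q : ℕ) : ℤ) + (q + 2) ^ 3 = lo := rfl
  have hhi' : ((D : ℤ) - q) - (q + 2) ^ 3 = hi := rfl
  obtain ⟨g₀, hg₀, hcase⟩ := cyc_shift E U q (D - q) q S hS (by
    intro g hg
    rw [hlo', hhi'] at hg
    obtain ⟨e1, e2⟩ := hUeq v (hBZ v hvB) _ rfl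
    obtain ⟨e3, e4⟩ := hUeq v' (hBZ v' hv'B) _ rfl
    have f1 := (hg _ e1 hvd.1 hvd.2).1.2
    have f2 := (hg _ e3 hv'd.1 hv'd.2).1.2
    rw [add_zero, e2] at f1
    rw [add_zero, e4] at f2
    exact fix_two (hB v hvB).1 hvv'.symm f1 f2)
  refine ⟨g₀, ?_, fun g h1 h2 => hg₀ g ⟨h1, h2⟩⟩
  rcases hcase with h | ⟨r, hr0, hrq, hr⟩
  · exact Or.inl h
  · right
    rw [hlo', hhi'] at hr
    obtain ⟨e1, e2⟩ := hUeq v (hBZ v hvB) _ rfl
    obtain ⟨⟨f1, f2⟩, f3, f4⟩ := hr _ e1 hvd.1 hvd.2
    rw [e2] at f2 f4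
    obtain ⟨p1, p2⟩ := hUmem _ f1
    obtain ⟨p3, p4⟩ := hUmem _ f3
    rw [← f2] at p1 p2
    rw [← f4] at p3 p4
    obtain ⟨s1, s2, -⟩ := sep_of_Z (hsep0 a haB) (hsep0 b hbB) hxab p1
    obtain ⟨s3, s4, -⟩ := sep_of_Z (hsep0 a haB) (hsep0 b hbB) hxab p3
    have hvC := (hB v hvB).1
    have hxv := hdab v hvB
    have n1 : g₀ • v ≠ v := by intro h; rw [h] at p2; omega
    have n2 : g₀⁻¹ • v ≠ v := by intro h; rw [h] at p4; omega
    have hvx : x ≠ v := by
      rintro rfl
      have := (hB x hvB).2.1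
      rw [M.self] at this
      omega
    have hvy : y ≠ v := by
      rintro rfl
      have := (hB y hvB).2.2.1
      rw [M.self] at this
      omega
    have t1 := (GMet.Sep.left s1 (hsep0 v hvB).1 (by omega)).2
    have t2 := (GMet.Sep.right s3 (hsep0 v hvB).1 (by omega)).2
    refine inf_of_ang hvC n1 ?_
    have k1 := A.A2 v hvC (g₀ • v) (g₀⁻¹ • v) y n1 n2 hvy t1
    have k2 := A.A2 v hvC (g₀⁻¹ • v) y x n2 hvy hvx t2.symm
    have k3 : zabs (n v) (A.ang v (g₀⁻¹ • v) (g₀ • v)) = zabs (n v) (A.ang v x y) := by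
      rw [← zabs_congr k1, zabs_ang_symm hvC hvy n2, ← zabs_congr k2,
        zabs_ang_symm hvC hvx hvy]
    rw [k3]
    have := (hB v hvB).2.2.2
    omega

end CRot

end Pool.Agent.Helper85.Burn
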