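import Pool.Agent.Helper85.Burn.H2
import Pool.Agent.Helper85.Burn.CaseI

/-!
Module CASE2: elements of the quotient with small displacement at two far points lie in a cyclic group;
the case of a long part without large angles, which is lifted to `V`.
-/

set_option autoImplicit false

namespace Pool.Agent.Helper85.Burn

namespace Full

variable {p : Par} {G V C : Type} [Group G] [MulAction G V] [MulAction G C] {M : GMet V}
  {S : Lines G V C M p} {M' : GMet (V ⊕ C)} {n : V ⊕ C → ℕ}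

/-- numerical facts about the constants -/
lemma par_consts (p : Par) : 1 ≤ p.L ∧ p.L ≤ p.R ∧ 1 ≤ p.R ∧ p.P0 = 5000 * p.R ∧
    p.R = 10 ^ 6 * p.L ∧ 1000 * p.δ ≤ p.L ∧ p.κ ≤ p.Δ ∧ 1 ≤ p.κ ∧ 1000 * p.Δ ≤ p.L := by
  have h1 := p.hδ
  have h2 := p.hq
  have h3 := p.hκ
  have h4 := p.hΔ
  have h5 := p.hL
  have h6 : p.δ ≤ p.κ := by
    have h7 : p.δ ≤ 10 ^ 20 * p.δ ^ 2 * p.q := by nlinarith
    omega
  have h8 : 1 ≤ p.κ := by omega
  have h9 : p.κ ≤ p.κ ^ 5 := by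
    calc p.κ = p.κ ^ 1 := (pow_one _).symm
      _ ≤ p.κ ^ 5 := Nat.pow_le_pow_right h8 (by norm_num)
  have h10 : p.R = 10 ^ 6 * p.L := rfl
  have h11 : p.P0 = 5000 * p.R := rfl
  refine ⟨by omega, by omega, by omega, h11, h10, by omega, by omega, h8, h5⟩

/-- all projections of `x` and `y` to the lines are within `E` -/
def PB (S : Lines G V C M p) (E : ℕ) (x y : V) : Prop :=
  ∀ w i j, Near M (S.y w) x i → Near M (S.y w) y j → M.d (S.y w i) (S.y w j) ≤ E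

/-- steps shorter than `pf` -/
lemma pf_short (D : Coned p G V C M S M') (w : C) (i : ℤ) (r : ℕ) (hr : r ≤ pfw S w) :
    M.d (S.y w i) (S.y w (i + r)) ≤ 5 * p.P0 := by
  obtain ⟨c1, c2, c3, c4, c5, c6, c7, c8, c9⟩ := par_consts p
  rcases Nat.eq_or_lt_of_le hr with h | h
  · rw [h]
    exact D.pf_near w i
  · rcases Nat.eq_zero_or_pos r with h0 | h0
    · subst h0
      rw [Nat.cast_zero, add_zero, M.self]
      exact Nat.zero_le _
    · have h1 : ¬ (1 ≤ r ∧ 4 * p.P0 + p.L ≤ M.d (S.y w 0) (S.y w r)) := by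
        intro hcon
        have h2 : pfw S w ≤ r := by
          unfold pfw
          exact Nat.find_min' _ hcon
        omega
      have h2 := S.d_shift D w 0 (r : ℤ) i
      rw [zero_add, add_comm] at h2
      rw [h2]
      by_contra hcon
      exact h1 ⟨h0, by omega⟩

lemma pf_mul (D : Coned p G V C M S M') (w : C) (t : ℕ) : ∀ (i : ℤ) (r : ℕ), r ≤ t * pfw S w →
    M.d (S.y w i) (S.y w (i + r)) ≤ 5 * p.P0 * t := by
  induction t with
  | zero =>
    intro i r hr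
    have : r = 0 := by omega
    subst this
    rw [Nat.cast_zero, add_zero, M.self]
    exact Nat.zero_le _
  | succ t ih =>
    intro i r hr
    rcases le_total r (pfw S w) with h | h
    · have h1 := pf_short D w i r h
      nlinarith
    · have h1 := pf_short D w i (pfw S w) le_rfl
      have h2 := ih (i + pfw S w) (r - pfw S w) (by
        rw [Nat.add_mul, one_mul] at hr
        omega)
      have h3 : i + (pfw S w : ℤ) + ((r - pfw S w : ℕ) : ℤ) = i + r := by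
        rw [Nat.cast_sub h]
        ring
      rw [h3] at h2
      have h4 := M.tri (S.y w i) (S.y w (i + pfw S w)) (S.y w (i + r))
      nlinarith

/-- small angles imply small projections.
Proof: `th_near`, `pf_near` (42 times, `d_shift`): `42 · 5 P0 + 2 P0`. -/
lemma pb_of_ang (F : Full p G V C M S M' n) {x y : V}
    (h : ∀ w : C, |F.A.ang (Sum.inr w) (Sum.inl x) (Sum.inl y)| ≤ 42 * F.A.pf (Sum.inr w)) :
    PB S (212 * p.P0) x y := by
  intro w i j hi hj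
  have h1 := F.D.th_near hi
  have h2 := F.D.th_near hj
  have h3 := h w
  unfold Rot.ang at h3
  rw [F.hθ, F.hθ, F.hpf] at h3
  set a := th S M' w (Sum.inl x)
  set b := th S M' w (Sum.inl y)
  have h4 : M.d (S.y w a) (S.y w b) ≤ 210 * p.P0 := by
    rcases le_total a b with hab | hab
    · have h5 := pf_mul F.D w 42 a (b - a).toNat (by
        rw [abs_of_nonneg (by omega)] at h3
        omega)
      rw [Int.toNat_of_nonneg (by omega), add_sub_cancel] at h5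
      omega
    · have h5 := pf_mul F.D w 42 b (a - b).toNat (by
        rw [abs_of_nonpos (by omega)] at h3
        omega)
      rw [Int.toNat_of_nonneg (by omega), add_sub_cancel, M.symm] at h5
      omega
  have h5 := M.tri (S.y w i) (S.y w a) (S.y w j)
  have h6 := M.tri (S.y w a) (S.y w b) (S.y w j)
  rw [M.symm (S.y w a) (S.y w i)] at h1
  omega

lemma PB.symm {E : ℕ} {x y : V} (h : PB S E x y) : PB S E y x := by
  intro w i j hi hj
  rw [M.symm]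
  exact h w j i hj hi

/-- points near `I(x,y)`.  Proof: (PJ) twice: first `(x, s, y)`, then `(y, t, s)`; the excess of `t`
in `I(s,y)` is `≤ 20 δ` by (h3). -/
lemma PB.sub (D : Coned p G V C M S M') {E : ℕ} {x y s t : V} (h : PB S E x y)
    (hs : M.d x s + M.d s y ≤ M.d x y + 6 * p.δ) (ht : M.d x t + M.d t y ≤ M.d x y + 6 * p.δ) :
    PB S (E + p.P0) s t := by
  obtain ⟨c1, c2, c3, c4, c5, c6, c7, c8, c9⟩ := par_consts p
  have hM := D.hH.hyp
  have key : ∀ s t : V, M.d x s + M.d s y ≤ M.d x y + 6 * p.δ →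
      M.d x t + M.d t y ≤ M.d x y + 6 * p.δ → M.d x s ≤ M.d x t → PB S (E + p.P0) s t := by
    intro s t hs ht hst w i j hi hj
    obtain ⟨a, ha⟩ := S.exists_near w x
    obtain ⟨b, hb⟩ := S.exists_near w y
    have h1 := GMet.h3 hM hs ht
    have hc := p.C2_le
    have h2 := PJ hM (S.qline w) ha hi hb hs
    have h3 := h w a b ha hb
    rw [abs_of_nonpos (by omega)] at h1
    have h4 : M.d y t + M.d t s ≤ M.d y s + 20 * p.δ := by
      have h5 := M.tri x s y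
      rw [M.symm y t, M.symm t s, M.symm y s]
      omega
    have h5 := PJ hM (S.qline w) hb hj hi h4
    rw [M.symm (S.y w j), M.symm (S.y w b)] at h5
    omega
  rcases le_total (M.d x s) (M.d x t) with hst | hst
  · exact key s t hs ht hst
  · exact (key t s ht hs hst).symm

/-- comparison of the metrics along `I(x,y)`: `transfer`. -/
lemma PB.le (D : Coned p G V C M S M') {x y s t : V} (h : PB S (212 * p.P0) x y)
    (hs : M.d x s + M.d s y ≤ M.d x y + 6 * p.δ) (ht : M.d x t + M.d t y ≤ M.d x y + 6 * p.δ) :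
    M.d s t ≤ 216 * p.P0 * M'.d (Sum.inl s) (Sum.inl t) := by
  obtain ⟨c1, c2, c3, c4, c5, c6, c7, c8, c9⟩ := par_consts p
  have h1 := D.transfer (PB.sub D h hs ht)
  refine h1.trans (Nat.mul_le_mul_right _ (by omega))

/-- displacement at a point between.  Proof: (h1) for `g u ∈ I(gx,gy)` and `z = u`. -/
lemma disp_between {W : Type} {Γ : Type} [Group Γ] [MulAction Γ W] {N : GMet W} {δ T : ℕ}
    (hN : N.Hyp4 δ) (hG : N.Isom Γ) {x y u : W} {g : Γ} (hx : N.d x (g • x) ≤ T)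
    (hy : N.d y (g • y) ≤ T) (hu : u ∈ N.I x y) : N.d u (g • u) ≤ T + 2 * δ := by
  rw [GMet.mem_I] at hu
  have h1 : N.d (g • x) (g • u) + N.d (g • u) (g • y) ≤ N.d (g • x) (g • y) + 0 := by
    rw [hG, hG, hG]
    omega
  rcases GMet.h1 hN h1 u with h | h
  · rw [hG g u y] at h
    have h2 := N.tri (g • y) y u
    rw [N.symm (g • y) y, N.symm y u] at h2
    rw [N.symm (g • u) u] at h
    omega
  · rw [hG g x u] at h
    have h2 := N.tri (g • x) x u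
    rw [N.symm (g • x) x] at h2
    rw [N.symm (g • u) u] at h
    omega

lemma smul_inl (g : G) (x : V) : g • (Sum.inl x : V ⊕ C) = Sum.inl (g • x) := rfl

lemma smul_inr (g : G) (w : C) : g • (Sum.inr w : V ⊕ C) = Sum.inr (g • w) := rfl

/-- (CD) from small displacement in the coned-off graph to small displacement in `V`.
Let `x, y : V` have projections within `212 P0`, `g` moves `x` and `y` by at most `T'` in the coned-off
graph, `x₂ ∈ I(x,y)` at distance `> 216 P0 (T' + 600)` from both.  Then `d(x₂,g x₂) ≤ 8δ + 216 P0 (T' +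
2 δ + 201)`.
Proof.  `d'(x₂,gx₂) ≤ T' + 2δ + 200` (`Coned.near`, `disp_between`).  `g x₂ ∈ I(gx,gy)`; thin
quadrilateral `gx, x, y, gy` (`GMet.thin` twice): `g x₂` is within `8δ` of a point `s` of `I(gx,x)`,
`I(x,y)` or `I(y,gy)`.  If `s ∈ I(x,y)`: `PB.le`.  If `s ∈ I(x,gx)`: `d'(s,gx) ≤ T' + 100` (`Coned.near`
for `I(gx,x)`), so `d'(x₂,x) = d'(gx₂,gx) ≤ T' + 101` and `d(x,x₂) ≤ 216 P0 (T' + 101)`,
contradiction. -/
lemma disp_V (F : Full p G V C M S M' n) {x y x₂ : V} {T' : ℕ} {g : G} (h : PB S (212 * p.P0) x y)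
    (hx : M'.d (Sum.inl x) (Sum.inl (g • x)) ≤ T') (hy : M'.d (Sum.inl y) (Sum.inl (g • y)) ≤ T')
    (h2 : x₂ ∈ M.I x y) (h3 : 216 * p.P0 * (T' + 600) < M.d x x₂)
    (h4 : 216 * p.P0 * (T' + 600) < M.d x₂ y) :
    M.d x₂ (g • x₂) ≤ 8 * p.δ + 216 * p.P0 * (T' + 2 * p.δ + 201) := by
  obtain ⟨c1, c2, c3, c4, c5, c6, c7, c8, c9⟩ := par_consts p
  have hM := F.D.hH.hyp
  have hG := F.D.hH.isom
  have hM' := F.D.hyp4
  have hG' := F.D.isom
  have h2' : M.d x x₂ + M.d x₂ y = M.d x y := h2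
  -- displacement of `x₂` in the coned-off graph
  have e1 : M'.d (Sum.inl x₂) (Sum.inl (g • x₂)) ≤ T' + 2 * p.δ + 200 := by
    obtain ⟨α, hα⟩ := GMet.exists_geo M' (Sum.inl x) (Sum.inl y)
    obtain ⟨i, hi, hi2⟩ := F.D.near h2 hα
    have h5 := disp_between (g := g) hM' hG' (T := T') hx hy (hα.mem_I hi).1
    have h6 := M'.tri (Sum.inl x₂) (α i) (Sum.inl (g • x₂))
    have h7 := M'.tri (α i) (g • α i) (Sum.inl (g • x₂))
    have h8 : M'.d (g • α i) (Sum.inl (g • x₂)) = M'.d (Sum.inl x₂) (α i) := by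
      rw [← smul_inl, hG', M'.symm]
    omega
  -- a point near the end
  have e2 : ∀ z s : V, M'.d (Sum.inl z) (Sum.inl (g • z)) ≤ T' → s ∈ M.I (g • z) z →
      M.d (g • x₂) s ≤ 8 * p.δ → M'.d (Sum.inl x₂) (Sum.inl z) ≤ T' + 101 := by
    intro z s hz hs hd
    obtain ⟨α, hα⟩ := GMet.exists_geo M' (Sum.inl (g • z)) (Sum.inl z)
    obtain ⟨i, hi, hi2⟩ := F.D.near hs hα
    have h5 := (hα.mem_I hi).2.1
    have h6 := M'.tri (Sum.inl (g • z)) (α i) (Sum.inl s)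
    rw [M'.symm (α i)] at h6
    have h7 : M'.d (Sum.inl (g • x₂)) (Sum.inl s) ≤ 1 := F.D.d_le (k := 1) (by omega)
    have h8 := M'.tri (Sum.inl (g • x₂)) (Sum.inl s) (Sum.inl (g • z))
    rw [M'.symm (Sum.inl s)] at h8
    have h9 : M'.d (Sum.inl (g • x₂)) (Sum.inl (g • z)) = M'.d (Sum.inl x₂) (Sum.inl z) := by
      rw [← smul_inl, ← smul_inl, hG']
    rw [M'.symm (Sum.inl (g • z)) (Sum.inl z)] at hi
    omega
  have hgx : g • x₂ ∈ M.I (g • x) (g • y) := by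
    rw [GMet.mem_I, hG, hG, hG]
    exact h2
  have e3 : ∃ s, (s ∈ M.I (g • x) x ∨ s ∈ M.I x y ∨ s ∈ M.I (g • y) y) ∧
      M.d (g • x₂) s ≤ 8 * p.δ := by
    obtain ⟨q, hq, hq2⟩ := GMet.thin hM hgx x
    rcases hq with hq | hq
    · exact ⟨q, Or.inl hq, by omega⟩
    · obtain ⟨s, hs, hs2⟩ := GMet.thin hM hq y
      have h5 := M.tri (g • x₂) q s
      rcases hs with hs | hs
      · exact ⟨s, Or.inr (Or.inl hs), by omega⟩
      · rw [GMet.I_symm] at hs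
        exact ⟨s, Or.inr (Or.inr hs), by omega⟩
  obtain ⟨s, hs, hs2⟩ := e3
  have ex : M.d x x + M.d x y ≤ M.d x y + 6 * p.δ := by
    rw [M.self]
    omega
  have ey : M.d x y + M.d y y ≤ M.d x y + 6 * p.δ := by
    rw [M.self]
    omega
  have ex2 : M.d x x₂ + M.d x₂ y ≤ M.d x y + 6 * p.δ := by omega
  rcases hs with hs | hs | hs
  · exfalso
    have h5 := e2 x s hx hs hs2
    have h6 := PB.le F.D h ex2 ex
    have h7 : 216 * p.P0 * M'.d (Sum.inl x₂) (Sum.inl x) ≤ 216 * p.P0 * (T' + 600) :=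
      Nat.mul_le_mul_left _ (by omega)
    rw [M.symm] at h6
    omega
  · have h5 : M.d x s + M.d s y = M.d x y := hs
    have h6 := PB.le F.D h ex2 (by omega : M.d x s + M.d s y ≤ M.d x y + 6 * p.δ)
    have h7 : M'.d (Sum.inl (g • x₂)) (Sum.inl s) ≤ 1 := F.D.d_le (k := 1) (by omega)
    have h8 := M'.tri (Sum.inl x₂) (Sum.inl (g • x₂)) (Sum.inl s)
    have h9 : 216 * p.P0 * M'.d (Sum.inl x₂) (Sum.inl s) ≤ 216 * p.P0 * (T' + 2 * p.δ + 201) :=
      Nat.mul_le_mul_left _ (by omega)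
    have h10 := M.tri x₂ s (g • x₂)
    rw [M.symm s] at h10
    omega
  · exfalso
    have h5 := e2 y s hy hs hs2
    have h6 := PB.le F.D h ex2 ey
    have h7 : 216 * p.P0 * M'.d (Sum.inl x₂) (Sum.inl y) ≤ 216 * p.P0 * (T' + 600) :=
      Nat.mul_le_mul_left _ (by omega)
    omega
/-- equivariance of nearest indices -/
lemma near_iff (D : Coned p G V C M S M') {g : G} {w : C} {j : ℤ}
    (hj : ∀ i, g • S.y w i = S.y (g • w) (i + j)) (x : V) (i : ℤ) :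
    Near M (S.y (g • w)) (g • x) (i + j) ↔ Near M (S.y w) x i := by
  have h1 : ∀ l, M.d (g • x) (S.y (g • w) (l + j)) = M.d x (S.y w l) := by
    intro l
    rw [← hj l]
    exact D.hH.isom _ _ _
  constructor
  · intro h l
    have h2 := h (l + j)
    rwa [h1, h1] at h2
  · intro h l
    have h2 := h (l - j)
    rw [← h1, ← h1, sub_add_cancel] at h2
    exact h2

lemma PB.smul (D : Coned p G V C M S M') {E : ℕ} {x y : V} (h : PB S E x y) (g : G) :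
    PB S E (g • x) (g • y) := by
  intro w i j hi hj
  obtain ⟨t, ht⟩ := S.y_smul g (g⁻¹ • w)
  have h1 : g • g⁻¹ • w = w := smul_inv_smul g w
  have hi' : Near M (S.y (g⁻¹ • w)) x (i - t) := by
    rw [← near_iff D ht x (i - t), h1, sub_add_cancel]
    exact hi
  have hj' : Near M (S.y (g⁻¹ • w)) y (j - t) := by
    rw [← near_iff D ht y (j - t), h1, sub_add_cancel]
    exact hj
  have h2 := h (g⁻¹ • w) (i - t) (j - t) hi' hj'
  rw [← D.hH.isom g, ht, ht, h1, sub_add_cancel, sub_add_cancel] at h2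
  exact h2

lemma inf_aux (F : Full p G V C M S M' n) {u : V} {g : G}
    (hcol : ∀ i j l : ℤ, i ≤ j → j ≤ l → M.d (g ^ i • u) (g ^ j • u) + M.d (g ^ j • u) (g ^ l • u) ≤
      M.d (g ^ i • u) (g ^ l • u) + 48 * p.δ)
    (hpb : PB S (213 * p.P0) u (g • u)) (hfar : 300 * p.P0 ≤ M.d u (g • u)) {m : ℕ}
    (hK : g ^ m ∈ F.A.K) (hne : g ^ m ≠ 1) : False := by
  obtain ⟨c1, c2, c3, c4, c5, c6, c7, c8, c9⟩ := par_consts p
  have hM := F.D.hH.hyp
  have hG := F.D.hH.isom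
  obtain ⟨v, hv, hang⟩ := Rot.green (A := F.A) (F.inl_not_mem u) hK hne
  have hv' := hv
  rw [F.hC] at hv'
  obtain ⟨w, rfl⟩ := hv'
  have hex : ∀ j : ℕ, ∃ i, Near M (S.y w) (g ^ j • u) i := fun j => S.exists_near w _
  choose π hπ using hex
  have h0 : Near M (S.y w) u (π 0) := by
    have := hπ 0
    rwa [pow_zero, one_smul] at this
  -- the ends are far apart
  have hend : 1000 * p.P0 ≤ M.d (S.y w (π 0)) (S.y w (π m)) := by
    have h1 := F.ang_near h0 (hπ m)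
    have h2 := F.A.n_big _ hv
    have h3 := F.A.pf_le _ hv
    have h4 := S.far w (π 0) (π m)
    have h5 : p.P = p.q * (4 * p.P0 + p.L) + 1 := rfl
    have h6 : g ^ m • (Sum.inl u : V ⊕ C) = Sum.inl (g ^ m • u) := rfl
    rw [h6] at hang
    have h7 : 4 * (p.q * p.P0) ≤ p.P := by
      rw [h5]
      nlinarith
    have hq := p.hq
    have h8 : (3994 : ℤ) * (p.q * p.P0) ≤ |π 0 - π m| := by
      rw [abs_sub_comm]
      have h9 := abs_sub_abs_le_abs_sub (F.A.ang (Sum.inr w) (Sum.inl u) (Sum.inl (g ^ m • u)))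
        (π m - π 0)
      have h10 : (1000 * p.P : ℤ) ≤ n (Sum.inr w) := by exact_mod_cast h2
      have h11 : (F.A.pf (Sum.inr w) : ℤ) ≤ p.P := by exact_mod_cast h3
      have h12 : (4 : ℤ) * (p.q * p.P0) ≤ p.P := by exact_mod_cast h7
      linarith
    have h9 : (3994 : ℤ) * (p.q * p.P0) ≤ p.q * M.d (S.y w (π 0)) (S.y w (π m)) := h8.trans h4
    have h10 : p.q * (3994 * p.P0) ≤ p.q * M.d (S.y w (π 0)) (S.y w (π m)) := by
      have : (p.q : ℤ) * (3994 * p.P0) ≤ p.q * M.d (S.y w (π 0)) (S.y w (π m)) := by linarith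
      exact_mod_cast this
    have h11 := Nat.le_of_mul_le_mul_left h10 (by omega)
    omega
  have hstep : ∀ j, M.d (S.y w (π j)) (S.y w (π (j + 1))) ≤ 213 * p.P0 := by
    intro j
    have h1 := PB.smul F.D hpb (g ^ j) w (π j) (π (j + 1)) (hπ j)
    rw [smul_smul, ← pow_succ] at h1
    exact h1 (hπ (j + 1))
  have hex : ∃ j, 220 * p.P0 < M.d (S.y w (π 0)) (S.y w (π j)) := ⟨m, by omega⟩
  classical
  have hj1 := Nat.find_spec hex
  have hj2 : ∀ i < Nat.find hex, M.d (S.y w (π 0)) (S.y w (π i)) ≤ 220 * p.P0 :=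
    fun i hi => not_lt.mp (Nat.find_min hex hi)
  have hjm : Nat.find hex ≤ m := Nat.find_min' hex (by omega)
  set j := Nat.find hex
  have hj0 : j ≠ 0 := by
    intro h
    rw [h, M.self] at hj1
    omega
  obtain ⟨j', hj'⟩ := Nat.exists_eq_succ_of_ne_zero hj0
  have hj3 : M.d (S.y w (π 0)) (S.y w (π j)) ≤ 433 * p.P0 := by
    have h1 := hj2 j' (by omega)
    have h2 := hstep j'
    have h3 := M.tri (S.y w (π 0)) (S.y w (π j')) (S.y w (π j))
    rw [hj'] at h3 ⊢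
    change _ ≤ 433 * p.P0
    have h4 : j'.succ = j' + 1 := rfl
    rw [h4] at h3 ⊢
    omega
  have hs := hstep j
  have t1 := M.tri (S.y w (π 0)) (S.y w (π (j + 1))) (S.y w (π j))
  have t2 := M.tri (S.y w (π 0)) (S.y w (π j)) (S.y w (π m))
  have t3 := M.tri (S.y w (π j)) (S.y w (π (j + 1))) (S.y w (π m))
  rw [M.symm (S.y w (π (j + 1))) (S.y w (π j))] at t1
  have hjm' : j + 1 ≤ m := by
    rcases Nat.eq_or_lt_of_le hjm with h | h
    · rw [h] at hj3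
      omega
    · exact h
  have hc := p.C2_le
  have hcol' : ∀ i : ℕ, i ≤ m → M.d u (g ^ i • u) + M.d (g ^ i • u) (g ^ m • u) ≤
      M.d u (g ^ m • u) + 48 * p.δ := by
    intro i hi
    have := hcol 0 i m (by omega) (by omega)
    simpa using this
  have p1 := PN hM (S.qline w) h0 (hπ j) (hπ m) (hcol' j hjm) (by omega) (by omega)
  have p2 := PN hM (S.qline w) h0 (hπ (j + 1)) (hπ m) (hcol' (j + 1) hjm') (by omega) (by omega)
  have p3 : M.d (g ^ j • u) (g ^ (j + 1) • u) = M.d u (g • u) := by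
    rw [pow_succ, mul_smul, hG]
  have p4 := M.tri (g ^ j • u) (S.y w (π j)) (g ^ (j + 1) • u)
  have p5 := M.tri (S.y w (π j)) (S.y w (π (j + 1))) (g ^ (j + 1) • u)
  rw [M.symm (S.y w (π (j + 1))) (g ^ (j + 1) • u)] at p5
  omega

/-- (INF) Let `x₁, y₁ : V` have projections within `212 P0`, `x₂, y₂` between them, far apart, and let
`f` be an element of infinite order which moves `x₂`, `y₂` by at most `T`.  Then the image of `f` in
the quotient has infinite order.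

Proof.  Suppose `f^m ∈ K`, `m > 0`.  `large_shift` with `B = 300 P0` (for `x₂,y₂`) gives `F = f^i`; let
`u` be the middle of `I(x₂,y₂)`, `ℓ = d(u,Fu) ≥ 300 P0`.  `F` moves the ends `x₃`, `y₃` of the window
of depth `10 (T+κ)` by at most `2 (T+B)`; by `shift` for this window and `u`, and again for `Fu`
(`ν = 6δ`): `Fu` has excess `≤ 6δ` in `I(x₃,y₃)`, hence in `I(x₁,y₁)`, and `d(u,F²u) ≥ 2ℓ - 44δ`.  So
by `chain` (`a = 44δ`) the orbit `u_j = F^j u` satisfies the collinearity with error `48δ`.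
`F^m ∈ K`, `F^m ≠ 1`, so by `green` (and `ang_near`, `far`) some line `Y_v` has projections `π_0`,
`π_m` of `u_0`, `u_m` at distance `≥ 1000 P0`.  For every `j` the projections of `u_j, u_{j+1}` to
every line are within `213 P0`: translate by `F^{-j}` and use `PB.sub` for `u`, `Fu`.  Let `j` be the
first index with `d(π_0,π_j) > 220 P0`; then `d(π_0,π_j) ≤ 433 P0`, `d(π_0,π_{j+1}) ≥ 7 P0`,
`d(π_j,π_m) ≥ 500 P0`, `d(π_{j+1},π_m) ≥ 300 P0`; by (PN) `u_j`, `u_{j+1}` are within `C2 + 24δ` of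
`π_j`, `π_{j+1}`, so `ℓ = d(u_j,u_{j+1}) ≤ 213 P0 + 2 C2 + 48δ < 300 P0`, contradiction. -/
lemma inf_quot (F : Full p G V C M S M' n) {x₁ y₁ x₂ y₂ : V} {T : ℕ} {f : G}
    (h : PB S (212 * p.P0) x₁ y₁) (h2 : x₂ ∈ M.I x₁ y₁) (h3 : y₂ ∈ M.I x₂ y₁)
    (hx : M.d x₂ (f • x₂) ≤ T) (hy : M.d y₂ (f • y₂) ≤ T)
    (hd : 200 * (T + 300 * p.P0) ≤ M.d x₂ y₂) (hf : Inf f) :
    Inf (QuotientGroup.mk f : G ⧸ F.A.K) := by
  obtain ⟨c1, c2, c3, c4, c5, c6, c7, c8, c9⟩ := par_consts p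
  have hδ := p.hδ
  have hM := F.D.hH.hyp
  have hG := F.D.hH.isom
  intro m hm hcon
  have hK : f ^ m ∈ F.A.K := by
    rw [← QuotientGroup.mk_pow, QuotientGroup.eq_one_iff] at hcon
    exact hcon
  obtain ⟨i, hi, hsm, hlg⟩ := large_shift F.D.hH hf hx hy (B := 300 * p.P0) (by omega) (by omega)
  -- the middle
  obtain ⟨u, hu, hud⟩ := GMet.geod_I (M := M) x₂ y₂ (M.d x₂ y₂ / 2) (by omega)
  have hu' : M.d x₂ u + M.d u y₂ = M.d x₂ y₂ := hu
  have hℓ : 300 * p.P0 ≤ M.d u (f ^ i • u) := hlg u hu (by omega) (by omega)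
  set g := f ^ i with hg
  -- the window
  obtain ⟨x₃, hx3, hx3d⟩ := GMet.geod_I (M := M) x₂ u (10 * (T + p.κ)) (by omega)
  obtain ⟨y₃, hy3, hy3d⟩ := GMet.geod_I (M := M) y₂ u (10 * (T + p.κ)) (by
    rw [M.symm]
    omega)
  have hx3' : M.d x₂ x₃ + M.d x₃ u = M.d x₂ u := hx3
  have hy3' : M.d y₂ y₃ + M.d y₃ u = M.d y₂ u := hy3
  rw [M.symm y₂ u] at hy3'
  rw [M.symm y₃ u, M.symm y₂ y₃] at hy3'
  rw [M.symm y₂ y₃] at hy3d
  -- positions
  have hx1 : M.d x₁ x₂ + M.d x₂ y₁ = M.d x₁ y₁ := h2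
  have hy1 : M.d x₂ y₂ + M.d y₂ y₁ = M.d x₂ y₁ := h3
  have q1 := M.tri x₃ u y₃
  have q2 := M.tri x₂ x₃ y₂
  have q3 := M.tri x₃ y₃ y₂
  have hux : u ∈ M.I x₃ y₃ := by
    rw [GMet.mem_I]
    omega
  have hux' : M.d x₃ u + M.d u y₃ = M.d x₃ y₃ := hux
  have q4 := M.tri x₂ x₃ y₂
  have hx3I : x₃ ∈ M.I x₂ y₂ := by
    rw [GMet.mem_I]
    omega
  have q5 := M.tri x₂ y₃ y₂
  have q6 := M.tri x₂ u y₃
  have hy3I : y₃ ∈ M.I x₂ y₂ := by
    rw [GMet.mem_I]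
    omega
  have hx3I' : M.d x₂ x₃ + M.d x₃ y₂ = M.d x₂ y₂ := hx3I
  have hy3I' : M.d x₂ y₃ + M.d y₃ y₂ = M.d x₂ y₂ := hy3I
  have w1 : M.d x₃ (g • x₃) ≤ 2 * (T + 300 * p.P0) := hsm x₃ hx3I (by omega) (by omega)
  have w2 : M.d y₃ (g • y₃) ≤ 2 * (T + 300 * p.P0) := hsm y₃ hy3I (by omega) (by omega)
  obtain ⟨s1, s2, s3, s4, s5⟩ := shift hM hG (x := x₃) (y := y₃) (u := u) (g := g) (ν := 0) rfl w1 w2
    (by omega) (by omega) (by omega) (by omega)
  set τ : ℤ := (M.d x₃ (g • y₃) : ℤ) - M.d x₃ y₃ with hτ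
  have s2' := abs_le.mp s2
  have s5' := abs_le.mp s5
  have q7 := M.tri u (g • u) y₃
  have q8 := M.tri x₃ (g • u) y₃
  obtain ⟨r1, r2, r3, r4, r5⟩ := shift hM hG (x := x₃) (y := y₃) (u := g • u) (g := g)
    (ν := 2 * 0 + 6 * p.δ) hτ w1 w2 (by omega) s1 (by omega) (by omega)
  have r2' := abs_le.mp r2
  have hg2 : g • g • u = g ^ 2 • u := by rw [smul_smul, pow_two]
  rw [hg2] at r1 r2' r3
  have ha2 : 2 * M.d u (g • u) ≤ M.d u (g ^ 2 • u) + 44 * p.δ := by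
    have q9 := M.tri x₃ u (g ^ 2 • u)
    have q10 := M.tri x₃ (g ^ 2 • u) u
    rw [M.symm (g ^ 2 • u) u] at q10
    rcases abs_cases τ with ⟨ht, _⟩ | ⟨ht, _⟩
    · rw [ht] at s3
      omega
    · rw [ht] at s3
      omega
  obtain ⟨_, hcol⟩ := chain hM hG ha2 (by omega)
  have hexc : M.d x₁ (g • u) + M.d (g • u) y₁ ≤ M.d x₁ y₁ + 6 * p.δ := by
    have e1 := M.tri x₁ x₂ (g • u)
    have e2 := M.tri x₂ x₃ (g • u)
    have e3 := M.tri (g • u) y₃ y₁
    have e4 := M.tri y₃ y₂ y₁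
    omega
  have hexu : M.d x₁ u + M.d u y₁ ≤ M.d x₁ y₁ + 6 * p.δ := by
    have e1 := M.tri x₁ x₂ u
    have e3 := M.tri u y₂ y₁
    omega
  have hpb := PB.sub F.D h hexu hexc
  refine inf_aux F (g := g) (u := u) (m := m) ?_ ?_ hℓ ?_ ?_
  · intro i j l hij hjl
    have := hcol i j l hij hjl
    omega
  · intro w i j hi hj
    have := hpb w i j hi hj
    omega
  · rw [hg, ← pow_mul, mul_comm, pow_mul]
    exact Subgroup.pow_mem _ hK _
  · rw [hg, ← pow_mul]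
    exact hf _ (Nat.mul_pos hi hm)
/-- (GAP) the case with no large angles.  `x₁, y₁ : V`, minimal pair with angles `≤ 42 pf` and at a
large distance.
Proof.  `lift_disp` gives for every `g` in the set a lift `g'` moving `x₁`, `y₁` by at most `T'` in the
coned-off graph.  `pb_of_ang`.  Let `x₂, y₂` be the window of `(x₁,y₁)` in `V` of depth
`216 P0 (T' + 601)` (`d(x₁,y₁) ≥ R (d'(x₁,y₁) - 1)` by `d_le`).  `disp_V`, then `cyc_all` with
`T = 8δ + 216 P0 (T' + 2δ + 201)` for `x₂, y₂`: all lifts are in `⟨b⟩`.  If all elements of the set are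
`1` take `b̄ = 1`.  Otherwise some lift `g' = b^s` is `≠ 1`, `b` has infinite order, hence `g'`, and
`inf_quot` for `f = g'` gives that `ḡ` has infinite order, hence `b̄`. -/
lemma gap (F : Full p G V C M S M' n) {x₁ y₁ : V} {T' : ℕ}
    (hmin : F.A.qm.d (VQ.mk F.A.K (Sum.inl x₁)) (VQ.mk F.A.K (Sum.inl y₁)) =
      M'.d (Sum.inl x₁) (Sum.inl y₁))
    (hang : ∀ w : C, |F.A.ang (Sum.inr w) (Sum.inl x₁) (Sum.inl y₁)| ≤ 42 * F.A.pf (Sum.inr w))
    (_hκ : p.κ ≤ T')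
    (hd : 10 ^ 10 * (T' + 10 ^ 5 * p.δ) ≤ M'.d (Sum.inl x₁) (Sum.inl y₁)) :
    ∃ b : G ⧸ F.A.K, (b = 1 ∨ Inf b) ∧ ∀ g : G ⧸ F.A.K,
      F.A.qm.d (VQ.mk F.A.K (Sum.inl x₁)) (g • VQ.mk F.A.K (Sum.inl x₁)) ≤ T' →
      F.A.qm.d (VQ.mk F.A.K (Sum.inl y₁)) (g • VQ.mk F.A.K (Sum.inl y₁)) ≤ T' →
      g ∈ Subgroup.zpowers b := by
  obtain ⟨c1, c2, c3, c4, c5, c6, c7, c8, c9⟩ := par_consts p
  have hδ := p.hδ
  have hPB := pb_of_ang F hang
  -- lifts
  have hlift : ∀ g : G ⧸ F.A.K,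
      F.A.qm.d (VQ.mk F.A.K (Sum.inl x₁)) (g • VQ.mk F.A.K (Sum.inl x₁)) ≤ T' →
      F.A.qm.d (VQ.mk F.A.K (Sum.inl y₁)) (g • VQ.mk F.A.K (Sum.inl y₁)) ≤ T' →
      ∃ g' : G, (QuotientGroup.mk g' : G ⧸ F.A.K) = g ∧
        M'.d (Sum.inl x₁) (Sum.inl (g' • x₁)) ≤ T' ∧
        M'.d (Sum.inl y₁) (Sum.inl (g' • y₁)) ≤ T' := by
    intro g hgx hgy
    obtain ⟨g', h1, h2, h3⟩ := Rot.lift_disp (A := F.A) (F.inl_not_mem x₁) (F.inl_not_mem y₁) (by
      intro v hv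
      have hv' := hv
      rw [F.hC] at hv'
      obtain ⟨w, rfl⟩ := hv'
      have h4 := hang w
      have h5 : (F.A.pf (Sum.inr w) : ℤ) ≤ p.P := by exact_mod_cast F.A.pf_le _ hv
      have h6 : (0 : ℤ) ≤ p.P := Int.natCast_nonneg _
      linarith) g
    refine ⟨g', h1, ?_, ?_⟩
    · have : M'.d (Sum.inl x₁) (g' • Sum.inl x₁) ≤ T' := by
        rw [h2]
        exact hgx
      exact this
    · have : M'.d (Sum.inl y₁) (g' • Sum.inl y₁) ≤ T' := by
        rw [h3]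
        exact hgy
      exact this
  -- the distance in `V`
  have hdV : (M'.d (Sum.inl x₁) (Sum.inl y₁) - 1) * p.R < M.d x₁ y₁ := by
    by_contra hcon
    have h1 := F.D.d_le (not_lt.mp hcon)
    omega
  have hdV' : (10 ^ 10 * (T' + 10 ^ 5 * p.δ) - 1) * p.R ≤ M.d x₁ y₁ :=
    (Nat.mul_le_mul_right _ (by omega)).trans hdV.le
  have hbig : 10 ^ 10 * (T' * p.R) + 10 ^ 14 * (p.δ * p.R) ≤ M.d x₁ y₁ := by
    have h1 : 10 ^ 10 * T' + 10 ^ 14 * p.δ ≤ 10 ^ 10 * (T' + 10 ^ 5 * p.δ) - 1 := by omega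
    have h2 := Nat.mul_le_mul_right p.R h1
    have h3 : (10 ^ 10 * T' + 10 ^ 14 * p.δ) * p.R =
      10 ^ 10 * (T' * p.R) + 10 ^ 14 * (p.δ * p.R) := by ring
    omega
  have hδR : 1000 * p.R ≤ p.δ * p.R := Nat.mul_le_mul_right _ hδ
  have hδR2 : p.δ ≤ p.δ * p.R := Nat.le_mul_of_pos_right _ (by omega)
  have hT0 : 0 ≤ T' * p.R := Nat.zero_le _
  -- the window
  have e1 : 216 * p.P0 * (T' + 601) = 1080000 * (T' * p.R) + 649080000 * p.R := by
    rw [c4]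
    ring
  have e2 : 216 * p.P0 * (T' + 600) = 1080000 * (T' * p.R) + 648000000 * p.R := by
    rw [c4]
    ring
  have e3 : 8 * p.δ + 216 * p.P0 * (T' + 2 * p.δ + 201) =
      8 * p.δ + (1080000 * (T' * p.R) + 2160000 * (p.δ * p.R) + 217080000 * p.R) := by
    rw [c4]
    ring
  obtain ⟨x₂, y₂, w1, w2, w3, w4⟩ := exists_win M x₁ y₁ (216 * p.P0 * (T' + 601)) (by omega)
  have w1' : M.d x₁ x₂ + M.d x₂ y₁ = M.d x₁ y₁ := w1
  have w2' : M.d x₂ y₂ + M.d y₂ y₁ = M.d x₂ y₁ := w2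
  have w5 := GMet.I_trans w1 w2
  have w5' : M.d x₁ y₂ + M.d y₂ y₁ = M.d x₁ y₁ := w5.1
  have hdisp : ∀ g' : G, M'.d (Sum.inl x₁) (Sum.inl (g' • x₁)) ≤ T' →
      M'.d (Sum.inl y₁) (Sum.inl (g' • y₁)) ≤ T' →
      M.d x₂ (g' • x₂) ≤ 8 * p.δ + 216 * p.P0 * (T' + 2 * p.δ + 201) ∧
      M.d y₂ (g' • y₂) ≤ 8 * p.δ + 216 * p.P0 * (T' + 2 * p.δ + 201) := by
    intro g' h1 h2
    exact ⟨disp_V F hPB h1 h2 w1 (by omega) (by omega),
      disp_V F hPB h1 h2 w5.1 (by omega) (by omega)⟩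
  obtain ⟨b, hb, hbg⟩ := cyc_all F.D.hH (8 * p.δ + 216 * p.P0 * (T' + 2 * p.δ + 201)) x₂ y₂
    (by omega)
  by_cases hall : ∀ g : G ⧸ F.A.K,
      F.A.qm.d (VQ.mk F.A.K (Sum.inl x₁)) (g • VQ.mk F.A.K (Sum.inl x₁)) ≤ T' →
      F.A.qm.d (VQ.mk F.A.K (Sum.inl y₁)) (g • VQ.mk F.A.K (Sum.inl y₁)) ≤ T' → g = 1
  · refine ⟨1, Or.inl rfl, fun g h1 h2 => ?_⟩
    rw [hall g h1 h2]
    exact Subgroup.one_mem _
  · push Not at hall
    obtain ⟨g₀, h1, h2, h3⟩ := hall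
    refine ⟨QuotientGroup.mk b, Or.inr ?_, ?_⟩
    · obtain ⟨g', k1, k2, k3⟩ := hlift g₀ h1 h2
      have k4 := hdisp g' k2 k3
      have k5 := hbg g' k4.1 k4.2
      obtain ⟨s, hs⟩ := Subgroup.mem_zpowers_iff.mp k5
      have hne : g' ≠ 1 := by
        intro h
        apply h3
        rw [← k1, h]
        rfl
      have hs0 : s ≠ 0 := by
        intro h
        apply hne
        rw [← hs, h, zpow_zero]
      have hbinf : Inf b := by
        rcases hb with h | h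
        · exfalso
          apply hne
          rw [← hs, h, one_zpow]
        · exact h
      have hg'inf : Inf g' := by
        intro m hm hcon
        rw [← hs, ← zpow_natCast, ← zpow_mul] at hcon
        have h4 : s * m ≠ 0 := mul_ne_zero hs0 (by omega)
        have h5 : b ^ (s * m).natAbs = 1 := by
          rcases Int.natAbs_eq (s * m) with h6 | h6
          · rw [h6, zpow_natCast] at hcon
            exact hcon
          · rw [h6, zpow_neg, zpow_natCast, inv_eq_one] at hcon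
            exact hcon
        exact hbinf _ (Int.natAbs_pos.mpr h4) h5
      have hq := inf_quot F hPB w1 w2 k4.1 k4.2 (by omega) hg'inf
      intro m hm hcon
      have h6 : ((QuotientGroup.mk g' : G ⧸ F.A.K)) ^ m = 1 := by
        rw [← hs, QuotientGroup.mk_zpow, ← zpow_natCast, zpow_comm, zpow_natCast, hcon, one_zpow]
      exact hq m hm h6
    · intro g k1 k2
      obtain ⟨g', k3, k4, k5⟩ := hlift g k1 k2
      have k6 := hdisp g' k4 k5
      obtain ⟨s, hs⟩ := Subgroup.mem_zpowers_iff.mp (hbg g' k6.1 k6.2)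
      rw [Subgroup.mem_zpowers_iff]
      refine ⟨s, ?_⟩
      rw [← QuotientGroup.mk_zpow, hs]
      exact k3

/-- pigeonhole: a set of at most `N` natural numbers leaves a gap of length `W` in `[lo, hi]`. -/
lemma exists_gap (T : Finset ℕ) (lo hi W N : ℕ) (hN : T.card < N) (h : lo + N * (W + 1) ≤ hi) :
    ∃ s, lo ≤ s ∧ s + W ≤ hi ∧ ∀ t ∈ T, t ≤ s ∨ s + W ≤ t := by
  classical
  have h1 : (T.image fun t => (t - lo) / (W + 1)).card < (Finset.range N).card := by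
    rw [Finset.card_range]
    exact lt_of_le_of_lt Finset.card_image_le hN
  obtain ⟨k, hk1, hk2⟩ := Finset.exists_mem_notMem_of_card_lt_card h1
  rw [Finset.mem_range] at hk1
  have h2 : (k + 1) * (W + 1) ≤ N * (W + 1) := Nat.mul_le_mul_right _ hk1
  have h3 : (k + 1) * (W + 1) = k * (W + 1) + (W + 1) := by ring
  refine ⟨lo + k * (W + 1), by omega, by omega, fun t ht => ?_⟩
  by_contra hcon
  push Not at hcon
  apply hk2
  rw [Finset.mem_image]
  refine ⟨t, ht, ?_⟩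
  exact Nat.div_eq_of_lt_le (by omega) (by omega)
lemma gap_num (p : Par) : (p.κ + 3) + 10 * (p.κ + 6) ^ 3 *
    ((10 ^ 10 * (p.κ + 2 + 2 * p.δ + 10 ^ 5 * p.δ) + 4) + 1) + (p.κ + 3) + 2 ≤ p.Δ := by
  have h1 := p.hδ
  have h2 := p.hq
  have h3 := p.hκ
  have h4 := p.hΔ
  have h5 : 10 ^ 37 * p.δ ≤ p.κ := by
    refine le_trans ?_ h3
    have h6 : 10 ^ 17 * p.δ ≤ p.δ ^ 2 * p.q := by
      have h7 : 1000 * p.δ ≤ p.δ ^ 2 := by nlinarith
      calc 10 ^ 17 * p.δ = (1000 * p.δ) * 10 ^ 14 := by ring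
        _ ≤ p.δ ^ 2 * p.q := Nat.mul_le_mul h7 h2
    calc 10 ^ 37 * p.δ = 10 ^ 20 * (10 ^ 17 * p.δ) := by ring
      _ ≤ 10 ^ 20 * (p.δ ^ 2 * p.q) := Nat.mul_le_mul_left _ h6
      _ = 10 ^ 20 * p.δ ^ 2 * p.q := by ring
  have h6 : 10 ^ 40 ≤ p.κ := by omega
  refine le_trans ?_ h4
  have h7 : (10 ^ 10 * (p.κ + 2 + 2 * p.δ + 10 ^ 5 * p.δ) + 4) + 1 ≤ 2 * 10 ^ 10 * p.κ := by omega
  have h8 : p.κ + 6 ≤ 2 * p.κ := by omega
  have h9 : (p.κ + 6) ^ 3 ≤ (2 * p.κ) ^ 3 := Nat.pow_le_pow_left h8 3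
  have h10 : 10 * (p.κ + 6) ^ 3 * ((10 ^ 10 * (p.κ + 2 + 2 * p.δ + 10 ^ 5 * p.δ) + 4) + 1) ≤
      16 * 10 ^ 11 * p.κ ^ 4 := by
    calc 10 * (p.κ + 6) ^ 3 * ((10 ^ 10 * (p.κ + 2 + 2 * p.δ + 10 ^ 5 * p.δ) + 4) + 1)
        ≤ 10 * (2 * p.κ) ^ 3 * (2 * 10 ^ 10 * p.κ) :=
          Nat.mul_le_mul (Nat.mul_le_mul_left _ h9) h7
      _ = 16 * 10 ^ 11 * p.κ ^ 4 := by ring
  have h11 : p.κ ≤ p.κ ^ 4 := by
    calc p.κ = p.κ ^ 1 := (pow_one _).symm
      _ ≤ p.κ ^ 4 := Nat.pow_le_pow_right (by omega) (by norm_num)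
  have h12 : 10 ^ 40 * p.κ ^ 4 ≤ p.κ ^ 5 := by
    calc 10 ^ 40 * p.κ ^ 4 ≤ p.κ * p.κ ^ 4 := Nat.mul_le_mul_right _ h6
      _ = p.κ ^ 5 := by ring
  omega

/-- a point of `V` near any point of the quotient -/
lemma exists_inl (F : Full p G V C M S M' n) (x : VQ (V := V ⊕ C) F.A.K) :
    ∃ a : V, F.A.qm.d x (VQ.mk F.A.K (Sum.inl a)) ≤ 1 := by
  obtain ⟨z, rfl⟩ := VQ.mk_surj x
  rcases z with a | w
  · refine ⟨a, ?_⟩
    rw [F.A.qm.self]
    exact Nat.zero_le _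
  · obtain ⟨z, hz⟩ := F.A.nbr (Sum.inr w) (F.inr_mem w)
    rcases z with a | w'
    · refine ⟨a, (Rot.qm_le _ _).trans hz.le⟩
    · exact absurd hz (F.A.nonadj _ (F.inr_mem w) _ (F.inr_mem w'))

lemma min_sub (F : Full p G V C M S M' n) {x y v : V ⊕ C}
    (hmin : F.A.qm.d (VQ.mk F.A.K x) (VQ.mk F.A.K y) = M'.d x y) (hv : v ∈ M'.I x y) :
    F.A.qm.d (VQ.mk F.A.K x) (VQ.mk F.A.K v) = M'.d x v ∧
      F.A.qm.d (VQ.mk F.A.K v) (VQ.mk F.A.K y) = M'.d v y := by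
  have h1 : M'.d x v + M'.d v y = M'.d x y := hv
  have h2 := Rot.qm_le (A := F.A) x v
  have h3 := Rot.qm_le (A := F.A) v y
  have h4 := F.A.qm.tri (VQ.mk F.A.K x) (VQ.mk F.A.K v) (VQ.mk F.A.K y)
  omega

lemma geo_inl (F : Full p G V C M S M' n) {x y : V ⊕ C} {m : ℕ} {α : ℕ → V ⊕ C}
    (hα : M'.Geo x y m α) (i : ℕ) (hi : i + 1 ≤ m) :
    ∃ s a, i ≤ s ∧ s ≤ i + 1 ∧ α s = Sum.inl a := by
  rcases h1 : α i with a | w
  · exact ⟨i, a, le_rfl, Nat.le_succ _, h1⟩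
  · rcases h2 : α (i + 1) with a | w'
    · exact ⟨i + 1, a, Nat.le_succ _, le_rfl, h2⟩
    · exfalso
      have h3 := hα.2.2.2 i (i + 1) (Nat.le_succ _) hi
      rw [h1, h2, Nat.add_sub_cancel_left] at h3
      exact F.A.nonadj _ (F.inr_mem w) _ (F.inr_mem w') h3

/-- the case of many large angles -/
lemma cyc_many (F : Full p G V C M S M' n) {x y : V ⊕ C} (hx : x ∉ F.A.C) (hy : y ∉ F.A.C)
    (hmin : F.A.qm.d (VQ.mk F.A.K x) (VQ.mk F.A.K y) = M'.d x y)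
    (hred : ∀ v ∈ F.A.C, 2 * |F.A.ang v x y| < n v) (B : Finset (V ⊕ C))
    (hB : ∀ v ∈ B, v ∈ F.A.C ∧ 40 * (F.A.pf v : ℤ) ≤ |F.A.ang v x y| ∧ p.κ + 2 < M'.d x v ∧
      p.κ + 2 < M'.d v y) (hcard : 10 * (p.κ + 2 + 4) ^ 3 ≤ B.card) :
    ∃ b : G ⧸ F.A.K, (b = 1 ∨ Inf b) ∧ ∀ g : G ⧸ F.A.K,
      F.A.qm.d (VQ.mk F.A.K x) (g • VQ.mk F.A.K x) ≤ p.κ + 2 →
      F.A.qm.d (VQ.mk F.A.K y) (g • VQ.mk F.A.K y) ≤ p.κ + 2 → g ∈ Subgroup.zpowers b := by
  classical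
  obtain ⟨n', B', hn', hC', hpf', _, hang'⟩ := Rot.exists_crot F.A
  have hsep : ∀ v ∈ B, M'.Sep v x y := by
    intro v hv
    obtain ⟨h1, h2, _, _⟩ := hB v hv
    have h3 := F.A.pf_pos v h1
    exact F.A.A1 v h1 x y (fun h => hx (h ▸ h1)) (fun h => hy (h ▸ h1)) (by
      have h4 : |F.A.ang v x y| = |F.A.θ v y - F.A.θ v x| := rfl
      rw [← h4]
      have h5 : (0 : ℤ) ≤ F.A.pf v := Int.natCast_nonneg _
      linarith)
  have hinj : Set.InjOn (VQ.mk F.A.K) (B : Set (V ⊕ C)) := by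
    intro v hv v' hv' h
    have h1 := (min_sub F hmin (hsep v hv).1).1
    have h2 := (min_sub F hmin (hsep v' hv').1).1
    rw [h] at h1
    exact ((hsep v' hv').2 v (hsep v hv).1 (by omega))
  refine B'.caseI (p.κ + 2) (VQ.mk F.A.K x) (VQ.mk F.A.K y) (B.image (VQ.mk F.A.K)) ?_ ?_
  · rw [Finset.card_image_of_injOn hinj]
    exact hcard
  · intro v' hv'
    obtain ⟨v, hv, rfl⟩ := Finset.mem_image.mp hv'
    obtain ⟨h1, h2, h3, h4⟩ := hB v hv
    obtain ⟨h5, h6⟩ := min_sub F hmin (hsep v hv).1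
    have hxv : VQ.mk F.A.K x ≠ VQ.mk F.A.K v := by
      intro h
      rw [h, F.A.qm.self] at h5
      omega
    have hyv : VQ.mk F.A.K y ≠ VQ.mk F.A.K v := by
      intro h
      rw [h, F.A.qm.self] at h6
      omega
    refine ⟨(hC' v).mpr h1, by omega, by omega, ?_⟩
    obtain ⟨j, hj⟩ := hang' v h1 x y hxv hyv (by rw [M'.symm, F.A.qm.symm, h5]) h6.symm
    rw [hpf' v h1, hn' v h1]
    have hnpos : 0 < n v := by
      have := F.A.n_big v h1
      have := F.A.P_pos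
      omega
    have hz1 : 40 * F.A.pf v ≤ zabs (n v) (F.A.ang v x y) := by
      refine le_zabs (by exact_mod_cast h2) ?_
      have h7 := hred v h1
      push_cast
      linarith
    have hz2 : zabs (n v) (F.A.ang v x y) ≤
        zabs (n v) (F.A.ang v x y - B'.ang (VQ.mk F.A.K v) (VQ.mk F.A.K x) (VQ.mk F.A.K y) - n v * j)
        + zabs (n v) (B'.ang (VQ.mk F.A.K v) (VQ.mk F.A.K x) (VQ.mk F.A.K y) + n v * j) := by
      have h7 := zabs_add_le hnpos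
        (F.A.ang v x y - B'.ang (VQ.mk F.A.K v) (VQ.mk F.A.K x) (VQ.mk F.A.K y) - n v * j)
        (B'.ang (VQ.mk F.A.K v) (VQ.mk F.A.K x) (VQ.mk F.A.K y) + n v * j)
      have h8 : F.A.ang v x y - B'.ang (VQ.mk F.A.K v) (VQ.mk F.A.K x) (VQ.mk F.A.K y) - n v * j +
        (B'.ang (VQ.mk F.A.K v) (VQ.mk F.A.K x) (VQ.mk F.A.K y) + n v * j) = F.A.ang v x y := by
        ring
      rwa [h8] at h7
    have hz3 := zabs_le_abs hnpos
      (F.A.ang v x y - B'.ang (VQ.mk F.A.K v) (VQ.mk F.A.K x) (VQ.mk F.A.K y) - n v * j)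
    have hz4 : zabs (n v) (B'.ang (VQ.mk F.A.K v) (VQ.mk F.A.K x) (VQ.mk F.A.K y) + n v * j) =
        zabs (n v) (B'.ang (VQ.mk F.A.K v) (VQ.mk F.A.K x) (VQ.mk F.A.K y)) :=
      zabs_congr (by
        rw [add_sub_cancel_left]
        exact dvd_mul_right _ _)
    have hz5 : zabs (n v)
        (F.A.ang v x y - B'.ang (VQ.mk F.A.K v) (VQ.mk F.A.K x) (VQ.mk F.A.K y) - n v * j) ≤
        8 * F.A.pf v := by
      have := hz3.trans hj
      exact_mod_cast this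
    omega

/-- **(cyc) for the quotient.**
Proof.  Replace `x̄`, `ȳ` by non-apex points at distance `≤ 1` (`nbr`, `nonadj`): displacement
`≤ κ + 2`, distance `≥ Δ - 2`.  Let `x`, `y` be lifts (`inl`), `(x,y)` reduced minimal
(`exists_redMin`), `D = d'(x,y)`.  Let `B*` be the set of the apices `v` with `40 pf v ≤ |ang v x y|`,
`κ + 2 < d'(x,v)`, `κ + 2 < d'(v,y)`; they are between `x` and `y`, at different distances from `x`
(`Sep`), so `B*` is finite.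
Case 1: at least `10 (κ+6)^3` elements.  `CRot.caseI` for `q = κ + 2` and the image of (a part of) `B*`
in the quotient: the images are different, `x`, `y` are minimal relative to `v`, so by `exists_crot`
`zabs (n v) (ang v̄ x̄ ȳ) ≥ 40 pf - 8 pf ≥ 3 · 9 pf`, as `40 pf ≤ |ang v x y| ≤ n v/2`.
Case 2: fewer.  `exists_gap` in `[κ + 3, D - κ - 3]` with `W = 10^10 (κ + 2 + 2δ + 10^5 δ) + 4`,
`N = 10 (κ+6)^3` (`10 (κ+6)^3 (W+1) + 2κ + 10 ≤ κ^5 ≤ Δ`).  Choose a geodesic `α` from `x` to `y` and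
`s₁ ∈ {s+1,s+2}`, `s₂ ∈ {s+W-2,s+W-1}` with `α s₁ = inl x₁`, `α s₂ = inl y₁`.  A large apex for
`(x₁,y₁)` is strictly between them, and its angle differs by less than `2 pf` from the angle of `(x,y)`
(`ang_lt_of_mem_I`), so all angles of `(x₁,y₁)` are `≤ 42 pf`.  `disp_between` in the quotient:
displacement `≤ T' = κ + 2 + 2δ` at `x̄₁`, `ȳ₁`.  `gap`. -/
theorem cyc (F : Full p G V C M S M' n) (x y : VQ (V := V ⊕ C) F.A.K) (hxy : p.Δ ≤ F.A.qm.d x y) :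
    ∃ b : G ⧸ F.A.K, (b = 1 ∨ Inf b) ∧ ∀ g : G ⧸ F.A.K,
      F.A.qm.d x (g • x) ≤ p.κ → F.A.qm.d y (g • y) ≤ p.κ → g ∈ Subgroup.zpowers b := by
  classical
  obtain ⟨a, ha⟩ := F.exists_inl x
  obtain ⟨b₀, hb₀⟩ := F.exists_inl y
  obtain ⟨k, hk, hrm⟩ := Rot.exists_redMin (A := F.A) (Sum.inl a) (Sum.inl b₀)
  have hbk : k • (Sum.inl b₀ : V ⊕ C) = Sum.inl (k • b₀) := rfl
  rw [hbk] at hrm
  have hkb : VQ.mk F.A.K (Sum.inl (k • b₀) : V ⊕ C) = VQ.mk F.A.K (Sum.inl b₀) := by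
    rw [← hbk]
    exact VQ.mk_eq_iff.mpr ⟨k, hk, rfl⟩
  rw [← hkb] at hb₀
  set b := k • b₀ with hb
  obtain ⟨hmin', hred'⟩ := hrm
  have hmin : F.A.qm.d (VQ.mk F.A.K (Sum.inl a)) (VQ.mk F.A.K (Sum.inl b)) =
    M'.d (Sum.inl a) (Sum.inl b) := hmin'.symm
  have hnot : ∀ (z : V) (v : V ⊕ C), v ∈ F.A.C → v ≠ Sum.inl z := by
    intro z v hv h
    rw [h] at hv
    exact F.inl_not_mem z hv
  have hred : ∀ v ∈ F.A.C, 2 * |F.A.ang v (Sum.inl a) (Sum.inl b)| < n v :=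
    fun v hv => hred' v hv (hnot a v hv) (hnot b v hv)
  -- it suffices to treat `a`, `b`
  have htri1 := F.A.qm.tri x (VQ.mk F.A.K (Sum.inl a)) y
  have htri2 := F.A.qm.tri (VQ.mk F.A.K (Sum.inl a)) (VQ.mk F.A.K (Sum.inl b)) y
  rw [F.A.qm.symm y] at hb₀
  have hD : p.Δ ≤ M'.d (Sum.inl a) (Sum.inl b) + 2 := by omega
  suffices hsuff : ∃ b' : G ⧸ F.A.K, (b' = 1 ∨ Inf b') ∧ ∀ g : G ⧸ F.A.K,
      F.A.qm.d (VQ.mk F.A.K (Sum.inl a)) (g • VQ.mk F.A.K (Sum.inl a)) ≤ p.κ + 2 →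
      F.A.qm.d (VQ.mk F.A.K (Sum.inl b)) (g • VQ.mk F.A.K (Sum.inl b)) ≤ p.κ + 2 →
      g ∈ Subgroup.zpowers b' by
    obtain ⟨b', h1, h2⟩ := hsuff
    have haux : ∀ (z z' : VQ (V := V ⊕ C) F.A.K) (g : G ⧸ F.A.K), F.A.qm.d z z' ≤ 1 →
        F.A.qm.d z (g • z) ≤ p.κ → F.A.qm.d z' (g • z') ≤ p.κ + 2 := by
      intro z z' g h3 h4
      have h5 := F.A.qm.tri z' z (g • z')
      have h6 := F.A.qm.tri z (g • z) (g • z')
      have h7 := Rot.qm_isom (A := F.A) g z z'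
      rw [F.A.qm.symm z' z] at h5
      omega
    refine ⟨b', h1, fun g h3 h4 => h2 g (haux x _ g ha h3) (haux y _ g ?_ h4)⟩
    rw [F.A.qm.symm]
    exact hb₀
  -- the large apices
  let Bs : Set (V ⊕ C) := {v | v ∈ F.A.C ∧ 40 * (F.A.pf v : ℤ) ≤ |F.A.ang v (Sum.inl a) (Sum.inl b)| ∧
    p.κ + 2 < M'.d (Sum.inl a) v ∧ p.κ + 2 < M'.d v (Sum.inl b)}
  have hsep : ∀ v ∈ Bs, M'.Sep v (Sum.inl a) (Sum.inl b) := by
    rintro v ⟨h1, h2, _, _⟩
    exact F.A.A1 v h1 _ _ (hnot a v h1).symm (hnot b v h1).symm (by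
      have h4 : |F.A.ang v (Sum.inl a) (Sum.inl b)| =
        |F.A.θ v (Sum.inl b) - F.A.θ v (Sum.inl a)| := rfl
      rw [← h4]
      have h5 : (0 : ℤ) ≤ F.A.pf v := Int.natCast_nonneg _
      linarith)
  have hinj : Set.InjOn (fun v => M'.d (Sum.inl a) v) Bs := by
    intro v hv v' hv' h
    exact (hsep v' hv').2 v (hsep v hv).1 h
  have hfin : Bs.Finite := by
    refine Set.Finite.of_finite_image (Set.Finite.subset
      (Finset.range (M'.d (Sum.inl a) (Sum.inl b) + 1)).finite_toSet ?_) hinj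
    rintro t ⟨v, hv, rfl⟩
    have h1 : M'.d (Sum.inl a) v + M'.d v (Sum.inl b) = M'.d (Sum.inl a) (Sum.inl b) :=
      (hsep v hv).1
    rw [Finset.mem_coe, Finset.mem_range]
    change M'.d (Sum.inl a) v < _
    omega
  rcases le_or_gt (10 * (p.κ + 2 + 4) ^ 3) hfin.toFinset.card with hcard | hcard
  · exact cyc_many F (F.inl_not_mem a) (F.inl_not_mem b) hmin hred hfin.toFinset
      (fun v hv => (Set.Finite.mem_toFinset hfin).mp hv) hcard
  · -- few large apices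
    have hnum := gap_num p
    have h6 : p.κ + 2 + 4 = p.κ + 6 := by omega
    rw [h6] at hcard
    set W := 10 ^ 10 * (p.κ + 2 + 2 * p.δ + 10 ^ 5 * p.δ) + 4 with hW
    set D := M'.d (Sum.inl a) (Sum.inl b) with hDdef
    obtain ⟨s, hs1, hs2, hs3⟩ := exists_gap
      (hfin.toFinset.image fun v => M'.d (Sum.inl a) v) (p.κ + 3) (D - p.κ - 3) W
      (10 * (p.κ + 6) ^ 3) (lt_of_le_of_lt Finset.card_image_le hcard) (by omega)
    obtain ⟨α, hα⟩ := GMet.exists_geo M' (Sum.inl a) (Sum.inl b)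
    rw [← hDdef] at hα
    obtain ⟨s₁, x₁, g1, g2, g3⟩ := F.geo_inl hα (s + 1) (by omega)
    obtain ⟨s₂, y₁, g4, g5, g6⟩ := F.geo_inl hα (s + W - 2) (by omega)
    have hs12 : s₁ ≤ s₂ := by omega
    have hs2D : s₂ ≤ D := by omega
    have i1 := hα.mem_I (i := s₁) (by omega)
    have i2 := hα.mem_I (i := s₂) hs2D
    have i3 := hα.2.2.2 s₁ s₂ hs12 hs2D
    rw [g3] at i1 i3
    rw [g6] at i2 i3
    obtain ⟨i1a, i1b, i1c⟩ := i1
    obtain ⟨i2a, i2b, i2c⟩ := i2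
    have j1 : Sum.inl y₁ ∈ M'.I (Sum.inl x₁) (Sum.inl b) := by
      rw [GMet.mem_I]
      omega
    have j2 := (min_sub F hmin i1a).2
    have j3 := (min_sub F j2 j1).1
    have hκ' : p.κ ≤ p.κ + 2 + 2 * p.δ := by omega
    obtain ⟨b', hb1, hb2⟩ := F.gap (x₁ := x₁) (y₁ := y₁) (T' := p.κ + 2 + 2 * p.δ) j3 (by
      intro w
      by_contra hcon
      rw [not_le] at hcon
      have hw := F.inr_mem w
      have hpf0 : (0 : ℤ) ≤ F.A.pf (Sum.inr w) := Int.natCast_nonneg _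
      have k1 : M'.Sep (Sum.inr w) (Sum.inl x₁) (Sum.inl y₁) :=
        F.A.A1 _ hw _ _ Sum.inl_ne_inr Sum.inl_ne_inr (by
          have h4 : |F.A.ang (Sum.inr w) (Sum.inl x₁) (Sum.inl y₁)| =
            |F.A.θ (Sum.inr w) (Sum.inl y₁) - F.A.θ (Sum.inr w) (Sum.inl x₁)| := rfl
          rw [← h4]
          linarith)
      have k2 : M'.d (Sum.inl x₁) (Sum.inr w) + M'.d (Sum.inr w) (Sum.inl y₁) =
        M'.d (Sum.inl x₁) (Sum.inl y₁) := k1.1
      have k3 : 0 < M'.d (Sum.inl x₁) (Sum.inr w) := by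
        rcases Nat.eq_zero_or_pos (M'.d (Sum.inl x₁) (Sum.inr w)) with h | h
        · exact absurd (M'.eq_of _ _ h) Sum.inl_ne_inr
        · exact h
      have k4 : 0 < M'.d (Sum.inr w) (Sum.inl y₁) := by
        rcases Nat.eq_zero_or_pos (M'.d (Sum.inr w) (Sum.inl y₁)) with h | h
        · exact absurd (M'.eq_of _ _ h) Sum.inr_ne_inl
        · exact h
      -- distances
      have t1 := M'.tri (Sum.inl a) (Sum.inl x₁) (Sum.inr w)
      have t2 := M'.tri (Sum.inr w) (Sum.inl y₁) (Sum.inl b)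
      have t3 := M'.tri (Sum.inl a) (Sum.inr w) (Sum.inl b)
      have l1 : Sum.inl x₁ ∈ M'.I (Sum.inr w) (Sum.inl a) := by
        rw [GMet.mem_I, M'.symm (Sum.inr w) (Sum.inl x₁), M'.symm (Sum.inl x₁) (Sum.inl a),
          M'.symm (Sum.inr w) (Sum.inl a)]
        omega
      have l2 : Sum.inl y₁ ∈ M'.I (Sum.inr w) (Sum.inl b) := by
        rw [GMet.mem_I]
        omega
      have m1 := Rot.ang_lt_of_mem_I (A := F.A) hw Sum.inl_ne_inr Sum.inl_ne_inr l1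
      have m2 := Rot.ang_lt_of_mem_I (A := F.A) hw Sum.inl_ne_inr Sum.inl_ne_inr l2
      have m3 : F.A.ang (Sum.inr w) (Sum.inl a) (Sum.inl b) =
          F.A.ang (Sum.inr w) (Sum.inl x₁) (Sum.inl y₁) -
          F.A.ang (Sum.inr w) (Sum.inl x₁) (Sum.inl a) +
          F.A.ang (Sum.inr w) (Sum.inl y₁) (Sum.inl b) := by
        unfold Rot.ang
        ring
      have m4 : 40 * (F.A.pf (Sum.inr w) : ℤ) ≤
          |F.A.ang (Sum.inr w) (Sum.inl a) (Sum.inl b)| := by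
        rw [m3]
        have m1' := abs_lt.mp m1
        have m2' := abs_lt.mp m2
        rcases abs_cases (F.A.ang (Sum.inr w) (Sum.inl x₁) (Sum.inl y₁)) with ⟨h, _⟩ | ⟨h, _⟩
        · rw [h] at hcon
          refine le_trans ?_ (le_abs_self _)
          linarith [m1'.2, m2'.1]
        · rw [h] at hcon
          refine le_trans ?_ (neg_le_abs _)
          linarith [m1'.1, m2'.2]
      have m5 : Sum.inr w ∈ Bs := ⟨hw, m4, by omega, by omega⟩
      have m6 := hs3 (M'.d (Sum.inl a) (Sum.inr w)) (Finset.mem_image.mpr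
        ⟨_, (Set.Finite.mem_toFinset hfin).mpr m5, rfl⟩)
      omega) hκ' (by omega)
    refine ⟨b', hb1, fun g h1 h2 => hb2 g ?_ ?_⟩
    · exact disp_between (Rot.qm_hyp4 F.D.hyp4) Rot.qm_isom h1 h2 (by
        rw [GMet.mem_I, j2, (min_sub F hmin i1a).1, hmin]
        exact i1a)
    · exact disp_between (Rot.qm_hyp4 F.D.hyp4) Rot.qm_isom h1 h2 (by
        rw [GMet.mem_I, (min_sub F hmin i2a).1, (min_sub F hmin i2a).2, hmin]
        exact i2a)

/-- **the quotient satisfies the induction hypothesis** -/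
theorem hyp (F : Full p G V C M S M' n) : Hyp p (G ⧸ F.A.K) (VQ (V := V ⊕ C) F.A.K) F.A.qm where
  ne := by
    obtain ⟨x⟩ := F.D.hH.ne
    exact ⟨VQ.mk _ (Sum.inl x)⟩
  isom := Rot.qm_isom
  hyp := Rot.qm_hyp4 F.D.hyp4
  dich := F.dich
  cyc := F.cyc

end Full

end Pool.Agent.Helper85.Burn
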