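import Pool.Agent.Helper85.Burn.RotG

/-!
Module CLOSING: geodesic polygons lift to closed geodesic polygons; the quotient graph metric
satisfies the four point condition with the same constant.
-/

set_option autoImplicit false

namespace Pool.Agent.Helper85.Burn

open Pool.Agent.Helper88.Burn

namespace Rot

variable {G V : Type} [Group G] [MulAction G V] {M : GMet V} {n : V → ℕ} {P : ℕ}
  {A : Rot G V M n P}

/-- (A.9) closing lemma; the first vertex may be an apex.
Proof.  Induction on `Φ(x_0,x_m)`, `x_m = k x_0`.  If `x_m = x_0` done.  Otherwise there is `w` with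
`2 |ang w x_0 x_m| > n w`; `h` = reducing rotation at `w` for `(x_0,x_m)`.  If `w = x_i` for some
`i`, replace `x_j` by `h x_j` for `j > i`.  Otherwise some `|ang w x_i x_{i+1}| ≥ pf w`, so
`w ∈ I(x_i,x_{i+1})` and `d(x_i, h x_{i+1}) ≤ d(x_i,x_{i+1})`: replace `x_j` by `h x_j` for `j > i`.
-/
theorem closing' (m : ℕ) (hm : m ≤ 50) (x : ℕ → V) (hK : ∃ k ∈ A.K, x m = k • x 0) :
    ∃ k : ℕ → G, (∀ i, k i ∈ A.K) ∧ k 0 = 1 ∧ k m • x m = x 0 ∧
      ∀ i < m, M.d (k i • x i) (k (i + 1) • x (i + 1)) ≤ M.d (x i) (x (i + 1)) := by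
  generalize hN : A.Φ (x 0) (x m) = N
  induction N using Nat.strong_induction_on generalizing x with
  | _ N ih =>
    by_cases hclose : x m = x 0
    · exact ⟨fun _ => 1, fun _ => one_mem _, rfl, by rw [one_smul]; exact hclose,
        fun i _ => by simp⟩
    · obtain ⟨k₀, hk₀, hk₀'⟩ := hK
      obtain ⟨w, hw, hw0, hwm, hlt⟩ := exists_unreduced' hk₀ (by rw [← hk₀']; exact hclose)
      rw [← hk₀'] at hwm hlt
      have hnb : (1000 * P : ℤ) ≤ n w := by exact_mod_cast A.n_big w hw
      have hpf : (A.pf w : ℤ) ≤ P := by exact_mod_cast A.pf_le w hw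
      have hpp : (1 : ℤ) ≤ A.pf w := by exact_mod_cast A.pf_pos w hw
      obtain ⟨h, hh, h2⟩ := exists_red hw hw0.symm hwm.symm
      have hΦ := Φ_red hw hw0 hwm hh hlt h2
      have hhK := H_le_K hw hh
      have hfix := (θ_H hw hwm.symm hh).1
      have hdw : ∀ y, M.d w (h • y) = M.d w y := by
        intro y
        have := A.isom h w y
        rwa [hfix] at this
      obtain ⟨i, hi, hcut⟩ : ∃ i < m, M.d (x i) (h • x (i + 1)) ≤ M.d (x i) (x (i + 1)) := by
        by_cases hex : ∃ i ≤ m, x i = w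
        · obtain ⟨i, hi, hiw⟩ := hex
          have him : i ≠ m := by rintro rfl; exact hwm hiw.symm
          exact ⟨i, by omega, by rw [hiw, hdw]⟩
        · push Not at hex
          by_contra hcon
          push Not at hcon
          have h3 : ∀ i < m, |A.ang w (x i) (x (i + 1))| ≤ P := by
            intro i hi
            by_contra h4
            push Not at h4
            have h5 := (A.A1 w hw _ _ (hex i (by omega)) (hex (i + 1) (by omega))
              (show (A.pf w : ℤ) ≤ |A.ang w _ _| by omega)).1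
            simp only [GMet.mem_I] at h5
            have h6 := hcon i hi
            have h7 := M.tri (x i) w (h • x (i + 1))
            rw [hdw] at h7
            omega
          have h4 : ∀ j ≤ m, |A.ang w (x 0) (x j)| ≤ j * P := by
            intro j
            induction j with
            | zero => intro _; rw [ang_self]; simp
            | succ j ihj =>
              intro hj
              have h5 := ihj (by omega)
              have h6 := h3 j (by omega)
              have h7 := abs_add_le (A.ang w (x 0) (x j)) (A.ang w (x j) (x (j + 1)))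
              rw [ang_add] at h7
              push_cast
              linarith
          have h5 := h4 m le_rfl
          have h6 : (m : ℤ) * P ≤ 50 * P := by
            apply mul_le_mul_of_nonneg_right _ (by positivity)
            exact_mod_cast hm
          omega
      set x' : ℕ → V := fun j => if j ≤ i then x j else h • x j with hx'
      have e0 : x' 0 = x 0 := by simp [hx']
      have em : x' m = h • x m := by
        simp only [hx']; rw [if_neg (by omega)]
      obtain ⟨k, hk1, hk2, hk3, hk4⟩ := ih (A.Φ (x' 0) (x' m)) (by rw [e0, em, ← hN]; exact hΦ)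
        x' ⟨h * k₀, mul_mem hhK hk₀, by rw [em, e0, hk₀', mul_smul]⟩ rfl
      refine ⟨fun j => if j ≤ i then k j else k j * h, ?_, ?_, ?_, ?_⟩
      · intro j
        dsimp only
        split_ifs
        · exact hk1 j
        · exact mul_mem (hk1 j) hhK
      · simpa using hk2
      · dsimp only
        rw [if_neg (by omega), mul_smul, ← em, hk3, e0]
      · intro j hj
        have h7 := hk4 j hj
        rcases lt_trichotomy j i with h8 | h8 | h8
        · simp only [hx', show j ≤ i by omega, show j + 1 ≤ i by omega, if_true] at h7 ⊢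
          exact h7
        · subst h8
          simp only [hx', le_refl, if_true, show ¬ (j + 1 ≤ j) by omega, if_false] at h7 ⊢
          rw [mul_smul]
          exact h7.trans hcut
        · simp only [hx', show ¬ (j ≤ i) by omega, show ¬ (j + 1 ≤ i) by omega, if_false] at h7 ⊢
          rw [A.isom] at h7
          rw [mul_smul, mul_smul]
          exact h7

/-- (A.9) closing lemma. -/
theorem closing (m : ℕ) (hm : m ≤ 50) (x : ℕ → V) (_h0 : x 0 ∉ A.C)
    (hK : ∃ k ∈ A.K, x m = k • x 0) :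
    ∃ k : ℕ → G, (∀ i, k i ∈ A.K) ∧ k 0 = 1 ∧ k m • x m = x 0 ∧
      ∀ i < m, M.d (k i • x i) (k (i + 1) • x (i + 1)) ≤ M.d (x i) (x (i + 1)) :=
  closing' m hm x hK

end Rot

/-- the orbit space -/
def VQ {G V : Type} [Group G] [MulAction G V] (K : Subgroup G) : Type :=
  Quotient (MulAction.orbitRel K V)

namespace VQ

variable {G V : Type} [Group G] [MulAction G V] {K : Subgroup G}

/-- projection to the orbit space -/
def mk (K : Subgroup G) (x : V) : VQ (V := V) K := Quotient.mk _ x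

lemma mk_eq_iff {x y : V} : mk K x = mk K y ↔ ∃ k ∈ K, x = k • y := by
  have h0 : mk K x = mk K y ↔ MulAction.orbitRel K V x y :=
    Quotient.eq (r := MulAction.orbitRel K V)
  rw [h0]
  constructor
  · intro h
    rw [MulAction.orbitRel_apply] at h
    obtain ⟨k, hk⟩ := h
    exact ⟨k.1, k.2, hk.symm⟩
  · rintro ⟨k, hk, h⟩
    rw [MulAction.orbitRel_apply]
    exact ⟨⟨k, hk⟩, h.symm⟩

lemma mk_surj : Function.Surjective (mk (V := V) K) := by
  intro q
  induction q using Quotient.inductionOn with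
  | _ x => exact ⟨x, rfl⟩

/-- the action of the quotient group on the orbit space -/
def act [K.Normal] (q : G ⧸ K) (v : VQ (V := V) K) : VQ (V := V) K :=
  Quotient.liftOn₂' q v (fun g x => mk K (g • x)) (by
    intro g x g' x' h1 h2
    rw [QuotientGroup.leftRel_apply] at h1
    obtain ⟨k, hk, hx⟩ := mk_eq_iff.1 (Quotient.sound h2 : mk K x = mk K x')
    refine mk_eq_iff.2 ?_
    have hN : K.Normal := inferInstance
    refine ⟨g * (k * (g⁻¹ * g')⁻¹) * g⁻¹, hN.conj_mem _ (mul_mem hk (inv_mem h1)) g, ?_⟩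
    rw [hx, ← mul_smul, ← mul_smul]
    congr 1
    group)

instance [K.Normal] : MulAction (G ⧸ K) (VQ (V := V) K) where
  smul := act
  one_smul := by
    intro v
    obtain ⟨x, rfl⟩ := mk_surj v
    exact congrArg (mk K) (one_smul G x)
  mul_smul := by
    intro a b v
    obtain ⟨x, rfl⟩ := mk_surj v
    induction a using QuotientGroup.induction_on with
    | H a =>
      induction b using QuotientGroup.induction_on with
      | H b => exact congrArg (mk K) (mul_smul a b x)

lemma mk_smul [K.Normal] (g : G) (x : V) :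
    mk K (g • x) = (QuotientGroup.mk g : G ⧸ K) • mk K x := rfl

end VQ

namespace Rot

variable {G V : Type} [Group G] [MulAction G V] {M : GMet V} {n : V → ℕ} {P : ℕ}
  (A : Rot G V M n P)

/-- the metric system of a rotation structure -/
def toMet : MetSys A.toSys where
  d := M.d
  d_self := M.self
  eq_of_d := fun {x y} h => M.eq_of x y h
  d_symm := M.symm
  d_tri := M.tri
  d_smul := A.isom
  bgi := by
    intro v y z hv hvy hvz h
    have hpf : (A.pf v : ℤ) ≤ P := by exact_mod_cast A.pf_le v hv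
    have h' : (P : ℤ) < |A.ang v y z| := h
    have h1 := (A.A1 v hv y z hvy.symm hvz.symm (show (A.pf v : ℤ) ≤ |A.ang v _ _| by omega)).1
    simp only [GMet.mem_I] at h1
    exact h1.symm

/-- the quotient metric `d̄(x̄,ȳ) = min_k d(x, k y)`, stated as an existence theorem -/
theorem exists_quot : ∃ M' : GMet (VQ (V := V) A.K),
    (∀ x y : V, M'.d (VQ.mk A.K x) (VQ.mk A.K y) ≤ M.d x y) ∧
    (∀ x y : V, ∃ k ∈ A.K, M.d x (k • y) = M'.d (VQ.mk A.K x) (VQ.mk A.K y)) := by
  have hKK := A.toSys_K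
  let D : VQ (V := V) A.K → VQ (V := V) A.K → ℕ := fun a b =>
    Quotient.liftOn₂ a b (fun x y => A.toMet.dK x y) (by
      intro x y x' y' h1 h2
      obtain ⟨k, hk, hx⟩ := VQ.mk_eq_iff.1 (Quotient.sound h1 : VQ.mk A.K x = VQ.mk A.K x')
      obtain ⟨l, hl, hy⟩ := VQ.mk_eq_iff.1 (Quotient.sound h2 : VQ.mk A.K y = VQ.mk A.K y')
      rw [← hKK] at hk hl
      rw [hx, hy, A.toMet.dK_smul_left hk, A.toMet.dK_smul_right hl])
  have hD : ∀ x y, D (VQ.mk A.K x) (VQ.mk A.K y) = A.toMet.dK x y := fun _ _ => rfl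
  refine ⟨{ d := D, self := ?_, eq_of := ?_, symm := ?_, tri := ?_, geod := ?_ }, ?_, ?_⟩
  · intro a
    obtain ⟨x, rfl⟩ := VQ.mk_surj a
    exact A.toMet.dK_self x
  · intro a b h
    obtain ⟨x, rfl⟩ := VQ.mk_surj a
    obtain ⟨y, rfl⟩ := VQ.mk_surj b
    rw [hD] at h
    obtain ⟨k, hk, h1⟩ := A.toMet.exists_of_dK_eq_zero h
    rw [hKK] at hk
    exact VQ.mk_eq_iff.2 ⟨k, hk, h1⟩
  · intro a b
    obtain ⟨x, rfl⟩ := VQ.mk_surj a
    obtain ⟨y, rfl⟩ := VQ.mk_surj b
    exact A.toMet.dK_symm x y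
  · intro a b c
    obtain ⟨x, rfl⟩ := VQ.mk_surj a
    obtain ⟨y, rfl⟩ := VQ.mk_surj b
    obtain ⟨z, rfl⟩ := VQ.mk_surj c
    exact A.toMet.dK_tri x y z
  · intro a b i hi
    obtain ⟨x, rfl⟩ := VQ.mk_surj a
    obtain ⟨y, rfl⟩ := VQ.mk_surj b
    rw [hD] at hi
    obtain ⟨k, hk, h1⟩ := A.toMet.exists_dK x y
    change M.d x (k • y) = _ at h1
    obtain ⟨z, h2, h3⟩ := M.geod x (k • y) i (by omega)
    refine ⟨VQ.mk A.K z, ?_⟩
    rw [hD, hD, hD]
    have h4 := A.toMet.dK_le_d x z
    have h5 := A.toMet.dK_le_d z (k • y)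
    rw [A.toMet.dK_smul_right hk] at h5
    change _ ≤ M.d x z at h4
    change _ ≤ M.d z (k • y) at h5
    have h6 := A.toMet.dK_tri x z y
    omega
  · intro x y
    exact A.toMet.dK_le_d x y
  · intro x y
    obtain ⟨k, hk, h1⟩ := A.toMet.exists_dK x y
    rw [hKK] at hk
    exact ⟨k, hk, h1⟩

/-- the quotient metric -/
noncomputable def qm : GMet (VQ (V := V) A.K) := A.exists_quot.choose

variable {A}

lemma qm_le (x y : V) : A.qm.d (VQ.mk A.K x) (VQ.mk A.K y) ≤ M.d x y :=
  A.exists_quot.choose_spec.1 x y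

lemma qm_exists (x y : V) :
    ∃ k ∈ A.K, M.d x (k • y) = A.qm.d (VQ.mk A.K x) (VQ.mk A.K y) :=
  A.exists_quot.choose_spec.2 x y

lemma mk_smul_K {k : G} (hk : k ∈ A.K) (x : V) : VQ.mk A.K (k • x) = VQ.mk A.K x :=
  VQ.mk_eq_iff.2 ⟨k, hk, rfl⟩

lemma qm_isom : A.qm.Isom (G ⧸ A.K) := by
  have key : ∀ (g : G ⧸ A.K) (a b : VQ (V := V) A.K), A.qm.d (g • a) (g • b) ≤ A.qm.d a b := by
    intro g a b
    obtain ⟨x, rfl⟩ := VQ.mk_surj a
    obtain ⟨y, rfl⟩ := VQ.mk_surj b
    induction g using QuotientGroup.induction_on with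
    | H g =>
      obtain ⟨k, hk, h⟩ := qm_exists (A := A) x y
      rw [← mk_smul_K hk y, ← VQ.mk_smul, ← VQ.mk_smul, mk_smul_K hk y, ← h]
      have h1 := qm_le (A := A) (g • x) (g • k • y)
      rwa [A.isom] at h1
  intro g a b
  refine le_antisymm (key g a b) ?_
  have := key g⁻¹ (g • a) (g • b)
  rwa [inv_smul_smul, inv_smul_smul] at this

/-- lifting of polygons with at most 50 sides -/
theorem lift_polygon (m : ℕ) (hm : m ≤ 50) (x : ℕ → V) (hK : ∃ k ∈ A.K, x m = k • x 0) :
    ∃ p : ℕ → V, p 0 = x 0 ∧ (∀ i, ∃ k ∈ A.K, p i = k • x i) ∧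
      (∀ i < m, M.d (p i) (p (i + 1)) = A.qm.d (VQ.mk A.K (x i)) (VQ.mk A.K (x (i + 1)))) ∧
      p m = p 0 := by
  choose k hk hkd using fun i => qm_exists (A := A) (x i) (x (i + 1))
  let g : ℕ → G := fun i => Nat.rec 1 (fun i gi => gi * k i) i
  have hg : ∀ i, g i ∈ A.K := by
    intro i
    induction i with
    | zero => exact one_mem _
    | succ i ih => exact mul_mem ih (hk i)
  obtain ⟨l, hl1, hl2, hl3, hl4⟩ := closing' m hm (fun i => g i • x i) (by
    obtain ⟨k', hk', h'⟩ := hK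
    refine ⟨g m * k', mul_mem (hg m) hk', ?_⟩
    change g m • x m = (g m * k') • ((1 : G) • x 0)
    rw [h', mul_smul, one_smul])
  refine ⟨fun i => l i • g i • x i, ?_, ?_, ?_, ?_⟩
  · change l 0 • (1 : G) • x 0 = _
    rw [hl2, one_smul, one_smul]
  · intro i
    exact ⟨l i * g i, mul_mem (hl1 i) (hg i), by rw [mul_smul]⟩
  · intro i hi
    apply le_antisymm
    · refine (hl4 i hi).trans ?_
      change M.d (g i • x i) ((g i * k i) • x (i + 1)) ≤ _
      rw [mul_smul, A.isom, hkd]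
    · have h1 := qm_le (A := A) (l i • g i • x i) (l (i + 1) • g (i + 1) • x (i + 1))
      rw [mk_smul_K (hl1 i), mk_smul_K (hg i), mk_smul_K (hl1 (i + 1))] at h1
      rwa [mk_smul_K (hg (i + 1)) (x (i + 1))] at h1
  · change l m • g m • x m = l 0 • g 0 • x 0
    rw [hl3, hl2, one_smul]

/-- (A.10) a triangle in the quotient lifts. -/
theorem lift3 (a b c : VQ (V := V) A.K) (x : V) (hx : VQ.mk A.K x = a) :
    ∃ y z : V, VQ.mk A.K y = b ∧ VQ.mk A.K z = c ∧
      M.d x y = A.qm.d a b ∧ M.d y z = A.qm.d b c ∧ M.d z x = A.qm.d c a := by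
  obtain ⟨y, hy⟩ := VQ.mk_surj b
  obtain ⟨z, hz⟩ := VQ.mk_surj c
  obtain ⟨p, h0, hp, hd, hc⟩ := lift_polygon (A := A) 3 (by norm_num)
    (fun i => if i = 0 then x else if i = 1 then y else if i = 2 then z else x)
    ⟨1, one_mem _, by simp⟩
  have e0 := hd 0 (by norm_num)
  have e1 := hd 1 (by norm_num)
  have e2 := hd 2 (by norm_num)
  obtain ⟨k1, hk1, f1⟩ := hp 1
  obtain ⟨k2, hk2, f2⟩ := hp 2
  norm_num at h0 e0 e1 e2 f1 f2 hc
  rw [hc] at e2
  rw [h0] at e0 e2
  refine ⟨p 1, p 2, ?_, ?_, ?_, ?_, ?_⟩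
  · rw [f1, mk_smul_K hk1, hy]
  · rw [f2, mk_smul_K hk2, hz]
  · rw [e0, hx, hy]
  · rw [e1, hy, hz]
  · rw [e2, hz, hx]

/-- (A.10) a quadrilateral in the quotient lifts. -/
theorem lift4 (a b c e : VQ (V := V) A.K) (x : V) (hx : VQ.mk A.K x = a) :
    ∃ y z t : V, VQ.mk A.K y = b ∧ VQ.mk A.K z = c ∧ VQ.mk A.K t = e ∧
      M.d x y = A.qm.d a b ∧ M.d y z = A.qm.d b c ∧ M.d z t = A.qm.d c e ∧
      M.d t x = A.qm.d e a := by
  obtain ⟨y, hy⟩ := VQ.mk_surj b
  obtain ⟨z, hz⟩ := VQ.mk_surj c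
  obtain ⟨t, ht⟩ := VQ.mk_surj e
  obtain ⟨p, h0, hp, hd, hc⟩ := lift_polygon (A := A) 4 (by norm_num)
    (fun i => if i = 0 then x else if i = 1 then y else if i = 2 then z else
      if i = 3 then t else x)
    ⟨1, one_mem _, by simp⟩
  have e0 := hd 0 (by norm_num)
  have e1 := hd 1 (by norm_num)
  have e2 := hd 2 (by norm_num)
  have e3 := hd 3 (by norm_num)
  obtain ⟨k1, hk1, f1⟩ := hp 1
  obtain ⟨k2, hk2, f2⟩ := hp 2
  obtain ⟨k3, hk3, f3⟩ := hp 3
  norm_num at h0 e0 e1 e2 e3 f1 f2 f3 hc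
  rw [hc] at e3
  rw [h0] at e0 e3
  refine ⟨p 1, p 2, p 3, ?_, ?_, ?_, ?_, ?_, ?_, ?_⟩
  · rw [f1, mk_smul_K hk1, hy]
  · rw [f2, mk_smul_K hk2, hz]
  · rw [f3, mk_smul_K hk3, ht]
  · rw [e0, hx, hy]
  · rw [e1, hy, hz]
  · rw [e2, hz, ht]
  · rw [e3, ht, hx]

/-- the four point condition passes to the quotient with the same constant.  Proof: lift the
quadrilateral `x, z, y, w`; the diagonals do not increase. -/
theorem qm_hyp4 {δ : ℕ} (hM : M.Hyp4 δ) : A.qm.Hyp4 δ := by
  intro a b c e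
  obtain ⟨x, hx⟩ := VQ.mk_surj a
  obtain ⟨y, z, t, h1, h2, h3, d1, d2, d3, d4⟩ := lift4 (A := A) a c b e x hx
  have h4 := hM x z y t
  have h5 := qm_le (A := A) x z
  have h6 := qm_le (A := A) y t
  rw [hx, h2] at h5
  rw [h1, h3] at h6
  have s1 := M.symm x t
  have s2 := M.symm z y
  have s3 := M.symm x y
  have s4 := A.qm.symm a e
  have s5 := A.qm.symm b c
  have s6 := A.qm.symm a c
  have s7 := M.symm z t
  omega

end Rot

end Pool.Agent.Helper85.Burn
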