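import Pool.Agent.Helper85.Burn.Basic

/-!
Module PROJ: nearest point projection to a quasi-line.  `σ` = step, `c` = collinearity constant,
`C2 = 4 (σ + c + 4δ + 1) + 2δ`.
-/

set_option autoImplicit false

namespace Pool.Agent.Helper85.Burn

/-- `i` is an index of a point of the line `y` nearest to `x`. -/
def Near {V : Type} (M : GMet V) (y : ℤ → V) (x : V) (i : ℤ) : Prop :=
  ∀ j, M.d x (y i) ≤ M.d x (y j)

/-- quasi-line with step `σ` and collinearity constant `c` -/
structure QLine {V : Type} (M : GMet V) (y : ℤ → V) (σ c : ℕ) : Prop where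
  step : ∀ i, M.d (y i) (y (i + 1)) ≤ σ
  coll : ∀ i j l : ℤ, i ≤ j → j ≤ l → M.d (y i) (y j) + M.d (y j) (y l) ≤ M.d (y i) (y l) + c

/-- projection constant -/
def C2 (δ σ c : ℕ) : ℕ := 4 * (σ + c + 4 * δ + 1) + 2 * δ

variable {V : Type} {M : GMet V} {δ σ c : ℕ} {y : ℤ → V}

/-- discrete intermediate value: a point at a given distance (up to `σ`) between two indices -/
lemma QLine.ivt (h : QLine M y σ c) (i j : ℤ) (t : ℕ) (ht : t ≤ M.d (y i) (y j)) :
    ∃ l, (i ≤ l ∧ l ≤ j ∨ j ≤ l ∧ l ≤ i) ∧ t ≤ M.d (y i) (y l) ∧ M.d (y i) (y l) ≤ t + σ := by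
  rcases le_total i j with hij | hij
  · obtain ⟨n, rfl⟩ := Int.exists_add_of_le hij
    classical
    have hex : ∃ m : ℕ, t ≤ M.d (y i) (y (i + m)) := ⟨n, ht⟩
    have h1 := Nat.find_spec hex
    have hle : Nat.find hex ≤ n := Nat.find_min' hex ht
    refine ⟨i + (Nat.find hex : ℕ), Or.inl ⟨by omega, by omega⟩, h1, ?_⟩
    rcases Nat.eq_zero_or_pos (Nat.find hex) with h0 | hpos
    · rw [h0]
      simp [M.self]
    · obtain ⟨m, hm⟩ : ∃ m, Nat.find hex = m + 1 := ⟨Nat.find hex - 1, by omega⟩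
      have h2 : ¬ t ≤ M.d (y i) (y (i + m)) := Nat.find_min hex (by omega)
      have h3 := h.step (i + m)
      have h4 := M.tri (y i) (y (i + m)) (y (i + m + 1))
      rw [hm]
      have h5 : (i + ((m + 1 : ℕ) : ℤ)) = i + m + 1 := by push_cast; ring
      rw [h5]
      omega
  · obtain ⟨n, rfl⟩ := Int.exists_add_of_le hij
    classical
    obtain ⟨i', hi'⟩ : ∃ i' : ℤ, i' = j + n := ⟨_, rfl⟩
    rw [← hi'] at ht ⊢
    have hj' : j = i' - n := by omega
    have hex : ∃ m : ℕ, t ≤ M.d (y i') (y (i' - m)) := ⟨n, by rw [← hj']; exact ht⟩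
    have h1 := Nat.find_spec hex
    have hle : Nat.find hex ≤ n := Nat.find_min' hex (by rw [← hj']; exact ht)
    refine ⟨i' - (Nat.find hex : ℕ), Or.inr ⟨by omega, by omega⟩, h1, ?_⟩
    rcases Nat.eq_zero_or_pos (Nat.find hex) with h0 | hpos
    · rw [h0]
      simp [M.self]
    · obtain ⟨m, hm⟩ : ∃ m, Nat.find hex = m + 1 := ⟨Nat.find hex - 1, by omega⟩
      have h2 : ¬ t ≤ M.d (y i') (y (i' - m)) := Nat.find_min hex (by omega)
      have h3 := h.step (i' - m - 1)
      have h4 := M.tri (y i') (y (i' - m)) (y (i' - m - 1))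
      rw [hm]
      have h5 : (i' - ((m + 1 : ℕ) : ℤ)) = i' - m - 1 := by push_cast; ring
      rw [h5]
      have h6 : i' - m - 1 + 1 = i' - m := by ring
      rw [h6, M.symm] at h3
      omega

/-- a point near `I(y i, y j)` is near the line.  Proof: `ivt`, `coll`, `h3`. -/
lemma QLine.near_between (hM : M.Hyp4 δ) (h : QLine M y σ c) {i j : ℤ} {u : V} {ν : ℕ}
    (hu : M.d (y i) u + M.d u (y j) ≤ M.d (y i) (y j) + ν) :
    ∃ l, (i ≤ l ∧ l ≤ j ∨ j ≤ l ∧ l ≤ i) ∧ M.d u (y l) ≤ σ + c + 2 * ν + 2 * δ := by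
  obtain ⟨l, hl, h1, h2⟩ := h.ivt i j (min (M.d (y i) u) (M.d (y i) (y j))) (min_le_right _ _)
  refine ⟨l, hl, ?_⟩
  have h3' : M.d (y i) (y l) + M.d (y l) (y j) ≤ M.d (y i) (y j) + c := by
    rcases hl with ⟨ha, hb⟩ | ⟨ha, hb⟩
    · exact h.coll i l j ha hb
    · have := h.coll j l i ha hb
      rw [M.symm (y j) (y l), M.symm (y l) (y i), M.symm (y j) (y i)] at this
      omega
  have h4 := GMet.h3 hM hu h3'
  have h5 : |(M.d (y i) u : ℤ) - M.d (y i) (y l)| ≤ σ + ν := by
    rw [abs_le]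
    rcases le_total (M.d (y i) u) (M.d (y i) (y j)) with h6 | h6
    · rw [min_eq_left h6] at h1 h2
      constructor <;> omega
    · rw [min_eq_right h6] at h1 h2
      constructor <;> omega
  have h7 : (M.d u (y l) : ℤ) ≤ σ + c + 2 * ν + 2 * δ := by linarith
  exact_mod_cast h7

/-- nearest indices exist, if the line is proper -/
lemma exists_near (q : ℕ) (h : ∀ i j : ℤ, |i - j| ≤ q * M.d (y i) (y j)) (x : V) :
    ∃ i, Near M y x i := by
  classical
  have hex : ∃ m : ℕ, ∃ i, M.d x (y i) = m := ⟨_, 0, rfl⟩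
  obtain ⟨i, hi⟩ := Nat.find_spec hex
  exact ⟨i, fun j => by rw [hi]; exact Nat.find_min' hex ⟨j, rfl⟩⟩

/-- (P1) Proof: otherwise take `q ∈ I(y i, y j)` at distance `e = σ + c + 4δ + 1` from `y i`;
`d(x,q) ≤ d(x, y i) - e + 2δ` and `q` is at distance `≤ σ + c + 2δ` from the line. -/
lemma P1 (hM : M.Hyp4 δ) (h : QLine M y σ c) {x : V} {i : ℤ} (hi : Near M y x i) (j : ℤ) :
    M.d x (y i) + M.d (y i) (y j) ≤ M.d x (y j) + 2 * (σ + c + 4 * δ + 1) := by
  by_contra hcon
  push Not at hcon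
  have h0 := hi j
  have h1 : σ + c + 4 * δ + 1 ≤ M.d (y i) (y j) := by omega
  obtain ⟨q, hq, hqd⟩ := GMet.geod_I (M := M) (y i) (y j) _ h1
  rw [GMet.mem_I] at hq
  have h2 := GMet.h1 hM (x := y i) (y := y j) (u := q) (ν := 0) (by omega) x
  obtain ⟨l, -, hl⟩ := h.near_between hM (i := i) (j := j) (u := q) (ν := 0) (by omega)
  have h3 := hi l
  have h4 := M.tri x q (y l)
  have h5 := M.symm q x
  have h6 := M.symm (y j) x
  have h7 := M.symm (y i) x
  omega

/-- (P2) projections of two points.  Proof: (P1) twice and the four point condition. -/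
lemma P2 (hM : M.Hyp4 δ) (h : QLine M y σ c) {x x' : V} {i j : ℤ} (hi : Near M y x i)
    (hj : Near M y x' j) :
    M.d (y i) (y j) ≤ C2 δ σ c ∨
      M.d x (y i) + M.d (y i) (y j) + M.d (y j) x' ≤ M.d x x' + C2 δ σ c := by
  have h1 := P1 hM h hi j
  have h2 := P1 hM h hj i
  have h3 := hM x (y j) x' (y i)
  have h4 := M.symm (y j) (y i)
  have h5 := M.symm (y j) x'
  unfold C2
  rcases le_total (M.d x x' + M.d (y j) (y i)) (M.d x (y i) + M.d (y j) x') with h6 | h6
  · rw [max_eq_right h6] at h3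
    left
    omega
  · rw [max_eq_left h6] at h3
    right
    omega

/-- (P4) the projection is coarsely Lipschitz -/
lemma P4 (hM : M.Hyp4 δ) (h : QLine M y σ c) {x x' : V} {i j : ℤ} (hi : Near M y x i)
    (hj : Near M y x' j) : M.d (y i) (y j) ≤ M.d x x' + C2 δ σ c := by
  rcases P2 hM h hi hj with h1 | h1 <;> omega

/-- (PJ) if `b` is almost between `a` and `c'` the projections of `a`, `c'` are at least as far apart
as those of `b`, `c'`. -/
lemma PJ (hM : M.Hyp4 δ) (h : QLine M y σ c) {a b e : V} {i j l : ℤ} {ν : ℕ} (hi : Near M y a i)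
    (hj : Near M y b j) (hl : Near M y e l) (hab : M.d a b + M.d b e ≤ M.d a e + ν) :
    M.d (y j) (y l) ≤ M.d (y i) (y l) + C2 δ σ c + ν := by
  rcases P2 hM h hj hl with h1 | h1
  · omega
  · have h2 := hi j
    have h3 := M.tri a b (y j)
    have h4 := M.tri a (y i) (y l)
    have h5 := M.tri a (y l) e
    omega

/-- (PN) if `b` is almost between `a` and `e`, and the projection of `b` is far from both other
projections, then `b` is near the line. -/
lemma PN (hM : M.Hyp4 δ) (h : QLine M y σ c) {a b e : V} {i j l : ℤ} {ν : ℕ} (hi : Near M y a i)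
    (hj : Near M y b j) (hl : Near M y e l) (hab : M.d a b + M.d b e ≤ M.d a e + ν)
    (h1 : C2 δ σ c < M.d (y i) (y j)) (h2 : C2 δ σ c < M.d (y j) (y l)) :
    2 * M.d b (y j) ≤ 2 * C2 δ σ c + ν := by
  rcases P2 hM h hi hj with h3 | h3
  · omega
  rcases P2 hM h hj hl with h4 | h4
  · omega
  have h5 := M.tri a (y i) (y j)
  have h6 := M.tri a (y j) (y l)
  have h7 := M.tri a (y l) e
  have h8 := M.symm (y j) b
  omega

end Pool.Agent.Helper85.Burn
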