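import Pool.Agent.Helper85.Burn.CycAll
import Pool.Agent.Helper85.Burn.Proj

/-!
Module LINES: the family of axes of all short loxodromic elements.
-/

set_option autoImplicit false

namespace Pool.Agent.Helper85.Burn

/-- An invariant family of quasi-lines. -/
structure Lines (G V C : Type) [Group G] [MulAction G V] [MulAction G C] (M : GMet V)
    (p : Par) where
  ρ : C → G
  y : C → ℤ → V
  ρ_smul : ∀ (g : G) w, ρ (g • w) = g * ρ w * g⁻¹
  ρ_fix : ∀ w, ρ w • w = w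
  stab : ∀ w (g : G), g • w = w → g ∈ Subgroup.zpowers (ρ w)
  y_ρ : ∀ w i, ρ w • y w i = y w (i + 1)
  y_smul : ∀ (g : G) w, ∃ j : ℤ, ∀ i, g • y w i = y (g • w) (i + j)
  step : ∀ w i, M.d (y w i) (y w (i + 1)) ≤ 2 * p.L
  coll : ∀ w (i j l : ℤ), i ≤ j → j ≤ l →
    M.d (y w i) (y w j) + M.d (y w j) (y w l) ≤ M.d (y w i) (y w l) + p.L
  far : ∀ w (i j : ℤ), |i - j| ≤ p.q * M.d (y w i) (y w j)
  overl : ∀ w w' : C, w ≠ w' → ∀ a b i j : ℤ, Near M (y w) (y w' a) i → Near M (y w) (y w' b) j →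
    4 * M.d (y w i) (y w j) ≤ p.R
  catches : ∀ g : G, Inf g → (∃ x, M.d x (g • x) ≤ p.L) → ∃ w, g ∈ Subgroup.zpowers (ρ w)

variable {G V : Type} [Group G] [MulAction G V] {M : GMet V} {p : Par}

/-- `a` has infinite order, small displacement somewhere and generates a maximal cyclic subgroup -/
def Prim (M : GMet V) (p : Par) (a : G) : Prop :=
  Inf a ∧ (∃ x : V, M.d x (a • x) ≤ p.L + 6 * p.δ) ∧
    ∀ b : G, a ∈ Subgroup.zpowers b → b ∈ Subgroup.zpowers a

/-- translation to `dich` -/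
lemma Hyp.loxo (hH : Hyp p G V M) {g : G} (hg : Inf g) (x : V) (m : ℕ) :
    m ≤ p.q * M.d x (g ^ m • x) := by
  rcases hH.dich g with ⟨k, hk, hk1⟩ | h
  · exact absurd hk1 (hg k hk.pos)
  · exact h x m

/-- `δ` is much smaller than `L` -/
lemma Par.dL (p : Par) : 10 ^ 9 * p.δ ≤ p.L := by
  have hδ := p.hδ
  have hq := p.hq
  have hκ := p.hκ
  have hΔ := p.hΔ
  have hL := p.hL
  have h1 : p.δ ≤ p.δ ^ 2 * p.q := by
    calc p.δ = p.δ * 1 := by ring
      _ ≤ p.δ * (p.δ * p.q) := by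
          apply Nat.mul_le_mul_left
          exact Nat.one_le_iff_ne_zero.mpr (by
            have : p.δ ≠ 0 := by omega
            have : p.q ≠ 0 := by omega
            positivity)
      _ = p.δ ^ 2 * p.q := by ring
  have h2 : 10 ^ 20 * p.δ ≤ p.κ := by
    calc 10 ^ 20 * p.δ ≤ 10 ^ 20 * (p.δ ^ 2 * p.q) := Nat.mul_le_mul_left _ h1
      _ = 10 ^ 20 * p.δ ^ 2 * p.q := by ring
      _ ≤ p.κ := hκ
  have h3 : p.κ ≤ p.κ ^ 5 := Nat.le_self_pow (by norm_num) _
  omega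

lemma Par.DL (p : Par) : 1000 * p.Δ ≤ p.L := p.hL

/-- minimisers of the displacement exist -/
lemma lines_exists_min (hH : Hyp p G V M) (g : G) : ∃ x₀ : V, ∀ z, M.d x₀ (g • x₀) ≤ M.d z (g • z) := by
  classical
  obtain ⟨v⟩ := hH.ne
  have hex : ∃ m : ℕ, ∃ x : V, M.d x (g • x) = m := ⟨_, v, rfl⟩
  obtain ⟨x, hx⟩ := Nat.find_spec hex
  exact ⟨x, fun z => by rw [hx]; exact Nat.find_min' hex ⟨z, rfl⟩⟩

lemma lines_disp_pow (hH : Hyp p G V M) (g : G) (x : V) (k : ℕ) :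
    M.d x (g ^ k • x) ≤ k * M.d x (g • x) := by
  induction k with
  | zero => simp [M.self]
  | succ k ih =>
    have h1 := M.tri x (g ^ k • x) (g ^ (k + 1) • x)
    have h2 : M.d (g ^ k • x) (g ^ (k + 1) • x) = M.d x (g • x) := by
      rw [pow_succ, mul_smul, hH.isom]
    have h3 : (k + 1) * M.d x (g • x) = k * M.d x (g • x) + M.d x (g • x) := by ring
    omega

lemma lines_disp_zpow (hH : Hyp p G V M) (g : G) (x : V) (k : ℤ) :
    M.d x (g ^ k • x) = M.d x (g ^ k.natAbs • x) := by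
  rcases Int.natAbs_eq k with h | h
  · conv_lhs => rw [h, zpow_natCast]
  · conv_lhs => rw [h, zpow_neg, zpow_natCast]
    have := hH.isom (g ^ k.natAbs) x ((g ^ k.natAbs)⁻¹ • x)
    rw [smul_inv_smul] at this
    rw [← this, M.symm]

/-- (4.1) every short element of infinite order is in `⟨a⟩` for a primitive `a`. -/
lemma exists_prim (hH : Hyp p G V M) {g : G} (hg : Inf g) (h : ∃ x, M.d x (g • x) ≤ p.L) :
    ∃ a : G, Prim M p a ∧ g ∈ Subgroup.zpowers a := by
  classical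
  obtain ⟨x, hx⟩ := h
  have hinf : ∀ (b : G) (s : ℤ), g = b ^ s → Inf b := by
    intro b s hbs m hm hb
    apply hg m hm
    rw [hbs, ← zpow_natCast, ← zpow_mul, mul_comm, zpow_mul, zpow_natCast, hb, one_zpow]
  have hbd : ∀ (b : G) (s : ℤ), g = b ^ s → s.natAbs ≤ p.q * p.L := by
    intro b s hbs
    have h1 := hH.loxo (hinf b s hbs) x s.natAbs
    rw [← lines_disp_zpow hH, ← hbs] at h1
    exact h1.trans (Nat.mul_le_mul_left _ hx)
  -- maximal exponent
  obtain ⟨n, ⟨b, s, hbs, hsn⟩, hmax⟩ : ∃ n : ℕ, (∃ (b : G) (s : ℤ), g = b ^ s ∧ s.natAbs = n) ∧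
      ∀ (b : G) (s : ℤ), g = b ^ s → s.natAbs ≤ n := by
    have hne : ∃ n : ℕ, ∃ (b : G) (s : ℤ), g = b ^ s ∧ s.natAbs = n := ⟨1, g, 1, by simp, rfl⟩
    obtain ⟨n0, hn0⟩ := hne
    refine ⟨Nat.findGreatest (fun n => ∃ (b : G) (s : ℤ), g = b ^ s ∧ s.natAbs = n) (p.q * p.L),
      ?_, ?_⟩
    · have hle : n0 ≤ p.q * p.L := by
        obtain ⟨b, s, h1, h2⟩ := hn0
        rw [← h2]
        exact hbd b s h1
      exact Nat.findGreatest_spec (P := fun n => ∃ (b : G) (s : ℤ), g = b ^ s ∧ s.natAbs = n) hle hn0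
    · intro b s hbs
      exact Nat.le_findGreatest (hbd b s hbs) ⟨b, s, hbs, rfl⟩
  have hb : Inf b := hinf b s hbs
  have hs0 : s ≠ 0 := by
    rintro rfl
    apply hg 1 one_pos
    rw [hbs]
    simp
  refine ⟨b, ⟨hb, ?_, ?_⟩, ⟨s, hbs.symm⟩⟩
  · obtain ⟨xb, hxb⟩ := lines_exists_min hH b
    refine ⟨xb, ?_⟩
    by_contra hcon
    push Not at hcon
    have hdL := p.dL
    have hδ := p.hδ
    have h1 := min_disp hH.hyp hH.isom hxb (by omega) (by omega)
    have h2 := (chain hH.hyp hH.isom h1 (by omega)).1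
    obtain ⟨k, hk⟩ : ∃ k, k = 2 * M.d x xb + 1 := ⟨_, rfl⟩
    have h3 := h2 (s.natAbs * k)
    have h4 : M.d xb (b ^ (s.natAbs * k) • xb) = M.d xb (g ^ k • xb) := by
      have e1 : g ^ k = b ^ (s * k) := by rw [hbs, zpow_mul, zpow_natCast]
      rw [e1, lines_disp_zpow hH b xb (s * k), Int.natAbs_mul, Int.natAbs_natCast]
    have h5 : M.d xb (g ^ k • xb) ≤ k * p.L + 2 * M.d x xb := by
      have e1 := M.tri xb x (g ^ k • xb)
      have e2 := M.tri x (g ^ k • x) (g ^ k • xb)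
      have e3 := hH.isom (g ^ k) x xb
      have e4 := lines_disp_pow hH g x k
      have e5 : k * M.d x (g • x) ≤ k * p.L := Nat.mul_le_mul_left _ hx
      have e6 := M.symm xb x
      omega
    have h6 : k * (p.L + 1) ≤ s.natAbs * k * (M.d xb (b • xb) - 4 * p.δ - 2 * p.δ) := by
      have e1 : p.L + 1 ≤ M.d xb (b • xb) - 4 * p.δ - 2 * p.δ := by omega
      have e2 : 1 ≤ s.natAbs := by omega
      calc k * (p.L + 1) = 1 * k * (p.L + 1) := by ring
        _ ≤ s.natAbs * k * (M.d xb (b • xb) - 4 * p.δ - 2 * p.δ) := by gcongr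
    have h7 : k * (p.L + 1) = k * p.L + k := by ring
    omega
  · rintro c ⟨t, ht⟩
    simp only at ht
    have h1 : g = c ^ (t * s) := by rw [zpow_mul, ht, hbs]
    have h2 := hmax c (t * s) h1
    rw [Int.natAbs_mul, hsn] at h2
    have hn : 0 < n := by omega
    have h3 : t.natAbs ≤ 1 := by
      by_contra h3
      push Not at h3
      nlinarith
    have h4 : t ≠ 0 := by
      rintro rfl
      apply hb 1 one_pos
      rw [← ht]
      simp
    have h5 : t = 1 ∨ t = -1 := by omega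
    rcases h5 with rfl | rfl
    · exact ⟨1, by simp only [zpow_one] at ht ⊢; exact ht.symm⟩
    · refine ⟨-1, ?_⟩
      simp only [zpow_neg, zpow_one] at ht ⊢
      rw [← ht, inv_inv]

/-- (D.3) Let `x₀` be a minimiser of the displacement of `g`, which is `> 10δ` there.  An element `f`
which commutes with `g` moves `x₀` by at most `72 δ` more than any other point. -/
lemma disp_le (hH : Hyp p G V M) {g f : G} {x₀ z : V} (hg : Inf g)
    (hmin : ∀ z, M.d x₀ (g • x₀) ≤ M.d z (g • z)) (hℓ : 10 * p.δ < M.d x₀ (g • x₀))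
    (hc : f * g = g * f) : M.d x₀ (f • x₀) ≤ M.d z (f • z) + 72 * p.δ := by
  have hM := hH.hyp
  have hG := hH.isom
  have hδ := p.hδ
  have hcomm : Commute f g := hc
  have h1 := min_disp hM hG hmin hℓ (by omega)
  obtain ⟨h2, h3⟩ := chain hM hG h1 (by omega)
  obtain ⟨T, hT⟩ : ∃ T, M.d z (f • z) = T := ⟨_, rfl⟩
  obtain ⟨A, hA⟩ : ∃ A, M.d z x₀ = A := ⟨_, rfl⟩
  obtain ⟨k, hk⟩ : ∃ k, k = T + 2 * A + 20 * p.δ + 1 := ⟨_, rfl⟩
  have hD : k ≤ M.d x₀ (g ^ k • x₀) := by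
    have e1 := h2 k
    have e2 : k * 1 ≤ k * (M.d x₀ (g • x₀) - 4 * p.δ - 2 * p.δ) :=
      Nat.mul_le_mul_left _ (by omega)
    omega
  have h4 := h3 (-(k : ℤ)) 0 k (by omega) (by omega)
  simp only [zpow_zero, one_smul, zpow_natCast] at h4
  have h5 : M.d (g ^ (-(k : ℤ)) • x₀) x₀ = M.d x₀ (g ^ k • x₀) := by
    rw [M.symm, lines_disp_zpow hH]
    simp
  obtain ⟨a, ha⟩ : ∃ a, a = g ^ (-(k : ℤ)) • x₀ := ⟨_, rfl⟩
  obtain ⟨b, hb⟩ : ∃ b, b = g ^ k • x₀ := ⟨_, rfl⟩
  obtain ⟨u, hu⟩ : ∃ u, u = g ^ (-(k : ℤ)) • z := ⟨_, rfl⟩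
  obtain ⟨v, hv⟩ : ∃ v, v = g ^ k • z := ⟨_, rfl⟩
  have hua : M.d u a = A := by rw [hu, ha, hG, hA]
  have hvb : M.d v b = A := by rw [hv, hb, hG, hA]
  have hfu : M.d u (f • u) = T := by
    rw [hu, smul_smul, (hcomm.zpow_right _).eq, mul_smul, hG, hT]
  have hfv : M.d v (f • v) = T := by
    rw [hv, smul_smul, (hcomm.pow_right _).eq, mul_smul, hG, hT]
  rw [← ha, ← hb] at h4
  rw [← ha, ← hb] at h5
  rw [← hb] at hD
  have k1 := GMet.h1 hM (x := a) (y := b) (u := x₀) (ν := 8 * p.δ) (by omega) u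
  have s1 := M.symm a u
  have s2 := M.symm b u
  have s3 := M.symm b v
  have s4 := M.symm x₀ u
  have k2 : M.d u x₀ + M.d x₀ b ≤ M.d u b + 10 * p.δ := by
    rcases k1 with k1 | k1 <;> omega
  have k3 := GMet.h1 hM (x := u) (y := b) (u := x₀) (ν := 10 * p.δ) k2 v
  have k4 : M.d u x₀ + M.d x₀ v ≤ M.d u v + 12 * p.δ := by
    rcases k3 with k3 | k3 <;> omega
  have t1 := M.tri a u x₀
  have t2 := M.tri x₀ v b
  have hτ := shift hM hG (x := u) (y := v) (u := x₀) (g := f) (T := T) (ν := 12 * p.δ)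
    (τ := (M.d u (f • v) : ℤ) - M.d u v) rfl (by omega) (by omega) (by omega) k4 (by omega)
    (by omega)
  obtain ⟨-, -, h6, -, h7⟩ := hτ
  omega

/-- (4.2) the line of a primitive element. -/
lemma exists_line (hH : Hyp p G V M) {a : G} (ha : Prim M p a) :
    ∃ x₀ : V, M.d x₀ (a • x₀) ≤ 2 * p.L ∧
      (∀ i j l : ℤ, i ≤ j → j ≤ l → M.d (a ^ i • x₀) (a ^ j • x₀) + M.d (a ^ j • x₀) (a ^ l • x₀) ≤
        M.d (a ^ i • x₀) (a ^ l • x₀) + p.L) ∧
      ∀ i j : ℤ, |i - j| ≤ p.q * M.d (a ^ i • x₀) (a ^ j • x₀) := by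
  classical
  have hM := hH.hyp
  have hG := hH.isom
  have hδ := p.hδ
  have hq := p.hq
  have hdL := p.dL
  obtain ⟨hinf, ⟨z, hz⟩, -⟩ := ha
  have hex : ∃ m : ℕ, 1 ≤ m ∧ ∀ x : V, 200 * p.δ ≤ M.d x (a ^ m • x) := by
    refine ⟨p.q * (200 * p.δ), Nat.mul_pos (by omega) (by omega), fun x => ?_⟩
    have h1 := hH.loxo hinf x (p.q * (200 * p.δ))
    exact Nat.le_of_mul_le_mul_left h1 (by omega)
  obtain ⟨M₀, hM₀⟩ : ∃ M₀, M₀ = Nat.find hex := ⟨_, rfl⟩
  have hspec := Nat.find_spec hex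
  rw [← hM₀] at hspec
  have hlt : ∀ m, m < M₀ → ¬ (1 ≤ m ∧ ∀ x : V, 200 * p.δ ≤ M.d x (a ^ m • x)) := by
    intro m hm
    exact Nat.find_min hex (by omega)
  obtain ⟨hpos, hdisp⟩ := hspec
  obtain ⟨x₀, hx₀⟩ := lines_exists_min hH (a ^ M₀)
  have hinf' : Inf (a ^ M₀) := by
    intro m hm h
    rw [← pow_mul] at h
    exact hinf _ (Nat.mul_pos (by omega) hm) h
  have hbig : 10 * p.δ < M.d x₀ (a ^ M₀ • x₀) := by
    have := hdisp x₀
    omega
  have hsmall : ∀ r : ℕ, r < M₀ → M.d x₀ (a ^ r • x₀) ≤ 272 * p.δ := by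
    intro r hr
    rcases Nat.eq_zero_or_pos r with h0 | h0
    · subst h0
      simp [M.self]
    · have h1 := hlt r hr
      push Not at h1
      obtain ⟨w, hw⟩ := h1 h0
      have h2 := disp_le hH (z := w) hinf' hx₀ hbig (f := a ^ r)
        (by rw [← pow_add, ← pow_add, add_comm])
      omega
  refine ⟨x₀, ?_, ?_, ?_⟩
  · have h2 := disp_le hH (z := z) hinf' hx₀ hbig (f := a) (by rw [← pow_succ, ← pow_succ'])
    omega
  · have h1 := min_disp hM hG hx₀ hbig (by omega)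
    obtain ⟨-, h3⟩ := chain hM hG h1 (by omega)
    have hM₀' : (0 : ℤ) < M₀ := by omega
    have hred : ∀ i : ℤ, M.d (a ^ i • x₀) ((a ^ M₀) ^ (i / M₀) • x₀) ≤ 272 * p.δ := by
      intro i
      have e1 : a ^ i = (a ^ M₀) ^ (i / (M₀ : ℤ)) * a ^ (i % (M₀ : ℤ)) := by
        rw [← zpow_natCast a M₀, ← zpow_mul, ← zpow_add, Int.mul_ediv_add_emod]
      obtain ⟨r, hr⟩ : ∃ r : ℕ, (r : ℤ) = i % (M₀ : ℤ) :=
        ⟨(i % (M₀ : ℤ)).toNat, Int.toNat_of_nonneg (Int.emod_nonneg _ (by omega))⟩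
      have hr' : r < M₀ := by
        have := Int.emod_lt_of_pos i hM₀'
        omega
      rw [e1, ← hr, zpow_natCast, mul_smul, hG, M.symm]
      exact hsmall r hr'
    intro i j l hij hjl
    have d1 : i / (M₀ : ℤ) ≤ j / (M₀ : ℤ) := Int.ediv_le_ediv hM₀' hij
    have d2 : j / (M₀ : ℤ) ≤ l / (M₀ : ℤ) := Int.ediv_le_ediv hM₀' hjl
    have h4 := h3 _ _ _ d1 d2
    have ri := hred i
    have rj := hred j
    have rl := hred l
    obtain ⟨i', hi'⟩ : ∃ i', i' = (a ^ M₀) ^ (i / (M₀ : ℤ)) • x₀ := ⟨_, rfl⟩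
    obtain ⟨j', hj'⟩ : ∃ j', j' = (a ^ M₀) ^ (j / (M₀ : ℤ)) • x₀ := ⟨_, rfl⟩
    obtain ⟨l', hl'⟩ : ∃ l', l' = (a ^ M₀) ^ (l / (M₀ : ℤ)) • x₀ := ⟨_, rfl⟩
    rw [← hi', ← hj', ← hl'] at h4
    rw [← hi'] at ri
    rw [← hj'] at rj
    rw [← hl'] at rl
    have t1 := M.tri (a ^ i • x₀) i' (a ^ j • x₀)
    have t2 := M.tri i' j' (a ^ j • x₀)
    have t3 := M.tri (a ^ j • x₀) j' (a ^ l • x₀)
    have t4 := M.tri j' l' (a ^ l • x₀)
    have t5 := M.tri i' (a ^ i • x₀) l'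
    have t6 := M.tri (a ^ i • x₀) (a ^ l • x₀) l'
    have s1 := M.symm j' (a ^ j • x₀)
    have s2 := M.symm l' (a ^ l • x₀)
    have s3 := M.symm i' (a ^ i • x₀)
    omega
  · intro i j
    have h1 : M.d (a ^ i • x₀) (a ^ j • x₀) = M.d x₀ (a ^ (j - i).natAbs • x₀) := by
      rw [← lines_disp_zpow hH]
      have e1 : a ^ j = a ^ i * a ^ (j - i) := by
        rw [← zpow_add]
        congr 1
        ring
      rw [e1, mul_smul, hG]
    rw [h1, abs_sub_comm, ← Int.natCast_natAbs]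
    exact_mod_cast hH.loxo hinf x₀ (j - i).natAbs

/-- elements that commute with a primitive element -/
lemma lines_commute_prim (hH : Hyp p G V M) {a f : G} (ha : Prim M p a) (hc : Commute f a) :
    f ∈ Subgroup.zpowers a := by
  have hG := hH.isom
  have hq := p.hq
  have hδ := p.hδ
  have hdL := p.dL
  obtain ⟨hinf, ⟨x, hx⟩, hmax⟩ := ha
  obtain ⟨T, hT⟩ : ∃ T, T = max (M.d x (f • x)) (2 * p.L) := ⟨_, rfl⟩
  have hT1 : M.d x (f • x) ≤ T := by rw [hT]; exact le_max_left _ _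
  have hT2 : 2 * p.L ≤ T := by rw [hT]; exact le_max_right _ _
  obtain ⟨k, hk⟩ : ∃ k, k = p.q * (1000 * T + p.Δ) := ⟨_, rfl⟩
  have hd : 1000 * T + p.Δ ≤ M.d x (a ^ k • x) := by
    have h1 := hH.loxo hinf x k
    rw [hk] at h1 ⊢
    exact Nat.le_of_mul_le_mul_left h1 (by omega)
  obtain ⟨b, -, hb⟩ := cyc_all hH T x (a ^ k • x) hd
  have h1 : f ∈ Subgroup.zpowers b := by
    apply hb f hT1
    rw [smul_smul, (hc.pow_right _).eq, mul_smul, hG]
    exact hT1
  have h2 : a ∈ Subgroup.zpowers b := by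
    apply hb a (by omega)
    rw [smul_smul, ← pow_succ', pow_succ, mul_smul, hG]
    omega
  have h3 := hmax b h2
  have h4 : Subgroup.zpowers b ≤ Subgroup.zpowers a := by
    rw [Subgroup.zpowers_le]
    exact h3
  exact h4 h1

/-- (4.4) an element which conjugates a primitive `a` to `a` or `a⁻¹` is in `⟨a⟩`. -/
lemma normalizer_prim (hH : Hyp p G V M) {a f : G} (ha : Prim M p a)
    (h : f * a * f⁻¹ = a ∨ f * a * f⁻¹ = a⁻¹) : f ∈ Subgroup.zpowers a := by
  rcases h with h | h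
  · apply lines_commute_prim hH ha
    rw [mul_inv_eq_iff_eq_mul] at h
    exact h
  · exfalso
    have h1 : Commute (f ^ 2) a := by
      have e1 : f ^ 2 * a * (f ^ 2)⁻¹ = a := by
        have : f ^ 2 * a * (f ^ 2)⁻¹ = f * (f * a * f⁻¹) * f⁻¹ := by
          rw [pow_two, mul_inv_rev]
          group
        rw [this, h]
        have : f * a⁻¹ * f⁻¹ = (f * a * f⁻¹)⁻¹ := by group
        rw [this, h, inv_inv]
      rw [mul_inv_eq_iff_eq_mul] at e1
      exact e1
    obtain ⟨k, hk⟩ := lines_commute_prim hH ha h1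
    simp only at hk
    have h2 : a ^ k = a ^ (-k) := by
      have e1 : f * (a ^ k) * f⁻¹ = (f * a * f⁻¹) ^ k := by
        rw [conj_zpow]
      rw [h, inv_zpow', hk] at e1
      rw [← e1, hk]
      group
    have h3 : a ^ (2 * k) = 1 := by
      have : 2 * k = k - (-k) := by ring
      rw [this, zpow_sub, h2, mul_inv_cancel]
    have hinf := ha.1
    have h4 : 2 * k = 0 := by
      by_contra hne
      exact hinf.zpow hne h3
    have h5 : k = 0 := by omega
    rw [h5, zpow_zero] at hk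
    have h6 : f ^ 2 = 1 := hk.symm
    have hf1 : f = 1 := by
      rcases hH.dich f with ⟨m, hm, hm1⟩ | h7
      · obtain ⟨t, rfl⟩ := hm
        rw [pow_succ, pow_mul, h6, one_pow, one_mul] at hm1
        exact hm1
      · exfalso
        obtain ⟨v⟩ := hH.ne
        have h8 := h7 v 2
        rw [h6, one_smul, M.self] at h8
        omega
    rw [hf1] at h
    apply hinf 2 (by norm_num)
    have h9 : a = a⁻¹ := by simpa using h
    rw [pow_two]
    nth_rewrite 2 [h9]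
    rw [mul_inv_cancel]

/-- (4.3) overlap. -/
lemma overlap_prim (hH : Hyp p G V M) {a a' : G} (ha : Prim M p a) (ha' : Prim M p a') {x x' : V}
    (h1 : M.d x (a • x) ≤ 2 * p.L)
    (h2 : ∀ i j l : ℤ, i ≤ j → j ≤ l → M.d (a ^ i • x) (a ^ j • x) + M.d (a ^ j • x) (a ^ l • x) ≤
        M.d (a ^ i • x) (a ^ l • x) + p.L)
    (h1' : M.d x' (a' • x') ≤ 2 * p.L)
    (h2' : ∀ i j l : ℤ, i ≤ j → j ≤ l →
      M.d (a' ^ i • x') (a' ^ j • x') + M.d (a' ^ j • x') (a' ^ l • x') ≤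
        M.d (a' ^ i • x') (a' ^ l • x') + p.L)
    {s t i j : ℤ} (hi : Near M (fun k => a ^ k • x) (a' ^ s • x') i)
    (hj : Near M (fun k => a ^ k • x) (a' ^ t • x') j)
    (hfar : p.R < 4 * M.d (a ^ i • x) (a ^ j • x)) :
    Subgroup.zpowers a = Subgroup.zpowers a' := by
  have hM := hH.hyp
  have hG := hH.isom
  have hδ := p.hδ
  have hdL := p.dL
  have hDL := p.DL
  have hR : p.R = 10 ^ 6 * p.L := rfl
  have hstep : ∀ (b : G) (w : V) (k : ℤ), M.d (b ^ k • w) (b ^ (k + 1) • w) = M.d w (b • w) := by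
    intro b w k
    rw [zpow_add, zpow_one, mul_smul, hG]
  have hstep' : ∀ (b : G) (w : V) (k : ℤ), M.d (b ^ k • w) (b • b ^ k • w) = M.d w (b • w) := by
    intro b w k
    rw [← hstep b w k, smul_smul, ← zpow_one_add, add_comm]
  have hQ : QLine M (fun k : ℤ => a ^ k • x) (2 * p.L) p.L :=
    ⟨fun k => by rw [hstep]; exact h1, h2⟩
  have hQ' : QLine M (fun k : ℤ => a' ^ k • x') (2 * p.L) p.L :=
    ⟨fun k => by rw [hstep]; exact h1', h2'⟩
  have hC : C2 p.δ (2 * p.L) p.L = 12 * p.L + 18 * p.δ + 4 := by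
    unfold C2
    ring
  have k1 := P2 hM hQ hi hj
  rw [hC] at k1
  have k2 : M.d (a' ^ s • x') (a ^ i • x) + M.d (a ^ i • x) (a ^ j • x) +
      M.d (a ^ j • x) (a' ^ t • x') ≤ M.d (a' ^ s • x') (a' ^ t • x') +
        (12 * p.L + 18 * p.δ + 4) := by
    rcases k1 with k1 | k1
    · omega
    · exact k1
  have t1 := M.tri (a ^ i • x) (a ^ j • x) (a' ^ t • x')
  have t2 := M.tri (a' ^ s • x') (a ^ i • x) (a ^ j • x)
  obtain ⟨l₁, -, hl₁⟩ := hQ'.near_between hM (i := s) (j := t) (u := a ^ i • x)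
    (ν := 12 * p.L + 18 * p.δ + 4) (by omega)
  obtain ⟨l₂, -, hl₂⟩ := hQ'.near_between hM (i := s) (j := t) (u := a ^ j • x)
    (ν := 12 * p.L + 18 * p.δ + 4) (by omega)
  obtain ⟨b, -, hb⟩ := cyc_all hH (100 * p.L) (a ^ i • x) (a ^ j • x) (by omega)
  have ha1 : a ∈ Subgroup.zpowers b := by
    apply hb a
    · rw [hstep']; omega
    · rw [hstep']; omega
  have hmove : ∀ (u : V) (l : ℤ), M.d u (a' ^ l • x') ≤ 28 * p.L →
      M.d u (a' • u) ≤ 100 * p.L := by
    intro u l hu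
    have e1 := M.tri u (a' ^ l • x') (a' • u)
    have e2 := M.tri (a' ^ l • x') (a' • a' ^ l • x') (a' • u)
    have e3 := hstep' a' x' l
    have e4 := hG a' (a' ^ l • x') u
    have e5 := M.symm (a' ^ l • x') u
    omega
  have ha2 : a' ∈ Subgroup.zpowers b := by
    apply hb a'
    · exact hmove _ l₁ (by omega)
    · exact hmove _ l₂ (by omega)
  have hb1 := ha.2.2 b ha1
  have hb2 := ha'.2.2 b ha2
  apply le_antisymm
  · rw [Subgroup.zpowers_le]
    exact (Subgroup.zpowers_le.mpr hb2) ha1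
  · rw [Subgroup.zpowers_le]
    exact (Subgroup.zpowers_le.mpr hb1) ha2

/-- conjugates of primitive elements are primitive -/
lemma Prim.conj (hH : Hyp p G V M) {a : G} (ha : Prim M p a) (g : G) :
    Prim M p (g * a * g⁻¹) := by
  obtain ⟨hinf, ⟨x, hx⟩, hmax⟩ := ha
  refine ⟨?_, ⟨g • x, ?_⟩, ?_⟩
  · intro m hm h
    rw [conj_pow, mul_inv_eq_one, mul_eq_left] at h
    exact hinf m hm h
  · rw [smul_smul, inv_mul_cancel_right, mul_smul, hH.isom]
    exact hx
  · intro b hb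
    obtain ⟨k, hk⟩ := hb
    simp only at hk
    have h1 : a ∈ Subgroup.zpowers (g⁻¹ * b * g) := by
      refine ⟨k, ?_⟩
      simp only
      have e1 : g⁻¹ * b * g = g⁻¹ * b * (g⁻¹)⁻¹ := by rw [inv_inv]
      rw [e1, conj_zpow, hk]
      group
    obtain ⟨l, hl⟩ := hmax _ h1
    refine ⟨l, ?_⟩
    simp only at hl ⊢
    rw [conj_zpow, hl]
    group

/-- **Theorem 4.**  The family of lines. -/
theorem exists_lines (hH : Hyp p G V M) :
    ∃ (C : Type) (_ : MulAction G C), Nonempty (Lines G V C M p) := by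
  classical
  -- the relation
  let S : Setoid {a : G // Prim M p a} :=
    { r := fun a b => ∃ g : G, Subgroup.zpowers (g * a.1 * g⁻¹) = Subgroup.zpowers b.1
      iseqv := by
        have hcz : ∀ (g a : G) (b : G), Subgroup.zpowers (g * a * g⁻¹) = Subgroup.zpowers b →
            Subgroup.zpowers (g⁻¹ * b * g) = Subgroup.zpowers a := by
          intro g a b h
          apply le_antisymm
          · rw [Subgroup.zpowers_le]
            have h1 : b ∈ Subgroup.zpowers (g * a * g⁻¹) := by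
              rw [h]; exact Subgroup.mem_zpowers b
            obtain ⟨k, hk⟩ := h1
            simp only at hk
            rw [conj_zpow] at hk
            refine ⟨k, ?_⟩
            simp only
            rw [← hk]
            group
          · rw [Subgroup.zpowers_le]
            have h1 : g * a * g⁻¹ ∈ Subgroup.zpowers b := by
              rw [← h]; exact Subgroup.mem_zpowers _
            obtain ⟨k, hk⟩ := h1
            simp only at hk
            refine ⟨k, ?_⟩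
            simp only
            have e1 : g⁻¹ * b * g = g⁻¹ * b * (g⁻¹)⁻¹ := by rw [inv_inv]
            rw [e1, conj_zpow, hk]
            group
        refine ⟨fun a => ⟨1, by simp⟩, ?_, ?_⟩
        · rintro a b ⟨g, hg⟩
          refine ⟨g⁻¹, ?_⟩
          rw [inv_inv]
          exact hcz g _ _ hg
        · rintro a b c ⟨g, hg⟩ ⟨h, hh⟩
          refine ⟨h * g, ?_⟩
          rw [← hh]
          have e1 : h * g * a.1 * (h * g)⁻¹ = h * (g * a.1 * g⁻¹) * h⁻¹ := by group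
          rw [e1]
          apply le_antisymm
          · rw [Subgroup.zpowers_le]
            have h1 : g * a.1 * g⁻¹ ∈ Subgroup.zpowers b.1 := by
              rw [← hg]; exact Subgroup.mem_zpowers _
            obtain ⟨k, hk⟩ := h1
            simp only at hk
            refine ⟨k, ?_⟩
            simp only
            rw [conj_zpow, hk]
          · rw [Subgroup.zpowers_le]
            have h1 : b.1 ∈ Subgroup.zpowers (g * a.1 * g⁻¹) := by
              rw [hg]; exact Subgroup.mem_zpowers _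
            obtain ⟨k, hk⟩ := h1
            simp only at hk
            refine ⟨k, ?_⟩
            simp only
            rw [conj_zpow, hk] }
  let a : Quotient S → G := fun i => i.out.1
  have ha : ∀ i, Prim M p (a i) := fun i => i.out.2
  have hx : ∀ i, ∃ x₀ : V, M.d x₀ (a i • x₀) ≤ 2 * p.L ∧
      (∀ k j l : ℤ, k ≤ j → j ≤ l →
        M.d (a i ^ k • x₀) (a i ^ j • x₀) + M.d (a i ^ j • x₀) (a i ^ l • x₀) ≤
        M.d (a i ^ k • x₀) (a i ^ l • x₀) + p.L) ∧
      ∀ k j : ℤ, |k - j| ≤ p.q * M.d (a i ^ k • x₀) (a i ^ j • x₀) :=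
    fun i => exists_line hH (ha i)
  choose x hx1 hx2 hx3 using hx
  let C := Σ i : Quotient S, G ⧸ Subgroup.zpowers (a i)
  let ρ : C → G := fun w => w.2.out * a w.1 * w.2.out⁻¹
  let y : C → ℤ → V := fun w k => w.2.out • a w.1 ^ k • x w.1
  have hρmk : ∀ (i : Quotient S) (g : G),
      ρ ⟨i, (g : G ⧸ Subgroup.zpowers (a i))⟩ = g * a i * g⁻¹ := by
    intro i g
    obtain ⟨h, hh⟩ := QuotientGroup.mk_out_eq_mul (Subgroup.zpowers (a i)) g
    show (g : G ⧸ Subgroup.zpowers (a i)).out * a i * ((g : G ⧸ Subgroup.zpowers (a i)).out)⁻¹ = _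
    rw [hh]
    obtain ⟨k, hk⟩ := h.2
    simp only at hk
    rw [← hk, mul_inv_rev]
    have : g * a i ^ k * a i * ((a i ^ k)⁻¹ * g⁻¹) = g * (a i ^ k * a i * (a i ^ k)⁻¹) * g⁻¹ := by
      group
    rw [this, (Commute.zpow_self (a i) k).eq, mul_inv_cancel_right]
  have hmk : ∀ w : C, ∃ (g : G), w = ⟨w.1, (g : G ⧸ Subgroup.zpowers (a w.1))⟩ := by
    rintro ⟨i, c⟩
    exact ⟨c.out, by rw [QuotientGroup.out_eq']⟩
  have hsm : ∀ (g : G) (i : Quotient S) (h : G),
      g • (⟨i, (h : G ⧸ Subgroup.zpowers (a i))⟩ : C) =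
        ⟨i, ((g * h : G) : G ⧸ Subgroup.zpowers (a i))⟩ := by
    intro g i h
    rfl
  have hρP : ∀ w, Prim M p (ρ w) := fun w => (ha w.1).conj hH _
  have hyk : ∀ (w : C) (k : ℤ), y w k = ρ w ^ k • y w 0 := by
    intro w k
    show w.2.out • a w.1 ^ k • x w.1 =
      (w.2.out * a w.1 * w.2.out⁻¹) ^ k • w.2.out • a w.1 ^ (0 : ℤ) • x w.1
    rw [conj_zpow, zpow_zero, one_smul, smul_smul, smul_smul, inv_mul_cancel_right]
  have hyd : ∀ (w : C) (k l : ℤ), M.d (y w k) (y w l) =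
      M.d (a w.1 ^ k • x w.1) (a w.1 ^ l • x w.1) := by
    intro w k l
    exact hH.isom _ _ _
  refine ⟨C, inferInstance, ⟨{
    ρ := ρ
    y := y
    ρ_smul := ?_
    ρ_fix := ?_
    stab := ?_
    y_ρ := ?_
    y_smul := ?_
    step := ?_
    coll := ?_
    far := ?_
    overl := ?_
    catches := ?_ }⟩⟩
  · intro g w
    obtain ⟨h, hh⟩ := hmk w
    rw [hh, hsm, hρmk, hρmk]
    group
  · intro w
    obtain ⟨h, hh⟩ := hmk w
    rw [hh, hρmk, hsm]
    congr 1
    rw [inv_mul_cancel_right, QuotientGroup.eq, mul_inv_rev]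
    have : (a w.1)⁻¹ * h⁻¹ * h = (a w.1)⁻¹ := by group
    rw [this]
    exact Subgroup.inv_mem _ (Subgroup.mem_zpowers _)
  · intro w g hg
    obtain ⟨h, hh⟩ := hmk w
    rw [hh, hsm] at hg
    rw [hh, hρmk]
    have h1 : ((g * h : G) : G ⧸ Subgroup.zpowers (a w.1)) = (h : G ⧸ Subgroup.zpowers (a w.1)) :=
      eq_of_heq (Sigma.mk.inj_iff.mp hg).2
    rw [eq_comm, QuotientGroup.eq] at h1
    obtain ⟨k, hk⟩ := h1
    simp only at hk
    refine ⟨k, ?_⟩
    simp only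
    rw [conj_zpow, hk]
    group
  · intro w i
    show (w.2.out * a w.1 * w.2.out⁻¹) • w.2.out • a w.1 ^ i • x w.1 =
      w.2.out • a w.1 ^ (i + 1) • x w.1
    rw [smul_smul, inv_mul_cancel_right, mul_smul, smul_smul (a w.1), ← zpow_one_add, add_comm]
  · intro g w
    have h1 : (((g • w).2.out : G) : G ⧸ Subgroup.zpowers (a w.1)) =
        ((g * w.2.out : G) : G ⧸ Subgroup.zpowers (a w.1)) := by
      have e1 : (((g • w).2.out : G) : G ⧸ Subgroup.zpowers (a w.1)) = (g • w).2 :=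
        QuotientGroup.out_eq' _
      rw [e1]
      show g • w.2 = _
      conv_lhs => rw [← QuotientGroup.out_eq' w.2]
      rfl
    rw [QuotientGroup.eq] at h1
    obtain ⟨j, hj⟩ := h1
    simp only at hj
    refine ⟨j, fun i => ?_⟩
    show g • w.2.out • a w.1 ^ i • x w.1 = (g • w).2.out • a w.1 ^ (i + j) • x w.1
    have e2 : (g • w).2.out * a w.1 ^ (i + j) = g * (w.2.out * a w.1 ^ i) := by
      rw [add_comm, zpow_add, hj]
      group
    rw [smul_smul, smul_smul, smul_smul, e2, ← mul_assoc]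
  · intro w i
    rw [hyd, zpow_add, zpow_one, mul_smul, hH.isom]
    exact hx1 w.1
  · intro w i j l hij hjl
    rw [hyd, hyd, hyd]
    exact hx2 w.1 i j l hij hjl
  · intro w i j
    rw [hyd]
    exact hx3 w.1 i j
  · intro w w' hne s t i j hi hj
    by_contra hcon
    push Not at hcon
    have hfun : ∀ w : C, y w = fun k : ℤ => ρ w ^ k • y w 0 := fun w => funext (hyk w)
    have hst : ∀ w : C, M.d (y w 0) (ρ w • y w 0) ≤ 2 * p.L := by
      intro w
      have e1 : ρ w • y w 0 = y w 1 := by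
        rw [hyk w 1, zpow_one]
      rw [e1, hyd, zpow_zero, one_smul, zpow_one]
      exact hx1 w.1
    have hco : ∀ (w : C) (i j l : ℤ), i ≤ j → j ≤ l →
        M.d (ρ w ^ i • y w 0) (ρ w ^ j • y w 0) + M.d (ρ w ^ j • y w 0) (ρ w ^ l • y w 0) ≤
        M.d (ρ w ^ i • y w 0) (ρ w ^ l • y w 0) + p.L := by
      intro w i j l hij hjl
      rw [← hyk, ← hyk, ← hyk, hyd, hyd, hyd]
      exact hx2 w.1 i j l hij hjl
    rw [hyk w' s, hfun w] at hi
    rw [hyk w' t, hfun w] at hj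
    rw [hyk w i, hyk w j] at hcon
    have key := overlap_prim hH (hρP w) (hρP w') (hst w) (hco w) (hst w') (hco w') hi hj hcon
    apply hne
    obtain ⟨h, hh⟩ := hmk w
    obtain ⟨h', hh'⟩ := hmk w'
    have k1 : ρ w = h * a w.1 * h⁻¹ := by rw [← hρmk, ← hh]
    have k2 : ρ w' = h' * a w'.1 * h'⁻¹ := by rw [← hρmk, ← hh']
    rw [k1, k2] at key
    have hgen : ∃ f : G, f = h'⁻¹ * h := ⟨_, rfl⟩
    obtain ⟨f, hf⟩ := hgen
    have key2 : Subgroup.zpowers (f * a w.1 * f⁻¹) = Subgroup.zpowers (a w'.1) := by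
      apply le_antisymm
      · rw [Subgroup.zpowers_le]
        have h1 : h * a w.1 * h⁻¹ ∈ Subgroup.zpowers (h' * a w'.1 * h'⁻¹) := by
          rw [← key]; exact Subgroup.mem_zpowers _
        obtain ⟨k, hk⟩ := h1
        simp only at hk
        rw [conj_zpow] at hk
        refine ⟨k, ?_⟩
        simp only
        have : f * a w.1 * f⁻¹ = h'⁻¹ * (h * a w.1 * h⁻¹) * h' := by rw [hf]; group
        rw [this, ← hk]
        group
      · rw [Subgroup.zpowers_le]
        have h1 : h' * a w'.1 * h'⁻¹ ∈ Subgroup.zpowers (h * a w.1 * h⁻¹) := by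
          rw [key]; exact Subgroup.mem_zpowers _
        obtain ⟨k, hk⟩ := h1
        simp only at hk
        rw [conj_zpow] at hk
        refine ⟨k, ?_⟩
        simp only
        rw [conj_zpow]
        have : f * a w.1 ^ k * f⁻¹ = h'⁻¹ * (h * a w.1 ^ k * h⁻¹) * h' := by rw [hf]; group
        rw [this, hk]
        group
    have hi' : w.1 = w'.1 := by
      rw [← Quotient.out_eq w.1, ← Quotient.out_eq w'.1]
      exact Quotient.sound ⟨f, key2⟩
    obtain ⟨i₁, c₁⟩ := w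
    obtain ⟨i₂, c₂⟩ := w'
    simp only at hi'
    subst hi'
    simp only at key2 hh hh'
    rw [hh, hh']
    congr 1
    rw [QuotientGroup.eq]
    have h1 : f * a i₁ * f⁻¹ = a i₁ ∨ f * a i₁ * f⁻¹ = (a i₁)⁻¹ := by
      have e1 : f * a i₁ * f⁻¹ ∈ Subgroup.zpowers (a i₁) := by
        rw [← key2]; exact Subgroup.mem_zpowers _
      have e2 : a i₁ ∈ Subgroup.zpowers (f * a i₁ * f⁻¹) := by
        rw [key2]; exact Subgroup.mem_zpowers _
      obtain ⟨k, hk⟩ := e1
      obtain ⟨l, hl⟩ := e2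
      simp only at hk hl
      rw [← hk, ← zpow_mul] at hl
      have e3 : a i₁ ^ (k * l - 1) = 1 := by
        rw [zpow_sub, hl, zpow_one, mul_inv_cancel]
      have e4 : k * l - 1 = 0 := by
        by_contra hne
        exact (ha i₁).1.zpow hne e3
      have e5 : k * l = 1 := by omega
      rcases Int.eq_one_or_neg_one_of_mul_eq_one e5 with rfl | rfl
      · left; rw [← hk, zpow_one]
      · right; rw [← hk, zpow_neg, zpow_one]
    have h2 := normalizer_prim hH (ha i₁) h1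
    have h3 : h⁻¹ * h' = f⁻¹ := by rw [hf, mul_inv_rev, inv_inv]
    rw [h3]
    exact Subgroup.inv_mem _ h2
  · intro g hg hgx
    obtain ⟨b, hb, hgb⟩ := exists_prim hH hg hgx
    obtain ⟨h, hh⟩ : ∃ h : G, Subgroup.zpowers (h * a (Quotient.mk S ⟨b, hb⟩) * h⁻¹) =
        Subgroup.zpowers b := by
      have e1 : S.r (Quotient.mk S ⟨b, hb⟩).out ⟨b, hb⟩ := Quotient.mk_out (s := S) ⟨b, hb⟩
      exact e1
    refine ⟨⟨Quotient.mk S ⟨b, hb⟩, (h : G ⧸ _)⟩, ?_⟩
    rw [hρmk, hh]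
    exact hgb

end Pool.Agent.Helper85.Burn
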