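import Pool.Agent.Helper85.Burn.Guess
import Pool.Agent.Helper85.Burn.Lines

/-!
Module CONE: the coned-off graph on `V ⊕ C`.
-/

set_option autoImplicit false

namespace Pool.Agent.Helper85.Burn

/-- adjacency in the coned-off graph: two points of `V` at distance `≤ R`, and a point of `V` at
distance `≤ R` from the line of `w`. -/
def coneAdj {V C : Type} (M : GMet V) (y : C → ℤ → V) (R : ℕ) : V ⊕ C → V ⊕ C → Prop
  | Sum.inl a, Sum.inl b => 0 < M.d a b ∧ M.d a b ≤ R
  | Sum.inl a, Sum.inr w => ∃ i, M.d a (y w i) ≤ R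
  | Sum.inr w, Sum.inl a => ∃ i, M.d a (y w i) ≤ R
  | Sum.inr _, Sum.inr _ => False

/-- the metric of a connected graph -/
noncomputable def GMet.ofGraph {V : Type} (Γ : SimpleGraph V) (h : Γ.Connected) : GMet V where
  d := Γ.dist
  self := fun _ => SimpleGraph.dist_self
  eq_of := fun _ _ => h.dist_eq_zero_iff.mp
  symm := fun _ _ => SimpleGraph.dist_comm
  tri := fun _ _ _ => h.dist_triangle
  geod := by
    intro x y i hi
    obtain ⟨w, hw⟩ := h.exists_walk_length_eq_dist x y
    refine ⟨w.getVert i, ?_⟩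
    have h1 : Γ.dist x (w.getVert i) ≤ i :=
      (SimpleGraph.dist_le (w.take i)).trans (by rw [SimpleGraph.Walk.take_length]; omega)
    have h2 : Γ.dist (w.getVert i) y ≤ w.length - i :=
      (SimpleGraph.dist_le (w.drop i)).trans (by rw [SimpleGraph.Walk.drop_length])
    have h3 := h.dist_triangle (u := x) (v := w.getVert i) (w := y)
    omega

/-- the cone-off graph -/
def coneGraph {V C : Type} (M : GMet V) (y : C → ℤ → V) (R : ℕ) : SimpleGraph (V ⊕ C) where
  Adj := coneAdj M y R
  symm := ⟨by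
    rintro (a | w) (b | w') h
    · refine ⟨?_, ?_⟩
      · rw [M.symm]; exact h.1
      · rw [M.symm]; exact h.2
    · exact h
    · exact h
    · exact h⟩
  loopless := ⟨by
    rintro (a | w) h
    · have := h.1
      rw [M.self] at this
      omega
    · exact h⟩

lemma coneGraph_connected {V C : Type} (M : GMet V) (y : C → ℤ → V) (R : ℕ) (hR : 1 ≤ R)
    (hne : Nonempty V) : (coneGraph M y R).Connected := by
  have h1 : ∀ (n : ℕ) (a b : V), M.d a b = n →
      (coneGraph M y R).Reachable (Sum.inl a) (Sum.inl b) := by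
    intro n
    induction n with
    | zero => intro a b h; rw [M.eq_of a b h]
    | succ n ih =>
      intro a b h
      obtain ⟨z, hz1, hz2⟩ := M.geod a b 1 (by omega)
      have hadj : (coneGraph M y R).Adj (Sum.inl a) (Sum.inl z) := ⟨by omega, by omega⟩
      exact hadj.reachable.trans (ih z b (by omega))
  have h2 : ∀ v : V ⊕ C, ∃ a : V, (coneGraph M y R).Reachable v (Sum.inl a) := by
    rintro (a | w)
    · exact ⟨a, SimpleGraph.Reachable.refl _⟩
    · have : (coneGraph M y R).Adj (Sum.inr w) (Sum.inl (y w 0)) := ⟨0, by rw [M.self]; omega⟩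
      exact ⟨_, this.reachable⟩
  obtain ⟨x0⟩ := hne
  have : Nonempty (V ⊕ C) := ⟨Sum.inl x0⟩
  refine SimpleGraph.Connected.mk ?_
  intro v v'
  obtain ⟨a, ha⟩ := h2 v
  obtain ⟨b, hb⟩ := h2 v'
  exact (ha.trans (h1 _ _ _ rfl)).trans hb.symm

/-- the coned-off graph exists.  Proof: `SimpleGraph.dist` of the graph with adjacency `coneAdj`. -/
theorem exists_cone {V C : Type} (M : GMet V) (y : C → ℤ → V) (R : ℕ) (hR : 1 ≤ R)
    (hne : Nonempty V) :
    ∃ M' : GMet (V ⊕ C), ∀ a b, M'.d a b = 1 ↔ coneAdj M y R a b :=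
  ⟨GMet.ofGraph _ (coneGraph_connected M y R hR hne), fun _ _ =>
    SimpleGraph.dist_eq_one_iff_adj⟩

/-- sizes of the constants -/
lemma Par.sizes (p : Par) : 1000 ≤ p.δ ∧ 10 ^ 20 * p.δ ≤ p.κ ∧ p.κ ≤ p.Δ ∧ 1000 * p.Δ ≤ p.L ∧
    p.R = 10 ^ 6 * p.L := by
  have hδ := p.hδ
  have hq := p.hq
  have h0 : 10 ^ 20 * p.δ ≤ p.κ := by
    refine le_trans ?_ p.hκ
    have h1 : p.δ ≤ p.δ ^ 2 * p.q := by
      have : 1 ≤ p.δ * p.q := Nat.one_le_iff_ne_zero.mpr (by positivity)
      calc p.δ = p.δ * 1 := (mul_one _).symm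
        _ ≤ p.δ * (p.δ * p.q) := Nat.mul_le_mul_left _ this
        _ = p.δ ^ 2 * p.q := by ring
    calc 10 ^ 20 * p.δ ≤ 10 ^ 20 * (p.δ ^ 2 * p.q) := Nat.mul_le_mul_left _ h1
      _ = _ := by ring
  refine ⟨hδ, h0, ?_, p.hL, rfl⟩
  refine le_trans ?_ p.hΔ
  exact Nat.le_self_pow (by norm_num) _

lemma Par.R_pos (p : Par) : 0 < p.R := by
  obtain ⟨h1, h2, h3, h4, h5⟩ := p.sizes
  omega

/-- All data of one step (without angles). -/
structure Coned (p : Par) (G V C : Type) [Group G] [MulAction G V] [MulAction G C] (M : GMet V)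
    (S : Lines G V C M p) (M' : GMet (V ⊕ C)) : Prop where
  hH : Hyp p G V M
  adj : ∀ a b, M'.d a b = 1 ↔ coneAdj M S.y p.R a b

namespace Coned

variable {p : Par} {G V C : Type} [Group G] [MulAction G V] [MulAction G C] {M : GMet V}
  {S : Lines G V C M p} {M' : GMet (V ⊕ C)}

lemma le_one (D : Coned p G V C M S M') {v v' : V ⊕ C} :
    M'.d v v' ≤ 1 ↔ v = v' ∨ coneAdj M S.y p.R v v' := by
  constructor
  · intro h
    rcases Nat.le_one_iff_eq_zero_or_eq_one.mp h with h | h
    · exact Or.inl (M'.eq_of _ _ h)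
    · exact Or.inr ((D.adj _ _).mp h)
  · rintro (h | h)
    · rw [h, M'.self]; omega
    · rw [(D.adj _ _).mpr h]

lemma inl_inl (D : Coned p G V C M S M') {x y : V} :
    M'.d (Sum.inl x) (Sum.inl y) ≤ 1 ↔ M.d x y ≤ p.R := by
  rw [D.le_one]
  constructor
  · rintro (h | h)
    · rw [Sum.inl.inj h, M.self]; omega
    · exact h.2
  · intro h
    by_cases hxy : M.d x y = 0
    · exact Or.inl (by rw [M.eq_of _ _ hxy])
    · exact Or.inr ⟨by omega, h⟩

lemma inl_inr (D : Coned p G V C M S M') {x : V} {w : C} :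
    M'.d (Sum.inl x) (Sum.inr w) ≤ 1 ↔ ∃ i, M.d x (S.y w i) ≤ p.R := by
  rw [D.le_one]
  constructor
  · rintro (h | h)
    · exact absurd h (by simp)
    · exact h
  · exact fun h => Or.inr h

lemma inr_inl (D : Coned p G V C M S M') {x : V} {w : C} :
    M'.d (Sum.inr w) (Sum.inl x) ≤ 1 ↔ ∃ i, M.d x (S.y w i) ≤ p.R := by
  rw [M'.symm, D.inl_inr]

lemma inr_inr (D : Coned p G V C M S M') {w w' : C} :
    M'.d (Sum.inr w) (Sum.inr w') ≤ 1 ↔ w = w' := by
  rw [D.le_one]
  constructor
  · rintro (h | h)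
    · exact Sum.inr.inj h
    · exact h.elim
  · exact fun h => Or.inl (by rw [h])

/-- the group preserves adjacency -/
lemma adj_smul (D : Coned p G V C M S M') (g : G) (v v' : V ⊕ C) (h : coneAdj M S.y p.R v v') :
    coneAdj M S.y p.R (g • v) (g • v') := by
  have hM := D.hH.isom
  rcases v with x | w <;> rcases v' with y | w'
  · refine ⟨?_, ?_⟩
    · rw [hM g x y]; exact h.1
    · rw [hM g x y]; exact h.2
  · obtain ⟨i, hi⟩ := h
    obtain ⟨j, hj⟩ := S.y_smul g w'
    exact ⟨i + j, by rw [← hj, hM]; exact hi⟩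
  · obtain ⟨i, hi⟩ := h
    obtain ⟨j, hj⟩ := S.y_smul g w
    exact ⟨i + j, by rw [← hj, hM]; exact hi⟩
  · exact h

/-- the action on the coned-off graph is isometric.  Proof: an adjacency preserving bijection is an
isometry, because `M'.d` is the graph distance (`GMet.geod`). -/
theorem isom (D : Coned p G V C M S M') : M'.Isom G := by
  have key : ∀ (n : ℕ) (g : G) (v v' : V ⊕ C), M'.d v v' = n → M'.d (g • v) (g • v') ≤ n := by
    intro n
    induction n with
    | zero =>
      intro g v v' h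
      rw [M'.eq_of _ _ h, M'.self]
    | succ n ih =>
      intro g v v' h
      obtain ⟨z, hz1, hz2⟩ := M'.geod v v' 1 (by omega)
      have h1 := (D.adj _ _).mpr (D.adj_smul g _ _ ((D.adj _ _).mp hz1))
      have h2 := ih g z v' (by omega)
      have h3 := M'.tri (g • v) (g • z) (g • v')
      omega
  intro g v v'
  apply le_antisymm (key _ g v v' rfl)
  have := key _ g⁻¹ (g • v) (g • v') rfl
  simpa using this

/-- distance in the coned-off graph: `k` steps of length `R`. -/
lemma d_le (D : Coned p G V C M S M') {x y : V} {k : ℕ} (h : M.d x y ≤ k * p.R) :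
    M'.d (Sum.inl x) (Sum.inl y) ≤ k := by
  induction k generalizing x with
  | zero =>
    have : M.d x y = 0 := by omega
    rw [M.eq_of x y this, M'.self]
  | succ n ih =>
    rw [Nat.succ_mul] at h
    rcases le_total (M.d x y) p.R with h' | h'
    · have := (D.inl_inl (x := x) (y := y)).mpr h'
      omega
    · obtain ⟨z, hz1, hz2⟩ := M.geod x y p.R h'
      have h1 := (D.inl_inl (x := x) (y := z)).mpr (by omega)
      have h2 := ih (x := z) (by omega)
      have h3 := M'.tri (Sum.inl x) (Sum.inl z) (Sum.inl y)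
      omega

/-- base points: `x` for `x ∈ V`, `y w 0` for `w ∈ C` -/
def base (S : Lines G V C M p) : V ⊕ C → V
  | Sum.inl x => x
  | Sum.inr w => S.y w 0

/-- guessed geodesics -/
def gl (S : Lines G V C M p) (a b : V ⊕ C) : Set (V ⊕ C) :=
  {a, b} ∪ Sum.inl '' M.I (base S a) (base S b)

lemma base_near (D : Coned p G V C M S M') (v : V ⊕ C) : M'.d v (Sum.inl (base S v)) ≤ 1 := by
  rcases v with x | w
  · simp only [base]
    rw [M'.self]; omega
  · rw [D.inr_inl]
    exact ⟨0, by simp only [base]; rw [M.self]; omega⟩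

/-- points between a point of `V` and a point of the line near it are close to both.
Proof: thin triangle `S.y w j`, `S.y w i`, `x`; a point near `I(S.y w j, S.y w i)` is near the line
(`QLine.near_between`), a point near `I(S.y w i, x)` is at distance `≤ R + 4δ` from `x`. -/
lemma near_line (D : Coned p G V C M S M') {w : C} {x u : V} {i j : ℤ}
    (hx : M.d x (S.y w i) ≤ p.R) (hu : u ∈ M.I (S.y w j) x) :
    (∃ l, M.d u (S.y w l) ≤ p.R) ∨ M.d x u ≤ 2 * p.R := by
  obtain ⟨h1, h2, h3, h4, h5⟩ := p.sizes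
  obtain ⟨s, hs, hd⟩ := GMet.thin D.hH.hyp hu (S.y w i)
  rcases hs with hs | hs
  · left
    obtain ⟨l, -, hl⟩ := QLine.near_between D.hH.hyp (y := S.y w) (σ := 2 * p.L) (c := p.L)
      ⟨S.step w, S.coll w⟩ (i := j) (j := i) (u := s) (ν := 0)
      (by have := GMet.mem_I.mp hs; omega)
    have e1 := M.tri u s (S.y w l)
    exact ⟨l, by omega⟩
  · right
    have e1 := GMet.mem_I.mp hs
    have e2 := M.tri x s u
    have e3 := M.symm s u
    have e4 := M.symm s x
    have e5 := M.symm (S.y w i) x
    omega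

/-- the guessed geodesics satisfy the conditions of module GUESS.
Proof.  `thin`: thin triangles in `V` (`GMet.thin`, `4 δ ≤ R`).  `short`: `near_line`. -/
theorem guess (D : Coned p G V C M S M') : Guess M' (gl S) where
  chain := by
    intro v v'
    obtain ⟨α, hα⟩ := M.exists_geo (base S v) (base S v')
    set m := M.d (base S v) (base S v') with hm
    refine ⟨m + 2, fun i => if i = 0 then v else if i = m + 2 then v' else Sum.inl (α (i - 1)),
      by simp, by simp, ?_, ?_⟩
    · intro i hi
      dsimp only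
      by_cases h0 : i = 0
      · rw [if_pos h0]; exact Or.inl (Or.inl rfl)
      · rw [if_neg h0]
        by_cases h1 : i = m + 2
        · rw [if_pos h1]; exact Or.inl (Or.inr rfl)
        · rw [if_neg h1]
          exact Or.inr ⟨_, (GMet.Geo.mem_I hα (by omega)).1, rfl⟩
    · intro i hi
      dsimp only
      by_cases h0 : i = 0
      · rw [if_pos h0, if_neg (by omega), if_neg (by omega), h0]
        simp only [zero_add, Nat.sub_self]
        rw [hα.1]
        exact D.base_near v
      · rw [if_neg h0, if_neg (show ¬ i = m + 2 by omega), if_neg (show ¬ i + 1 = 0 by omega)]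
        by_cases h1 : i + 1 = m + 2
        · rw [if_pos h1, show i - 1 = m by omega, hα.2.1, M'.symm]
          exact D.base_near v'
        · rw [if_neg h1, D.inl_inl]
          rw [Geo.step' hα (show i - 1 ≤ i + 1 - 1 by omega) (by omega)]
          have := p.R_pos
          omega
  thin := by
    intro v v' z u hu
    rcases hu with (hu | hu) | ⟨t, ht, rfl⟩
    · exact ⟨v, Or.inl (Or.inl (Or.inl rfl)), by rw [hu, M'.self]; omega⟩
    · exact ⟨v', Or.inr (Or.inl (Or.inr rfl)), by
        rw [Set.mem_singleton_iff.mp hu, M'.self]; omega⟩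
    · obtain ⟨s, hs, hd⟩ := GMet.thin D.hH.hyp ht (base S z)
      refine ⟨Sum.inl s, ?_, ?_⟩
      · rcases hs with hs | hs
        · exact Or.inl (Or.inr ⟨s, hs, rfl⟩)
        · exact Or.inr (Or.inr ⟨s, hs, rfl⟩)
      · obtain ⟨h1, h2, h3, h4, h5⟩ := p.sizes
        have := (D.inl_inl (x := t) (y := s)).mpr (by omega)
        omega
  short := by
    obtain ⟨h1, h2, h3, h4, h5⟩ := p.sizes
    -- the case of a point and an apex
    have key : ∀ (x : V) (w : C) (i : ℤ) (t : V), M.d x (S.y w i) ≤ p.R → t ∈ M.I (S.y w 0) x →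
        M'.d (Sum.inl x) (Sum.inl t) ≤ 3 := by
      intro x w i t hi ht
      have hxw := (D.inl_inr (x := x) (w := w)).mpr ⟨i, hi⟩
      rcases D.near_line hi ht with h | h
      · have e2 := (D.inr_inl (x := t) (w := w)).mpr h
        have e3 := M'.tri (Sum.inl x) (Sum.inr w) (Sum.inl t)
        omega
      · have := D.d_le (x := x) (y := t) (k := 2) h
        omega
    intro v v' hvv u hu
    rcases hu with (hu | hu) | ⟨t, ht, rfl⟩
    · rw [hu, M'.self]; omega
    · rw [Set.mem_singleton_iff.mp hu]; omega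
    rcases v with x | w <;> rcases v' with y | w'
    · have e1 := D.inl_inl.mp hvv
      have e2 := GMet.mem_I.mp ht
      simp only [base] at e2
      have := (D.inl_inl (x := x) (y := t)).mpr (by omega)
      omega
    · obtain ⟨i, hi⟩ := D.inl_inr.mp hvv
      have := key x w' i t hi (by rw [GMet.I_symm]; exact ht)
      omega
    · obtain ⟨i, hi⟩ := D.inr_inl.mp hvv
      have e1 := key y w i t hi ht
      have e2 := M'.tri (Sum.inr w) (Sum.inl y) (Sum.inl t)
      omega
    · have e0 := D.inr_inr.mp hvv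
      subst e0
      have e1 := GMet.mem_I.mp ht
      rw [M.self] at e1
      have e2 := M.eq_of _ _ (show M.d (base S (Sum.inr w)) t = 0 by omega)
      rw [← e2]
      have := D.base_near (Sum.inr w)
      omega

/-- the coned-off graph is hyperbolic with the constant 1000 -/
theorem hyp1000 (D : Coned p G V C M S M') : M'.Hyp4 1000 := D.guess.hyp4

/-- the coned-off graph is hyperbolic, with a universal constant -/
theorem hyp4 (D : Coned p G V C M S M') : M'.Hyp4 p.δ := by
  have h1 := D.hyp1000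
  intro x y z w
  have := h1 x y z w
  have := p.hδ
  omega

/-- (T2) points between `x` and `y` in `V` are close to all geodesics of the coned-off graph -/
theorem near (D : Coned p G V C M S M') {x y u : V} (hu : u ∈ M.I x y) {m : ℕ} {α : ℕ → V ⊕ C}
    (hα : M'.Geo (Sum.inl x) (Sum.inl y) m α) : ∃ i ≤ m, M'.d (Sum.inl u) (α i) ≤ 100 :=
  D.guess.near hα (Or.inr ⟨u, hu, rfl⟩)

/-- (T3) points of an interval of the coned-off graph are close to the interval of `V` -/
theorem near_T3 (D : Coned p G V C M S M') {x y : V} {z : V ⊕ C}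
    (hz : z ∈ M'.I (Sum.inl x) (Sum.inl y)) : ∃ u ∈ M.I x y, M'.d z (Sum.inl u) ≤ 302 := by
  obtain ⟨v, hv, hd⟩ := D.guess.near' hz
  rcases hv with (hv | hv) | ⟨t, ht, rfl⟩
  · exact ⟨x, GMet.left_mem_I x y, by rw [hv] at hd; omega⟩
  · exact ⟨y, GMet.right_mem_I x y, by rw [Set.mem_singleton_iff.mp hv] at hd; omega⟩
  · exact ⟨t, ht, by omega⟩

end Coned

end Pool.Agent.Helper85.Burn
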