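import Pool.Agent.Helper85.Burn.RotPhi

/-!
Module GREEN: the Greendlinger lemma for the group `K` generated by the rotations.
-/

set_option autoImplicit false

namespace Pool.Agent.Helper85.Burn

open Pool.Agent.Helper88.Burn

namespace Rot

variable {G V : Type} [Group G] [MulAction G V] {M : GMet V} {n : V → ℕ} {P : ℕ}
  {A : Rot G V M n P}

/-- if `k` moves `x` there is an unreduced apex; here `x` may be an apex -/
theorem exists_unreduced' {x : V} {k : G} (hk : k ∈ A.K) (hne : k • x ≠ x) :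
    ∃ w ∈ A.C, w ≠ x ∧ w ≠ k • x ∧ (n w : ℤ) < 2 * |A.ang w x (k • x)| := by
  rw [← A.toSys_K] at hk
  obtain ⟨v, hv, h1, h2, h3⟩ := RotSys.greendlinger A.toSys_large hk hne
  have e := A.two_half hv
  refine ⟨v, hv, h1, h2, ?_⟩
  change half (n v) < |A.ang v x (k • x)| at h3
  omega

/-- `K` acts freely outside of `C` -/
theorem free {x : V} (hx : x ∉ A.C) {k : G} (hk : k ∈ A.K) (h : k • x = x) : k = 1 := by
  rw [← A.toSys_K] at hk
  exact RotSys.eq_one_of_smul_eq A.toSys_large hx hk h

/-- a nontrivial element of `K` has an unreduced apex -/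
theorem exists_unreduced {x : V} (hx : x ∉ A.C) {k : G} (hk : k ∈ A.K) (hne : k ≠ 1) :
    ∃ w ∈ A.C, (n w : ℤ) < 2 * |A.ang w x (k • x)| := by
  obtain ⟨w, hw, -, -, h⟩ := exists_unreduced' (x := x) hk fun h => hne (free hx hk h)
  exact ⟨w, hw, h⟩

/-- (A.7), Greendlinger lemma: an almost full turn; here `x` may be an apex.
Proof.  Induction on `Φ(x,kx)`: `w` unreduced, `r` reducing rotation, `k' = r k`.  If `k' = 1` the
angle is a nonzero multiple of `n w`.  Otherwise take `u` for `k'`.  If `|ang w x (k'x)| < pf w` then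
`w` works for `k`; otherwise `u ≠ w` (the angle at `w` is `< n/2`) and `ang_large` (for `(x,k'x)` and
`h = r⁻¹`) gives `u` or `r⁻¹ u`. -/
theorem green' {x : V} {k : G} (hk : k ∈ A.K) (hne : k • x ≠ x) :
    ∃ w ∈ A.C, w ≠ x ∧ w ≠ k • x ∧ (n w : ℤ) - A.pf w ≤ |A.ang w x (k • x)| := by
  generalize hN : A.Φ x (k • x) = N
  induction N using Nat.strong_induction_on generalizing k with
  | _ N ih =>
    obtain ⟨w, hw, hwx, hwk, h1⟩ := exists_unreduced' hk hne
    have hnb : (1000 * P : ℤ) ≤ n w := by exact_mod_cast A.n_big w hw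
    have hpf : (A.pf w : ℤ) ≤ P := by exact_mod_cast A.pf_le w hw
    have hpp : (1 : ℤ) ≤ A.pf w := by exact_mod_cast A.pf_pos w hw
    obtain ⟨r, hr, h2⟩ := exists_red hw hwx.symm hwk.symm
    obtain ⟨hfix, hne', j, hj, hj0⟩ := θ_H hw hwk.symm hr
    have hΦ := Φ_red hw hwx hwk hr h1 h2
    have hj1 : A.ang w x (r • k • x) = A.ang w x (k • x) + n w * j := by
      unfold ang; rw [hj]; ring
    have hjne : j ≠ 0 := by
      rintro rfl
      rw [hj1, mul_zero, add_zero] at h2
      omega
    have hnj : (n w : ℤ) ≤ |(n w : ℤ) * j| := by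
      rw [abs_mul, Nat.abs_cast]
      have : 1 ≤ |j| := Int.one_le_abs hjne
      nlinarith
    have habs : |(n w : ℤ) * j| ≤ |A.ang w x (r • k • x)| + |A.ang w x (k • x)| := by
      have h3 := abs_sub (A.ang w x (r • k • x)) (A.ang w x (k • x))
      rw [hj1] at h3
      rw [hj1]
      have e : A.ang w x (k • x) + n w * j - A.ang w x (k • x) = n w * j := by ring
      rwa [e] at h3
    by_cases hsmall : |A.ang w x (r • k • x)| < A.pf w
    · exact ⟨w, hw, hwx, hwk, by omega⟩
    · push Not at hsmall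
      have hrk : r * k ∈ A.K := mul_mem (H_le_K hw hr) hk
      by_cases hc : (r * k) • x = x
      · rw [mul_smul] at hc
        rw [hc, ang_self, abs_zero] at hsmall
        omega
      · obtain ⟨u, hu, hux, huk, h3⟩ := ih _ (by rw [← hN]; rw [mul_smul]; exact hΦ) hrk hc rfl
        rw [mul_smul] at h3 huk
        have hpu : (A.pf u : ℤ) ≤ P := by exact_mod_cast A.pf_le u hu
        have hnu : (1000 * P : ℤ) ≤ n u := by exact_mod_cast A.n_big u hu
        have huw : u ≠ w := by
          rintro rfl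
          omega
        have hr' : r⁻¹ ∈ A.H w := inv_mem hr
        obtain ⟨-, g1, g2⟩ := ang_large hw hwx hne'.symm hr' hsmall
          (by rw [inv_smul_smul]; omega)
        rw [inv_smul_smul] at g1 g2
        have s1 := A.A1 u hu _ _ hux.symm huk.symm (show (A.pf u : ℤ) ≤ |A.ang u _ _| by omega)
        have s2 := A.A1 w hw _ _ hwx.symm hne' hsmall
        rcases lt_trichotomy (M.d x u) (M.d x w) with h4 | h4 | h4
        · obtain ⟨a1, a2⟩ := g1 u hu hux huk (by omega) h4
          exact ⟨u, hu, hux, a1, by rw [a2]; exact h3⟩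
        · exact absurd (s2.2 u s1.1 h4) huw
        · obtain ⟨a1, a2, -, a3⟩ := g2 u hu hux huk (by omega) h4
          exact ⟨r⁻¹ • u, A.C_smul _ u hu, a1, a2, by
            rw [a3, A.pf_smul _ u hu, A.n_smul _ u hu]; exact h3⟩

/-- (A.7), Greendlinger lemma: an almost full turn. -/
theorem green {x : V} (hx : x ∉ A.C) {k : G} (hk : k ∈ A.K) (hne : k ≠ 1) :
    ∃ w ∈ A.C, (n w : ℤ) - A.pf w ≤ |A.ang w x (k • x)| := by
  obtain ⟨w, hw, -, -, h⟩ := green' (x := x) hk fun h => hne (free hx hk h)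
  exact ⟨w, hw, h⟩

/-- if `z` and `k z` are both adjacent to `w` then `k` is a rotation at `w`.
Proof.  Induction on `Φ(z,kz)`: if `k ≠ 1` there is `v` with large angle; `v ∈ I(z,kz)`,
`d(z,kz) ≤ 2`, `w ∈ I(z,kz)`, so `v = w`; apply the reducing rotation. -/
theorem mem_H_of_nbr {w z : V} (hw : w ∈ A.C) (hz : M.d w z = 1) {k : G} (hk : k ∈ A.K)
    (hkz : M.d w (k • z) = 1) : k ∈ A.H w := by
  have hzC : z ∉ A.C := fun h => A.nonadj w hw z h hz
  generalize hN : A.Φ z (k • z) = N
  induction N using Nat.strong_induction_on generalizing k with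
  | _ N ih =>
    by_cases hk1 : k • z = z
    · rw [free hzC hk hk1]; exact one_mem _
    · obtain ⟨v, hv, hvz, hvk, h1⟩ := exists_unreduced' hk hk1
      have hnb : (1000 * P : ℤ) ≤ n v := by exact_mod_cast A.n_big v hv
      have hpf : (A.pf v : ℤ) ≤ P := by exact_mod_cast A.pf_le v hv
      have s := A.A1 v hv _ _ hvz.symm hvk.symm (show (A.pf v : ℤ) ≤ |A.ang v _ _| by omega)
      have i1 := s.1
      simp only [GMet.mem_I] at i1
      have t1 := M.tri z w (k • z)
      have t2 := M.symm z w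
      have p1 : M.d z v ≠ 0 := fun h => hvz (M.eq_of z v h).symm
      have p2 : M.d v (k • z) ≠ 0 := fun h => hvk (M.eq_of v _ h)
      have hwv : w = v := s.2 w (by simp only [GMet.mem_I]; omega) (by omega)
      subst hwv
      obtain ⟨r, hr, h2⟩ := exists_red hw hvz.symm hvk.symm
      have hfix := (θ_H hw hvk.symm hr).1
      have h3 : M.d w ((r * k) • z) = 1 := by
        rw [mul_smul]
        have := A.isom r w (k • z)
        rw [hfix] at this
        rw [this, hkz]
      have h4 := ih _ (by rw [← hN, mul_smul]; exact Φ_red hw hvz hvk hr h1 h2)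
        (mul_mem (H_le_K hw hr) hk) h3 rfl
      have h5 := mul_mem (inv_mem hr) h4
      rwa [inv_mul_cancel_left] at h5

/-- stabiliser of an apex in `K` -/
theorem mem_H_of_fix {w : V} (hw : w ∈ A.C) {k : G} (hk : k ∈ A.K) (h : k • w = w) :
    k ∈ A.H w := by
  obtain ⟨z, hz⟩ := A.nbr w hw
  refine mem_H_of_nbr hw hz hk ?_
  have := A.isom k w z
  rw [h] at this
  rw [this, hz]

/-- two apices in one `K`-orbit adjacent to the same point are equal -/
theorem apex_eq {w z : V} (hw : w ∈ A.C) (hz : M.d w z = 1) {k : G} (hk : k ∈ A.K)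
    (hkz : M.d (k • w) z = 1) : k • w = w := by
  have h1 : M.d w (k⁻¹ • z) = 1 := by
    have := A.isom k w (k⁻¹ • z)
    rw [smul_inv_smul] at this
    omega
  have h2 := mem_H_of_nbr hw hz (inv_mem hk) h1
  have h3 := inv_mem h2
  rw [inv_inv] at h3
  obtain ⟨j, rfl⟩ := mem_H.1 h3
  exact ρ_pow_fix hw _

end Rot

end Pool.Agent.Helper85.Burn
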