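import Pool.Agent.Helper85.Burn.BGI
import Pool.Agent.Helper85.Burn.RotG

/-!
Module CONEROT: the rotation structure of the coned-off graph.
-/

set_option autoImplicit false

namespace Pool.Agent.Helper85.Burn

variable {p : Par} {G V C : Type} [Group G] [MulAction G V] [MulAction G C] {M : GMet V}
  {S : Lines G V C M p} {M' : GMet (V ⊕ C)}

/-- the first vertices of the geodesics from the apex `w` to `z` -/
def firstV (M' : GMet (V ⊕ C)) (w : C) (z : V ⊕ C) : Set V :=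
  {x | M'.d (Sum.inr w) (Sum.inl x) = 1 ∧ Sum.inl x ∈ M'.I (Sum.inr w) z}

/-- nearest indices of the first vertices -/
def firstI (S : Lines G V C M p) (M' : GMet (V ⊕ C)) (w : C) (z : V ⊕ C) : Set ℤ :=
  {i | ∃ x ∈ firstV M' w z, Near M (S.y w) x i}

/-- the angle: least nearest index of a first vertex -/
noncomputable def th (S : Lines G V C M p) (M' : GMet (V ⊕ C)) (w : C) (z : V ⊕ C) : ℤ :=
  sInf (firstI S M' w z)

lemma Lines.zpow_y (S : Lines G V C M p) (w : C) (k i : ℤ) :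
    S.ρ w ^ k • S.y w i = S.y w (i + k) := by
  induction k using Int.induction_on generalizing i with
  | zero => simp
  | succ k ih =>
    rw [zpow_add_one, mul_smul, S.y_ρ, ih]
    congr 1
    ring
  | pred k ih =>
    have h : S.ρ w ^ (-(k : ℤ) - 1) • S.y w i = S.ρ w ^ (-(k : ℤ)) • ((S.ρ w)⁻¹ • S.y w i) := by
      rw [zpow_sub_one, mul_smul]
    have h2 : (S.ρ w)⁻¹ • S.y w i = S.y w (i - 1) := by
      rw [inv_smul_eq_iff, S.y_ρ]
      congr 1
      ring
    rw [h, h2, ih]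
    congr 1
    ring

/-- translation of distances along the line -/
lemma Lines.d_shift (S : Lines G V C M p) (D : Coned p G V C M S M') (w : C) (i j k : ℤ) :
    M.d (S.y w (i + k)) (S.y w (j + k)) = M.d (S.y w i) (S.y w j) := by
  rw [← S.zpow_y w k i, ← S.zpow_y w k j, D.hH.isom]

lemma Lines.pf_exists (S : Lines G V C M p) (w : C) :
    ∃ m : ℕ, 1 ≤ m ∧ 4 * p.P0 + p.L ≤ M.d (S.y w 0) (S.y w m) := by
  refine ⟨p.P, by unfold Par.P; omega, ?_⟩
  have h := S.far w 0 (p.P : ℤ)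
  by_contra hcon
  push Not at hcon
  have h1 : p.q * M.d (S.y w 0) (S.y w p.P) ≤ p.q * (4 * p.P0 + p.L) :=
    Nat.mul_le_mul_left _ hcon.le
  have h2 : |(0 : ℤ) - (p.P : ℤ)| = p.P := by
    rw [zero_sub, abs_neg]
    exact Int.natAbs_natCast p.P ▸ (Int.abs_eq_natAbs _)
  rw [h2] at h
  have h3 : (p.P : ℤ) ≤ ((p.q * (4 * p.P0 + p.L) : ℕ) : ℤ) := by
    refine h.trans ?_
    exact_mod_cast h1
  have h4 : p.P ≤ p.q * (4 * p.P0 + p.L) := by exact_mod_cast h3
  unfold Par.P at h4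
  omega

/-- the threshold -/
noncomputable def pfw (S : Lines G V C M p) (w : C) : ℕ := by
  classical
  exact Nat.find (S.pf_exists w)

lemma Lines.far' (S : Lines G V C M p) (w : C) {i j : ℤ} {B : ℕ}
    (h : M.d (S.y w i) (S.y w j) ≤ B) : |i - j| ≤ (p.q * B : ℕ) := by
  refine (S.far w i j).trans ?_
  have : p.q * M.d (S.y w i) (S.y w j) ≤ p.q * B := Nat.mul_le_mul_left _ h
  exact_mod_cast this

/-- equivariance of nearest indices -/
lemma near_smul (D : Coned p G V C M S M') (g : G) (w : C) {j : ℤ}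
    (hj : ∀ i, g • S.y w i = S.y (g • w) (i + j)) (x : V) (i : ℤ) :
    Near M (S.y (g • w)) (g • x) (i + j) ↔ Near M (S.y w) x i := by
  constructor
  · intro h k
    have h1 := h (k + j)
    rw [← hj, ← hj, D.hH.isom, D.hH.isom] at h1
    exact h1
  · intro h k
    have h1 := h (k - j)
    have e : S.y (g • w) k = g • S.y w (k - j) := by
      rw [hj]
      congr 1
      ring
    rw [← hj, e, D.hH.isom, D.hH.isom]
    exact h1

lemma firstV_smul (D : Coned p G V C M S M') (g : G) (w : C) (z : V ⊕ C) (x : V) :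
    g • x ∈ firstV M' (g • w) (g • z) ↔ x ∈ firstV M' w z := by
  have h := D.isom
  have e1 : M'.d (Sum.inr (g • w)) (Sum.inl (g • x)) = M'.d (Sum.inr w) (Sum.inl x) :=
    h g (Sum.inr w) (Sum.inl x)
  have e2 : M'.d (Sum.inl (g • x)) (g • z) = M'.d (Sum.inl x) z := h g (Sum.inl x) z
  have e3 : M'.d (Sum.inr (g • w)) (g • z) = M'.d (Sum.inr w) z := h g (Sum.inr w) z
  unfold firstV
  simp only [Set.mem_setOf_eq, GMet.mem_I]
  rw [e1, e2, e3]

lemma firstI_smul (D : Coned p G V C M S M') (g : G) (w : C) {j : ℤ}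
    (hj : ∀ i, g • S.y w i = S.y (g • w) (i + j)) (z : V ⊕ C) (i : ℤ) :
    i + j ∈ firstI S M' (g • w) (g • z) ↔ i ∈ firstI S M' w z := by
  constructor
  · rintro ⟨x, hx, hi⟩
    refine ⟨g⁻¹ • x, ?_, ?_⟩
    · rw [← firstV_smul D g, smul_inv_smul]
      exact hx
    · rw [← near_smul D g w hj, smul_inv_smul]
      exact hi
  · rintro ⟨x, hx, hi⟩
    exact ⟨g • x, (firstV_smul D g w z x).mpr hx, (near_smul D g w hj x i).mpr hi⟩

namespace Coned

lemma firstV_nonempty (D : Coned p G V C M S M') (w : C) {z : V ⊕ C} (hz : z ≠ Sum.inr w) :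
    (firstV M' w z).Nonempty := by
  have h1 : M'.d (Sum.inr w) z ≠ 0 := fun h => hz (M'.eq_of _ _ h).symm
  obtain ⟨u, hu1, hu2⟩ := M'.geod (Sum.inr w) z 1 (by omega)
  rcases u with x | w'
  · refine ⟨x, hu1, ?_⟩
    rw [GMet.mem_I]
    omega
  · rw [D.adj] at hu1
    exact hu1.elim

/-- `v` represents `z` -/
def Rep (M' : GMet (V ⊕ C)) (z : V ⊕ C) (v : V) : Prop :=
  z = Sum.inl v ∨ ∃ w', z = Sum.inr w' ∧ M'.d (Sum.inl v) (Sum.inr w') = 1

lemma rep_close (D : Coned p G V C M S M') {w : C} {z : V ⊕ C} (hz : z ≠ Sum.inr w) {v v' : V}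
    (h1 : Rep M' z v) (h2 : Rep M' z v') {i j : ℤ} (hi : Near M (S.y w) v i)
    (hj : Near M (S.y w) v' j) : M.d (S.y w i) (S.y w j) ≤ 3 * p.R := by
  have hC := p.C2_le
  have hR : p.R = 10 ^ 6 * p.L := rfl
  rcases h1 with h1 | ⟨w1, h1, h1'⟩
  · rcases h2 with h2 | ⟨w2, h2, h2'⟩
    · have : v = v' := Sum.inl_injective (h1.symm.trans h2)
      subst this
      have h3 := P4 D.hH.hyp (S.qline w) hi hj
      rw [M.self] at h3
      omega
    · rw [h1] at h2
      exact absurd h2 (by simp)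
  · rcases h2 with h2 | ⟨w2, h2, h2'⟩
    · rw [h1] at h2
      exact absurd h2 (by simp)
    · have : w1 = w2 := Sum.inr_injective (h1.symm.trans h2)
      subst this
      have hne : w ≠ w1 := by
        intro e
        subst e
        exact hz h1
      exact D.proj_apex hne hi hj h1' h2'

/-- bounded geodesic image for arbitrary end points -/
lemma seg (D : Coned p G V C M S M') {w : C} {z1 z2 : V ⊕ C} (hz1 : z1 ≠ Sum.inr w) {m : ℕ}
    {α : ℕ → V ⊕ C} (hα : M'.Geo z1 z2 m α) (hw : ∀ t ≤ m, α t ≠ Sum.inr w) :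
    ∃ v1 v2, Rep M' z1 v1 ∧ Rep M' z2 v2 ∧ ∀ i j, Near M (S.y w) v1 i → Near M (S.y w) v2 j →
      M.d (S.y w i) (S.y w j) < p.P0 := by
  have hC := p.C2_le
  have hR : p.R = 10 ^ 6 * p.L := rfl
  have hP0 : p.P0 = 5000 * p.R := rfl
  have hL : 0 < p.L := by
    have h1 := p.bgi_δ_le
    have h2 := p.hδ
    omega
  obtain ⟨h0, hm, hd, hgeo⟩ := id hα
  have hadj : ∀ t < m, M'.d (α t) (α (t + 1)) = 1 := by
    intro t ht
    have := hgeo t (t + 1) (by omega) (by omega)
    omega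
  -- good indices near the two ends
  rcases Nat.eq_zero_or_pos m with hm0 | hm0
  · subst hm0
    have h12 : z1 = z2 := h0.symm.trans hm
    subst h12
    rcases z1 with v | w'
    · refine ⟨v, v, Or.inl rfl, Or.inl rfl, fun i j hi hj => ?_⟩
      have h3 := P4 D.hH.hyp (S.qline w) hi hj
      rw [M.self] at h3
      omega
    · have h1 : M'.d (Sum.inl (S.y w' 0)) (Sum.inr w') = 1 := by
        rw [D.adj]
        exact ⟨0, by rw [M.self]; omega⟩
      refine ⟨S.y w' 0, S.y w' 0, Or.inr ⟨w', rfl, h1⟩, Or.inr ⟨w', rfl, h1⟩,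
        fun i j hi hj => ?_⟩
      have h3 := P4 D.hH.hyp (S.qline w) hi hj
      rw [M.self] at h3
      omega
  · have g1 : ∃ s v, s ≤ 1 ∧ α s = Sum.inl v ∧ Rep M' z1 v := by
      rcases h : z1 with v | w'
      · exact ⟨0, v, by omega, by rw [h0, h], Or.inl rfl⟩
      · rcases D.apex_adj hadj (t := 0) hm0 with ⟨u, hu⟩ | ⟨u, hu⟩
        · rw [h0, h] at hu
          exact absurd hu (by simp)
        · refine ⟨1, u, le_rfl, hu, Or.inr ⟨w', rfl, ?_⟩⟩
          have := hadj 0 hm0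
          rw [h0, h, hu, M'.symm] at this
          exact this
    have g2 : ∃ s v, m ≤ s + 1 ∧ s ≤ m ∧ α s = Sum.inl v ∧ Rep M' z2 v := by
      rcases h : z2 with v | w'
      · exact ⟨m, v, by omega, le_rfl, by rw [hm, h], Or.inl rfl⟩
      · have e : m - 1 + 1 = m := by omega
        rcases D.apex_adj hadj (t := m - 1) (by omega) with ⟨u, hu⟩ | ⟨u, hu⟩
        · refine ⟨m - 1, u, by omega, by omega, hu, Or.inr ⟨w', rfl, ?_⟩⟩
          have := hadj (m - 1) (by omega)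
          rw [e, hm, h, hu] at this
          exact this
        · rw [e, hm, h] at hu
          exact absurd hu (by simp)
    obtain ⟨s1, v1, a1, a2, a3⟩ := g1
    obtain ⟨s2, v2, b1, b2, b3, b4⟩ := g2
    refine ⟨v1, v2, a3, b4, fun i j hi hj => ?_⟩
    rcases Nat.lt_or_ge s2 s1 with h12 | h12
    · -- `m = 1`, `s1 = 1`, `s2 = 0`: impossible up to one edge
      have e1 : s1 = 1 := by omega
      have e2 : s2 = 0 := by omega
      have e3 : m = 1 := by omega
      subst e1 e2 e3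
      have h1 := hadj 0 (by omega)
      rw [b3, zero_add, a2, D.adj] at h1
      have h2 := D.proj_edge hi hj (by rw [M.symm]; exact h1.2)
      omega
    · have hsub := hα.sub (i := s1) (j := s2) h12 b2
      rw [a2, b3] at hsub
      exact D.bgi hi hj hsub (fun t ht => hw _ (by omega))

/-- a geodesic from a first vertex avoids the apex -/
lemma first_avoid {w : C} {z : V ⊕ C} {a : V} (ha : a ∈ firstV M' w z) {m : ℕ}
    {α : ℕ → V ⊕ C} (hα : M'.Geo (Sum.inl a) z m α) : ∀ t ≤ m, α t ≠ Sum.inr w := by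
  intro t ht he
  obtain ⟨h1, h2⟩ := ha
  rw [GMet.mem_I] at h2
  have h3 := (hα.mem_I ht).1
  rw [he, GMet.mem_I, M'.symm (Sum.inl a) (Sum.inr w)] at h3
  omega

lemma first_ne {w : C} {z : V ⊕ C} {a : V} : Sum.inl a ≠ (Sum.inr w : V ⊕ C) := by simp

/-- a path of three geodesics avoiding `w`.  If `a`, `b` are neighbours of `w`, `a` is a first vertex
from `w` to `x`, `b` is a first vertex from `w` to `y`, and some geodesic from `x` to `y` does not pass
through `w`, the projections of `a`, `b` are closer than `4 P0`.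
Proof.  If `x ∈ V` and `y ∈ V`: `bgi` for the three geodesics `a → x → y → b`.  If `x` is an apex let
`x₁`, `x₂` be its neighbours on the geodesics `a → x` and `x → y`: `bgi` for `a → x₁`, `proj_apex` for
`x₁`, `x₂` (`x ≠ w`), and go on with `x₂` instead of `x` (if `x = y`, `x₂` is the neighbour on
`y → b`); the same for `y`.  Total `≤ 3 P0 + 6 R`. -/
lemma three (D : Coned p G V C M S M') {w : C} {x y : V ⊕ C} (hx : x ≠ Sum.inr w)
    (hy : y ≠ Sum.inr w) {a b : V} (ha : a ∈ firstV M' w x) (hb : b ∈ firstV M' w y)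
    {m : ℕ} {α : ℕ → V ⊕ C} (hα : M'.Geo x y m α) (hw : ∀ t ≤ m, α t ≠ Sum.inr w) {i j : ℤ}
    (hi : Near M (S.y w) a i) (hj : Near M (S.y w) b j) : M.d (S.y w i) (S.y w j) < 4 * p.P0 := by
  have hC := p.C2_le
  have hR : p.R = 10 ^ 6 * p.L := rfl
  have hP0 : p.P0 = 5000 * p.R := rfl
  have hL : 0 < p.L := by
    have h1 := p.bgi_δ_le
    have h2 := p.hδ
    omega
  obtain ⟨β, hβ⟩ := GMet.exists_geo M' (Sum.inl a : V ⊕ C) x
  obtain ⟨γ, hγ⟩ := GMet.exists_geo M' (Sum.inl b : V ⊕ C) y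
  obtain ⟨a1, x1, r1, r2, f1⟩ := D.seg (by simp) hβ (first_avoid ha hβ)
  obtain ⟨x2, y2, r3, r4, f2⟩ := D.seg hx hα hw
  obtain ⟨b1, y1, r5, r6, f3⟩ := D.seg (by simp) hγ (first_avoid hb hγ)
  have ea : a = a1 := by
    rcases r1 with r1 | ⟨w', r1, _⟩
    · exact Sum.inl_injective r1
    · exact absurd r1 (by simp)
  have eb : b = b1 := by
    rcases r5 with r5 | ⟨w', r5, _⟩
    · exact Sum.inl_injective r5
    · exact absurd r5 (by simp)
  subst ea eb
  obtain ⟨k1, hk1⟩ := S.exists_near w x1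
  obtain ⟨k2, hk2⟩ := S.exists_near w x2
  obtain ⟨l1, hl1⟩ := S.exists_near w y1
  obtain ⟨l2, hl2⟩ := S.exists_near w y2
  have c1 := f1 i k1 hi hk1
  have c2 := D.rep_close hx r2 r3 hk1 hk2
  have c3 := f2 k2 l2 hk2 hl2
  have c4 := D.rep_close hy r4 r6 hl2 hl1
  have c5 := f3 j l1 hj hl1
  have t1 := M.tri (S.y w i) (S.y w k1) (S.y w j)
  have t2 := M.tri (S.y w k1) (S.y w k2) (S.y w j)
  have t3 := M.tri (S.y w k2) (S.y w l2) (S.y w j)
  have t4 := M.tri (S.y w l2) (S.y w l1) (S.y w j)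
  have t5 := M.symm (S.y w l1) (S.y w j)
  omega

/-- `firstI` is nonempty and bounded below: by `three` with `x = y` and `Lines.far` -/
lemma th_mem (D : Coned p G V C M S M') (w : C) {z : V ⊕ C} (hz : z ≠ Sum.inr w) :
    th S M' w z ∈ firstI S M' w z ∧ BddBelow (firstI S M' w z) := by
  have hne : (firstI S M' w z).Nonempty := by
    obtain ⟨x, hx⟩ := D.firstV_nonempty w hz
    obtain ⟨i, hi⟩ := S.exists_near w x
    exact ⟨i, x, hx, hi⟩
  have hbdd : BddBelow (firstI S M' w z) := by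
    obtain ⟨i, a, ha, hi⟩ := hne
    refine ⟨i - (p.q * (4 * p.P0) : ℕ), ?_⟩
    rintro j ⟨b, hb, hj⟩
    have hα : M'.Geo z z 0 (fun _ => z) := by
      refine ⟨rfl, rfl, M'.self z, fun i j hij hj => ?_⟩
      rw [M'.self]
      omega
    have h1 := D.three hz hz ha hb hα (fun t _ => hz) hi hj
    have h2 := S.far' w h1.le
    rw [abs_le] at h2
    omega
  exact ⟨Int.csInf_mem hne hbdd, hbdd⟩

/-- (3.1) for a point of `V`, the angle is close to the nearest index -/
lemma th_near (D : Coned p G V C M S M') {w : C} {x : V} {i : ℤ} (hi : Near M (S.y w) x i) :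
    M.d (S.y w (th S M' w (Sum.inl x))) (S.y w i) ≤ p.P0 := by
  obtain ⟨a, ha, hth⟩ := (D.th_mem w (z := Sum.inl x) (by simp)).1
  obtain ⟨β, hβ⟩ := GMet.exists_geo M' (Sum.inl a : V ⊕ C) (Sum.inl x)
  exact (D.bgi hth hi hβ (first_avoid ha hβ)).le

lemma pfw_spec (S : Lines G V C M p) (w : C) :
    1 ≤ pfw S w ∧ 4 * p.P0 + p.L ≤ M.d (S.y w 0) (S.y w (pfw S w)) := by
  classical
  unfold pfw
  exact Nat.find_spec (S.pf_exists w)

lemma pfw_min (S : Lines G V C M p) (w : C) {m : ℕ} (h1 : 1 ≤ m)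
    (h2 : 4 * p.P0 + p.L ≤ M.d (S.y w 0) (S.y w m)) : pfw S w ≤ m := by
  classical
  unfold pfw
  exact Nat.find_min' (S.pf_exists w) ⟨h1, h2⟩

/-- (3.2) -/
lemma pf_far (D : Coned p G V C M S M') (w : C) (i j : ℤ) (h : (pfw S w : ℤ) ≤ |i - j|) :
    4 * p.P0 ≤ M.d (S.y w i) (S.y w j) := by
  obtain ⟨h1, h2⟩ := pfw_spec S w
  have key : ∀ k : ℤ, (pfw S w : ℤ) ≤ k → 4 * p.P0 ≤ M.d (S.y w 0) (S.y w k) := by
    intro k hk
    have h3 := S.coll w 0 (pfw S w) k (by omega) hk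
    omega
  rcases le_total i j with hij | hij
  · have e := S.d_shift D w 0 (j - i) i
    rw [zero_add, sub_add_cancel] at e
    rw [e]
    apply key
    rw [abs_sub_comm, abs_of_nonneg (by omega)] at h
    exact h
  · have e := S.d_shift D w 0 (i - j) j
    rw [zero_add, sub_add_cancel] at e
    rw [M.symm, e]
    apply key
    rw [abs_of_nonneg (by omega)] at h
    exact h

/-- (3.3) -/
lemma pf_near (D : Coned p G V C M S M') (w : C) (i : ℤ) :
    M.d (S.y w i) (S.y w (i + pfw S w)) ≤ 5 * p.P0 := by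
  have hR : p.R = 10 ^ 6 * p.L := rfl
  have hP0 : p.P0 = 5000 * p.R := rfl
  have hL : 0 < p.L := by
    have h1 := p.bgi_δ_le
    have h2 := p.hδ
    omega
  have e := S.d_shift D w 0 (pfw S w) i
  rw [zero_add, add_comm (pfw S w : ℤ) i] at e
  rw [e]
  obtain ⟨m, hm⟩ : ∃ m, pfw S w = m + 1 := ⟨pfw S w - 1, by have := (pfw_spec S w).1; omega⟩
  have h1 := S.step w m
  have h2 := M.tri (S.y w 0) (S.y w m) (S.y w (m + 1))
  rw [hm]
  push_cast
  rcases Nat.eq_zero_or_pos m with h0 | h0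
  · subst h0
    rw [Nat.cast_zero, M.self] at h2
    rw [Nat.cast_zero] at h1 ⊢
    omega
  · have h3 : M.d (S.y w 0) (S.y w m) < 4 * p.P0 + p.L := by
      by_contra hcon
      push Not at hcon
      have := pfw_min S w h0 hcon
      omega
    omega

lemma pfw_le (S : Lines G V C M p) (w : C) : pfw S w ≤ p.P := by
  apply pfw_min S w (by unfold Par.P; omega)
  by_contra hcon
  push Not at hcon
  have h1 := S.far' w (i := 0) (j := (p.P : ℤ)) (B := 4 * p.P0 + p.L) hcon.le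
  have h2 := neg_abs_le ((0 : ℤ) - p.P)
  have h3 : p.P = p.q * (4 * p.P0 + p.L) + 1 := rfl
  omega

lemma pfw_smul (D : Coned p G V C M S M') (g : G) (w : C) : pfw S (g • w) = pfw S w := by
  obtain ⟨j, hj⟩ := S.y_smul g w
  have key : ∀ m : ℤ, M.d (S.y (g • w) 0) (S.y (g • w) m) = M.d (S.y w 0) (S.y w m) := by
    intro m
    have e1 := S.d_shift D (g • w) 0 m j
    rw [← e1, ← hj, ← hj, D.hH.isom]
  apply le_antisymm
  · apply pfw_min S (g • w) (pfw_spec S w).1
    rw [key]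
    exact (pfw_spec S w).2
  · apply pfw_min S w (pfw_spec S (g • w)).1
    rw [← key]
    exact (pfw_spec S (g • w)).2

/-- equivariance of the angle -/
lemma th_smul (D : Coned p G V C M S M') (g : G) (w : C) {j : ℤ}
    (hj : ∀ i, g • S.y w i = S.y (g • w) (i + j)) {z : V ⊕ C} (hz : z ≠ Sum.inr w) :
    th S M' (g • w) (g • z) = th S M' w z + j := by
  have hz' : g • z ≠ Sum.inr (g • w) := by
    intro h
    apply hz
    have h1 := congrArg (fun u => g⁻¹ • u) h
    simp only [inv_smul_smul] at h1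
    rw [h1, Sum.smul_inr, inv_smul_smul]
  obtain ⟨h1, h2⟩ := D.th_mem w hz
  obtain ⟨h3, h4⟩ := D.th_mem (g • w) hz'
  apply le_antisymm
  · exact csInf_le h4 ((firstI_smul D g w hj z _).mpr h1)
  · have h5 : th S M' (g • w) (g • z) - j ∈ firstI S M' w z := by
      rw [← firstI_smul D g w hj, sub_add_cancel]
      exact h3
    have h6 : th S M' w z ≤ th S M' (g • w) (g • z) - j := csInf_le h2 h5
    omega

/-- if `w` does not separate `x` and `y`, some geodesic avoids `w` -/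
lemma exists_avoid {W : Type} {M' : GMet W} {w x y : W} (hxw : x ≠ w)
    (h : ¬ M'.Sep w x y) :
    ∃ (m : ℕ) (α : ℕ → W), M'.Geo x y m α ∧ ∀ t ≤ m, α t ≠ w := by
  by_cases h1 : w ∈ M'.I x y
  · have h2 : ∃ z ∈ M'.I x y, M'.d x z = M'.d x w ∧ z ≠ w := by
      by_contra hcon
      push Not at hcon
      exact h ⟨h1, hcon⟩
    obtain ⟨z, hz, hzd, hzw⟩ := h2
    obtain ⟨α, hα, hαz⟩ := GMet.exists_geo_through hz
    refine ⟨_, α, hα, fun t ht he => ?_⟩
    have h3 := (hα.mem_I ht).2.1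
    rw [he] at h3
    rw [hzd, h3, he] at hαz
    exact hzw hαz.symm
  · obtain ⟨α, hα⟩ := GMet.exists_geo M' x y
    refine ⟨_, α, hα, fun t ht he => h1 ?_⟩
    have h3 := (hα.mem_I ht).1
    rw [he] at h3
    exact h3

lemma A1' (D : Coned p G V C M S M') {w : C} {x y : V ⊕ C} (hx : x ≠ Sum.inr w)
    (hy : y ≠ Sum.inr w) (h : (pfw S w : ℤ) ≤ |th S M' w y - th S M' w x|) :
    M'.Sep (Sum.inr w) x y := by
  by_contra hcon
  obtain ⟨m, α, hα, hw⟩ := exists_avoid hx hcon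
  obtain ⟨a, ha, hia⟩ := (D.th_mem w hx).1
  obtain ⟨b, hb, hib⟩ := (D.th_mem w hy).1
  have h1 := D.three hx hy ha hb hα hw hia hib
  have h2 := D.pf_far w _ _ (by rw [abs_sub_comm] at h; exact h)
  omega

lemma A2' {w : C} {u y : V ⊕ C} (hu : u ≠ Sum.inr w)
    (h : M'.Sep u (Sum.inr w) y) : th S M' w y = th S M' w u := by
  have key : firstV M' w y = firstV M' w u := by
    ext x
    constructor
    · rintro ⟨h1, h2⟩
      refine ⟨h1, ?_⟩
      have h3 : M'.d (Sum.inr w) u ≠ 0 := fun h => hu (M'.eq_of _ _ h).symm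
      exact (h.left h2 (by omega)).1
    · rintro ⟨h1, h2⟩
      refine ⟨h1, ?_⟩
      have h3 := h.1
      rw [GMet.mem_I] at h2 h3 ⊢
      have t1 := M'.tri (Sum.inl x) u y
      have t2 := M'.tri (Sum.inr w) (Sum.inl x) y
      omega
  unfold th firstI
  rw [key]

/-- **the rotation structure**.
(A1): if some geodesic from `x` to `y` avoids `w`, `three` and `pf_far` (with the nearest indices
`th w x`, `th w y`).  If `w` does not separate `x`, `y` such a geodesic exists.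
(A2): if all geodesics from `w` to `y` pass through `u` then `firstV w y = firstV w u`.
`θ_ρ`, `θ_smul`: equivariance of `firstI` and of the infimum. -/
theorem exists_rot (D : Coned p G V C M S M') {n : V ⊕ C → ℕ}
    (h1 : ∀ w, Odd (n (Sum.inr w))) (h2 : ∀ w, 1000 * p.P ≤ n (Sum.inr w))
    (h3 : ∀ (g : G) w, n (Sum.inr (g • w)) = n (Sum.inr w)) :
    ∃ A : Rot G (V ⊕ C) M' n p.P, A.C = Set.range Sum.inr ∧
      (∀ w, A.ρ (Sum.inr w) = S.ρ w) ∧ (∀ w, A.pf (Sum.inr w) = pfw S w) ∧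
      (∀ w z, A.θ (Sum.inr w) z = th S M' w z) := by
  have hR : p.R = 10 ^ 6 * p.L := rfl
  have hne : ∀ (w : C) (x : V ⊕ C), x ≠ Sum.inr w → True := fun _ _ _ => trivial
  let θ : V ⊕ C → V ⊕ C → ℤ := fun a z => match a with
    | Sum.inl _ => 0
    | Sum.inr w => th S M' w z
  let ρ : V ⊕ C → G := fun a => match a with
    | Sum.inl _ => 1
    | Sum.inr w => S.ρ w
  let pf : V ⊕ C → ℕ := fun a => match a with
    | Sum.inl _ => 1
    | Sum.inr w => pfw S w
  refine ⟨{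
    C := Set.range Sum.inr
    θ := θ
    ρ := ρ
    pf := pf
    isom := D.isom
    C_smul := ?_
    θ_smul := ?_
    ρ_smul := ?_
    ρ_fix := ?_
    θ_ρ := ?_
    stab := ?_
    nonadj := ?_
    nbr := ?_
    pf_smul := ?_
    pf_pos := ?_
    pf_le := ?_
    n_smul := ?_
    n_odd := ?_
    n_big := ?_
    P_pos := ?_
    A1 := ?_
    A2 := ?_ }, rfl, fun w => rfl, fun w => rfl, fun w z => rfl⟩
  · rintro g _ ⟨w, rfl⟩
    exact ⟨g • w, rfl⟩
  · rintro g _ x y ⟨w, rfl⟩ hx hy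
    obtain ⟨j, hj⟩ := S.y_smul g w
    have e1 := D.th_smul g w hj hx
    have e2 := D.th_smul g w hj hy
    show th S M' (g • w) (g • y) - th S M' (g • w) (g • x) = th S M' w y - th S M' w x
    rw [e1, e2]
    ring
  · rintro g _ ⟨w, rfl⟩
    exact S.ρ_smul g w
  · rintro _ ⟨w, rfl⟩
    show Sum.inr (S.ρ w • w) = (Sum.inr w : V ⊕ C)
    rw [S.ρ_fix]
  · rintro _ ⟨w, rfl⟩ x hx
    have hj : ∀ i, S.ρ w • S.y w i = S.y (S.ρ w • w) (i + 1) := by
      intro i
      rw [S.ρ_fix, S.y_ρ]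
    have e1 := D.th_smul (S.ρ w) w hj hx
    rw [S.ρ_fix] at e1
    exact e1
  · rintro _ ⟨w, rfl⟩ g hg
    exact S.stab w g (Sum.inr_injective hg)
  · rintro _ ⟨w, rfl⟩ _ ⟨w', rfl⟩ h
    rw [D.adj] at h
    exact h.elim
  · rintro _ ⟨w, rfl⟩
    refine ⟨Sum.inl (S.y w 0), ?_⟩
    rw [D.adj]
    exact ⟨0, by rw [M.self]; omega⟩
  · rintro g _ ⟨w, rfl⟩
    exact D.pfw_smul g w
  · rintro _ ⟨w, rfl⟩
    exact (pfw_spec S w).1
  · rintro _ ⟨w, rfl⟩
    exact pfw_le S w
  · rintro g _ ⟨w, rfl⟩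
    exact h3 g w
  · rintro _ ⟨w, rfl⟩
    exact h1 w
  · rintro _ ⟨w, rfl⟩
    exact h2 w
  · unfold Par.P
    omega
  · rintro _ ⟨w, rfl⟩ x y hx hy h
    exact D.A1' hx hy h
  · rintro _ ⟨w, rfl⟩ u y hu hy h
    exact A2' hu h

end Coned

end Pool.Agent.Helper85.Burn
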