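import Pool.Agent.Helper85.Burn.Basic

/-!
Module CYCALL: from displacement `κ` to arbitrary displacement.
-/

set_option autoImplicit false

namespace Pool.Agent.Helper85.Burn

variable {G V : Type} [Group G] [MulAction G V] {M : GMet V} {p : Par}

/-- window: `x'`, `y'` on a geodesic from `x` to `y`, at distance `A` from the ends -/
def Win (M : GMet V) (x y x' y' : V) (A : ℕ) : Prop :=
  x' ∈ M.I x y ∧ y' ∈ M.I x' y ∧ M.d x x' = A ∧ M.d y' y = A

lemma exists_win (M : GMet V) (x y : V) (A : ℕ) (h : 2 * A ≤ M.d x y) :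
    ∃ x' y', Win M x y x' y' A := by
  obtain ⟨x', hx', hd⟩ := GMet.geod_I (M := M) x y A (by omega)
  have hx'' := hx'
  rw [GMet.mem_I] at hx''
  obtain ⟨y', hy', hd'⟩ := GMet.geod_I (M := M) x' y (M.d x' y - A) (by omega)
  have hy'' := hy'
  rw [GMet.mem_I] at hy''
  exact ⟨x', y', hx', hy', hd, by omega⟩

/-- Facts about windows. -/
lemma Win.facts {x y x' y' : V} {A : ℕ} (h : Win M x y x' y' A) :
    M.d x x' = A ∧ M.d y' y = A ∧ M.d x x' + M.d x' y' + M.d y' y = M.d x y ∧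
    M.d x x' + M.d x' y = M.d x y ∧ M.d x y' + M.d y' y = M.d x y := by
  obtain ⟨h1, h2, h3, h4⟩ := h
  rw [GMet.mem_I] at h1 h2
  have := M.tri x x' y'
  have := M.tri x y' y
  refine ⟨h3, h4, by omega, by omega, by omega⟩

/-- `g` has shift `τ` with respect to the window `x, y`, at depth `≥ A`, error `e`. -/
def HS (M : GMet V) (x y : V) (g : G) (A : ℕ) (τ : ℤ) (e : ℕ) : Prop :=
  ∀ (u : V) (ν : ℕ), M.d x u + M.d u y ≤ M.d x y + ν → A + ν ≤ M.d x u → A + ν ≤ M.d u y →
    M.d x (g • u) + M.d (g • u) y ≤ M.d x y + (2 * ν + e) ∧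
    |(M.d x (g • u) : ℤ) - M.d x u - τ| ≤ 4 * ν + e ∧
    (M.d u (g • u) : ℤ) ≤ |τ| + 5 * ν + e ∧ |τ| ≤ M.d u (g • u) + 2 * ν + e

lemma HS.mono {x y : V} {g : G} {A A' : ℕ} {τ : ℤ} {e e' : ℕ} (h : HS M x y g A τ e)
    (hA : A ≤ A') (he : e ≤ e') : HS M x y g A' τ e' := by
  intro u ν h1 h2 h3
  obtain ⟨a, b, c, d⟩ := h u ν h1 (by omega) (by omega)
  refine ⟨by omega, ?_, by omega, by omega⟩
  have : (e : ℤ) ≤ e' := by exact_mod_cast he
  linarith

lemma HS.of_disp {δ : ℕ} (hM : M.Hyp4 δ) (hG : M.Isom G) {x y : V} {g : G} {T : ℕ}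
    (hx : M.d x (g • x) ≤ T) (hy : M.d y (g • y) ≤ T) (hT : T ≤ M.d x y)
    (hT2 : 2 * (T + 2 * δ + 1) ≤ M.d x y) :
    ∃ τ : ℤ, |τ| ≤ T ∧ HS M x y g (T + 2 * δ + 1) τ (12 * δ) := by
  refine ⟨(M.d x (g • y) : ℤ) - M.d x y, ?_, ?_⟩
  · obtain ⟨u, hu, hu'⟩ := GMet.geod_I (M := M) x y (T + 2 * δ + 1) (by omega)
    rw [GMet.mem_I] at hu
    exact (shift hM hG (x := x) (y := y) (u := u) (g := g) (T := T) (ν := 0) rfl hx hy hT
      (by omega) (by omega) (by omega)).2.2.2.2
  · intro u ν h1 h2 h3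
    obtain ⟨a, b, c, d, _⟩ := shift hM hG (x := x) (y := y) (u := u) (g := g) (T := T) (ν := ν) rfl
      hx hy hT h1 (by omega) (by omega)
    refine ⟨by omega, ?_, ?_, ?_⟩
    · refine b.trans ?_
      push_cast
      omega
    · push_cast at c ⊢
      omega
    · push_cast at d ⊢
      omega

/-- excess with respect to a smaller window -/
lemma sub_excess {δ : ℕ} (hM : M.Hyp4 δ) {x y x' y' u : V} {ν : ℕ}
    (hw : M.d x x' + M.d x' y' + M.d y' y = M.d x y)
    (hu : M.d x u + M.d u y ≤ M.d x y + ν) (h1 : M.d x x' + ν ≤ M.d x u)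
    (h2 : M.d y' y + ν ≤ M.d u y) :
    M.d x x' + M.d x' u ≤ M.d x u + 2 * δ ∧ M.d y' y + M.d u y' ≤ M.d u y + 2 * δ ∧
    M.d x' u + M.d u y' ≤ M.d x' y' + (ν + 4 * δ) := by
  have t1 := M.tri x x' y'
  have t2 := M.tri x y' y
  have t3 := M.tri x' y' y
  have t4 := M.tri x x' y
  have e1 : M.d x x' + M.d x' y = M.d x y := by omega
  have e2 : M.d x y' + M.d y' y = M.d x y := by omega
  have a1 := hM x y u x'
  have a2 := hM x y u y'
  rw [M.symm u x', M.symm y x'] at a1
  rw [M.symm y y', M.symm y u] at a2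
  rcases le_total (M.d x u + M.d x' y) (M.d x x' + M.d y u) with h | h
  · rw [max_eq_right h] at a1
    rw [M.symm y u] at a1
    rcases le_total (M.d x u + M.d y' y) (M.d x y' + M.d u y) with h' | h'
    · rw [max_eq_right h'] at a2
      refine ⟨by omega, by omega, by omega⟩
    · rw [max_eq_left h'] at a2
      refine ⟨by omega, by omega, by omega⟩
  · rw [max_eq_left h] at a1
    rcases le_total (M.d x u + M.d y' y) (M.d x y' + M.d u y) with h' | h'
    · rw [max_eq_right h'] at a2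
      refine ⟨by omega, by omega, by omega⟩
    · rw [max_eq_left h'] at a2
      refine ⟨by omega, by omega, by omega⟩

lemma HS.of_sub {δ : ℕ} (hM : M.Hyp4 δ) (hG : M.Isom G) {x y x' y' : V} {g : G} {T A : ℕ}
    (hw : M.d x x' + M.d x' y' + M.d y' y = M.d x y) (hA1 : M.d x x' ≤ A) (hA2 : M.d y' y ≤ A)
    (hx : M.d x' (g • x') ≤ T) (hy : M.d y' (g • y') ≤ T) (hT : T ≤ M.d x' y')
    (hT2 : 2 * (T + 2 * δ + 1) ≤ M.d x' y') :
    ∃ τ : ℤ, |τ| ≤ T ∧ HS M x y g (A + T + 6 * δ + 1) τ (32 * δ) := by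
  refine ⟨(M.d x' (g • y') : ℤ) - M.d x' y', ?_, ?_⟩
  · obtain ⟨u, hu, hu'⟩ := GMet.geod_I (M := M) x' y' (T + 2 * δ + 1) (by omega)
    rw [GMet.mem_I] at hu
    exact (shift hM hG (x := x') (y := y') (u := u) (g := g) (T := T) (ν := 0) rfl hx hy hT
      (by omega) (by omega) (by omega)).2.2.2.2
  intro u ν hu hxu huy
  obtain ⟨a1, a2, a3⟩ := sub_excess hM hw hu (by omega) (by omega)
  have t1 := M.tri x x' u
  have t2 := M.tri u y' y
  obtain ⟨b1, b2, b3, b4, _⟩ := shift hM hG (x := x') (y := y') (u := u) (g := g) (T := T)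
    (ν := ν + 4 * δ) rfl hx hy hT a3 (by omega) (by omega)
  generalize (M.d x' (g • y') : ℤ) - M.d x' y' = τ at *
  have t3 := M.tri x x' (g • u)
  have t4 := M.tri (g • u) y' y
  have t5 := M.tri x (g • u) y
  rw [abs_le] at b2
  push_cast at b2 b3 b4
  obtain ⟨b21, b22⟩ := b2
  refine ⟨by omega, ?_, ?_, ?_⟩
  · rw [abs_le]
    push_cast
    constructor <;> omega
  · push_cast
    omega
  · push_cast
    omega

/-- two applications -/
lemma HS.two {δ : ℕ} (hM : M.Hyp4 δ) {x y : V} {g g' : G} {A e : ℕ} {τ τ' : ℤ}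
    (h : HS M x y g A τ e) (h' : HS M x y g' A τ' e) {u : V}
    (hu : u ∈ M.I x y) (h1 : A + |τ'| + 2 * e ≤ M.d x u) (h2 : A + |τ'| + 2 * e ≤ M.d u y) :
    (M.d u (g • g' • u) : ℤ) ≤ |τ + τ'| + 9 * e + 2 * δ ∧
    |τ + τ'| ≤ M.d u (g • g' • u) + 6 * e := by
  rw [GMet.mem_I] at hu
  have hp := abs_nonneg τ'
  obtain ⟨a1, a2, a3, a4⟩ := h' u 0 (by omega) (by omega) (by omega)
  rw [abs_le] at a2
  have t1 := M.tri u (g' • u) y
  have t2 := M.tri x (g' • u) u
  have t3 := M.tri x (g' • u) y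
  push_cast at a2 a3 a4
  obtain ⟨a21, a22⟩ := a2
  have t5 := neg_abs_le τ'
  obtain ⟨b1, b2, b3, b4⟩ := h (g' • u) e (by omega) (by omega) (by omega)
  rw [abs_le] at b2
  obtain ⟨b21, b22⟩ := b2
  have hh := hM x y u (g • g' • u)
  rw [M.symm y u] at hh
  have t4 := M.tri x (g • g' • u) y
  have t6 := M.tri x u (g • g' • u)
  have t7 := M.tri x (g • g' • u) u
  rw [M.symm (g • g' • u) u] at t7
  rw [M.symm y (g • g' • u)] at hh
  have c1 : |τ + τ'| ≤ M.d u (g • g' • u) + 6 * e := by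
    rw [abs_le]
    constructor <;> omega
  refine ⟨?_, c1⟩
  rcases le_total (M.d x u + M.d (g • g' • u) y) (M.d x (g • g' • u) + M.d u y) with h | h
  · rw [max_eq_right h] at hh
    have := le_abs_self (τ + τ')
    omega
  · rw [max_eq_left h] at hh
    have := neg_abs_le (τ + τ')
    omega

/-- comparison of two elements -/
lemma HS.diff {δ : ℕ} (hM : M.Hyp4 δ) {x y : V} {g g' : G} {A e : ℕ} {τ τ' : ℤ}
    (h : HS M x y g A τ e) (h' : HS M x y g' A τ' e) {u : V}
    (hu : u ∈ M.I x y) (h1 : A ≤ M.d x u) (h2 : A ≤ M.d u y) :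
    (M.d (g • u) (g' • u) : ℤ) ≤ |τ - τ'| + 4 * e + 2 * δ := by
  rw [GMet.mem_I] at hu
  obtain ⟨a1, a2, a3, a4⟩ := h u 0 (by omega) (by omega) (by omega)
  obtain ⟨b1, b2, b3, b4⟩ := h' u 0 (by omega) (by omega) (by omega)
  rw [abs_le] at a2 b2
  push_cast at a2 b2
  obtain ⟨a21, a22⟩ := a2
  obtain ⟨b21, b22⟩ := b2
  have hh := hM x y (g • u) (g' • u)
  rw [M.symm y (g • u), M.symm y (g' • u)] at hh
  rcases le_total (M.d x (g • u) + M.d (g' • u) y) (M.d x (g' • u) + M.d (g • u) y) with h | h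
  · rw [max_eq_right h] at hh
    have := neg_abs_le (τ - τ')
    omega
  · rw [max_eq_left h] at hh
    have := le_abs_self (τ - τ')
    omega

lemma disp_pow (hG : M.Isom G) (u : V) (g : G) (m : ℕ) :
    M.d u (g ^ m • u) ≤ m * M.d u (g • u) := by
  induction m with
  | zero => simp [M.self]
  | succ m ih =>
    have h1 : M.d (g ^ m • u) (g ^ (m + 1) • u) = M.d u (g • u) := by
      rw [pow_succ, mul_smul]
      exact hG _ _ _
    have h2 := M.tri u (g ^ m • u) (g ^ (m + 1) • u)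
    rw [h1] at h2
    calc _ ≤ _ := h2
      _ ≤ m * M.d u (g • u) + M.d u (g • u) := by omega
      _ = (m + 1) * M.d u (g • u) := by ring

/-- powers of an element with a large shift -/
lemma HS.pow {δ : ℕ} (hM : M.Hyp4 δ) (hG : M.Isom G) (hδ : 1 ≤ δ) {x y : V} {g : G} {A : ℕ}
    {τ : ℤ} (h : HS M x y g A τ (32 * δ)) (hτ : 1000 * (δ : ℤ) ≤ |τ|) {u : V}
    (hu : u ∈ M.I x y) (h1 : A + |τ| + 64 * δ ≤ M.d x u) (h2 : A + |τ| + 64 * δ ≤ M.d u y)
    (m : ℕ) : (m : ℤ) * (|τ| - 290 * δ) ≤ M.d u (g ^ m • u) := by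
  have t2 := HS.two hM h h hu (by push_cast; omega) (by push_cast; omega)
  have hu' := hu
  rw [GMet.mem_I] at hu'
  obtain ⟨a1, a2, a3, a4⟩ := h u 0 (by omega) (by omega) (by omega)
  push_cast at a3 a4 t2
  have e2 : |τ + τ| = 2 * |τ| := by
    rw [← two_mul, abs_mul]
    norm_num
  rw [e2] at t2
  have hc := (chain hM hG (x := u) (g := g) (a := 256 * δ) (by
    rw [pow_two, mul_smul]
    omega) (by omega)).1 m
  have hc' : (m : ℤ) * ((M.d u (g • u) - 256 * δ - 2 * δ : ℕ) : ℤ) ≤ M.d u (g ^ m • u) := by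
    exact_mod_cast hc
  refine le_trans ?_ hc'
  apply mul_le_mul_of_nonneg_left _ (by positivity)
  omega

/-- translation to `dich` -/
lemma Hyp.loxo' (hH : Hyp p G V M) {g : G} (hg : Inf g) (x : V) (m : ℕ) :
    m ≤ p.q * M.d x (g ^ m • x) := by
  rcases hH.dich g with ⟨m, hm, h⟩ | h
  · exact absurd h (hg m hm.pos)
  · exact h x m

/-- a power with a good shift -/
lemma good_power (hH : Hyp p G V M) {x y : V} {f : G} {T : ℕ} (hf : Inf f)
    (hx : M.d x (f • x) ≤ T) (hy : M.d y (f • y) ≤ T) (hd : 10 * (T + p.κ) ≤ M.d x y) :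
    ∃ N : ℕ, 0 < N ∧ ∃ τ : ℤ, 10 ^ 6 * (p.δ : ℤ) ≤ |τ| ∧ |τ| ≤ max (T : ℤ) (13 * (10 ^ 6 * p.δ)) ∧
      HS M x y (f ^ N) (T + p.κ) τ (32 * p.δ) := by
  have hδ := p.hδ
  have hq := p.hq
  have hκ := p.hκ
  have hκ1 : 10 ^ 20 * p.δ ≤ p.κ := by
    refine le_trans ?_ hκ
    have : p.δ * 1 ≤ p.δ ^ 2 * p.q := by
      rw [pow_two, mul_assoc]
      apply Nat.mul_le_mul_left
      nlinarith
    nlinarith
  obtain ⟨τ, h1, h2⟩ := HS.of_disp hH.hyp hH.isom hx hy (by omega) (by omega)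
  by_cases hs : 10 ^ 6 * (p.δ : ℤ) ≤ |τ|
  · refine ⟨1, one_pos, τ, hs, le_max_of_le_left h1, ?_⟩
    rw [pow_one]
    exact h2.mono (by omega) (by omega)
  · push Not at hs
    -- the middle point
    obtain ⟨u, hu, hu'⟩ := GMet.geod_I (M := M) x y (3 * (T + p.κ)) (by omega)
    have hu2 := hu
    rw [GMet.mem_I] at hu2
    have hex : ∃ m : ℕ, 10 * (10 ^ 6 * p.δ) ≤ M.d u (f ^ m • u) := by
      refine ⟨10 * (10 ^ 6 * p.δ) * p.q, ?_⟩
      have := Hyp.loxo' hH hf u (10 * (10 ^ 6 * p.δ) * p.q)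
      by_contra hc
      push Not at hc
      have hq0 : 0 < p.q := by omega
      have : p.q * M.d u (f ^ (10 * (10 ^ 6 * p.δ) * p.q) • u) < p.q * (10 * (10 ^ 6 * p.δ)) :=
        Nat.mul_lt_mul_of_pos_left hc hq0
      nlinarith
    classical
    obtain ⟨N, hN, hNmin⟩ : ∃ N : ℕ, 10 * (10 ^ 6 * p.δ) ≤ M.d u (f ^ N • u) ∧
        ∀ k < N, M.d u (f ^ k • u) < 10 * (10 ^ 6 * p.δ) :=
      ⟨Nat.find hex, Nat.find_spec hex, fun k hk => by
        have := Nat.find_min hex hk
        omega⟩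
    have hN0 : 0 < N := by
      rcases Nat.eq_zero_or_pos N with h | h
      · subst h
        simp [M.self] at hN
        omega
      · exact h
    have hNle : N ≤ 10 * (10 ^ 6 * p.δ) * p.q := by
      by_contra hc
      push Not at hc
      have h3 := hNmin _ hc
      have := Hyp.loxo' hH hf u (10 * (10 ^ 6 * p.δ) * p.q)
      have hq0 : 0 < p.q := by omega
      have : p.q * M.d u (f ^ (10 * (10 ^ 6 * p.δ) * p.q) • u) < p.q * (10 * (10 ^ 6 * p.δ)) :=
        Nat.mul_lt_mul_of_pos_left h3 hq0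
      nlinarith
    -- displacement of `f` on deep points
    have hdisp : ∀ v : V, v ∈ M.I x y → T + 2 * p.δ + 1 ≤ M.d x v → T + 2 * p.δ + 1 ≤ M.d v y →
        M.d v (f • v) ≤ 10 ^ 6 * p.δ + 12 * p.δ := by
      intro v hv hv1 hv2
      rw [GMet.mem_I] at hv
      obtain ⟨_, _, c, _⟩ := h2 v 0 (by omega) (by omega) (by omega)
      push_cast at c
      omega
    have hdu := hdisp u hu (by omega) (by omega)
    have hNup : M.d u (f ^ N • u) ≤ 12 * (10 ^ 6 * p.δ) := by
      obtain ⟨k, rfl⟩ : ∃ k, N = k + 1 := ⟨N - 1, by omega⟩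
      have h4 := hNmin k (by omega)
      have h5 : M.d (f ^ k • u) (f ^ (k + 1) • u) = M.d u (f • u) := by
        rw [pow_succ, mul_smul]
        exact hH.isom _ _ _
      have := M.tri u (f ^ k • u) (f ^ (k + 1) • u)
      omega
    -- the window at depth `T + 2δ + 1`
    obtain ⟨x', y', hw⟩ := exists_win M x y (T + 2 * p.δ + 1) (by omega)
    obtain ⟨w1, w2, w3, w4, w5⟩ := hw.facts
    have hx' := hdisp x' (by rw [GMet.mem_I]; omega) (by omega) (by omega)
    have hy' := hdisp y' (by rw [GMet.mem_I]; omega) (by omega) (by omega)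
    have hT' : N * (10 ^ 6 * p.δ + 12 * p.δ) ≤ p.κ / 10 := by
      rw [Nat.le_div_iff_mul_le (by norm_num)]
      refine le_trans ?_ hκ
      calc N * (10 ^ 6 * p.δ + 12 * p.δ) * 10 ≤
          10 * (10 ^ 6 * p.δ) * p.q * (10 ^ 6 * p.δ + 12 * p.δ) * 10 := by gcongr
        _ ≤ 10 ^ 20 * p.δ ^ 2 * p.q := by
          have : 0 ≤ p.δ ^ 2 * p.q := Nat.zero_le _
          nlinarith
    have hfx : M.d x' (f ^ N • x') ≤ p.κ / 10 :=
      (disp_pow hH.isom x' f N).trans ((Nat.mul_le_mul_left _ hx').trans hT')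
    have hfy : M.d y' (f ^ N • y') ≤ p.κ / 10 :=
      (disp_pow hH.isom y' f N).trans ((Nat.mul_le_mul_left _ hy').trans hT')
    obtain ⟨τ', g1, g2⟩ := HS.of_sub hH.hyp hH.isom (A := T + 2 * p.δ + 1) (by omega)
      (by omega) (by omega) hfx hfy (by omega) (by omega)
    obtain ⟨_, _, c, d⟩ := g2 u 0 (by omega) (by omega) (by omega)
    push_cast at c d
    refine ⟨N, hN0, τ', by omega, ?_, g2.mono (by omega) le_rfl⟩
    apply le_max_of_le_right
    omega

/-- a multiple `i t` in `[r, r + t)` -/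
lemma exists_mult (r t : ℕ) (ht : 0 < t) (hr : 0 < r) :
    ∃ i : ℕ, 0 < i ∧ r ≤ i * t ∧ i * t < r + t ∧ (i = 1 ∨ t < r) := by
  classical
  have hex : ∃ i : ℕ, r ≤ i * t := ⟨r, Nat.le_mul_of_pos_right r ht⟩
  obtain ⟨i, hi, hmin⟩ : ∃ i : ℕ, r ≤ i * t ∧ ∀ k < i, k * t < r :=
    ⟨Nat.find hex, Nat.find_spec hex, fun k hk => by
      have := Nat.find_min hex hk
      omega⟩
  have h0 : 0 < i := by
    rcases Nat.eq_zero_or_pos i with h | h
    · subst h
      omega
    · exact h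
  obtain ⟨k, rfl⟩ : ∃ k, i = k + 1 := ⟨i - 1, by omega⟩
  have h1 := hmin k (by omega)
  refine ⟨k + 1, h0, hi, ?_, ?_⟩
  · rw [add_mul, one_mul]
    omega
  · rcases Nat.eq_zero_or_pos k with h | h
    · left
      omega
    · right
      have := Nat.le_mul_of_pos_left t h
      omega

/-- (LS) powers with large shift. -/
theorem large_shift (hH : Hyp p G V M) {x y : V} {f : G} {T B : ℕ} (hf : Inf f)
    (hx : M.d x (f • x) ≤ T) (hy : M.d y (f • y) ≤ T) (hκ : p.κ ≤ B)
    (hd : 100 * (T + B) ≤ M.d x y) :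
    ∃ i : ℕ, 0 < i ∧
      (∀ u ∈ M.I x y, 10 * (T + p.κ) ≤ M.d x u → 10 * (T + p.κ) ≤ M.d u y →
        M.d u (f ^ i • u) ≤ 2 * (T + B)) ∧
      (∀ u ∈ M.I x y, 20 * (T + B) ≤ M.d x u → 20 * (T + B) ≤ M.d u y →
        B ≤ M.d u (f ^ i • u)) := by
  have hδ := p.hδ
  have hq := p.hq
  have hκ1 : 10 ^ 20 * p.δ ≤ p.κ := by
    refine le_trans ?_ p.hκ
    have : p.δ * 1 ≤ p.δ ^ 2 * p.q := by
      rw [pow_two, mul_assoc]
      apply Nat.mul_le_mul_left
      nlinarith
    nlinarith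
  obtain ⟨N, hN, τ, h1, h2, h3⟩ := good_power hH hf hx hy (by omega)
  obtain ⟨t, ht⟩ : ∃ t : ℕ, (t : ℤ) = |τ| := ⟨τ.natAbs, by simp⟩
  rw [← ht] at h1 h2
  obtain ⟨i, hi0, hi1, hi2, _⟩ := exists_mult (11 * B) (10 * t) (by omega) (by omega)
  have eP : i * (10 * t) = 10 * (i * t) := by ring
  rw [eP] at hi1 hi2
  have hPQ : 10 ^ 6 * (i * p.δ) ≤ i * t := by
    have : 10 ^ 6 * p.δ ≤ t := by exact_mod_cast h1
    calc 10 ^ 6 * (i * p.δ) = i * (10 ^ 6 * p.δ) := by ring
      _ ≤ i * t := Nat.mul_le_mul_left _ this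
  refine ⟨N * i, Nat.mul_pos hN hi0, ?_, ?_⟩
  · intro u hu hu1 hu2
    rw [GMet.mem_I] at hu
    obtain ⟨_, _, c, _⟩ := h3 u 0 (by omega) (by omega) (by omega)
    push_cast at c
    rw [← ht] at c
    have c' : M.d u (f ^ N • u) ≤ t + 32 * p.δ := by
      have : (M.d u (f ^ N • u) : ℤ) ≤ t + 32 * p.δ := by linarith
      exact_mod_cast this
    rw [pow_mul]
    refine (disp_pow hH.isom u (f ^ N) i).trans ((Nat.mul_le_mul_left _ c').trans ?_)
    rw [mul_add]
    have : i * (32 * p.δ) = 32 * (i * p.δ) := by ring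
    rw [this]
    rcases le_max_iff.mp h2 with h | h
    · omega
    · omega
  · intro u hu hu1 hu2
    have htB : (t : ℤ) ≤ T + B := by
      rcases le_max_iff.mp h2 with h | h
      · omega
      · omega
    have hc := HS.pow hH.hyp hH.isom (by omega) h3 (by rw [← ht]; omega) hu
      (by rw [← ht]; push_cast; omega) (by rw [← ht]; push_cast; omega) i
    rw [pow_mul]
    rw [← ht] at hc
    have e3 : (i : ℤ) * (t - 290 * p.δ) = (i * t : ℕ) - 290 * (i * p.δ : ℕ) := by
      push_cast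
      ring
    rw [e3] at hc
    omega

lemma Inf.zpow {b : G} (hb : Inf b) {k : ℤ} (hk : k ≠ 0) : b ^ k ≠ 1 := by
  intro h
  have h2 : b ^ (k.natAbs) = 1 := by
    rcases Int.natAbs_eq k with h' | h'
    · rw [h'] at h
      rw [zpow_natCast] at h
      exact h
    · rw [h'] at h
      rw [zpow_neg, inv_eq_one, zpow_natCast] at h
      exact h
  exact hb k.natAbs (by omega) h2

lemma Inf.of_zpow {b : G} (hb : Inf b) {k : ℤ} (hk : k ≠ 0) : Inf (b ^ k) := by
  intro m hm h
  rw [← zpow_natCast, ← zpow_mul] at h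
  exact hb.zpow (mul_ne_zero hk (by omega)) h

/-- **Theorem 3.1.**  For every `T`, the elements which move two points at distance
`≥ 1000 T + Δ` by at most `T` lie in a cyclic group. -/
theorem cyc_all (hH : Hyp p G V M) (T : ℕ) (x y : V) (hd : 1000 * T + p.Δ ≤ M.d x y) :
    ∃ b : G, (b = 1 ∨ Inf b) ∧
      ∀ g : G, M.d x (g • x) ≤ T → M.d y (g • y) ≤ T → g ∈ Subgroup.zpowers b := by
  induction T using Nat.strong_induction_on generalizing x y with
  | _ T ih =>
  by_cases hTκ : T ≤ p.κ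
  · obtain ⟨b, hb, h⟩ := hH.cyc x y (by omega)
    exact ⟨b, hb, fun g h1 h2 => h g (h1.trans hTκ) (h2.trans hTκ)⟩
  push Not at hTκ
  have hM := hH.hyp
  have hG := hH.isom
  have hδ := p.hδ
  have hq := p.hq
  have hκ1 : 10 ^ 20 * p.δ ≤ p.κ := by
    refine le_trans ?_ p.hκ
    have : p.δ * 1 ≤ p.δ ^ 2 * p.q := by
      rw [pow_two, mul_assoc]
      apply Nat.mul_le_mul_left
      nlinarith
    nlinarith
  obtain ⟨x₂, y₂, hw2⟩ := exists_win M x y (10 * T) (by omega)
  obtain ⟨p1, p2, p3, p4, p5⟩ := hw2.facts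
  obtain ⟨x₃, y₃, hw3⟩ := exists_win M x y (60 * T) (by omega)
  obtain ⟨r1, r2, r3, r4, r5⟩ := hw3.facts
  have hx2I : x₂ ∈ M.I x y := by rw [GMet.mem_I]; omega
  have hy2I : y₂ ∈ M.I x y := by rw [GMet.mem_I]; omega
  have hx3I : x₃ ∈ M.I x y := by rw [GMet.mem_I]; omega
  have hy3I : y₃ ∈ M.I x y := by rw [GMet.mem_I]; omega
  obtain ⟨b, hb, hbS⟩ := ih (3 * T / 4) (by omega) x₃ y₃ (by omega)
  -- shifts
  have hshift : ∀ g : G, M.d x (g • x) ≤ T → M.d y (g • y) ≤ T →
      ∃ τ : ℤ, |τ| ≤ T ∧ HS M x y g (2 * T) τ (32 * p.δ) := by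
    intro g h1 h2
    obtain ⟨τ, a1, a2⟩ := HS.of_disp hM hG h1 h2 (by omega) (by omega)
    exact ⟨τ, a1, a2.mono (by omega) (by omega)⟩
  by_cases htriv : ∀ g : G, M.d x₂ (g • x₂) ≤ 7 * T / 10 → M.d y₂ (g • y₂) ≤ 7 * T / 10 → g = 1
  · -- case (i)
    by_cases hall : ∀ g : G, M.d x (g • x) ≤ T → M.d y (g • y) ≤ T → g = 1
    · exact ⟨1, Or.inl rfl, fun g h1 h2 => by rw [hall g h1 h2]; exact one_mem _⟩
    push Not at hall
    obtain ⟨g, hg1, hg2, hg3⟩ := hall
    have hlow : ∀ (g : G) (τ : ℤ), g ≠ 1 → HS M x y g (2 * T) τ (32 * p.δ) →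
        ((7 * T / 10 : ℕ) : ℤ) - 32 * p.δ < |τ| := by
      intro g τ hg hs
      by_contra hc
      push Not at hc
      obtain ⟨_, _, c, _⟩ := hs x₂ 0 (by omega) (by omega) (by omega)
      obtain ⟨_, _, c', _⟩ := hs y₂ 0 (by omega) (by omega) (by omega)
      push_cast at c c'
      exact hg (htriv g (by omega) (by omega))
    obtain ⟨τ, hτ1, hτ2⟩ := hshift g hg1 hg2
    have hτ3 := hlow g τ hg3 hτ2
    have hInf : Inf g := by
      intro m hm h
      have hc := HS.pow hM hG (by omega) hτ2 (by omega) hx3I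
        (by push_cast; omega) (by push_cast; omega) m
      rw [h, one_smul, M.self] at hc
      have h5 : 0 < |τ| - 290 * p.δ := by omega
      have h6 : 0 < (m : ℤ) := by exact_mod_cast hm
      have := mul_pos h6 h5
      push_cast at hc
      omega
    refine ⟨g, Or.inr hInf, ?_⟩
    intro g' hg1' hg2'
    by_cases hg3' : g' = 1
    · rw [hg3']
      exact one_mem _
    obtain ⟨τ', hτ1', hτ2'⟩ := hshift g' hg1' hg2'
    have hτ3' := hlow g' τ' hg3' hτ2'
    have same : |τ - τ'| ≤ 4 * T / 10 → g' ∈ Subgroup.zpowers g := by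
      intro hle
      have k1 := HS.diff hM hτ2 hτ2' hx2I (by omega) (by omega)
      have k2 := HS.diff hM hτ2 hτ2' hy2I (by omega) (by omega)
      have := htriv (g⁻¹ * g') (by
        rw [← hG g, mul_smul, smul_inv_smul]
        push_cast at k1
        omega) (by
        rw [← hG g, mul_smul, smul_inv_smul]
        push_cast at k2
        omega)
      have e : g' = g := by
        rw [inv_mul_eq_one] at this
        exact this.symm
      rw [e]
      exact Subgroup.mem_zpowers g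
    have opp : |τ + τ'| ≤ 4 * T / 10 → g' ∈ Subgroup.zpowers g := by
      intro hle
      have k1 := (HS.two hM hτ2 hτ2' hx2I (by push_cast; omega) (by push_cast; omega)).1
      have k2 := (HS.two hM hτ2 hτ2' hy2I (by push_cast; omega) (by push_cast; omega)).1
      have := htriv (g * g') (by
        rw [mul_smul]
        push_cast at k1
        omega) (by
        rw [mul_smul]
        push_cast at k2
        omega)
      have e : g' = g⁻¹ := by
        rw [mul_eq_one_iff_inv_eq] at this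
        exact this.symm
      rw [e]
      exact inv_mem (Subgroup.mem_zpowers g)
    rcases abs_cases τ with ⟨c1, c2⟩ | ⟨c1, c2⟩ <;> rcases abs_cases τ' with ⟨c3, c4⟩ | ⟨c3, c4⟩
    · apply same
      rw [abs_le]
      constructor <;> omega
    · apply opp
      rw [abs_le]
      constructor <;> omega
    · apply opp
      rw [abs_le]
      constructor <;> omega
    · apply same
      rw [abs_le]
      constructor <;> omega
  · -- case (ii)
    push Not at htriv
    obtain ⟨f, hf1, hf2, hf3⟩ := htriv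
    obtain ⟨τf, q1, q2⟩ := HS.of_sub hM hG (A := 10 * T) (by omega) (by omega) (by omega) hf1 hf2
      (by omega) (by omega)
    have hfb : f ∈ Subgroup.zpowers b := by
      obtain ⟨_, _, c, _⟩ := q2 x₃ 0 (by omega) (by omega) (by omega)
      obtain ⟨_, _, c', _⟩ := q2 y₃ 0 (by omega) (by omega) (by omega)
      push_cast at c c'
      exact hbS f (by omega) (by omega)
    have hfInf : Inf f := by
      obtain ⟨k, hk⟩ := Subgroup.mem_zpowers_iff.mp hfb
      have hk0 : k ≠ 0 := by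
        rintro rfl
        apply hf3
        rw [← hk, zpow_zero]
      rcases hb with hb | hb
      · exfalso
        apply hf3
        rw [← hk, hb, one_zpow]
      · rw [← hk]
        exact hb.of_zpow hk0
    obtain ⟨N, hN, τ, h1, h2, h3⟩ := good_power hH hfInf hf1 hf2 (by omega)
    obtain ⟨t, ht⟩ : ∃ t : ℕ, (t : ℤ) = |τ| := ⟨τ.natAbs, by simp⟩
    rw [← ht] at h1 h2
    have h2' : t ≤ 7 * T / 10 := by
      rcases le_max_iff.mp h2 with h | h
      · exact_mod_cast h
      · omega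
    obtain ⟨i, hi0, hi1, hi2, hi3⟩ := exists_mult (35 * T) (100 * t) (by omega) (by omega)
    have eP : i * (100 * t) = 100 * (i * t) := by ring
    rw [eP] at hi1 hi2
    have hi2' : i * t ≤ 7 * T / 10 := by
      rcases hi3 with h | h
      · rw [h, one_mul]
        exact h2'
      · omega
    have hPQ : 10 ^ 6 * (i * p.δ) ≤ i * t := by
      have : 10 ^ 6 * p.δ ≤ t := by exact_mod_cast h1
      calc 10 ^ 6 * (i * p.δ) = i * (10 ^ 6 * p.δ) := by ring
        _ ≤ i * t := Nat.mul_le_mul_left _ this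
    obtain ⟨h, hh⟩ : ∃ h : G, h = (f ^ N) ^ i := ⟨_, rfl⟩
    have hhb : h ∈ Subgroup.zpowers b := by
      rw [hh]
      exact pow_mem (pow_mem hfb _) _
    -- displacement of `h`
    have hup : ∀ u ∈ M.I x₂ y₂, 7 * T / 10 + p.κ ≤ M.d x₂ u → 7 * T / 10 + p.κ ≤ M.d u y₂ →
        M.d u (h • u) ≤ 71 * T / 100 := by
      intro u hu hu1 hu2
      rw [GMet.mem_I] at hu
      obtain ⟨_, _, c, _⟩ := h3 u 0 (by omega) (by omega) (by omega)
      push_cast at c
      rw [← ht] at c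
      have c' : M.d u (f ^ N • u) ≤ t + 32 * p.δ := by
        have : (M.d u (f ^ N • u) : ℤ) ≤ t + 32 * p.δ := by linarith
        exact_mod_cast this
      rw [hh]
      refine (disp_pow hG u (f ^ N) i).trans ((Nat.mul_le_mul_left _ c').trans ?_)
      rw [mul_add]
      have : i * (32 * p.δ) = 32 * (i * p.δ) := by ring
      rw [this]
      omega
    have hlo : ∀ u ∈ M.I x₂ y₂, 3 * T ≤ M.d x₂ u → 3 * T ≤ M.d u y₂ →
        34 * T / 100 + 100 * p.δ ≤ M.d u (h • u) := by
      intro u hu hu1 hu2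
      have hc := HS.pow hM hG (by omega) h3 (by rw [← ht]; omega) hu
        (by rw [← ht]; push_cast; omega) (by rw [← ht]; push_cast; omega) i
      rw [← hh, ← ht] at hc
      have e3 : (i : ℤ) * (t - 290 * p.δ) = (i * t : ℕ) - 290 * (i * p.δ : ℕ) := by
        push_cast
        ring
      rw [e3] at hc
      omega
    -- the window at depth `15 T`
    obtain ⟨x', y', hw'⟩ := exists_win M x₂ y₂ (5 * T) (by omega)
    obtain ⟨s1, s2, s3, s4, s5⟩ := hw'.facts
    have tt1 := M.tri x x₂ x'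
    have tt2 := M.tri y' y₂ y
    have tt3 := M.tri x x' y'
    have tt4 := M.tri x y' y
    obtain ⟨τs, v1, v2⟩ := HS.of_sub hM hG (x := x) (y := y) (x' := x') (y' := y') (g := h)
      (T := 71 * T / 100) (A := 15 * T) (by omega) (by omega) (by omega)
      (hup x' (by rw [GMet.mem_I]; omega) (by omega) (by omega))
      (hup y' (by rw [GMet.mem_I]; omega) (by omega) (by omega)) (by omega) (by omega)
    have v3 : ((34 * T / 100 : ℕ) : ℤ) ≤ |τs| := by
      obtain ⟨u, hu, hu1⟩ := GMet.geod_I (M := M) x₂ y₂ (20 * T) (by omega)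
      have hu2 := hu
      rw [GMet.mem_I] at hu2
      have hl := hlo u hu (by omega) (by omega)
      have tt5 := M.tri x x₂ u
      have tt6 := M.tri u y₂ y
      have tt7 := M.tri x u y
      obtain ⟨_, _, c, _⟩ := v2 u 0 (by omega) (by omega) (by omega)
      push_cast at c
      omega
    refine ⟨b, hb, ?_⟩
    intro g hg1 hg2
    obtain ⟨τg, hτ1, hτ2⟩ := hshift g hg1 hg2
    by_cases hsm : |τg| ≤ ((3 * T / 4 : ℕ) : ℤ) - 32 * p.δ
    · obtain ⟨_, _, c, _⟩ := hτ2 x₃ 0 (by omega) (by omega) (by omega)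
      obtain ⟨_, _, c', _⟩ := hτ2 y₃ 0 (by omega) (by omega) (by omega)
      push_cast at c c'
      exact hbS g (by omega) (by omega)
    push Not at hsm
    have hτ2'' : HS M x y g (17 * T) τg (32 * p.δ) := hτ2.mono (by omega) le_rfl
    have v2' : HS M x y h (17 * T) τs (32 * p.δ) := v2.mono (by omega) le_rfl
    have same : |τg - τs| ≤ 7 * T / 10 → g ∈ Subgroup.zpowers b := by
      intro hle
      have k1 := HS.diff hM hτ2'' v2' hx3I (by omega) (by omega)
      have k2 := HS.diff hM hτ2'' v2' hy3I (by omega) (by omega)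
      have := hbS (g⁻¹ * h) (by
        rw [← hG g, mul_smul, smul_inv_smul]
        push_cast at k1
        omega) (by
        rw [← hG g, mul_smul, smul_inv_smul]
        push_cast at k2
        omega)
      have e : g = h * (g⁻¹ * h)⁻¹ := by group
      rw [e]
      exact mul_mem hhb (inv_mem this)
    have opp : |τg + τs| ≤ 7 * T / 10 → g ∈ Subgroup.zpowers b := by
      intro hle
      have k1 := (HS.two hM hτ2'' v2' hx3I (by push_cast; omega) (by push_cast; omega)).1
      have k2 := (HS.two hM hτ2'' v2' hy3I (by push_cast; omega) (by push_cast; omega)).1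
      have := hbS (g * h) (by
        rw [mul_smul]
        push_cast at k1
        omega) (by
        rw [mul_smul]
        push_cast at k2
        omega)
      have e : g = (g * h) * h⁻¹ := by group
      rw [e]
      exact mul_mem this (inv_mem hhb)
    rcases abs_cases τg with ⟨c1, c2⟩ | ⟨c1, c2⟩ <;> rcases abs_cases τs with ⟨c3, c4⟩ | ⟨c3, c4⟩
    · apply same
      rw [abs_le]
      constructor <;> omega
    · apply opp
      rw [abs_le]
      constructor <;> omega
    · apply opp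
      rw [abs_le]
      constructor <;> omega
    · apply same
      rw [abs_le]
      constructor <;> omega

end Pool.Agent.Helper85.Burn
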