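import Mathlib

/-!
Graded Burnside theorem: basic definitions.

A *graph metric* on a set `V` is an integer valued metric in which every pair of points is joined by
a (discrete) geodesic.  See `Burn.md` in the team store for the paper proof of everything.
-/

set_option autoImplicit false

namespace Pool.Agent.Helper85.Burn

/-- Graph metric. -/
structure GMet (V : Type) where
  d : V → V → ℕ
  self : ∀ x, d x x = 0
  eq_of : ∀ x y, d x y = 0 → x = y
  symm : ∀ x y, d x y = d y x
  tri : ∀ x y z, d x z ≤ d x y + d y z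
  geod : ∀ x y (i : ℕ), i ≤ d x y → ∃ z, d x z = i ∧ d z y = d x y - i

namespace GMet

variable {V : Type} (M : GMet V)

/-- The interval between `x` and `y`: points on geodesics. -/
def I (x y : V) : Set V := {z | M.d x z + M.d z y = M.d x y}

/-- Every geodesic from `x` to `y` passes through `w`. -/
def Sep (w x y : V) : Prop := w ∈ M.I x y ∧ ∀ z ∈ M.I x y, M.d x z = M.d x w → z = w

/-- The four point condition. -/
def Hyp4 (δ : ℕ) : Prop :=
  ∀ x y z w, M.d x y + M.d z w ≤ max (M.d x z + M.d y w) (M.d x w + M.d y z) + 2 * δ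

/-- The group `G` acts by isometries. -/
def Isom (G : Type) [Group G] [MulAction G V] : Prop :=
  ∀ (g : G) x y, M.d (g • x) (g • y) = M.d x y

/-- `α` restricted to `{0,…,m}` is a geodesic from `x` to `y`. -/
def Geo (x y : V) (m : ℕ) (α : ℕ → V) : Prop :=
  α 0 = x ∧ α m = y ∧ M.d x y = m ∧ ∀ i j, i ≤ j → j ≤ m → M.d (α i) (α j) = j - i

end GMet

/-- infinite order -/
def Inf {G : Type} [Group G] (b : G) : Prop := ∀ m : ℕ, 0 < m → b ^ m ≠ 1

/-- The constants. -/
structure Par where
  δ : ℕ
  q : ℕ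
  κ : ℕ
  Δ : ℕ
  L : ℕ
  hδ : 1000 ≤ δ
  hq : 10 ^ 14 ≤ q
  hκ : 10 ^ 20 * δ ^ 2 * q ≤ κ
  hΔ : κ ^ 5 ≤ Δ
  hL : 1000 * Δ ≤ L

namespace Par
variable (p : Par)
/-- scale of the coarsening -/
def R : ℕ := 10 ^ 6 * p.L
/-- projection constant -/
def P0 : ℕ := 5000 * p.R
/-- bound for the angles -/
def P : ℕ := p.q * (4 * p.P0 + p.L) + 1
end Par

/-- The induction hypothesis: `G` acts by isometries on the hyperbolic graph `V`, every element has
finite odd order or is loxodromic with a uniform lower bound for the translation length, and the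
elements with small displacement at two far points lie in one cyclic group. -/
structure Hyp (p : Par) (G V : Type) [Group G] [MulAction G V] (M : GMet V) : Prop where
  ne : Nonempty V
  isom : M.Isom G
  hyp : M.Hyp4 p.δ
  dich : ∀ g : G, (∃ m : ℕ, Odd m ∧ g ^ m = 1) ∨ (∀ (x : V) (m : ℕ), m ≤ p.q * M.d x (g ^ m • x))
  cyc : ∀ x y : V, p.Δ ≤ M.d x y → ∃ b : G, (b = 1 ∨ Inf b) ∧
    ∀ g : G, M.d x (g • x) ≤ p.κ → M.d y (g • y) ≤ p.κ → g ∈ Subgroup.zpowers b

end Pool.Agent.Helper85.Burn
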