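import Pool.Agent.Helper85.Burn.Basic

/-!
Module GUESS: guessing geodesics.  A family of connected sets `L x y` with thin triangles is close
to the geodesics and the space is hyperbolic.
-/

set_option autoImplicit false

namespace Pool.Agent.Helper85.Burn

/-- a family of guessed geodesics: connected, thin (constant 4), small for short pairs -/
structure Guess {V : Type} (M : GMet V) (L : V → V → Set V) : Prop where
  chain : ∀ x y, ∃ (m : ℕ) (z : ℕ → V), z 0 = x ∧ z m = y ∧ (∀ i ≤ m, z i ∈ L x y) ∧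
    ∀ i < m, M.d (z i) (z (i + 1)) ≤ 1
  thin : ∀ x y z, ∀ p ∈ L x y, ∃ u, (u ∈ L x z ∨ u ∈ L z y) ∧ M.d p u ≤ 4
  short : ∀ x y, M.d x y ≤ 1 → ∀ p ∈ L x y, M.d x p ≤ 4

variable {V : Type} {M : GMet V} {L : V → V → Set V}

/-- bisection: a point of `L x y` is close to every chain of moderate length -/
lemma Guess.bisect (h : Guess M L) (k : ℕ) : ∀ (m : ℕ) (z : ℕ → V), m ≤ 2 ^ k →
    (∀ i < m, M.d (z i) (z (i + 1)) ≤ 1) → ∀ p ∈ L (z 0) (z m), ∃ i ≤ m, M.d p (z i) ≤ 4 * (k + 1) := by
  induction k with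
  | zero =>
    intro m z hm hz p hp
    refine ⟨0, Nat.zero_le _, ?_⟩
    rw [M.symm]
    have hm' : m ≤ 1 := by simpa using hm
    have : M.d (z 0) (z m) ≤ 1 := by
      rcases Nat.le_one_iff_eq_zero_or_eq_one.mp hm' with h0 | h1
      · rw [h0, M.self]; omega
      · rw [h1]; exact hz 0 (by omega)
    simpa using h.short _ _ this p hp
  | succ k ih =>
    intro m z hm hz p hp
    -- split at s = min m (2^k)
    obtain ⟨s, hs1, hs2, hs3⟩ : ∃ s, s ≤ m ∧ s ≤ 2 ^ k ∧ m - s ≤ 2 ^ k := by
      rcases le_total m (2 ^ k) with h1 | h1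
      · exact ⟨m, le_rfl, h1, by omega⟩
      · refine ⟨2 ^ k, h1, le_rfl, ?_⟩
        rw [pow_succ] at hm
        omega
    obtain ⟨u, hu, hpu⟩ := h.thin _ _ (z s) p hp
    rcases hu with hu | hu
    · obtain ⟨i, hi, hd⟩ := ih s z hs2 (fun i hi => hz i (by omega)) u hu
      refine ⟨i, by omega, ?_⟩
      have := M.tri p u (z i)
      omega
    · obtain ⟨i, hi, hd⟩ := ih (m - s) (fun j => z (s + j)) hs3
        (fun i hi => by simpa [add_assoc] using hz (s + i) (by omega)) u
        (by simpa [Nat.add_sub_cancel' hs1] using hu)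
      refine ⟨s + i, by omega, ?_⟩
      have := M.tri p u (z (s + i))
      omega

/-- the radius statement -/
private def Rad (M : GMet V) (L : V → V → Set V) (N r : ℕ) : Prop :=
  ∀ (x y : V) (m : ℕ) (α : ℕ → V), m ≤ N → M.Geo x y m α → ∀ p ∈ L x y, ∃ i ≤ m, M.d p (α i) ≤ r

lemma Geo.step' {x y : V} {m : ℕ} {α : ℕ → V} (h : M.Geo x y m α) {i j : ℕ} (hij : i ≤ j)
    (hj : j ≤ m) : M.d (α i) (α j) = j - i := h.2.2.2 i j hij hj

lemma Guess.rad_exists (h : Guess M L) (N : ℕ) : ∃ r, Rad M L N r := by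
  refine ⟨4 * (N + 1), fun x y m α hm hα p hp => ?_⟩
  apply h.bisect N m α (hm.trans Nat.lt_two_pow_self.le)
  · intro i hi
    rw [Geo.step' hα (Nat.le_succ i) (by omega)]
    omega
  · rwa [hα.1, hα.2.1]

lemma four_mul_le_two_pow (k : ℕ) (hk : 9 ≤ k) : 16 * k + 100 ≤ 2 ^ k := by
  induction k, hk using Nat.le_induction with
  | base => norm_num
  | succ k hk ih => rw [pow_succ]; omega

/-- every point of `L x y` is within 100 of every geodesic -/
theorem Guess.near (h : Guess M L) {x y : V} {m : ℕ} {α : ℕ → V} (hα : M.Geo x y m α) {p : V}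
    (hp : p ∈ L x y) : ∃ i ≤ m, M.d p (α i) ≤ 100 := by
  classical
  have hex := h.rad_exists m
  set r := Nat.find hex with hr
  have hrad : Rad M L m r := Nat.find_spec hex
  by_cases hr100 : r ≤ 100
  · obtain ⟨i, hi, hd⟩ := hrad x y m α le_rfl hα p hp
    exact ⟨i, hi, hd.trans hr100⟩
  exfalso
  push Not at hr100
  have hmin : ¬ Rad M L m (r - 1) := Nat.find_min hex (by omega)
  unfold Rad at hmin
  push Not at hmin
  obtain ⟨x, y, n, β, hn, hβ, p, hp, hfar⟩ := hmin
  obtain ⟨s, hs, hd⟩ := hrad x y n β hn hβ p hp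
  have hfar' : ∀ i ≤ n, r ≤ M.d p (β i) := fun i hi => by
    have := hfar i hi
    omega
  -- the cut points
  set a := s - (2 * r + 9) with ha
  set b := min n (s + (2 * r + 9)) with hb
  have hab : a ≤ b := by omega
  have hbn : b ≤ n := by omega
  have hg1 : M.Geo x (β a) a β := ⟨hβ.1, rfl, by rw [← hβ.1, Geo.step' hβ (Nat.zero_le _) (by omega)]; omega,
    fun i j hij hj => Geo.step' hβ hij (by omega)⟩
  have hg3 : M.Geo (β b) y (n - b) (fun j => β (b + j)) := by
    refine ⟨rfl, by simp only [Nat.add_sub_cancel' hbn]; exact hβ.2.1, ?_, ?_⟩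
    · rw [← hβ.2.1, Geo.step' hβ hbn le_rfl]
    · intro i j hij hj
      rw [Geo.step' hβ (by omega) (by omega)]
      omega
  obtain ⟨u, hu, hpu⟩ := h.thin x y (β a) p hp
  rcases hu with hu | hu
  · -- first part
    by_cases has : 2 * r + 9 ≤ s
    · obtain ⟨i, hi, hui⟩ := hrad x (β a) a β (by omega) hg1 u hu
      have h1 := M.tri p u (β i)
      have h2 := M.tri (β i) p (β s)
      have h3 := Geo.step' hβ (show i ≤ s by omega) hs
      have h4 := M.symm p (β i)
      omega
    · have ha0 : a = 0 := by omega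
      rw [ha0, hβ.1] at hu
      have h1 := h.short x x (by rw [M.self]; omega) u hu
      have h2 := M.tri p u x
      have h3 := hfar' 0 (Nat.zero_le _)
      have h4 := M.symm u x
      rw [hβ.1] at h3
      omega
  · obtain ⟨v, hv, huv⟩ := h.thin (β a) y (β b) u hu
    rcases hv with hv | hv
    · -- middle part
      obtain ⟨i, hi, hvi⟩ := h.bisect (r / 4 - 4) (b - a) (fun j => β (a + j)) (by
          have := four_mul_le_two_pow (r / 4 - 4) (by omega)
          omega) (by
          intro i hi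
          rw [Geo.step' hβ (by omega) (by omega)]
          omega) v (by simpa [Nat.add_sub_cancel' hab] using hv)
      have h1 := M.tri p u (β (a + i))
      have h2 := M.tri u v (β (a + i))
      have h3 := hfar' (a + i) (by omega)
      omega
    · -- last part
      by_cases has : s + (2 * r + 9) ≤ n
      · obtain ⟨i, hi, hui⟩ := hrad (β b) y (n - b) _ (by omega) hg3 v hv
        have h0 := M.tri p u (β (b + i))
        have h1 := M.tri u v (β (b + i))
        have h2 := M.tri (β s) p (β (b + i))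
        have h3 := Geo.step' hβ (show s ≤ b + i by omega) (by omega)
        have h4 := M.symm p (β s)
        omega
      · have hb0 : b = n := by omega
        rw [hb0, hβ.2.1] at hv
        have h1 := h.short y y (by rw [M.self]; omega) v hv
        have h2 := M.tri p u y
        have h2' := M.tri u v y
        have h3 := hfar' n le_rfl
        have h4 := M.symm v y
        rw [hβ.2.1] at h3
        omega

/-- every point of `L x y` is within 100 of the interval -/
theorem Guess.near_I (h : Guess M L) {x y p : V} (hp : p ∈ L x y) :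
    ∃ u ∈ M.I x y, M.d p u ≤ 100 := by
  obtain ⟨α, hα⟩ := M.exists_geo x y
  obtain ⟨i, hi, hd⟩ := h.near hα hp
  exact ⟨α i, (GMet.Geo.mem_I hα hi).1, hd⟩

/-- discrete connectedness: a predicate which holds at 0 and fails at m jumps somewhere -/
lemma exists_jump (P : ℕ → Prop) (m : ℕ) (h0 : P 0) (hm : ¬ P m) : ∃ i < m, P i ∧ ¬ P (i + 1) := by
  by_contra hc
  push Not at hc
  have : ∀ i ≤ m, P i := by
    intro i
    induction i with
    | zero => intro _; exact h0
    | succ i ih => intro hi; exact hc i (by omega) (ih (by omega))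
  exact hm (this m le_rfl)

/-- every point of the interval is within 301 of `L x y` -/
theorem Guess.near' (h : Guess M L) {x y z : V} (hz : z ∈ M.I x y) :
    ∃ p ∈ L x y, M.d z p ≤ 301 := by
  obtain ⟨α, hα, hαz⟩ := GMet.exists_geo_through hz
  obtain ⟨m, c, hc0, hcm, hcL, hc⟩ := h.chain x y
  set D := M.d x y with hD
  set s := M.d x z with hs
  have hsD : s ≤ D := by
    have := GMet.mem_I.mp hz
    omega
  -- P i: c i is within 100 of some α j, j ≤ s
  by_cases hP : ∃ j ≤ s, M.d (c m) (α j) ≤ 100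
  · obtain ⟨j, hj, hd⟩ := hP
    rw [hcm, ← hα.2.1] at hd
    have h1 := Geo.step' hα (show j ≤ D by omega) le_rfl
    rw [M.symm] at hd
    refine ⟨y, ?_, ?_⟩
    · have := hcL m le_rfl
      rwa [hcm] at this
    · rw [← hαz, ← hα.2.1, Geo.step' hα hsD le_rfl]
      omega
  · obtain ⟨i, hi, h1, h2⟩ := exists_jump (fun i => ∃ j ≤ s, M.d (c i) (α j) ≤ 100) m
      ⟨0, Nat.zero_le _, by rw [hc0, hα.1, M.self]; omega⟩ hP
    obtain ⟨j, hj, hd⟩ := h1
    obtain ⟨l, hl, hdl⟩ := h.near hα (hcL (i + 1) (by omega))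
    have hls : s < l := by
      by_contra hcon
      exact h2 ⟨l, by omega, hdl⟩
    refine ⟨c i, hcL i (by omega), ?_⟩
    have e1 := hc i hi
    have e2 := M.tri (α j) (c i) (α l)
    have e3 := M.tri (c i) (c (i + 1)) (α l)
    have e4 := Geo.step' hα (show j ≤ l by omega) (by omega)
    have e5 := M.symm (α j) (c i)
    have e6 := Geo.step' hα (show j ≤ s by omega) hsD
    have e7 := M.tri (α s) (α j) (c i)
    have e8 := M.symm (α s) (α j)
    rw [← hαz]
    omega

/-- thin triangles imply the four point condition -/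
theorem hyp4_of_thin_gen {D : ℕ} (h : ∀ x y z p : V, p ∈ M.I x y →
    ∃ u, (u ∈ M.I x z ∨ u ∈ M.I z y) ∧ M.d p u ≤ D) : M.Hyp4 (2 * D + 1) := by
  intro x y z w
  obtain ⟨α, hα⟩ := M.exists_geo x y
  -- a point of the geodesic close to both other sides
  obtain ⟨p, hpI, ⟨u, hu, hpu⟩, ⟨v, hv, hpv⟩⟩ : ∃ p ∈ M.I x y, (∃ u ∈ M.I x z, M.d p u ≤ D) ∧
      (∃ v ∈ M.I z y, M.d p v ≤ D + 1) := by
    by_cases hP : ∃ u ∈ M.I x z, M.d (α (M.d x y)) u ≤ D
    · refine ⟨α (M.d x y), (GMet.Geo.mem_I hα le_rfl).1, hP, y, GMet.right_mem_I z y, ?_⟩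
      rw [hα.2.1, M.self]; omega
    · obtain ⟨i, hi, h1, h2⟩ := exists_jump (fun i => ∃ u ∈ M.I x z, M.d (α i) u ≤ D) (M.d x y)
        ⟨x, GMet.left_mem_I x z, by rw [hα.1, M.self]; omega⟩ hP
      obtain ⟨v, hv, hd⟩ := h x y z (α (i + 1)) (GMet.Geo.mem_I hα (by omega)).1
      have hv' : v ∈ M.I z y := by
        rcases hv with hv | hv
        · exact absurd ⟨v, hv, hd⟩ h2
        · exact hv
      refine ⟨α i, (GMet.Geo.mem_I hα (by omega)).1, h1, v, hv', ?_⟩
      have e1 := M.tri (α i) (α (i + 1)) v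
      have e2 := Geo.step' hα (show i ≤ i + 1 by omega) (show i + 1 ≤ M.d x y by omega)
      omega
  have hp := GMet.mem_I.mp hpI
  have hu' := GMet.mem_I.mp hu
  have hv' := GMet.mem_I.mp hv
  have t1 := M.tri z p w
  have t2 := M.tri x u p
  have t3 := M.tri p u z
  have t4 := M.tri p v z
  have t5 := M.tri p v y
  have s1 := M.symm p u
  have s2 := M.symm z p
  have s3 := M.symm v z
  have s4 := M.symm z w
  obtain ⟨t, ht, hpt⟩ := h x y w p hpI
  have s5 := M.symm p t
  have s6 := M.symm p w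
  have s7 := M.symm y w
  have s8 := M.symm y z
  have s9 := M.symm z v
  rcases ht with ht | ht
  · have ht' := GMet.mem_I.mp ht
    have r1 := M.tri x t p
    have r2 := M.tri p t w
    have r3 : M.d x p + M.d p w ≤ M.d x w + 2 * D := by
      have r4 := M.tri x t p
      have : M.d x p ≤ M.d x t + D := by omega
      omega
    have r5 : M.d y p + M.d p z ≤ M.d y z + 2 * (D + 1) := by
      have := M.symm y p
      have := M.symm p y
      omega
    have := M.symm p y
    apply le_trans _ (Nat.add_le_add_right (le_max_right _ _) _)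
    omega
  · have ht' := GMet.mem_I.mp ht
    have r1 := M.tri p t w
    have r2 := M.tri p t y
    have r6 := M.symm t w
    have r3 : M.d p w + M.d p y ≤ M.d y w + 2 * D := by omega
    have r5 : M.d x p + M.d p z ≤ M.d x z + 2 * D := by omega
    apply le_trans _ (Nat.add_le_add_right (le_max_left _ _) _)
    omega

/-- thin intervals -/
theorem Guess.thinI (h : Guess M L) {x y p : V} (z : V) (hp : p ∈ M.I x y) :
    ∃ u, (u ∈ M.I x z ∨ u ∈ M.I z y) ∧ M.d p u ≤ 405 := by
  obtain ⟨a, ha, hpa⟩ := h.near' hp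
  obtain ⟨b, hb, hab⟩ := h.thin x y z a ha
  have t1 := M.tri p a b
  rcases hb with hb | hb
  · obtain ⟨u, hu, hbu⟩ := h.near_I hb
    refine ⟨u, Or.inl hu, ?_⟩
    have t2 := M.tri p b u
    omega
  · obtain ⟨u, hu, hbu⟩ := h.near_I hb
    refine ⟨u, Or.inr hu, ?_⟩
    have t2 := M.tri p b u
    omega

/-- thin intervals imply the four point condition -/
theorem hyp4_of_thin {V : Type} {M : GMet V}
    (h : ∀ x y w, ∀ z ∈ M.I x y, ∃ q, (q ∈ M.I x w ∨ q ∈ M.I w y) ∧ M.d z q ≤ 405) :
    M.Hyp4 1000 := by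
  have h1 : M.Hyp4 (2 * 405 + 1) := hyp4_of_thin_gen (fun x y z p hp => h x y z p hp)
  intro x y z w
  have := h1 x y z w
  omega

/-- **Theorem.** hyperbolicity from guessed geodesics -/
theorem Guess.hyp4 {V : Type} {M : GMet V} {L : V → V → Set V} (h : Guess M L) : M.Hyp4 1000 :=
  hyp4_of_thin fun _ _ w _ hz => h.thinI w hz

end Pool.Agent.Helper85.Burn
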