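import Pool.Agent.Helper85.Burn.ConeRot
import Pool.Agent.Helper85.Burn.CRotQuot

/-!
Module H2: the dichotomy (torsion or uniformly loxodromic) for the quotient.
-/

set_option autoImplicit false

namespace Pool.Agent.Helper85.Burn

/-- All data of one step. -/
structure Full (p : Par) (G V C : Type) [Group G] [MulAction G V] [MulAction G C] (M : GMet V)
    (S : Lines G V C M p) (M' : GMet (V ⊕ C)) (n : V ⊕ C → ℕ) where
  D : Coned p G V C M S M'
  A : Rot G (V ⊕ C) M' n p.P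
  hC : A.C = Set.range Sum.inr
  hρ : ∀ w, A.ρ (Sum.inr w) = S.ρ w
  hpf : ∀ w, A.pf (Sum.inr w) = pfw S w
  hθ : ∀ w z, A.θ (Sum.inr w) z = th S M' w z

/-- the stable length argument.  Proof: suppose `m ≥ q D + 1`, `D = d(z, g^m z)`; for all `k`:
`m k ≤ q d(x, g^(mk) x) + c ≤ q (k D + 2 d(x,z)) + c`, so `k ≤ 2 q d(x,z) + c`. -/
lemma stable {Γ W : Type} [Group Γ] [MulAction Γ W] {N : GMet W} (hN : N.Isom Γ) {g : Γ} {x : W}
    {q c : ℕ} (h : ∀ m : ℕ, m ≤ q * N.d x (g ^ m • x) + c) :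
    ∀ (z : W) (m : ℕ), m ≤ q * N.d z (g ^ m • z) := by
  intro z m
  by_contra hcon
  push Not at hcon
  have h1 : ∀ k : ℕ, N.d z (g ^ (m * k) • z) ≤ k * N.d z (g ^ m • z) := by
    intro k
    induction k with
    | zero => simp [N.self]
    | succ k ih =>
      have e : g ^ (m * (k + 1)) • z = g ^ (m * k) • g ^ m • z := by
        rw [← mul_smul, ← pow_add, Nat.mul_succ]
      have t := N.tri z (g ^ (m * k) • z) (g ^ (m * (k + 1)) • z)
      rw [e, hN] at t
      rw [e]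
      have e2 : (k + 1) * N.d z (g ^ m • z) = k * N.d z (g ^ m • z) + N.d z (g ^ m • z) := by ring
      omega
  obtain ⟨D, hD⟩ : ∃ D, N.d z (g ^ m • z) = D := ⟨_, rfl⟩
  rw [hD] at hcon h1
  obtain ⟨k, hk⟩ : ∃ k, k = 2 * (q * N.d x z) + c + 1 := ⟨_, rfl⟩
  have h2 := h (m * k)
  have h3 := h1 k
  have t1 := N.tri x z (g ^ (m * k) • x)
  have t2 := N.tri z (g ^ (m * k) • z) (g ^ (m * k) • x)
  rw [hN, N.symm z x] at t2
  have h4 : N.d x (g ^ (m * k) • x) ≤ 2 * N.d x z + k * D := by omega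
  have h5 : q * N.d x (g ^ (m * k) • x) ≤ q * (2 * N.d x z + k * D) := Nat.mul_le_mul_left _ h4
  have h6 : q * (2 * N.d x z + k * D) = 2 * (q * N.d x z) + (q * D) * k := by ring
  have h7 : (q * D + 1) * k ≤ m * k := Nat.mul_le_mul_right _ hcon
  have h8 : (q * D + 1) * k = (q * D) * k + k := by ring
  omega

namespace Full

variable {p : Par} {G V C : Type} [Group G] [MulAction G V] [MulAction G C] {M : GMet V}
  {S : Lines G V C M p} {M' : GMet (V ⊕ C)} {n : V ⊕ C → ℕ}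

lemma inl_not_mem (F : Full p G V C M S M' n) (x : V) : Sum.inl x ∉ F.A.C := by
  rw [F.hC]
  simp

lemma inr_mem (F : Full p G V C M S M' n) (w : C) : Sum.inr w ∈ F.A.C := by
  rw [F.hC]
  simp

/-- angles and nearest indices.  Proof: `th_near` twice and `Lines.far`. -/
lemma ang_near (F : Full p G V C M S M' n) {w : C} {x y : V} {i j : ℤ}
    (hi : Near M (S.y w) x i) (hj : Near M (S.y w) y j) :
    |F.A.ang (Sum.inr w) (Sum.inl x) (Sum.inl y) - (j - i)| ≤ 2 * p.q * p.P0 := by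
  have h1 := F.D.th_near hi
  have h2 := F.D.th_near hj
  have h3 := S.far' w h1
  have h4 := S.far' w h2
  have e1 := F.hθ w (Sum.inl x)
  have e2 := F.hθ w (Sum.inl y)
  unfold Rot.ang
  rw [e1, e2]
  rw [abs_le] at h3 h4 ⊢
  have e3 : ((p.q * p.P0 : ℕ) : ℤ) = (p.q : ℤ) * p.P0 := by push_cast; ring
  rw [e3] at h3 h4
  have e4 : (2 * (p.q : ℤ) * p.P0) = 2 * ((p.q : ℤ) * p.P0) := by ring
  rw [e4]
  omega

lemma n_big (F : Full p G V C M S M' n) (w : C) :
    4000 * (p.q * p.P0) + 1000 * (p.q * p.L) + 1000 ≤ n (Sum.inr w) := by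
  have h1 := F.A.n_big (Sum.inr w) (F.inr_mem w)
  have h2 : p.P = p.q * (4 * p.P0 + p.L) + 1 := rfl
  have h3 : p.q * (4 * p.P0 + p.L) = 4 * (p.q * p.P0) + p.q * p.L := by ring
  omega

lemma P_le (F : Full p G V C M S M' n) (w : C) : 1000 * F.A.pf (Sum.inr w) ≤ n (Sum.inr w) := by
  have h1 := F.A.n_big (Sum.inr w) (F.inr_mem w)
  have h2 := F.A.pf_le (Sum.inr w) (F.inr_mem w)
  omega

/-- constants -/
lemma _root_.Pool.Agent.Helper85.Burn.Par.facts (p : Par) : 10 ^ 14 ≤ p.q ∧ 1000 ≤ p.δ ∧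
    1000 * p.δ ≤ p.L ∧ p.R = 10 ^ 6 * p.L ∧ p.P0 = 5000 * p.R ∧ C2 p.δ (2 * p.L) p.L ≤ 13 * p.L :=
  ⟨p.hq, p.hδ, p.bgi_δ_le, rfl, rfl, p.C2_le⟩

/-- far indices give far points -/
lemma far_of (S : Lines G V C M p) (w : C) {i j : ℤ} {X : ℕ}
    (h : ((p.q * X : ℕ) : ℤ) ≤ |i - j|) : X ≤ M.d (S.y w i) (S.y w j) := by
  by_contra hcon
  push Not at hcon
  have h1 := S.far w i j
  have hq : 0 < p.q := by have := p.hq; omega
  have h2 : p.q * (M.d (S.y w i) (S.y w j) + 1) ≤ p.q * X := Nat.mul_le_mul_left _ hcon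
  have h3 : p.q * (M.d (S.y w i) (S.y w j) + 1) = p.q * M.d (S.y w i) (S.y w j) + p.q := by ring
  have h4 : ((p.q * M.d (S.y w i) (S.y w j) : ℕ) : ℤ) = (p.q : ℤ) * M.d (S.y w i) (S.y w j) := by
    push_cast
    ring
  omega

/-- the distance between two points of a line depends only on the difference of the indices -/
lemma d_abs (F : Full p G V C M S M' n) (w : C) (i a : ℤ) :
    M.d (S.y w i) (S.y w a) = M.d (S.y w 0) (S.y w |a - i|) := by
  rcases le_total i a with h | h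
  · have e := S.d_shift F.D w 0 (a - i) i
    rw [zero_add, sub_add_cancel] at e
    rw [e, abs_of_nonneg (by omega)]
  · have e := S.d_shift F.D w 0 (i - a) a
    rw [zero_add, sub_add_cancel] at e
    rw [M.symm, e, abs_of_nonpos (by omega), neg_sub]

/-- growth of the distance along a line -/
lemma gain (F : Full p G V C M S M' n) (w : C) {i a b : ℤ} {X : ℕ}
    (h : |a - i| + ((p.q * X : ℕ) : ℤ) ≤ |b - i|) :
    M.d (S.y w i) (S.y w a) + X ≤ M.d (S.y w i) (S.y w b) + p.L := by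
  rw [F.d_abs w i a, F.d_abs w i b]
  have h1 := S.coll w 0 |a - i| |b - i| (abs_nonneg _) (by omega)
  have h2 := far_of S w (i := |a - i|) (j := |b - i|) (X := X) (by
    rw [abs_sub_comm, abs_of_nonneg (a := |b - i| - |a - i|) (by omega)]
    omega)
  omega

/-- (S2) nontrivial elements of `K` move points of `V` far.
Proof: `green` for `inl x`: `v = inr w` with angle `≥ n v - P ≥ 999 P`; by `ang_near` and `far` the
projections of `x` and `k x` to the line of `w` are at distance `≥ 3 P0`; (P4). -/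
theorem far_K (F : Full p G V C M S M' n) {k : G} (hk : k ∈ F.A.K) (hne : k ≠ 1) (x : V) :
    p.P0 ≤ M.d x (k • x) := by
  obtain ⟨v, hv, hang⟩ := Rot.green (F.inl_not_mem x) hk hne
  have hv' := hv
  rw [F.hC] at hv'
  obtain ⟨w, rfl⟩ := hv'
  obtain ⟨i, hi⟩ := S.exists_near w x
  obtain ⟨j, hj⟩ := S.exists_near w (k • x)
  have h1 := F.ang_near hi hj
  have h2 := F.n_big w
  have h3 := F.P_le w
  obtain ⟨c1, c2, c3, c4, c5, c6⟩ := p.facts
  rw [Sum.smul_inl] at hang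
  have h4 : 4 * p.P0 ≤ M.d (S.y w i) (S.y w j) := by
    apply far_of S w
    have e1 : ((p.q * (4 * p.P0) : ℕ) : ℤ) = 4 * ((p.q * p.P0 : ℕ) : ℤ) := by push_cast; ring
    have e2 : (2 * (p.q : ℤ) * p.P0) = 2 * ((p.q * p.P0 : ℕ) : ℤ) := by push_cast; ring
    rw [e2] at h1
    rw [e1]
    have h5 := abs_sub_abs_le_abs_sub (F.A.ang (Sum.inr w) (Sum.inl x) (Sum.inl (k • x))) (j - i)
    rw [abs_sub_comm i j]
    omega
  have h6 := P4 F.D.hH.hyp (S.qline w) hi hj
  omega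

/-- two lines with a common translation are equal -/
lemma eq_of_zpow (F : Full p G V C M S M' n) {v v' : C} {k : ℤ} (hk : k ≠ 0)
    (h : S.ρ v' ^ k = S.ρ v ^ k) : v' = v := by
  by_contra hne
  have hne' : v ≠ v' := fun e => hne e.symm
  obtain ⟨i, hi⟩ := S.exists_near v (S.y v' 0)
  obtain ⟨t, ht⟩ : ∃ t : ℕ, t = p.q * p.R + 1 := ⟨_, rfl⟩
  have e1 : S.ρ v ^ (k * t) • S.y v' 0 = S.y v' (k * t) := by
    have e2 : S.ρ v ^ (k * (t : ℤ)) = S.ρ v' ^ (k * (t : ℤ)) := by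
      rw [zpow_mul, zpow_mul, h]
    rw [e2, S.zpow_y, zero_add]
  have hi2 : Near M (S.y v) (S.y v' (k * t)) (i + k * t) := by
    intro l
    have h1 := hi (l - k * t)
    rw [← e1]
    have e3 : S.y v l = S.ρ v ^ (k * (t : ℤ)) • S.y v (l - k * t) := by
      rw [S.zpow_y]
      congr 1
      ring
    rw [e3, ← S.zpow_y v (k * t) i, F.D.hH.isom, F.D.hH.isom]
    exact h1
  have h2 := S.overl v v' hne' 0 (k * t) i (i + k * t) hi hi2
  have h3 := S.far' v (i := i) (j := i + k * t) (B := p.R) (by omega)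
  have h4 : |i - (i + k * (t : ℤ))| = |k| * t := by
    rw [show i - (i + k * (t : ℤ)) = -(k * t) by ring, abs_neg, abs_mul, abs_of_nonneg
      (a := (t : ℤ)) (by omega)]
  rw [h4] at h3
  have h5 : (1 : ℤ) * t ≤ |k| * t := by
    apply mul_le_mul_of_nonneg_right _ (by omega)
    exact Int.one_le_abs hk
  omega

/-- an element of infinite order which has a power fixing the apex `v` fixes `v`.
Proof: `g^j ∈ ⟨ρ v⟩`, `g^j = ρ v ^ k = ρ (g v) ^ k`, `k ≠ 0`; the projections of the points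
`ρ (g v)^{kt} y' = ρ v ^{kt} y'` of the line of `g v` to the line of `v` are unbounded, so `g v = v` by
`overl`. -/
lemma fix_pow (F : Full p G V C M S M' n) {g : G} (hg : Inf g) {v : C} {j : ℕ} (hj : 0 < j)
    (h : g ^ j • v = v) : g • v = v := by
  obtain ⟨k, hk⟩ := Subgroup.mem_zpowers_iff.mp (S.stab v (g ^ j) h)
  have hk0 : k ≠ 0 := by
    intro h0
    rw [h0, zpow_zero] at hk
    exact hg j hj hk.symm
  apply F.eq_of_zpow hk0
  rw [S.ρ_smul, ← MulAut.conj_apply, ← map_zpow, MulAut.conj_apply, hk]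
  rw [show g * g ^ j = g ^ j * g by rw [← pow_succ', ← pow_succ], mul_inv_cancel_right]

/-- the orbit of a point of minimal displacement -/
lemma orbit (F : Full p G V C M S M' n) {g : G} {x : V} (hL : p.L < M.d x (g • x))
    (hmin : ∀ z : V, M.d x (g • x) ≤ M.d z (g • z)) :
    (∀ m : ℕ, m * (M.d x (g • x) - 6 * p.δ) ≤ M.d x (g ^ m • x)) ∧
    ∀ i j l : ℕ, i ≤ j → j ≤ l → M.d (g ^ i • x) (g ^ j • x) + M.d (g ^ j • x) (g ^ l • x) ≤
      M.d (g ^ i • x) (g ^ l • x) + 8 * p.δ := by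
  obtain ⟨c1, c2, c3, c4, c5, c6⟩ := p.facts
  have h1 := min_disp F.D.hH.hyp F.D.hH.isom hmin (by omega) (by omega)
  have h2 := chain F.D.hH.hyp F.D.hH.isom h1 (by omega)
  refine ⟨fun m => ?_, fun i j l hij hjl => ?_⟩
  · have h3 := h2.1 m
    have e : M.d x (g • x) - 4 * p.δ - 2 * p.δ = M.d x (g • x) - 6 * p.δ := by omega
    rw [e] at h3
    exact h3
  · have h3 := h2.2 i j l (by omega) (by omega)
    simp only [zpow_natCast] at h3
    omega

/-- (H2 claim) Let `g` have infinite order, fix no apex, and let `x : V` be such that the displacement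
`ℓ = d(x, g x) > L` is minimal among all displacements `d(z, k g z)`, `k ∈ K`, `z : V`.  Then the
angles of `(x, g^m x)` are at most `0.6 n v`.

Proof.  By `min_disp` and `chain` (`a = 4δ`), `d(g^i x,g^j x)+d(g^j x,g^l x) ≤ d(g^i x,g^l x)+8δ` for
`i ≤ j ≤ l`.  Suppose the angle at `v` is `> 0.6 n v`; `i₀`, `i₁` nearest indices of `x`, `g^m x` on the
line `y` of `v`; `|i₁ - i₀| ≥ 0.6 n v - 2 q P0 ≥ 0.59 n v` (`ang_near`).  By (P2) (`far`: the distance
is large) `d(x,y i₀)+d(y i₀,y i₁)+d(y i₁,g^m x) ≤ d(x,g^m x)+C2`.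
Let `b` be a point with `d(x,b)+d(b,g^m x) ≤ d(x,g^m x)+C2` (as `y i₀`, `y i₁`).  Then
`d(x,gb) ≥ d(x,g^{m+1}x) - d(b,g^m x) ≥ d(x,g^m x)+ℓ-8δ-d(b,g^m x) ≥ d(x,b)+ℓ-8δ`, and `b`, `gb` both
have excess `≤ 8δ+C2` in `I(x,g^{m+1}x)`; by (h3) `d(b,gb) ≤ ℓ+18δ+2 C2`.
Let `u = y i₀`, `e₁` a nearest index of `g u`.
(1) If `|e₁ - i₀| ≥ 0.55 n v`: choose `j` with `|e₁ - i₀ - j n v| ≤ n v /2` and `h ∈ H v` rotating by
`-j n v`.  `d(u, h g u) ≤ d(y i₀, y (e₁ - j n v)) + d(y e₁, g u)` and by (P2) `d(u, g u) ≥ d(y i₀, y e₁)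
+ d(y e₁, g u) - C2`, and `d(y i₀,y e₁) ≥ d(y i₀, y (e₁ - j n v)) + 0.05 n v / q - L` (`coll`, `far`,
`d_shift`).  So `d(u,h g u) < ℓ`, contradiction to minimality.
(2) If `|e₁ - i₀| < 0.55 n v`: let `b = y i₁`, `f` a nearest index of `g b`.  `d(u,b)+d(b,gb) ≤ d(u,gb)
+ 26δ + 4 C2`, so by (PJ) `d(y f,y i₀) ≥ d(y i₁,y i₀) - 26δ - 5 C2`; and `d(y i₁,y i₀) ≥ d(y e₁,y i₀) +
0.04 n v/q - L`; so `d(y f,y e₁) > R/4`; `y e₁`, `y f` are nearest points of `g y i₀`, `g y i₁`, two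
points of the line of `g v ≠ v`: contradiction to `overl`. -/
theorem small_ang (F : Full p G V C M S M' n) {g : G} (hg : Inf g) (hfix : ∀ v : C, g • v ≠ v)
    {x : V} (hL : p.L < M.d x (g • x))
    (hmin : ∀ k ∈ F.A.K, ∀ z : V, M.d x (g • x) ≤ M.d z (k • g • z)) (m : ℕ) :
    ∀ v ∈ F.A.C, 10 * |F.A.ang v (Sum.inl x) (Sum.inl (g ^ m • x))| ≤ 6 * n v := by
  intro v hv
  have hv' := hv
  rw [F.hC] at hv'
  obtain ⟨w, rfl⟩ := hv'
  by_contra hcon
  push Not at hcon
  obtain ⟨c1, c2, c3, c4, c5, c6⟩ := p.facts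
  obtain ⟨ℓ, hℓ⟩ : ∃ ℓ, M.d x (g • x) = ℓ := ⟨_, rfl⟩
  have hmin1 : ∀ z : V, M.d x (g • x) ≤ M.d z (g • z) := by
    intro z
    have := hmin 1 (Subgroup.one_mem _) z
    rwa [one_smul] at this
  obtain ⟨-, horb⟩ := F.orbit hL hmin1
  obtain ⟨N, hN⟩ : ∃ N, n (Sum.inr w) = N := ⟨_, rfl⟩
  obtain ⟨Q, hQ⟩ : ∃ Q, p.q * p.P0 = Q := ⟨_, rfl⟩
  obtain ⟨T, hT⟩ : ∃ T, C2 p.δ (2 * p.L) p.L = T := ⟨_, rfl⟩
  have hNbig := F.n_big w
  rw [hN, hQ] at hNbig
  rw [hN] at hcon
  obtain ⟨i0, hi0⟩ := S.exists_near w x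
  obtain ⟨i1, hi1⟩ := S.exists_near w (g ^ m • x)
  have h1 := F.ang_near hi0 hi1
  have e1 : (2 * (p.q : ℤ) * p.P0) = 2 * (Q : ℤ) := by rw [← hQ]; push_cast; ring
  rw [e1] at h1
  -- `|i1 - i0| ≥ 0.59 N`
  have h2 : (59 : ℤ) * N ≤ 100 * |i1 - i0| := by
    have h5 := abs_sub_abs_le_abs_sub
      (F.A.ang (Sum.inr w) (Sum.inl x) (Sum.inl (g ^ m • x))) (i1 - i0)
    omega
  have hyp := F.D.hH.hyp
  have isom := F.D.hH.isom
  have d01 : 2000 * p.P0 ≤ M.d (S.y w i0) (S.y w i1) := by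
    apply far_of S w
    have e : p.q * (2000 * p.P0) = 2000 * Q := by rw [← hQ]; ring
    rw [e, abs_sub_comm]
    push_cast
    omega
  have p01 : M.d x (S.y w i0) + M.d (S.y w i0) (S.y w i1) + M.d (S.y w i1) (g ^ m • x) ≤
      M.d x (g ^ m • x) + T := by
    rcases P2 hyp (S.qline w) hi0 hi1 with h | h
    · omega
    · omega
  -- geometry of the orbit
  have hm1 : g ^ (m + 1) • x = g • g ^ m • x := by rw [pow_succ', mul_smul]
  have o1 : M.d x (g ^ m • x) + ℓ ≤ M.d x (g ^ (m + 1) • x) + 8 * p.δ := by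
    have h3 := horb 0 m (m + 1) (by omega) (by omega)
    have e2 : M.d (g ^ m • x) (g ^ (m + 1) • x) = ℓ := by
      rw [pow_succ, mul_smul, isom, hℓ]
    rw [pow_zero, one_smul, e2] at h3
    exact h3
  have e3 : M.d (g ^ m • x) (g ^ (m + 1) • x) = ℓ := by
    rw [pow_succ, mul_smul, isom, hℓ]
  -- displacement of points near the segment
  have key : ∀ b : V, M.d x b + M.d b (g ^ m • x) ≤ M.d x (g ^ m • x) + T →
      M.d x b + ℓ ≤ M.d x (g • b) + 8 * p.δ + T ∧ M.d b (g • b) ≤ ℓ + 26 * p.δ + 3 * T := by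
    intro b hb
    have a1 := M.tri x (g • b) (g ^ (m + 1) • x)
    have a2 : M.d (g • b) (g ^ (m + 1) • x) = M.d b (g ^ m • x) := by rw [hm1, isom]
    have a3 := M.tri x b (g ^ m • x)
    have a4 := M.tri b (g ^ m • x) (g ^ (m + 1) • x)
    have a5 := M.tri x (g • x) (g • b)
    have a6 : M.d (g • x) (g • b) = M.d x b := isom g x b
    have b1 : M.d x b + M.d b (g ^ (m + 1) • x) ≤ M.d x (g ^ (m + 1) • x) + (8 * p.δ + T) := by
      omega
    have b2 : M.d x (g • b) + M.d (g • b) (g ^ (m + 1) • x) ≤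
        M.d x (g ^ (m + 1) • x) + (8 * p.δ + T) := by
      omega
    have b3 := GMet.h3 hyp b1 b2
    refine ⟨by omega, ?_⟩
    have b4 : |(M.d x b : ℤ) - M.d x (g • b)| ≤ ℓ + (8 * p.δ + T) := by
      rw [abs_le]
      constructor <;> omega
    push_cast at b3
    omega
  -- the two points
  obtain ⟨u, hu⟩ : ∃ u, S.y w i0 = u := ⟨_, rfl⟩
  obtain ⟨b, hb⟩ : ∃ b, S.y w i1 = b := ⟨_, rfl⟩
  rw [hu, hb] at p01
  have tu1 := M.tri u b (g ^ m • x)
  have tu2 := M.tri x u b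
  obtain ⟨ku1, ku2⟩ := key u (by omega)
  obtain ⟨kb1, kb2⟩ := key b (by omega)
  obtain ⟨e, he⟩ := S.exists_near w (g • u)
  have hu0 : Near M (S.y w) u i0 := by
    intro l
    rw [hu, M.self]
    exact Nat.zero_le _
  have hb1 : Near M (S.y w) b i1 := by
    intro l
    rw [hb, M.self]
    exact Nat.zero_le _
  by_cases hcase : (55 : ℤ) * N ≤ 100 * |e - i0|
  · -- shorten by a rotation
    have hNpos : 0 < N := by omega
    obtain ⟨j, hj⟩ : ∃ j : ℤ, 2 * |e - N * j - i0| ≤ N := by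
      have h5 := Int.emod_add_mul_ediv (e - i0) N
      have h6 := Int.emod_nonneg (e - i0) (b := (N : ℤ)) (by omega)
      have h7 := Int.emod_lt_of_pos (e - i0) (b := (N : ℤ)) (by omega)
      rcases le_total (2 * ((e - i0) % N)) N with h8 | h8
      · refine ⟨(e - i0) / N, ?_⟩
        have e4 : e - N * ((e - i0) / N) - i0 = (e - i0) % N := by linarith
        rw [e4, abs_of_nonneg h6]
        exact h8
      · refine ⟨(e - i0) / N + 1, ?_⟩
        have e4 : e - N * ((e - i0) / N + 1) - i0 = (e - i0) % N - N := by linarith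
        rw [e4, abs_of_nonpos (by omega)]
        omega
    have hk : S.ρ w ^ (-(N * j) : ℤ) ∈ F.A.K := by
      have h8 : S.ρ w ^ N ∈ F.A.K := by
        apply Subgroup.subset_closure
        refine ⟨Sum.inr w, F.inr_mem w, ?_⟩
        rw [F.hρ, hN]
      have e4 : S.ρ w ^ (-((N : ℤ) * j)) = (S.ρ w ^ N) ^ (-j) := by
        rw [← zpow_natCast, ← zpow_mul]
        congr 1
        ring
      rw [e4]
      exact Subgroup.zpow_mem _ h8 _
    have h9 := hmin _ hk u
    have e5 : S.ρ w ^ (-(N * j) : ℤ) • S.y w e = S.y w (e - N * j) := by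
      rw [S.zpow_y]
      congr 1
    have t1 := M.tri u (S.y w (e - N * j)) (S.ρ w ^ (-(N * j) : ℤ) • g • u)
    have e6 : M.d (S.y w (e - N * j)) (S.ρ w ^ (-(N * j) : ℤ) • g • u) = M.d (S.y w e) (g • u) := by
      rw [← e5, isom]
    have h10 := F.gain w (i := i0) (a := e - N * j) (b := e) (X := 200 * p.P0) (by
      have e : p.q * (200 * p.P0) = 200 * Q := by rw [← hQ]; ring
      rw [e]
      push_cast
      omega)
    have h11 : 2000 * p.P0 ≤ M.d (S.y w i0) (S.y w e) := by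
      apply far_of S w
      have e : p.q * (2000 * p.P0) = 2000 * Q := by rw [← hQ]; ring
      rw [e, abs_sub_comm]
      push_cast
      omega
    have h12 : M.d u (S.y w i0) + M.d (S.y w i0) (S.y w e) + M.d (S.y w e) (g • u) ≤
        M.d u (g • u) + T := by
      rcases P2 hyp (S.qline w) hu0 he with h | h
      · omega
      · omega
    rw [hu] at h10 h11 h12
    rw [hℓ] at h9
    omega
  · -- the lines of `w` and `g w` overlap too much
    push Not at hcase
    obtain ⟨f, hf⟩ := S.exists_near w (g • b)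
    have a1 := M.tri x u (g • b)
    have a2 := M.tri x b (g ^ m • x)
    have a3 : M.d u b + M.d b (g • b) ≤ M.d u (g • b) + (34 * p.δ + 5 * T) := by omega
    have a4 : M.d (g • b) b + M.d b u ≤ M.d (g • b) u + (34 * p.δ + 5 * T) := by
      rw [M.symm (g • b) b, M.symm b u, M.symm (g • b) u]
      omega
    have a5 := PJ hyp (S.qline w) hf hb1 hu0 a4
    rw [hT] at a5
    have a6 := F.gain w (i := i0) (a := e) (b := i1) (X := 160 * p.P0) (by
      have e : p.q * (160 * p.P0) = 160 * Q := by rw [← hQ]; ring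
      rw [e]
      push_cast
      omega)
    obtain ⟨j, hj⟩ := S.y_smul g w
    have a7 : g • u = S.y (g • w) (i0 + j) := by rw [← hu, hj]
    have a8 : g • b = S.y (g • w) (i1 + j) := by rw [← hb, hj]
    rw [a7] at he
    rw [a8] at hf
    have a9 := S.overl w (g • w) (fun h => hfix w h.symm) (i0 + j) (i1 + j) e f he hf
    have a10 := M.tri (S.y w i0) (S.y w e) (S.y w f)
    have a11 := M.symm (S.y w f) (S.y w i0)
    have a12 := M.symm (S.y w i1) (S.y w i0)
    omega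

/-- (H2 lower bound) Under the same hypotheses the displacement of `g^m` in the coned-off graph grows
linearly.
Proof.  (α) Suppose for some `v : C` and `N` the nearest points of `x` and `g^N x` on the line of `v`
are at distance `≥ 10 P0`.  Let `m ≥ N` and `0 ≤ j ≤ m - N`: `g^j x` and `g^{j+N}x` have projections to
the line of `g^j v` at distance `≥ 10 P0`, and `x, g^j x, g^{j+N}x, g^m x` are almost on a line, so by
(PJ) twice the projections of `x`, `g^m x` are at distance `≥ 10 P0 - 2 C2 - 16δ ≥ P0`; by `bgi` every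
geodesic of the coned-off graph from `x` to `g^m x` passes through `g^j v`.  The `g^j v` are distinct
by `fix_pow`.  So `m - N ≤ d'(x,g^m x)`.
(β) Otherwise `transfer` with `E = 10 P0`: `d(x,g^m x) ≤ 13 P0 d'(x,g^m x)`, and `d(x,g^m x) ≥ m (ℓ-6δ)
≥ m L/2` by `chain`; `26 P0/L ≤ q`. -/
theorem lower (F : Full p G V C M S M' n) {g : G} (hg : Inf g) (hfix : ∀ v : C, g • v ≠ v)
    {x : V} (hL : p.L < M.d x (g • x))
    (hmin : ∀ k ∈ F.A.K, ∀ z : V, M.d x (g • x) ≤ M.d z (k • g • z)) :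
    ∃ c : ℕ, ∀ m : ℕ, m ≤ p.q * M'.d (Sum.inl x) (Sum.inl (g ^ m • x)) + c := by
  obtain ⟨c1, c2, c3, c4, c5, c6⟩ := p.facts
  have hmin1 : ∀ z : V, M.d x (g • x) ≤ M.d z (g • z) := by
    intro z
    have := hmin 1 (Subgroup.one_mem _) z
    rwa [one_smul] at this
  obtain ⟨horb1, horb⟩ := F.orbit hL hmin1
  have hyp := F.D.hH.hyp
  have isom := F.D.hH.isom
  obtain ⟨T, hT⟩ : ∃ T, C2 p.δ (2 * p.L) p.L = T := ⟨_, rfl⟩
  by_cases hα : ∃ (w : C) (N : ℕ) (i j : ℤ), Near M (S.y w) x i ∧ Near M (S.y w) (g ^ N • x) j ∧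
      10 * p.P0 < M.d (S.y w i) (S.y w j)
  · obtain ⟨w, N, i, j, hi, hj, hij⟩ := hα
    refine ⟨N, fun m => ?_⟩
    rcases Nat.lt_or_ge m N with hmN | hmN
    · omega
    obtain ⟨α, hα⟩ := GMet.exists_geo M' (Sum.inl x : V ⊕ C) (Sum.inl (g ^ m • x))
    obtain ⟨D, hD⟩ : ∃ D, M'.d (Sum.inl x) (Sum.inl (g ^ m • x)) = D := ⟨_, rfl⟩
    rw [hD] at hα ⊢
    have hpass : ∀ s ≤ m - N, ∃ t ≤ D, α t = Sum.inr (g ^ s • w) := by
      intro s hs
      by_contra hcon
      push Not at hcon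
      obtain ⟨k, hk⟩ := S.y_smul (g ^ s) w
      have n1 : Near M (S.y (g ^ s • w)) (g ^ s • x) (i + k) := (near_smul F.D _ w hk x i).mpr hi
      have n2 : Near M (S.y (g ^ s • w)) (g ^ (s + N) • x) (j + k) := by
        rw [pow_add, mul_smul]
        exact (near_smul F.D _ w hk _ j).mpr hj
      obtain ⟨a, ha⟩ := S.exists_near (g ^ s • w) x
      obtain ⟨e, he⟩ := S.exists_near (g ^ s • w) (g ^ m • x)
      have h1 := F.D.bgi ha he hα hcon
      have h2 : M.d (S.y (g ^ s • w) (i + k)) (S.y (g ^ s • w) (j + k)) =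
          M.d (S.y w i) (S.y w j) := by
        rw [← hk, ← hk, isom]
      have o1 := horb 0 s (s + N) (by omega) (by omega)
      have o2 := horb 0 (s + N) m (by omega) (by omega)
      rw [pow_zero, one_smul] at o1 o2
      have h3 := PJ hyp (S.qline (g ^ s • w)) ha n1 n2 o1
      have o3 : M.d (g ^ m • x) (g ^ (s + N) • x) + M.d (g ^ (s + N) • x) x ≤
          M.d (g ^ m • x) x + 8 * p.δ := by
        rw [M.symm (g ^ m • x) (g ^ (s + N) • x), M.symm (g ^ (s + N) • x) x,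
          M.symm (g ^ m • x) x]
        omega
      have h4 := PJ hyp (S.qline (g ^ s • w)) he n2 ha o3
      rw [hT] at h3 h4
      rw [M.symm (S.y (g ^ s • w) (j + k)), M.symm (S.y (g ^ s • w) e)] at h4
      omega
    choose t ht1 ht2 using hpass
    have hinj : Set.InjOn (fun s => if h : s ≤ m - N then t s h else 0)
        (Finset.range (m - N + 1) : Set ℕ) := by
      intro s1 hs1 s2 hs2 h12
      have hs1' : s1 ≤ m - N := by
        have := Finset.mem_coe.mp hs1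
        rw [Finset.mem_range] at this
        omega
      have hs2' : s2 ≤ m - N := by
        have := Finset.mem_coe.mp hs2
        rw [Finset.mem_range] at this
        omega
      simp only [hs1', hs2', dif_pos] at h12
      have h1 := ht2 s1 hs1'
      have h2 := ht2 s2 hs2'
      rw [h12, h2] at h1
      have h3 : g ^ s2 • w = g ^ s1 • w := Sum.inr_injective h1
      have key : ∀ a b : ℕ, a < b → g ^ a • w = g ^ b • w → False := by
        intro a b hab hw
        have h4 : g ^ (b - a) • w = w := by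
          have e : g ^ b = g ^ a * g ^ (b - a) := by rw [← pow_add]; congr 1; omega
          rw [e, mul_smul] at hw
          exact (MulAction.injective (g ^ a) hw).symm
        exact hfix w (F.fix_pow hg (by omega) h4)
      rcases lt_trichotomy s1 s2 with h | h | h
      · exact (key s1 s2 h h3.symm).elim
      · exact h
      · exact (key s2 s1 h h3).elim
    have hmaps : ∀ s ∈ Finset.range (m - N + 1),
        (fun s => if h : s ≤ m - N then t s h else 0) s ∈ Finset.range (D + 1) := by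
      intro s hs
      have hs' : s ≤ m - N := by
        rw [Finset.mem_range] at hs
        omega
      simp only [hs', dif_pos, Finset.mem_range]
      have := ht1 s hs'
      omega
    have hcard := Finset.card_le_card_of_injOn _ hmaps hinj
    rw [Finset.card_range, Finset.card_range] at hcard
    have hq : 1 * D ≤ p.q * D := Nat.mul_le_mul_right _ (by omega)
    omega
  · push Not at hα
    refine ⟨0, fun m => ?_⟩
    have hE : ∀ w i j, Near M (S.y w) x i → Near M (S.y w) (g ^ m • x) j →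
        M.d (S.y w i) (S.y w j) ≤ 10 * p.P0 := fun w i j hi hj => hα w m i j hi hj
    have h1 := F.D.transfer hE
    have h2 := horb1 m
    obtain ⟨D, hD⟩ : ∃ D, M'.d (Sum.inl x) (Sum.inl (g ^ m • x)) = D := ⟨_, rfl⟩
    rw [hD] at h1 ⊢
    have h3 : m * p.L ≤ m * (2 * (M.d x (g • x) - 6 * p.δ)) := Nat.mul_le_mul_left _ (by omega)
    have h4 : m * (2 * (M.d x (g • x) - 6 * p.δ)) = 2 * (m * (M.d x (g • x) - 6 * p.δ)) := by ring
    have h5 : 2 * p.R + 10 * p.P0 + 2 * p.P0 ≤ 10 ^ 11 * p.L := by omega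
    have h6 : (2 * p.R + 10 * p.P0 + 2 * p.P0) * D ≤ (10 ^ 11 * p.L) * D :=
      Nat.mul_le_mul_right _ h5
    have h7 : m * p.L ≤ (2 * 10 ^ 11 * D) * p.L := by
      have e : (2 * 10 ^ 11 * D) * p.L = 2 * ((10 ^ 11 * p.L) * D) := by ring
      rw [e]
      omega
    have h8 : m ≤ 2 * 10 ^ 11 * D := Nat.le_of_mul_le_mul_right h7 (by omega)
    have h9 : 2 * 10 ^ 11 * D ≤ p.q * D := Nat.mul_le_mul_right _ (by omega)
    omega

/-- **trichotomy** for elements of the quotient.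
Proof: choose the lift `g'` and `x : V` with `d(x,g'x)` minimal among all lifts and points.  If `g'` has
finite order: first case.  If `g'` has infinite order and `d(x,g'x) ≤ L`, or if `g'` fixes an apex:
`catches`, resp. `stab`: second case.  Otherwise `small_ang`, `qm_eq_of_small`, `lower`, `stable`. -/
theorem trich (F : Full p G V C M S M' n) (g : G ⧸ F.A.K) :
    (∃ g' : G, (QuotientGroup.mk g' : G ⧸ F.A.K) = g ∧ ∃ m : ℕ, Odd m ∧ g' ^ m = 1) ∨
    (∃ (w : C) (s : ℤ), (QuotientGroup.mk (S.ρ w ^ s) : G ⧸ F.A.K) = g) ∨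
    (∀ x (m : ℕ), m ≤ p.q * F.A.qm.d x (g ^ m • x)) := by
  classical
  have hex : ∃ d : ℕ, ∃ (g' : G) (x : V), (QuotientGroup.mk g' : G ⧸ F.A.K) = g ∧
      M.d x (g' • x) = d := by
    obtain ⟨g', hg'⟩ := QuotientGroup.mk_surjective g
    obtain ⟨x⟩ := F.D.hH.ne
    exact ⟨_, g', x, hg', rfl⟩
  obtain ⟨g', x, hg', hd⟩ := Nat.find_spec hex
  have hmin : ∀ (g'' : G) (z : V), (QuotientGroup.mk g'' : G ⧸ F.A.K) = g →
      M.d x (g' • x) ≤ M.d z (g'' • z) := by
    intro g'' z hg''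
    rw [hd]
    exact Nat.find_min' hex ⟨g'', z, hg'', rfl⟩
  rcases F.D.hH.dich g' with h | h
  · exact Or.inl ⟨g', hg', h⟩
  have hInf : Inf g' := by
    intro m hm h1
    have := h x m
    rw [h1, one_smul, M.self] at this
    omega
  by_cases hLe : M.d x (g' • x) ≤ p.L
  · obtain ⟨w, hw⟩ := S.catches g' hInf ⟨x, hLe⟩
    obtain ⟨s, hs⟩ := Subgroup.mem_zpowers_iff.mp hw
    exact Or.inr (Or.inl ⟨w, s, by rw [hs]; exact hg'⟩)
  by_cases hf : ∃ v : C, g' • v = v
  · obtain ⟨v, hv⟩ := hf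
    obtain ⟨s, hs⟩ := Subgroup.mem_zpowers_iff.mp (S.stab v g' hv)
    exact Or.inr (Or.inl ⟨v, s, by rw [hs]; exact hg'⟩)
  push Not at hLe hf
  right
  right
  have hmin' : ∀ k ∈ F.A.K, ∀ z : V, M.d x (g' • x) ≤ M.d z (k • g' • z) := by
    intro k hk z
    rw [← mul_smul]
    apply hmin
    rw [← hg']
    have h1 : (QuotientGroup.mk k : G ⧸ F.A.K) = 1 := (QuotientGroup.eq_one_iff k).mpr hk
    have h2 : (QuotientGroup.mk (k * g') : G ⧸ F.A.K) =
        QuotientGroup.mk k * QuotientGroup.mk g' := rfl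
    rw [h2, h1, one_mul]
  obtain ⟨c, hc⟩ := F.lower hInf hf hLe hmin'
  have hpow : ∀ m : ℕ, g ^ m • VQ.mk F.A.K (Sum.inl x) =
      VQ.mk F.A.K (Sum.inl (g' ^ m • x) : V ⊕ C) := by
    intro m
    rw [← hg', ← Sum.smul_inl, VQ.mk_smul]
    rfl
  apply stable (c := c) (x := VQ.mk F.A.K (Sum.inl x)) Rot.qm_isom
  intro m
  rw [hpow, Rot.qm_eq_of_small (F.inl_not_mem x) (F.inl_not_mem _)
    (F.small_ang hInf hf hLe hmin' m)]
  exact hc m

/-- the dichotomy for the quotient -/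
theorem dich (F : Full p G V C M S M' n) (g : G ⧸ F.A.K) :
    (∃ m : ℕ, Odd m ∧ g ^ m = 1) ∨ (∀ x (m : ℕ), m ≤ p.q * F.A.qm.d x (g ^ m • x)) := by
  rcases F.trich g with ⟨g', hg', m, hm, h1⟩ | ⟨w, s, hs⟩ | h
  · left
    refine ⟨m, hm, ?_⟩
    rw [← hg', ← QuotientGroup.mk_pow, h1]
    rfl
  · left
    refine ⟨n (Sum.inr w), F.A.n_odd _ (F.inr_mem w), ?_⟩
    rw [← hs, ← QuotientGroup.mk_pow]
    apply (QuotientGroup.eq_one_iff _).mpr
    have h8 : S.ρ w ^ n (Sum.inr w) ∈ F.A.K := by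
      apply Subgroup.subset_closure
      refine ⟨Sum.inr w, F.inr_mem w, ?_⟩
      rw [F.hρ]
    rw [← zpow_natCast, ← zpow_mul, mul_comm, zpow_mul, zpow_natCast]
    exact Subgroup.zpow_mem _ h8 _
  · exact Or.inr h

end Full

end Pool.Agent.Helper85.Burn
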