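import Pool.Agent.Helper85.Burn.Basic
import Pool.Agent.Helper88.Burn.Quot

/-!
Rotation structures: a graph metric with a set `C` of apices; at every apex `w` there is an exact
integer valued angle `θ w y - θ w x` between two other points, a generator `ρ w` of the stabiliser
of `w` which rotates by `1`, an invariant odd exponent `n w ≥ 1000 P`, and a threshold `pf w ≤ P`:
two points seen from `w` at an angle at least `pf w` are separated by `w`.
-/

set_option autoImplicit false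

namespace Pool.Agent.Helper85.Burn

/-- Rotation structure with integer angles. -/
structure Rot (G V : Type) [Group G] [MulAction G V] (M : GMet V) (n : V → ℕ) (P : ℕ) where
  C : Set V
  θ : V → V → ℤ
  ρ : V → G
  pf : V → ℕ
  isom : M.Isom G
  C_smul : ∀ (g : G) w, w ∈ C → g • w ∈ C
  θ_smul : ∀ (g : G) w x y, w ∈ C → x ≠ w → y ≠ w →
    θ (g • w) (g • y) - θ (g • w) (g • x) = θ w y - θ w x
  ρ_smul : ∀ (g : G) w, w ∈ C → ρ (g • w) = g * ρ w * g⁻¹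
  ρ_fix : ∀ w ∈ C, ρ w • w = w
  θ_ρ : ∀ w ∈ C, ∀ x, x ≠ w → θ w (ρ w • x) = θ w x + 1
  stab : ∀ w ∈ C, ∀ g : G, g • w = w → g ∈ Subgroup.zpowers (ρ w)
  nonadj : ∀ w ∈ C, ∀ w' ∈ C, M.d w w' ≠ 1
  nbr : ∀ w ∈ C, ∃ z, M.d w z = 1
  pf_smul : ∀ (g : G) w, w ∈ C → pf (g • w) = pf w
  pf_pos : ∀ w ∈ C, 1 ≤ pf w
  pf_le : ∀ w ∈ C, pf w ≤ P
  n_smul : ∀ (g : G) w, w ∈ C → n (g • w) = n w
  n_odd : ∀ w ∈ C, Odd (n w)
  n_big : ∀ w ∈ C, 1000 * P ≤ n w
  P_pos : 1 ≤ P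
  A1 : ∀ w ∈ C, ∀ x y, x ≠ w → y ≠ w → (pf w : ℤ) ≤ |θ w y - θ w x| → M.Sep w x y
  A2 : ∀ w ∈ C, ∀ u y, u ≠ w → y ≠ w → M.Sep u w y → θ w y = θ w u

namespace Rot

variable {G V : Type} [Group G] [MulAction G V] {M : GMet V} {n : V → ℕ} {P : ℕ}
  (A : Rot G V M n P)

/-- the angle at `w` from `x` to `y` -/
def ang (w x y : V) : ℤ := A.θ w y - A.θ w x

/-- the rotation subgroup at `w` -/
def H (w : V) : Subgroup G := Subgroup.zpowers (A.ρ w ^ n w)

/-- the normal subgroup generated by all rotations -/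
def K : Subgroup G := Subgroup.closure {g | ∃ w ∈ A.C, g = A.ρ w ^ n w}

variable {A}

lemma ang_add (w x y z : V) : A.ang w x y + A.ang w y z = A.ang w x z := by
  unfold ang
  ring

lemma ang_self (w x : V) : A.ang w x x = 0 := by
  unfold ang
  ring

lemma ang_symm (w x y : V) : A.ang w y x = - A.ang w x y := by
  unfold ang
  ring

lemma ang_smul (g : G) {w x y : V} (hw : w ∈ A.C) (hx : x ≠ w) (hy : y ≠ w) :
    A.ang (g • w) (g • x) (g • y) = A.ang w x y :=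
  A.θ_smul g w x y hw hx hy

/-- (A1') if `x ∈ I(w,y)`, `x ≠ w`, the angle at `w` between `x` and `y` is small. -/
lemma ang_lt_of_mem_I {w x y : V} (hw : w ∈ A.C) (hx : x ≠ w) (hy : y ≠ w) (h : x ∈ M.I w y) :
    |A.ang w x y| < A.pf w := by
  by_contra hcon
  push Not at hcon
  have h1 := (A.A1 w hw x y hx hy hcon).1
  simp only [GMet.mem_I] at h h1
  have h2 := M.symm x w
  have h3 : M.d w x = 0 := by omega
  exact hx (M.eq_of w x h3).symm

/-- if `w ∉ I(x,y)` the angle at `w` between `x` and `y` is small. -/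
lemma ang_lt_of_not_mem_I {w x y : V} (hw : w ∈ A.C) (hx : x ≠ w) (hy : y ≠ w)
    (h : w ∉ M.I x y) : |A.ang w x y| < A.pf w := by
  by_contra hcon
  push Not at hcon
  exact h (A.A1 w hw x y hx hy hcon).1

lemma ρ_pow_fix {w : V} (hw : w ∈ A.C) (m : ℤ) : A.ρ w ^ m • w = w := by
  have h1 : ∀ k : ℕ, (A.ρ w) ^ k • w = w := by
    intro k
    induction k with
    | zero => simp
    | succ k ih => rw [pow_succ, mul_smul, A.ρ_fix w hw, ih]
  obtain ⟨k, rfl | rfl⟩ := m.eq_nat_or_neg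
  · simpa using h1 k
  · rw [zpow_neg, zpow_natCast, inv_smul_eq_iff]
    exact (h1 k).symm

lemma ρ_pow_ne {w x : V} (hw : w ∈ A.C) (hx : x ≠ w) (m : ℤ) : A.ρ w ^ m • x ≠ w := by
  intro h
  apply hx
  exact MulAction.injective _ (h.trans (ρ_pow_fix hw m).symm)

lemma θ_ρ_pow {w x : V} (hw : w ∈ A.C) (hx : x ≠ w) (m : ℤ) :
    A.θ w (A.ρ w ^ m • x) = A.θ w x + m := by
  have h1 : ∀ k : ℕ, ∀ y, y ≠ w → A.θ w ((A.ρ w) ^ (k : ℤ) • y) = A.θ w y + k := by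
    intro k
    induction k with
    | zero => intro y _; simp
    | succ k ih =>
      intro y hy
      have h3 := ρ_pow_ne hw hy 1
      rw [zpow_one] at h3
      have h4 : (A.ρ w) ^ ((k + 1 : ℕ) : ℤ) • y = (A.ρ w) ^ (k : ℤ) • (A.ρ w • y) := by
        rw [← mul_smul, zpow_natCast, zpow_natCast, pow_succ]
      rw [h4, ih _ h3, A.θ_ρ w hw y hy]
      push_cast; ring
  obtain ⟨k, rfl | rfl⟩ := m.eq_nat_or_neg
  · exact h1 k x hx
  · have h2 := h1 k ((A.ρ w) ^ (-(k : ℤ)) • x) (ρ_pow_ne hw hx _)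
    rw [← mul_smul, ← zpow_add, add_neg_cancel, zpow_zero, one_smul] at h2
    rw [h2]; ring

lemma mem_H {w : V} {h : G} : h ∈ A.H w ↔ ∃ j : ℤ, h = A.ρ w ^ ((n w : ℤ) * j) := by
  unfold H
  rw [Subgroup.mem_zpowers_iff]
  constructor
  · rintro ⟨j, rfl⟩
    exact ⟨j, by rw [zpow_mul, zpow_natCast]⟩
  · rintro ⟨j, rfl⟩
    exact ⟨j, by rw [zpow_mul, zpow_natCast]⟩

/-- rotations by multiples of `n w` -/
lemma θ_H {w x : V} {h : G} (hw : w ∈ A.C) (hx : x ≠ w) (hh : h ∈ A.H w) :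
    h • w = w ∧ h • x ≠ w ∧ ∃ j : ℤ, A.θ w (h • x) = A.θ w x + n w * j ∧ (j = 0 → h = 1) := by
  obtain ⟨j, rfl⟩ := mem_H.1 hh
  refine ⟨ρ_pow_fix hw _, ρ_pow_ne hw hx _, j, θ_ρ_pow hw hx _, ?_⟩
  rintro rfl
  simp

/-- every integer multiple of `n w` is realised by a rotation -/
lemma exists_H (w x : V) (hw : w ∈ A.C) (hx : x ≠ w) (j : ℤ) :
    ∃ h ∈ A.H w, A.θ w (h • x) = A.θ w x + n w * j ∧ ∀ y, y ≠ w →
      A.θ w (h • y) = A.θ w y + n w * j :=
  ⟨_, mem_H.2 ⟨j, rfl⟩, θ_ρ_pow hw hx _, fun _ hy => θ_ρ_pow hw hy _⟩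

/-- reducing rotation (`n w` is odd) -/
lemma exists_red {w x y : V} (hw : w ∈ A.C) (_hx : x ≠ w) (hy : y ≠ w) :
    ∃ h ∈ A.H w, 2 * |A.ang w x (h • y)| < n w := by
  obtain ⟨t, ht⟩ := A.n_odd w hw
  obtain ⟨j, hj⟩ := Pool.Agent.Helper88.Burn.RotSys.exists_mul_add_le (A.ang w x y) (t : ℤ)
    (by positivity)
  obtain ⟨h, hh, h1, -⟩ := exists_H (A := A) w y hw hy j
  refine ⟨h, hh, ?_⟩
  have ht' : (n w : ℤ) = 2 * (t : ℤ) + 1 := by exact_mod_cast ht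
  have h2 : A.ang w x (h • y) = A.ang w x y + (2 * (t : ℤ) + 1) * j := by
    unfold ang
    rw [h1, ← ht']; ring
  rw [h2]
  omega

lemma H_le_K {w : V} (hw : w ∈ A.C) : A.H w ≤ A.K := by
  unfold H
  rw [Subgroup.zpowers_le]
  exact Subgroup.subset_closure ⟨w, hw, rfl⟩

/-- conjugation of the rotation subgroups -/
lemma H_smul (g : G) {w : V} (hw : w ∈ A.C) {h : G} (hh : h ∈ A.H w) :
    g * h * g⁻¹ ∈ A.H (g • w) := by
  obtain ⟨j, rfl⟩ := mem_H.1 hh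
  exact mem_H.2 ⟨j, by rw [A.n_smul g w hw, A.ρ_smul g w hw, conj_zpow]⟩

instance K_normal : A.K.Normal := by
  unfold K
  refine ⟨fun n hn g => ?_⟩
  induction hn using Subgroup.closure_induction with
  | mem k hk =>
    obtain ⟨v, hv, rfl⟩ := hk
    refine Subgroup.subset_closure ⟨g • v, A.C_smul g v hv, ?_⟩
    rw [A.n_smul g v hv, A.ρ_smul g v hv, conj_pow]
  | one => simp
  | mul x y _ _ hx hy =>
    have : g * (x * y) * g⁻¹ = (g * x * g⁻¹) * (g * y * g⁻¹) := by group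
    rw [this]; exact mul_mem hx hy
  | inv x _ hx =>
    have : g * x⁻¹ * g⁻¹ = (g * x * g⁻¹)⁻¹ := by group
    rw [this]; exact inv_mem hx

end Rot

end Pool.Agent.Helper85.Burn
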