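import Pool.Agent.Helper85.Burn.RotDefs

/-!
Module PHI: the complexity `Φ(x,y)` (a natural number, the sum of the large angles between `x` and
`y`, see `Pool.Agent.Helper88.Burn.Rot`), and the bridge to the combinatorial rotation systems.
-/

set_option autoImplicit false

namespace Pool.Agent.Helper85.Burn

open Pool.Agent.Helper88.Burn

namespace Rot

variable {G V : Type} [Group G] [MulAction G V] {M : GMet V} {n : V → ℕ} {P : ℕ}
  {A : Rot G V M n P}

/-- (order lemma) two different large apices `w`, `u` between `x` and `y`, `w` closer to `x`. Then the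
angles can be computed with the other apex instead of the end point.
Proof: `Sep.left`/`Sep.right` and (A2). -/
lemma ang_order {x y w u : V} (hw : w ∈ A.C) (hu : u ∈ A.C) (hwx : w ≠ x) (hwy : w ≠ y)
    (hux : u ≠ x) (huy : u ≠ y) (hW : A.pf w ≤ |A.ang w x y|) (hU : A.pf u ≤ |A.ang u x y|)
    (hlt : M.d x w < M.d x u) :
    w ∈ M.I x u ∧ u ∈ M.I w y ∧ A.ang w x y = A.ang w x u ∧ A.ang u x y = A.ang u w y ∧
      A.ang w u y = 0 ∧ A.ang u x w = 0 ∧ M.Sep w x u ∧ M.Sep u w y := by
  have hwu : w ≠ u := by rintro rfl; omega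
  have s1 := A.A1 w hw x y hwx.symm hwy.symm hW
  have s2 := A.A1 u hu x y hux.symm huy.symm hU
  obtain ⟨i1, s3⟩ := GMet.Sep.left s2 s1.1 (by omega)
  obtain ⟨i2, s4⟩ := GMet.Sep.right s1 s2.1 (by omega)
  have e1 : A.θ w y = A.θ w u := A.A2 w hw u y hwu.symm hwy.symm s3
  have e2 : A.θ u x = A.θ u w := A.A2 u hu w x hwu hux.symm s4.symm
  refine ⟨i1, i2, ?_, ?_, ?_, ?_, s4, s3⟩
  · unfold ang; omega
  · unfold ang; omega
  · unfold ang; omega
  · unfold ang; omega

/-- (A.2) rotation at `w` with large old and large new angle: the distance and all other large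
angles are preserved.
Proof.  `w ∈ I(x,y)` and `w ∈ I(x,hy)`, so `d(x,hy) = d(x,w)+d(w,hy) = d(x,w)+d(w,y) = d(x,y)`.
`u` before `w`: `θ u y = θ u w = θ u (h y)` by (A2), since `Sep w u y` and `Sep w u (h y)`
(`Sep.left`).  `u` after `w`: `θ u x = θ u w`, `θ (h u) x = θ (h u) w`, and equivariance
(`h w = w`). -/
lemma ang_large {x y w : V} {h : G} (hw : w ∈ A.C) (hwx : w ≠ x) (hwy : w ≠ y) (hh : h ∈ A.H w)
    (h1 : A.pf w ≤ |A.ang w x y|) (h2 : A.pf w ≤ |A.ang w x (h • y)|) :
    M.d x (h • y) = M.d x y ∧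
    (∀ u ∈ A.C, u ≠ x → u ≠ y → A.pf u ≤ |A.ang u x y| → M.d x u < M.d x w →
      u ≠ h • y ∧ A.ang u x (h • y) = A.ang u x y) ∧
    (∀ u ∈ A.C, u ≠ x → u ≠ y → A.pf u ≤ |A.ang u x y| → M.d x w < M.d x u →
      h • u ≠ x ∧ h • u ≠ h • y ∧ M.d x (h • u) = M.d x u ∧
      A.ang (h • u) x (h • y) = A.ang u x y) := by
  obtain ⟨hfix, hne, -⟩ := θ_H hw hwy.symm hh
  have s1 := A.A1 w hw x y hwx.symm hwy.symm h1
  have s2 := A.A1 w hw x (h • y) hwx.symm hne h2
  have e1 : M.d w (h • y) = M.d w y := by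
    have := A.isom h w y
    rwa [hfix] at this
  have i1 := s1.1
  have i2 := s2.1
  simp only [GMet.mem_I] at i1 i2
  refine ⟨by omega, ?_, ?_⟩
  · intro u hu hux huy hU hlt
    have hwu : w ≠ u := by rintro rfl; omega
    obtain ⟨j1, j2, a1, a2, a3, a4, s3, s4⟩ := ang_order hu hw hux huy hwx hwy hU h1 hlt
    simp only [GMet.mem_I] at j1 j2
    have h3 : u ≠ h • y := by
      rintro rfl
      have := M.symm (h • y) w
      have h5 : M.d x w + M.d w (h • y) = M.d x (h • y) := i2
      omega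
    refine ⟨h3, ?_⟩
    -- `u ∈ I(x, h y)`, and `w` separates `u` and `h y`
    have h4 : u ∈ M.I x (h • y) := by
      simp only [GMet.mem_I]
      have t1 := M.tri u w (h • y)
      have t2 := M.tri x u (h • y)
      omega
    obtain ⟨-, s5⟩ := GMet.Sep.left s2 h4 (by omega)
    have e2 : A.θ u (h • y) = A.θ u w := A.A2 u hu w _ hwu h3.symm s5
    have e3 : A.θ u y = A.θ u w := A.A2 u hu w _ hwu huy.symm s4
    unfold ang
    omega
  · intro u hu hux huy hU hlt
    have hwu : w ≠ u := by rintro rfl; omega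
    obtain ⟨j1, j2, a1, a2, a3, a4, s3, s4⟩ := ang_order hw hu hwx hwy hux huy h1 hU hlt
    simp only [GMet.mem_I] at j1 j2
    have e2 : M.d w (h • u) = M.d w u := by
      have := A.isom h w u
      rwa [hfix] at this
    have e3 : M.d (h • u) (h • y) = M.d u y := A.isom h u y
    have h3 : h • u ∈ M.I x (h • y) ∧ M.d x (h • u) = M.d x u := by
      simp only [GMet.mem_I]
      have t1 := M.tri x (h • u) (h • y)
      have t2 := M.tri x w (h • u)
      omega
    have h4 : h • u ≠ x := by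
      intro h5
      rw [h5, M.self] at h3
      have := M.eq_of x u h3.2.symm
      exact hux this.symm
    have h5 : h • u ≠ h • y := fun h => huy (MulAction.injective _ h)
    have hu' := A.C_smul h u hu
    refine ⟨h4, h5, h3.2, ?_⟩
    obtain ⟨-, s5⟩ := GMet.Sep.right s2 h3.1 (by omega)
    have h6 : w ≠ h • u := by
      intro h7
      apply hwu
      exact MulAction.injective h (hfix.trans h7)
    have e4 : A.θ (h • u) x = A.θ (h • u) w := A.A2 _ hu' w x h6 h4.symm s5.symm
    have e5 := A.θ_smul h u w y hu hwu huy.symm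
    rw [hfix] at e5
    have e6 : A.θ u x = A.θ u w := A.A2 u hu w x hwu hux.symm s3.symm
    unfold ang
    omega

/-- half of `n`, rounded down -/
def half (n : ℕ) : ℤ := ((n : ℤ) - 1) / 2

lemma two_half (A : Rot G V M n P) {w : V} (hw : w ∈ A.C) : 2 * half (n w) + 1 = (n w : ℤ) := by
  obtain ⟨t, ht⟩ := A.n_odd w hw
  have ht' : (n w : ℤ) = 2 * (t : ℤ) + 1 := by exact_mod_cast ht
  unfold half
  omega

lemma finite_large (A : Rot G V M n P) (y z : V) :
    {v | v ∈ A.C ∧ v ≠ y ∧ v ≠ z ∧ (P : ℤ) < |A.θ v z - A.θ v y|}.Finite := by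
  refine Set.Finite.of_finite_image (f := fun v => M.d y v)
    ((Set.finite_Iic (M.d y z)).subset ?_) ?_
  · rintro _ ⟨v, ⟨hv, hvy, hvz, h⟩, rfl⟩
    have h1 := (A.A1 v hv y z hvy.symm hvz.symm (by
      have := A.pf_le v hv
      have : (A.pf v : ℤ) ≤ P := by exact_mod_cast this
      omega)).1
    simp only [GMet.mem_I] at h1
    simp only [Set.mem_Iic]
    omega
  · rintro v ⟨hv, hvy, hvz, h⟩ u ⟨hu, huy, huz, h'⟩ huv
    have h1 := A.A1 v hv y z hvy.symm hvz.symm (by
      have := A.pf_le v hv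
      have : (A.pf v : ℤ) ≤ P := by exact_mod_cast this
      omega)
    have h2 := A.A1 u hu y z huy.symm huz.symm (by
      have := A.pf_le u hu
      have : (A.pf u : ℤ) ≤ P := by exact_mod_cast this
      omega)
    exact h2.2 v h1.1 huv

/-- the combinatorial rotation system of a rotation structure -/
def toSys (A : Rot G V M n P) : RotSys G V where
  C := A.C
  smul_mem := fun g v hv => A.C_smul g v hv
  c := A.θ
  a := A.ρ
  h := fun w => half (n w)
  θ := P
  θ_nonneg := by positivity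
  h_smul := fun g v hv => by rw [A.n_smul g v hv]
  a_smul := fun g v hv => A.ρ_smul g v hv
  a_fix := fun {v} hv => A.ρ_fix v hv
  c_smul := fun g v x y hv hx hy => A.θ_smul g v x y hv hx hy
  c_rot := fun {v y} hv hy => A.θ_ρ v hv y hy
  strong := by
    intro v w z hv hw hvw hzv hzw h
    have h1 := A.pf_le v hv
    have h2 : (A.pf v : ℤ) ≤ P := by exact_mod_cast h1
    have h3 := A.A1 v hv w z hvw.symm hzv (by omega)
    have := A.A2 w hw v z hvw hzw h3
    omega
  fin := fun y z => A.finite_large y z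

lemma toSys_large (A : Rot G V M n P) : A.toSys.Large := by
  intro v hv
  change 12 * (P : ℤ) + 1 ≤ half (n v)
  have h1 := A.two_half hv
  have h2 : (1000 * P : ℤ) ≤ n v := by exact_mod_cast A.n_big v hv
  have h3 : (1 : ℤ) ≤ P := by exact_mod_cast A.P_pos
  omega

lemma toSys_K (A : Rot G V M n P) : A.toSys.K = A.K := by
  unfold RotSys.K K
  apply le_antisymm
  · rw [Subgroup.closure_le]
    rintro _ ⟨v, hv, m, rfl⟩
    change A.ρ v ^ ((2 * half (n v) + 1) * m) ∈ _
    rw [A.two_half hv, zpow_mul, zpow_natCast]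
    have hmem : A.ρ v ^ n v ∈ Subgroup.closure {g | ∃ w ∈ A.C, g = A.ρ w ^ n w} :=
      Subgroup.subset_closure ⟨v, hv, rfl⟩
    exact zpow_mem hmem m
  · rw [Subgroup.closure_le]
    rintro _ ⟨v, hv, rfl⟩
    apply Subgroup.subset_closure
    refine ⟨v, hv, 1, ?_⟩
    change _ = A.ρ v ^ ((2 * half (n v) + 1) * 1)
    rw [A.two_half hv, mul_one, zpow_natCast]

/-- the complexity of a pair of points -/
noncomputable def Φ (A : Rot G V M n P) (x y : V) : ℕ := (A.toSys.cx x y).toNat

/-- `Φ` is invariant -/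
theorem Φ_smul (A : Rot G V M n P) (g : G) (x y : V) : A.Φ (g • x) (g • y) = A.Φ x y := by
  unfold Φ; rw [RotSys.cx_smul]

theorem Φ_symm (A : Rot G V M n P) (x y : V) : A.Φ x y = A.Φ y x := by
  unfold Φ; rw [RotSys.cx_symm]

theorem Φ_self (A : Rot G V M n P) (x : V) : A.Φ x x = 0 := by
  unfold Φ; rw [RotSys.cx_self]; rfl

/-- (A.3) a reducing rotation decreases the complexity. -/
theorem Φ_red {x y w : V} {h : G} (hw : w ∈ A.C) (hwx : w ≠ x) (hwy : w ≠ y) (hh : h ∈ A.H w)
    (h1 : (n w : ℤ) < 2 * |A.ang w x y|) (h2 : 2 * |A.ang w x (h • y)| < n w) :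
    A.Φ x (h • y) < A.Φ x y := by
  have e := A.two_half hw
  obtain ⟨j, hj⟩ := mem_H.1 hh
  have h3 : A.toSys.Red x y (h • y) := by
    refine ⟨w, hw, hwx, hwy, ?_, ?_, j, ?_⟩
    · change half (n w) < |A.ang w x y|; omega
    · change |A.ang w x (h • y)| ≤ half (n w); omega
    · change _ = A.ρ w ^ ((2 * half (n w) + 1) * j) • y
      rw [e, hj]
  have h4 := RotSys.red_lt A.toSys_large h3
  have h5 := A.toSys.cx_nonneg x (h • y)
  unfold Φ
  omega

end Rot

end Pool.Agent.Helper85.Burn
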